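import Pool.Agent.LibArithPoly.Config

open Matrix
open scoped ComplexConjugate

namespace ArithPoly

variable {V F D : Type} [Fintype V] [Fintype F] [Fintype D]

namespace T2

theorem zc_apply (d : ℕ) (a : ℤ√(-(d : ℤ))) :
    zsqrtToComplex d a = (a.re : ℂ) + (a.im : ℂ) * ((Real.sqrt d : ℂ) * Complex.I) := rfl

theorem zc_re (d : ℕ) (a : ℤ√(-(d : ℤ))) : (zsqrtToComplex d a).re = a.re := by
  rw [zc_apply]; simp

theorem zc_im (d : ℕ) (a : ℤ√(-(d : ℤ))) : (zsqrtToComplex d a).im = a.im * Real.sqrt d := by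
  rw [zc_apply]; simp

theorem zc_star (d : ℕ) (a : ℤ√(-(d : ℤ))) :
    zsqrtToComplex d (star a) = conj (zsqrtToComplex d a) := by
  apply Complex.ext
  · rw [Complex.conj_re, zc_re, zc_re]; simp
  · rw [Complex.conj_im, zc_im, zc_im]; simp

/-- The coordinates `(a, c, x, y)` of a Hermitian matrix. -/
noncomputable def kap0 (d : ℕ) (hd : 0 < d) : Mink ≃ₗ[ℝ] (Fin 4 → ℝ) where
  toFun x := ![x.2 + x.1 2, x.2 - x.1 2, x.1 0, x.1 1 / Real.sqrt d]
  invFun z := (!₂[z 2, z 3 * Real.sqrt d, (z 0 - z 1) / 2], (z 0 + z 1) / 2)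
  map_add' x y := by
    ext i
    fin_cases i <;> simp <;> ring
  map_smul' c x := by
    ext i
    fin_cases i <;> simp <;> ring
  left_inv x := by
    have hs : Real.sqrt d ≠ 0 := by positivity
    refine Prod.ext ?_ ?_
    · ext i
      fin_cases i
      · simp
      · simp [hs]
      · simp
    · simp
  right_inv z := by
    have hs : Real.sqrt d ≠ 0 := by positivity
    ext i
    fin_cases i
    · simp; ring
    · simp; ring
    · simp
    · simp [hs]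

theorem kap0_apply (d : ℕ) (hd : 0 < d) (x : Mink) :
    kap0 d hd x = ![x.2 + x.1 2, x.2 - x.1 2, x.1 0, x.1 1 / Real.sqrt d] := rfl

theorem kap0_symm_apply (d : ℕ) (hd : 0 < d) (z : Fin 4 → ℝ) :
    (kap0 d hd).symm z = (!₂[z 2, z 3 * Real.sqrt d, (z 0 - z 1) / 2], (z 0 + z 1) / 2) := rfl

theorem kap0_lor (d : ℕ) (hd : 0 < d) (x y : Mink) :
    lor x y = gd d (kap0 d hd x) (kap0 d hd y) := by
  have hs : Real.sqrt d ≠ 0 := by positivity
  have h2 : Real.sqrt d * Real.sqrt d = d := Real.mul_self_sqrt (Nat.cast_nonneg d)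
  have hd0 : (d : ℝ) ≠ 0 := by positivity
  have h3 : (d : ℝ) * (x.1 1 / Real.sqrt d * (y.1 1 / Real.sqrt d)) = x.1 1 * y.1 1 := by
    rw [div_mul_div_comm, h2]; field_simp
  simp only [gd, kap0_apply, lor]
  simp only [Matrix.cons_val]
  rw [h3, PiLp.inner_apply, Fin.sum_univ_three]
  simp
  ring

/-- the Hermitian matrix over `ℤ[√-d]` of an integer vector -/
def hmat (d : ℕ) (z : Fin 4 → ℤ) : Matrix (Fin 2) (Fin 2) (ℤ√(-(d : ℤ))) :=
  !![⟨z 0, 0⟩, ⟨z 2, z 3⟩; ⟨z 2, -z 3⟩, ⟨z 1, 0⟩]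

theorem herm_kap0_symm (d : ℕ) (hd : 0 < d) (z : Fin 4 → ℤ) :
    herm ((kap0 d hd).symm (toR z)) = (hmat d z).map (zsqrtToComplex d) := by
  ext i j
  fin_cases i <;> fin_cases j
  · simp [herm, hmat, kap0_symm_apply, toR, zc_apply]; ring
  · simp [herm, hmat, kap0_symm_apply, toR, zc_apply]; ring
  · simp [herm, hmat, kap0_symm_apply, toR, zc_apply]; ring
  · simp [herm, hmat, kap0_symm_apply, toR, zc_apply]; ring

theorem toC_conjTranspose (d : ℕ) (M : SpecialLinearGroup (Fin 2) (ℤ√(-(d : ℤ)))) :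
    (toC d M)ᴴ = ((M : Matrix (Fin 2) (Fin 2) (ℤ√(-(d : ℤ))))ᴴ).map (zsqrtToComplex d) := by
  ext i j
  simp only [toC, conjTranspose_apply, map_apply]
  rw [zc_star]
  rfl

theorem psl_int (d : ℕ) (hd : 0 < d) (g : Mink ≃ₗ[ℝ] Mink) (hg : g ∈ PSL2Z d)
    (z : Fin 4 → ℤ) : ∃ w : Fin 4 → ℤ, kap0 d hd (g ((kap0 d hd).symm (toR z))) = toR w := by
  obtain ⟨M, hM⟩ := hg
  set x := (kap0 d hd).symm (toR z) with hx
  have h1 := hM x
  rw [hx, herm_kap0_symm, ← hx, toC_conjTranspose, toC] at h1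
  rw [← Matrix.map_mul, ← Matrix.map_mul] at h1
  set N := (M : Matrix (Fin 2) (Fin 2) (ℤ√(-(d : ℤ)))) * hmat d z *
    (M : Matrix (Fin 2) (Fin 2) (ℤ√(-(d : ℤ))))ᴴ with hN
  have hs : Real.sqrt d ≠ 0 := by positivity
  have h00 := congrArg Complex.re (congrFun (congrFun h1 0) 0)
  have h11 := congrArg Complex.re (congrFun (congrFun h1 1) 1)
  have h01 := congrArg Complex.re (congrFun (congrFun h1 0) 1)
  have h01' := congrArg Complex.im (congrFun (congrFun h1 0) 1)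
  rw [map_apply, zc_re] at h00 h11 h01
  rw [map_apply, zc_im] at h01'
  simp [herm] at h00 h11 h01 h01'
  refine ⟨![(N 0 0).re, (N 1 1).re, (N 0 1).re, (N 0 1).im], ?_⟩
  rw [kap0_apply]
  ext i
  fin_cases i
  · simpa [toR] using h00
  · simpa [toR] using h11
  · simpa [toR] using h01
  · show (g x).1 1 / Real.sqrt d = _
    rw [h01']
    simp [toR, hs]

end T2

open T2 in
theorem lattice_of_commensurable (P : MidscribedPolyhedron V F D) (d : ℕ) (hd : 0 < d)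
    (h : CommensurableWith P d) :
    ∃ κ : Mink ≃ₗ[ℝ] (Fin 4 → ℝ), (∀ x y, lor x y = gd d (κ x) (κ y)) ∧
      ∀ g ∈ reflectionGroup P, ∃ n : ℕ, 0 < n ∧ ∀ z : Fin 4 → ℤ, ∃ w : Fin 4 → ℤ,
        κ ((g ^ n) (κ.symm (toR z))) = toR w := by
  obtain ⟨T, hT, hc1, hc2⟩ := h
  refine ⟨T.trans (kap0 d hd), fun x y => ?_, fun g hg => ?_⟩
  · rw [← hT x y, kap0_lor d hd]; rfl
  · have hg' : MulAut.conj T g ∈ (reflectionGroup P).map (MulAut.conj T).toMonoidHom :=
      ⟨g, hg, rfl⟩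
    obtain ⟨n, hn, _, hgn⟩ := Subgroup.exists_pow_mem_of_relIndex_ne_zero hc2 hg'
    refine ⟨n, hn, fun z => ?_⟩
    rw [← map_pow] at hgn
    obtain ⟨w, hw⟩ := psl_int d hd _ hgn.1 z
    refine ⟨w, ?_⟩
    rw [← hw]
    rfl

end ArithPoly
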