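import Pool.Agent.LibArithPoly.Basic

open Matrix

namespace ArithPoly

section unip

variable {W : Type} [AddCommGroup W] [Module ℝ W] (B : LinearMap.BilinForm ℝ W)

theorem unip_prod (hs : ∀ x y, B x y = B y x) {a a' N : W} (haa : B a a = 1)
    (ha' : B a' a' = 1) (hN : a + a' = N) (hNN : B N N = 0) : B a a' = -1 := by
  subst hN
  simp only [map_add, LinearMap.add_apply] at hNN
  rw [hs a' a] at hNN
  linarith

theorem unip_single (hs : ∀ x y, B x y = B y x) {a a' N : W} (haa : B a a = 1)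
    (ha' : B a' a' = 1) (hN : a + a' = N) (hNN : B N N = 0) (y : W) :
    (rfl' B a ∘ₗ rfl' B a') y = y + (2 : ℝ) • (B a y • N - B N y • a) - (2 * B N y) • N := by
  have h1 := unip_prod B hs haa ha' hN hNN
  have hN' : a' = N - a := by rw [← hN]; abel
  have h2 : B a' y = B N y - B a y := by rw [hN', map_sub, LinearMap.sub_apply]
  rw [LinearMap.comp_apply, rfl'_apply, rfl'_apply]
  simp only [map_sub, map_smul, smul_eq_mul, h1, h2]
  rw [hN']
  module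

theorem unip_pow (hs : ∀ x y, B x y = B y x) {a a' N : W} (haa : B a a = 1)
    (ha' : B a' a' = 1) (hN : a + a' = N) (hNN : B N N = 0) (n : ℕ) (z : W) :
    ((rfl' B a ∘ₗ rfl' B a') ^ n) z =
      z + (2 * n : ℝ) • (B a z • N - B N z • a) - (2 * n ^ 2 * B N z) • N := by
  have h1 := unip_prod B hs haa ha' hN hNN
  have hNa : B N a = 0 := by
    rw [← hN, map_add, LinearMap.add_apply, hs a' a, haa, h1]; norm_num
  have haN : B a N = 0 := by rw [hs, hNa]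
  induction n with
  | zero => simp
  | succ n ih =>
    rw [pow_succ', Module.End.mul_apply, ih, unip_single B hs haa ha' hN hNN]
    simp only [map_add, map_sub, map_smul, smul_eq_mul, hNN, hNa, haN, haa]
    push_cast
    module

end unip

/-- vectors in `μ ℚ⁴` -/
def QV (μ : ℝ) (x : Fin 4 → ℝ) : Prop := ∃ X : Fin 4 → ℚ, ∀ i, x i = μ * (X i : ℝ)

/-- the form over `ℚ` -/
def gq (d : ℕ) (x y : Fin 4 → ℚ) : ℚ :=
  x 2 * y 2 + d * (x 3 * y 3) - (x 0 * y 1 + x 1 * y 0) / 2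

theorem gd_QV {d : ℕ} {μ ν : ℝ} {x y : Fin 4 → ℝ} {X Y : Fin 4 → ℚ}
    (hx : ∀ i, x i = μ * (X i : ℝ)) (hy : ∀ i, y i = ν * (Y i : ℝ)) :
    gd d x y = μ * ν * (gq d X Y : ℝ) := by
  simp only [gd, gq, hx, hy]
  push_cast
  ring

theorem gd_comm (d : ℕ) (x y : Fin 4 → ℝ) : gd d x y = gd d y x := by
  simp only [gd]; ring

theorem gdB_comm (d : ℕ) (x y : Fin 4 → ℝ) : gdB d x y = gdB d y x := gd_comm d x y


theorem QV.add {μ : ℝ} {x y : Fin 4 → ℝ} (hx : QV μ x) (hy : QV μ y) : QV μ (x + y) := by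
  obtain ⟨X, hX⟩ := hx
  obtain ⟨Y, hY⟩ := hy
  exact ⟨fun i => X i + Y i, fun i => by rw [Pi.add_apply, hX, hY]; push_cast; ring⟩

theorem QV.ratSmul {μ : ℝ} {x : Fin 4 → ℝ} (hx : QV μ x) (q : ℚ) : QV μ ((q : ℝ) • x) := by
  obtain ⟨X, hX⟩ := hx
  exact ⟨fun i => q * X i, fun i => by rw [Pi.smul_apply, hX, smul_eq_mul]; push_cast; ring⟩

theorem QV.sub {μ : ℝ} {x y : Fin 4 → ℝ} (hx : QV μ x) (hy : QV μ y) : QV μ (x - y) := by
  have := hx.add (hy.ratSmul (-1))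
  convert this using 1
  push_cast
  module

theorem QV.toR (z : Fin 4 → ℤ) : QV 1 (toR z) :=
  ⟨fun i => (z i : ℚ), fun i => by simp [ArithPoly.toR]⟩

theorem key1 {d : ℕ} {a a' N : Fin 4 → ℝ} (haa : gdB d a a = 1)
    (ha' : gdB d a' a' = 1) (hN : a + a' = N) (hNN : gdB d N N = 0) {n : ℕ} (hn : 0 < n)
    (hlat : ∀ z : Fin 4 → ℤ, ∃ w : Fin 4 → ℤ,
      ((rfl' (gdB d) a ∘ₗ rfl' (gdB d) a') ^ n) (toR z) = toR w) (z : Fin 4 → ℤ) :
    QV 1 (gdB d N (toR z) • N) ∧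
      QV 1 (gdB d a (toR z) • N - gdB d N (toR z) • a) := by
  have hs := gdB_comm d
  have h1 := unip_prod (gdB d) hs haa ha' hN hNN
  have hNa : gdB d N a = 0 := by
    rw [← hN, map_add, LinearMap.add_apply, hs a' a, haa, h1]; norm_num
  have haN : gdB d a N = 0 := by rw [hs, hNa]
  obtain ⟨w, hw⟩ := hlat z
  obtain ⟨w', hw'⟩ := hlat w
  have e1 := unip_pow (gdB d) hs haa ha' hN hNN n (toR z)
  have e2 := unip_pow (gdB d) hs haa ha' hN hNN n (toR w)
  rw [hw] at e1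
  rw [hw'] at e2
  set α := gdB d a (toR z) with hα
  set ν := gdB d N (toR z) with hν
  have hNw : gdB d N (toR w) = ν := by
    rw [e1]
    simp only [map_add, map_sub, map_smul, smul_eq_mul, hNN, hNa]
    rw [← hν]; ring
  have haw : gdB d a (toR w) = α - 2 * n * ν := by
    rw [e1]
    simp only [map_add, map_sub, map_smul, smul_eq_mul, haN, haa]
    rw [← hα]; ring
  rw [hNw, haw] at e2
  have hn0 : (n : ℝ) ≠ 0 := by positivity
  have r1 : ν • N = ((-(1 / (4 * (n : ℚ) ^ 2)) : ℚ) : ℝ) • (toR w' - toR w - (toR w - toR z)) := by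
    have : toR w' - toR w - (toR w - toR z) = (-(4 * (n : ℝ) ^ 2)) • (ν • N) := by
      have e3 : toR w' - toR w = (2 * n : ℝ) • ((α - 2 * n * ν) • N - ν • a) -
          (2 * n ^ 2 * ν) • N := by
        rw [e2]; abel
      have e4 : toR w - toR z = (2 * n : ℝ) • (α • N - ν • a) - (2 * n ^ 2 * ν) • N := by
        rw [e1]; abel
      rw [e3, e4]
      module
    rw [this, smul_smul]
    push_cast
    rw [show (-(1 / (4 * (n : ℝ) ^ 2)) * -(4 * (n : ℝ) ^ 2)) = 1 by field_simp, one_smul]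
  have q1 : QV 1 (ν • N) := by
    rw [r1]
    exact (((QV.toR w').sub (QV.toR w)).sub ((QV.toR w).sub (QV.toR z))).ratSmul _
  refine ⟨q1, ?_⟩
  have r2 : α • N - ν • a = ((1 / (2 * (n : ℚ)) : ℚ) : ℝ) •
      ((toR w - toR z) + ((2 * (n : ℚ) ^ 2 : ℚ) : ℝ) • (ν • N)) := by
    have : (toR w - toR z) + ((2 * (n : ℚ) ^ 2 : ℚ) : ℝ) • (ν • N) =
        (2 * n : ℝ) • (α • N - ν • a) := by
      rw [e1]
      push_cast
      module
    rw [this, smul_smul]
    push_cast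
    rw [show (1 / (2 * (n : ℝ)) * (2 * (n : ℝ))) = 1 by field_simp, one_smul]
  rw [r2]
  exact (((QV.toR w).sub (QV.toR z)).add (q1.ratSmul _)).ratSmul _


/-- square is rational and nonzero -/
def GoodMu (μ : ℝ) : Prop := μ ≠ 0 ∧ ∃ q : ℚ, μ ^ 2 = q

theorem exists_basis_ne {d : ℕ} (hd : d ≠ 0) {N : Fin 4 → ℝ} (hN : N ≠ 0) :
    ∃ z : Fin 4 → ℤ, gdB d N (toR z) ≠ 0 := by
  by_contra hcon
  push Not at hcon
  apply hN
  have h0 := hcon (Pi.single 0 1)
  have h1 := hcon (Pi.single 1 1)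
  have h2 := hcon (Pi.single 2 1)
  have h3 := hcon (Pi.single 3 1)
  simp [gdB_apply, gd, toR] at h0 h1 h2 h3
  have hd' : (d : ℝ) ≠ 0 := by exact_mod_cast hd
  funext i
  fin_cases i
  · simpa using h1
  · simpa using h0
  · simpa using h2
  · have := h3.resolve_left hd
    simpa using this

theorem QV.inv {μ : ℝ} {x : Fin 4 → ℝ} (hμ : GoodMu μ) (h : QV 1 (μ • x)) : QV μ x := by
  obtain ⟨h0, q, hq⟩ := hμ
  obtain ⟨X, hX⟩ := h
  refine ⟨fun i => X i / q, fun i => ?_⟩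
  have := hX i
  rw [Pi.smul_apply, smul_eq_mul, one_mul] at this
  push_cast
  rw [← hq, ← this]
  field_simp

theorem key2 {d : ℕ} (hd : d ≠ 0) {N : Fin 4 → ℝ} (hN0 : N ≠ 0)
    (h : ∀ z : Fin 4 → ℤ, QV 1 (gdB d N (toR z) • N)) : ∃ μ, GoodMu μ ∧ QV μ N := by
  obtain ⟨z, hz⟩ := exists_basis_ne hd hN0
  refine ⟨gdB d N (toR z), ⟨hz, ?_⟩, ?_⟩
  · obtain ⟨X, hX⟩ := h z
    refine ⟨gq d X (fun i => z i), ?_⟩
    have h1 : gdB d (gdB d N (toR z) • N) (toR z) = 1 * 1 * (gq d X (fun i => z i) : ℝ) := by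
      rw [gdB_apply]
      exact gd_QV hX (fun i => by simp [toR])
    rw [map_smul, LinearMap.smul_apply, smul_eq_mul] at h1
    rw [pow_two, h1]; ring
  · apply QV.inv
    · refine ⟨hz, ?_⟩
      obtain ⟨X, hX⟩ := h z
      refine ⟨gq d X (fun i => z i), ?_⟩
      have h1 : gdB d (gdB d N (toR z) • N) (toR z) = 1 * 1 * (gq d X (fun i => z i) : ℝ) := by
        rw [gdB_apply]
        exact gd_QV hX (fun i => by simp [toR])
      rw [map_smul, LinearMap.smul_apply, smul_eq_mul] at h1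
      rw [pow_two, h1]; ring
    · exact h z

theorem QV.sum {μ : ℝ} {ι : Type} (s : Finset ι) (f : ι → Fin 4 → ℝ) (h : ∀ i ∈ s, QV μ (f i)) :
    QV μ (∑ i ∈ s, f i) := by
  classical
  induction s using Finset.induction_on with
  | empty => exact ⟨fun _ => 0, fun i => by simp⟩
  | insert a s ha ih =>
    rw [Finset.sum_insert ha]
    exact (h a (Finset.mem_insert_self _ _)).add (ih (fun i hi => h i (Finset.mem_insert_of_mem hi)))

theorem key3 {d : ℕ} {a N : Fin 4 → ℝ}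
    (h : ∀ z : Fin 4 → ℤ, QV 1 (gdB d a (toR z) • N - gdB d N (toR z) • a))
    {y : Fin 4 → ℝ} (hy : QV 1 y) (hay : gdB d a y = 0) : QV 1 (gdB d N y • a) := by
  obtain ⟨Y, hY⟩ := hy
  have hy' : y = ∑ i, ((Y i : ℚ) : ℝ) • toR (Pi.single i 1) := by
    funext j
    rw [Finset.sum_apply, hY j]
    simp [toR, Pi.single_apply]
  have hsum : gdB d a y • N - gdB d N y • a =
      ∑ i, ((Y i : ℚ) : ℝ) • (gdB d a (toR (Pi.single i 1)) • N -
        gdB d N (toR (Pi.single i 1)) • a) := by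
    have e1 : gdB d a y = ∑ i, ((Y i : ℚ) : ℝ) * gdB d a (toR (Pi.single i 1)) := by
      conv_lhs => rw [hy']
      rw [map_sum]
      apply Finset.sum_congr rfl
      intro i _
      rw [map_smul, smul_eq_mul]
    have e2 : gdB d N y = ∑ i, ((Y i : ℚ) : ℝ) * gdB d N (toR (Pi.single i 1)) := by
      conv_lhs => rw [hy']
      rw [map_sum]
      apply Finset.sum_congr rfl
      intro i _
      rw [map_smul, smul_eq_mul]
    rw [e1, e2, Finset.sum_smul, Finset.sum_smul, ← Finset.sum_sub_distrib]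
    apply Finset.sum_congr rfl
    intro i _
    module
  have h1 : QV 1 (gdB d a y • N - gdB d N y • a) := by
    rw [hsum]
    apply QV.sum
    intro i _
    exact (h _).ratSmul _
  rw [hay, zero_smul, zero_sub] at h1
  have h2 := h1.ratSmul (-1)
  convert h2 using 1
  push_cast
  module

theorem edge_QV {d : ℕ} (hd : d ≠ 0) {a a' N : Fin 4 → ℝ} (haa : gdB d a a = 1)
    (ha' : gdB d a' a' = 1) (hN : a + a' = N) (hNN : gdB d N N = 0) (hN0 : N ≠ 0)
    {n : ℕ} (hn : 0 < n)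
    (hlat : ∀ z : Fin 4 → ℤ, ∃ w : Fin 4 → ℤ,
      ((rfl' (gdB d) a ∘ₗ rfl' (gdB d) a') ^ n) (toR z) = toR w)
    {N' : Fin 4 → ℝ} (hN'a : gdB d a N' = 0) (hNN' : gdB d N N' ≠ 0)
    (hN'Q : ∃ μ', GoodMu μ' ∧ QV μ' N') :
    ∃ μ, GoodMu μ ∧ QV μ a ∧ QV μ a' := by
  have k1 := key1 haa ha' hN hNN hn hlat
  obtain ⟨μ, hμ, hQN⟩ := key2 hd hN0 (fun z => (k1 z).1)
  obtain ⟨μ', hμ', Y, hY⟩ := hN'Q
  refine ⟨μ, hμ, ?_⟩
  -- the rational vector
  set y : Fin 4 → ℝ := fun i => (Y i : ℝ) with hy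
  have hyN' : N' = μ' • y := by
    funext i
    rw [hY i]; simp [hy]
  have hyQ : QV 1 y := ⟨Y, fun i => by simp [hy]⟩
  have hay : gdB d a y = 0 := by
    rw [hyN', map_smul, smul_eq_mul] at hN'a
    exact (mul_eq_zero.1 hN'a).resolve_left hμ'.1
  have hNy : gdB d N y ≠ 0 := by
    intro h0
    apply hNN'
    rw [hyN', map_smul, h0, smul_zero]
  have k3 := key3 (fun z => (k1 z).2) hyQ hay
  obtain ⟨X, hX⟩ := hQN
  have hNy2 : gdB d N y = μ * (gq d X Y : ℝ) := by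
    rw [gdB_apply, gd_QV (ν := 1) (Y := Y) hX (fun i => by simp [hy])]; ring
  have hq0 : (gq d X Y) ≠ 0 := by
    intro h0
    apply hNy
    rw [hNy2, h0]; simp
  have hQa : QV μ a := by
    apply QV.inv hμ
    have h4 := k3.ratSmul (gq d X Y)⁻¹
    rw [hNy2, smul_smul] at h4
    convert h4 using 2
    push_cast
    have : (gq d X Y : ℝ) ≠ 0 := by exact_mod_cast hq0
    field_simp
  refine ⟨hQa, ?_⟩
  have : a' = N - a := by rw [← hN]; abel
  rw [this]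
  exact QV.sub ⟨X, hX⟩ hQa

theorem QV.transfer {μ ν : ℝ} {x : Fin 4 → ℝ} (hx : x ≠ 0) (h1 : QV μ x) (h2 : QV ν x)
    {y : Fin 4 → ℝ} (hy : QV μ y) : QV ν y := by
  obtain ⟨X, hX⟩ := h1
  obtain ⟨Z, hZ⟩ := h2
  obtain ⟨Y, hY⟩ := hy
  obtain ⟨i, hi⟩ : ∃ i, x i ≠ 0 := by
    by_contra hcon
    push Not at hcon
    exact hx (funext hcon)
  have hXi : (X i : ℝ) ≠ 0 := by
    intro h0
    apply hi
    rw [hX i, h0, mul_zero]
  have hμ : μ = ν * ((Z i / X i : ℚ) : ℝ) := by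
    push_cast
    field_simp
    rw [← hX i, hZ i]
  refine ⟨fun j => (Z i / X i) * Y j, fun j => ?_⟩
  rw [hY j, hμ]
  push_cast
  ring

theorem global_QV {D : Type} {rot rev : Equiv.Perm D}
    (conn : ∀ d e, ∃ g ∈ Subgroup.closure ({rot, rev} : Set (Equiv.Perm D)), g d = e)
    (A : D → Fin 4 → ℝ) (hA : ∀ d, A d ≠ 0)
    (h : ∀ σ ∈ ({rot, rev} : Set (Equiv.Perm D)), ∀ d, ∃ μ, GoodMu μ ∧ QV μ (A d) ∧ QV μ (A (σ d)))
    (d0 : D) : ∃ μ, GoodMu μ ∧ ∀ d, QV μ (A d) := by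
  obtain ⟨μ, hμ, hμ0, -⟩ := h rot (by simp) d0
  refine ⟨μ, hμ, ?_⟩
  have key : ∀ g ∈ Subgroup.closure ({rot, rev} : Set (Equiv.Perm D)), ∀ d,
      (QV μ (A d) ↔ QV μ (A (g d))) := by
    intro g hg
    induction hg using Subgroup.closure_induction with
    | mem σ hσ =>
      intro d
      obtain ⟨ν, hν, h1, h2⟩ := h σ hσ d
      constructor
      · intro h3
        exact QV.transfer (hA d) h1 h3 h2
      · intro h3
        exact QV.transfer (hA (σ d)) h2 h3 h1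
    | one => intro d; simp
    | mul x y _ _ hx hy =>
      intro d
      rw [Equiv.Perm.mul_apply]
      exact (hy d).trans (hx (y d))
    | inv x _ hx =>
      intro d
      have := hx (x⁻¹ d)
      have e : x (x⁻¹ d) = d := by simp
      rw [e] at this
      exact this.symm
  intro d
  obtain ⟨g, hg, hgd⟩ := conn d0 d
  rw [← hgd]
  exact (key g hg d0).1 hμ0


/-! ### The combinatorial part -/

variable {V F D : Type} [Fintype V] [Fintype F] [Fintype D]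

/-! ### Rationality -/

section rat

variable {d : ℕ} (C : Config (gdB d) V F D)

theorem Config.p_ne (e : D) : C.p e ≠ 0 := by
  intro h
  have := C.p_neg e (C.phi e) (C.phi_ne e) (C.phi_ne_rev e)
  rw [h] at this
  simp at this

theorem null_QV (hd : d ≠ 0) (h : LatticeProp C) {a a' : Fin 4 → ℝ}
    (ha : a ∈ Set.range C.a ∪ Set.range C.b) (ha' : a' ∈ Set.range C.a ∪ Set.range C.b)
    (haa : gdB d a a = 1) (haa' : gdB d a' a' = 1) {N : Fin 4 → ℝ} (hN : a + a' = N)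
    (hNN : gdB d N N = 0) (hN0 : N ≠ 0) : ∃ μ, GoodMu μ ∧ QV μ N := by
  obtain ⟨n, hn, hlat⟩ := h a ha a' ha'
  exact key2 hd hN0 (fun z => (key1 haa haa' hN hNN hn hlat z).1)

theorem null_smul (c : ℝ) (e : D) : gdB d (c • C.p e) (c • C.p e) = 0 := by
  rw [map_smul, map_smul, LinearMap.smul_apply, C.p_null]; simp

theorem face_edge (hd : d ≠ 0) (h : LatticeProp C) (e : D) :
    ∃ μ, GoodMu μ ∧ QV μ (C.a (C.face e)) ∧ QV μ (C.a (C.face (C.rev e))) := by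
  obtain ⟨n, hn, hlat⟩ := h (C.a (C.face e)) (Or.inl ⟨_, rfl⟩) (C.a (C.face (C.rev e)))
    (Or.inl ⟨_, rfl⟩)
  have hs' := C.sum_a (C.phi e)
  have hne : C.ca e • C.p e ≠ 0 := smul_ne_zero (C.ca_pos e).ne' (Config.p_ne C e)
  have hne' : C.ca (C.phi e) • C.p (C.phi e) ≠ 0 :=
    smul_ne_zero (C.ca_pos _).ne' (Config.p_ne C _)
  refine edge_QV hd (C.a_unit _) (C.a_unit _) (C.sum_a e) (null_smul C _ _) hne hn hlat
    (N' := C.ca (C.phi e) • C.p (C.phi e)) ?_ ?_ ?_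
  · have h1 := unip_prod (gdB d) (gdB_comm d) (C.a_unit _) (C.a_unit _) hs' (null_smul C _ _)
    rw [← hs', C.face_phi, map_add, C.a_unit]
    rw [C.face_phi] at h1
    rw [h1]; norm_num
  · rw [map_smul, map_smul, LinearMap.smul_apply, smul_eq_mul, smul_eq_mul]
    have h2 := C.p_neg e (C.phi e) (C.phi_ne e) (C.phi_ne_rev e)
    exact mul_ne_zero (C.ca_pos _).ne' (mul_ne_zero (C.ca_pos _).ne' h2.ne)
  · exact null_QV C hd h (Or.inl ⟨_, rfl⟩) (Or.inl ⟨_, rfl⟩) (C.a_unit _) (C.a_unit _) hs'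
      (null_smul C _ _) hne'

theorem vert_edge (hd : d ≠ 0) (h : LatticeProp C) (e : D) :
    ∃ μ, GoodMu μ ∧ QV μ (C.b (C.vert e)) ∧ QV μ (C.b (C.vert (C.rev e))) := by
  obtain ⟨n, hn, hlat⟩ := h (C.b (C.vert e)) (Or.inr ⟨_, rfl⟩) (C.b (C.vert (C.rev e)))
    (Or.inr ⟨_, rfl⟩)
  have hs' := C.sum_b (C.rot e)
  have hne : C.cb e • C.p e ≠ 0 := smul_ne_zero (C.cb_pos e).ne' (Config.p_ne C e)
  have hne' : C.cb (C.rot e) • C.p (C.rot e) ≠ 0 :=
    smul_ne_zero (C.cb_pos _).ne' (Config.p_ne C _)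
  refine edge_QV hd (C.b_unit _) (C.b_unit _) (C.sum_b e) (null_smul C _ _) hne hn hlat
    (N' := C.cb (C.rot e) • C.p (C.rot e)) ?_ ?_ ?_
  · have h1 := unip_prod (gdB d) (gdB_comm d) (C.b_unit _) (C.b_unit _) hs' (null_smul C _ _)
    rw [← hs', C.vert_rot, map_add, C.b_unit]
    rw [C.vert_rot] at h1
    rw [h1]; norm_num
  · rw [map_smul, map_smul, LinearMap.smul_apply, smul_eq_mul, smul_eq_mul]
    have h2 := C.p_neg e (C.rot e) (C.rot_ne e) (C.rot_ne_rev e)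
    exact mul_ne_zero (C.cb_pos _).ne' (mul_ne_zero (C.cb_pos _).ne' h2.ne)
  · exact null_QV C hd h (Or.inr ⟨_, rfl⟩) (Or.inr ⟨_, rfl⟩) (C.b_unit _) (C.b_unit _) hs'
      (null_smul C _ _) hne'

theorem a_ne (f : F) : C.a f ≠ 0 := by
  intro h
  have := C.a_unit f
  rw [h] at this
  simp at this

theorem b_ne (v : V) : C.b v ≠ 0 := by
  intro h
  have := C.b_unit v
  rw [h] at this
  simp at this

theorem exists_muF (hd : d ≠ 0) (h : LatticeProp C) (e0 : D) :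
    ∃ μ, GoodMu μ ∧ ∀ f, QV μ (C.a f) := by
  obtain ⟨μ, hμ, hall⟩ := global_QV C.conn (fun e => C.a (C.face e)) (fun e => a_ne C _) (by
    intro σ hσ e
    rcases hσ with rfl | hσ
    · obtain ⟨μ, h1, h2, h3⟩ := face_edge C hd h (C.rot e)
      rw [C.face_rev_rot] at h3
      exact ⟨μ, h1, h3, h2⟩
    · rw [Set.mem_singleton_iff] at hσ
      subst hσ
      exact face_edge C hd h e) e0
  refine ⟨μ, hμ, fun f => ?_⟩
  obtain ⟨e, rfl⟩ := C.face_surj f
  exact hall e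

theorem exists_muV (hd : d ≠ 0) (h : LatticeProp C) (e0 : D) :
    ∃ μ, GoodMu μ ∧ ∀ v, QV μ (C.b v) := by
  obtain ⟨μ, hμ, hall⟩ := global_QV C.conn (fun e => C.b (C.vert e)) (fun e => b_ne C _) (by
    intro σ hσ e
    rcases hσ with rfl | hσ
    · obtain ⟨μ, h1, h2, h3⟩ := vert_edge C hd h e
      refine ⟨μ, h1, h2, ?_⟩
      rw [C.vert_rot]
      exact h2
    · rw [Set.mem_singleton_iff] at hσ
      subst hσ
      exact vert_edge C hd h e) e0
  refine ⟨μ, hμ, fun v => ?_⟩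
  obtain ⟨e, rfl⟩ := C.vert_surj v
  exact hall e

end rat


/-! ### Determinants -/

/-- Gram matrix of `2 g` in the standard basis -/
noncomputable def G0 (d : ℕ) : Matrix (Fin 4) (Fin 4) ℝ :=
  !![0, -1, 0, 0; -1, 0, 0, 0; 0, 0, 2, 0; 0, 0, 0, 2 * d]

theorem G0_det (d : ℕ) : (G0 d).det = -4 * d := by
  simp [G0, Matrix.det_succ_row_zero, Fin.sum_univ_succ, Fin.succAbove]
  ring

theorem gram4_eq (d : ℕ) (x : Fin 4 → Fin 4 → ℝ) :
    gram4 (gdB d) x = Matrix.of x * G0 d * (Matrix.of x)ᵀ := by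
  ext i j
  simp only [gram4, Matrix.of_apply, gdB_apply, gd, Matrix.mul_apply, Matrix.transpose_apply,
    Fin.sum_univ_four, G0]
  simp
  ring

theorem gram4_det (d : ℕ) (x : Fin 4 → Fin 4 → ℝ) :
    (gram4 (gdB d) x).det = -4 * d * (Matrix.of x).det ^ 2 := by
  rw [gram4_eq, Matrix.det_mul, Matrix.det_mul, Matrix.det_transpose, G0_det]
  ring

theorem det_QV (c : Fin 4 → ℝ) (x : Fin 4 → Fin 4 → ℝ) (h : ∀ i, QV (c i) (x i)) :
    ∃ q : ℚ, (Matrix.of x).det = (∏ i, c i) * q := by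
  choose X hX using h
  refine ⟨(Matrix.of X).det, ?_⟩
  have h1 : (Matrix.of x) = Matrix.of (fun i j => c i * ((Matrix.of X).map (Rat.castHom ℝ)) i j) := by
    ext i j
    simp [hX]
  rw [h1, Matrix.det_mul_column]
  congr 1
  rw [← RingHom.mapMatrix_apply, ← RingHom.map_det]
  simp

theorem gram_special (γ : ℝ) :
    (!![2, -2, 2 * γ, 0; -2, 2, -2, 0; 2 * γ, -2, 2, 0; 0, 0, 0, 2] :
      Matrix (Fin 4) (Fin 4) ℝ).det = -16 * (1 - γ) ^ 2 := by
  simp [Matrix.det_succ_row_zero, Fin.sum_univ_succ, Fin.succAbove]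
  ring


/-! ### Integrality -/

theorem rat_int {q : ℚ} (h : IsIntegral ℤ (((q : ℝ)) : ℂ)) : ∃ n : ℤ, q = n := by
  have h1 : (((q : ℝ)) : ℂ) = algebraMap ℚ ℂ q := by simp
  rw [h1, isIntegral_algebraMap_iff (algebraMap ℚ ℂ).injective] at h
  obtain ⟨n, hn⟩ := IsIntegrallyClosed.isIntegral_iff.1 h
  exact ⟨n, by rw [← hn]; simp⟩

/-- the functional -/
noncomputable def ell (d : ℕ) (x y : Fin 4 → ℝ) (s : ℝ) (lam : ℂ) (z : Fin 4 → ℝ) : ℂ :=
  (s : ℂ) * ((2 * gdB d x z : ℝ) : ℂ) - (1 + lam) * ((2 * gdB d y z : ℝ) : ℂ)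

theorem ell_step {d : ℕ} {x y : Fin 4 → ℝ} (hx : gdB d x x = 1) (hy : gdB d y y = 1) {s : ℝ}
    (hs : 2 * gdB d x y = s) {lam : ℂ} (hlam : lam ^ 2 - ((s : ℂ) ^ 2 - 2) * lam + 1 = 0)
    (z : Fin 4 → ℝ) :
    ell d x y s lam ((rfl' (gdB d) x ∘ₗ rfl' (gdB d) y) z) = lam * ell d x y s lam z := by
  have hs' : gdB d y x = gdB d x y := gdB_comm d y x
  simp only [ell, LinearMap.comp_apply, rfl'_apply, map_sub, map_smul, smul_eq_mul, hx, hy, hs']
  have hg : gdB d x y = s / 2 := by linarith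
  rw [hg]
  push_cast
  set u : ℂ := ((gdB d x z : ℝ) : ℂ)
  set v : ℂ := ((gdB d y z : ℝ) : ℂ)
  linear_combination (2 * v) * hlam

theorem ell_pow {d : ℕ} {x y : Fin 4 → ℝ} (hx : gdB d x x = 1) (hy : gdB d y y = 1) {s : ℝ}
    (hs : 2 * gdB d x y = s) {lam : ℂ} (hlam : lam ^ 2 - ((s : ℂ) ^ 2 - 2) * lam + 1 = 0)
    (n : ℕ) (z : Fin 4 → ℝ) :
    ell d x y s lam (((rfl' (gdB d) x ∘ₗ rfl' (gdB d) y) ^ n) z) = lam ^ n * ell d x y s lam z := by
  induction n with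
  | zero => simp
  | succ n ih =>
    rw [pow_succ', Module.End.mul_apply, ell_step hx hy hs hlam, ih]
    ring

/-- `z ↦ ell z` on integer vectors -/
noncomputable def ellZ (d : ℕ) (x y : Fin 4 → ℝ) (s : ℝ) (lam : ℂ) : (Fin 4 → ℤ) →ₗ[ℤ] ℂ where
  toFun z := ell d x y s lam (toR z)
  map_add' z w := by
    have : toR (z + w) = toR z + toR w := by funext i; simp [toR]
    rw [this]
    simp only [ell, map_add]
    push_cast
    ring
  map_smul' c z := by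
    have : toR (c • z) = (c : ℝ) • toR z := by funext i; simp [toR]
    rw [this]
    simp only [ell, map_smul, smul_eq_mul]
    push_cast
    simp
    ring

theorem toR_basis (y : Fin 4 → ℝ) : y = ∑ i, y i • toR (Pi.single i 1) := by
  funext j
  rw [Finset.sum_apply]
  simp [toR, Pi.single_apply]

theorem ell_zero_of {d : ℕ} {x y : Fin 4 → ℝ} {s : ℝ} {lam : ℂ}
    (h : ∀ z : Fin 4 → ℤ, ell d x y s lam (toR z) = 0) (z : Fin 4 → ℝ) : ell d x y s lam z = 0 := by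
  have hlin : ell d x y s lam z = ∑ i, (z i : ℂ) * ell d x y s lam (toR (Pi.single i 1)) := by
    have e1 : gdB d x z = ∑ i, z i * gdB d x (toR (Pi.single i 1)) := by
      conv_lhs => rw [toR_basis z]
      rw [map_sum]
      simp
    have e2 : gdB d y z = ∑ i, z i * gdB d y (toR (Pi.single i 1)) := by
      conv_lhs => rw [toR_basis z]
      rw [map_sum]
      simp
    simp only [ell]
    rw [e1, e2]
    push_cast
    simp only [Fin.sum_univ_four]
    ring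
  rw [hlin]
  exact Finset.sum_eq_zero (fun i _ => by rw [h, mul_zero])

theorem root_int {d : ℕ} {x y : Fin 4 → ℝ} (hx : gdB d x x = 1) (hy : gdB d y y = 1) {s : ℝ}
    (hs : 2 * gdB d x y = s) (hs0 : s ≠ 0) (hs2 : s ^ 2 ≠ 4) {lam : ℂ}
    (hlam : lam ^ 2 - ((s : ℂ) ^ 2 - 2) * lam + 1 = 0) {n : ℕ} (hn : 0 < n)
    (hlat : ∀ z : Fin 4 → ℤ, ∃ w : Fin 4 → ℤ,
      ((rfl' (gdB d) x ∘ₗ rfl' (gdB d) y) ^ n) (toR z) = toR w) : IsIntegral ℤ lam := by
  apply IsIntegral.of_pow hn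
  apply isIntegral_of_smul_mem_submodule (M := ℂ) (LinearMap.range (ellZ d x y s lam))
  · intro hbot
    have h0 : ∀ z : Fin 4 → ℤ, ell d x y s lam (toR z) = 0 := by
      intro z
      have : ellZ d x y s lam z ∈ LinearMap.range (ellZ d x y s lam) := ⟨z, rfl⟩
      rw [hbot] at this
      simpa [ellZ] using this
    have h1 := ell_zero_of h0 x
    simp only [ell, hx, gdB_comm d y x] at h1
    have hg : gdB d x y = s / 2 := by linarith
    rw [hg] at h1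
    push_cast at h1
    have hsC : (s : ℂ) ≠ 0 := by exact_mod_cast hs0
    have h2 : (s : ℂ) * (1 - lam) = 0 := by linear_combination h1
    have h3 : lam = 1 := by
      rcases mul_eq_zero.1 h2 with h | h
      · exact absurd h hsC
      · linear_combination -h
    rw [h3] at hlam
    apply hs2
    have : (s : ℂ) ^ 2 = 4 := by linear_combination -hlam
    exact_mod_cast this
  · exact (LinearMap.range_eq_map (ellZ d x y s lam)) ▸ Submodule.FG.map _ (Module.Finite.fg_top)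
  · rintro _ ⟨z, rfl⟩
    obtain ⟨w, hw⟩ := hlat z
    refine ⟨w, ?_⟩
    show ell d x y s lam (toR w) = lam ^ n • ell d x y s lam (toR z)
    rw [← hw, ell_pow hx hy hs hlam, smul_eq_mul]

theorem sq_int {d : ℕ} {x y : Fin 4 → ℝ} (hx : gdB d x x = 1) (hy : gdB d y y = 1) {s : ℝ}
    (hs : 2 * gdB d x y = s) {n : ℕ} (hn : 0 < n)
    (hlat : ∀ z : Fin 4 → ℤ, ∃ w : Fin 4 → ℤ,
      ((rfl' (gdB d) x ∘ₗ rfl' (gdB d) y) ^ n) (toR z) = toR w) : IsIntegral ℤ ((s : ℝ) : ℂ) := by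
  by_cases hs0 : s = 0
  · rw [hs0]; simpa using isIntegral_zero
  apply IsIntegral.of_pow (n := 2) (by norm_num)
  by_cases hs2 : s ^ 2 = 4
  · have : ((s : ℝ) : ℂ) ^ 2 = ((4 : ℤ) : ℂ) := by
      have : ((s ^ 2 : ℝ) : ℂ) = 4 := by rw [hs2]; norm_num
      push_cast at this ⊢
      exact this
    rw [this]
    exact isIntegral_algebraMap (R := ℤ) (A := ℂ) (x := 4)
  obtain ⟨w, hw⟩ := IsAlgClosed.exists_pow_nat_eq (((s : ℂ) ^ 2 - 2) ^ 2 - 4) (n := 2) (by norm_num)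
  have r1 : IsIntegral ℤ ((((s : ℂ) ^ 2 - 2) + w) / 2) :=
    root_int hx hy hs hs0 hs2 (by linear_combination (1 / 4) * hw) hn hlat
  have r2 : IsIntegral ℤ ((((s : ℂ) ^ 2 - 2) - w) / 2) :=
    root_int hx hy hs hs0 hs2 (by linear_combination (1 / 4) * hw) hn hlat
  have r3 := (r1.add r2).add (isIntegral_algebraMap (R := ℤ) (A := ℂ) (x := 2))
  have e2 : (algebraMap ℤ ℂ) 2 = 2 := by simp
  rw [e2] at r3
  have e3 : ((s : ℝ) : ℂ) ^ 2 = (((s : ℂ) ^ 2 - 2) + w) / 2 + (((s : ℂ) ^ 2 - 2) - w) / 2 + 2 := by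
    ring
  rw [e3]
  exact r3


theorem sqfree_int {d : ℕ} (hd : Squarefree d) {r : ℚ} {m : ℤ} (h : (d : ℚ) * r ^ 2 = m) :
    ∃ n : ℤ, r = n := by
  have hden : (r.den : ℚ) ≠ 0 := by exact_mod_cast r.den_nz
  have h1 : (d : ℤ) * r.num ^ 2 = m * (r.den : ℤ) ^ 2 := by
    have h2 : r = r.num / r.den := (Rat.num_div_den r).symm
    rw [h2] at h
    field_simp at h
    have h4 : (d : ℤ) * r.num ^ 2 = ((r.den ^ 2 : ℕ) : ℤ) * m := by exact_mod_cast h
    rw [h4]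
    push_cast
    ring
  have hcop : IsCoprime ((r.den : ℤ) ^ 2) (r.num ^ 2) := by
    apply IsCoprime.pow
    rw [Int.isCoprime_iff_gcd_eq_one, Int.gcd_comm]
    simpa [Int.gcd] using r.reduced
  have hdvd : ((r.den : ℤ) ^ 2) ∣ (d : ℤ) := by
    apply hcop.dvd_of_dvd_mul_right
    rw [h1]
    exact Dvd.intro_left _ rfl
  have hdvd' : r.den * r.den ∣ d := by
    rw [← pow_two]
    exact_mod_cast hdvd
  have hunit := hd _ hdvd'
  rw [Nat.isUnit_iff] at hunit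
  exact ⟨r.num, by rw [← Rat.num_div_den r, hunit]; simp⟩

/-- the product `μ_F μ_V` is a rational multiple of `√d` -/
theorem mu_prod {d : ℕ} (hd : d ≠ 0) (C : Config (gdB d) V F D) {μ ν : ℝ} (hμ : GoodMu μ)
    (hν : GoodMu ν) (hF : ∀ f, QV μ (C.a f)) (hV : ∀ v, QV ν (C.b v)) (e : D) :
    ∃ t : ℚ, μ * ν = t * Real.sqrt d := by
  have hd' : (0 : ℝ) < d := by exact_mod_cast Nat.pos_of_ne_zero hd
  set a1 := C.a (C.face (C.rev e)) with ha1
  set a2 := C.a (C.face e) with ha2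
  set a3 := C.a (C.face (C.rot e)) with ha3
  set b := C.b (C.vert e) with hb
  have n12 : gdB d a2 a1 = -1 := unip_prod (gdB d) (gdB_comm d) (C.a_unit _) (C.a_unit _)
    (C.sum_a e) (null_smul C _ _)
  have n32 : gdB d a3 a2 = -1 := by
    have := unip_prod (gdB d) (gdB_comm d) (C.a_unit _) (C.a_unit _)
      (C.sum_a (C.rot e)) (null_smul C _ _)
    rwa [C.face_rev_rot] at this
  have b1 : gdB d a1 b = 0 := by
    have h1 := C.a_b (C.rot⁻¹ e)
    have h2 : C.face (C.rot⁻¹ e) = C.face (C.rev e) := by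
      have := C.face_phi (C.rev e)
      rw [DMap.phi, Equiv.Perm.mul_apply, C.rev_rev] at this
      exact this
    have h3 : C.vert (C.rot⁻¹ e) = C.vert e := by
      have := C.vert_rot (C.rot⁻¹ e)
      rw [← this]
      simp
    rw [h2, h3] at h1
    exact h1
  have b2 : gdB d a2 b = 0 := C.a_b e
  have b3 : gdB d a3 b = 0 := by
    have h1 := C.a_b (C.rot e)
    rw [C.vert_rot] at h1
    exact h1
  set γ := gdB d a1 a3 with hγ
  have hγ1 : γ < 1 := by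
    have h1 := C.p_neg e (C.rot e) (C.rot_ne e) (C.rot_ne_rev e)
    have h2 : gdB d (C.ca e • C.p e) (C.ca (C.rot e) • C.p (C.rot e)) < 0 := by
      rw [map_smul, map_smul, LinearMap.smul_apply, smul_eq_mul, smul_eq_mul]
      have := C.ca_pos e
      have := C.ca_pos (C.rot e)
      nlinarith [mul_pos (C.ca_pos (C.rot e)) (C.ca_pos e)]
    rw [← C.sum_a e, ← C.sum_a (C.rot e), C.face_rev_rot] at h2
    simp only [map_add, LinearMap.add_apply] at h2
    rw [← ha1, ← ha2, ← ha3, gdB_comm d a2 a3, n32, ← hγ, gdB_comm d a1 a2, n12, C.a_unit] at h2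
    linarith
  -- rationality of γ
  obtain ⟨q2, hq2⟩ := hμ.2
  obtain ⟨A1, hA1⟩ := hF (C.face (C.rev e))
  obtain ⟨A3, hA3⟩ := hF (C.face (C.rot e))
  have hγq : γ = ((q2 * gq d A1 A3 : ℚ) : ℝ) := by
    rw [hγ, gdB_apply, gd_QV hA1 hA3, ← pow_two, hq2]
    push_cast
    ring
  have hdet := gram4_det d ![a1, a2, a3, b]
  have hgram : gram4 (gdB d) ![a1, a2, a3, b] =
      !![2, -2, 2 * γ, 0; -2, 2, -2, 0; 2 * γ, -2, 2, 0; 0, 0, 0, 2] := by
    have u1 : gdB d a1 a1 = 1 := C.a_unit _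
    have u2 : gdB d a2 a2 = 1 := C.a_unit _
    have u3 : gdB d a3 a3 = 1 := C.a_unit _
    have u4 : gdB d b b = 1 := C.b_unit _
    have c12 : gdB d a1 a2 = -1 := by rw [gdB_comm]; exact n12
    have c23 : gdB d a2 a3 = -1 := by rw [gdB_comm]; exact n32
    have c31 : gdB d a3 a1 = γ := by rw [gdB_comm]
    have c4 : gdB d b a1 = 0 := by rw [gdB_comm]; exact b1
    have c5 : gdB d b a2 = 0 := by rw [gdB_comm]; exact b2
    have c6 : gdB d b a3 = 0 := by rw [gdB_comm]; exact b3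
    ext i j
    fin_cases i <;> fin_cases j <;>
      simp [gram4, u1, u2, u3, u4, n12, n32, b1, b2, b3, c12, c23, c31, c4, c5, c6, ← hγ]
  rw [hgram, gram_special] at hdet
  obtain ⟨q, hq⟩ := det_QV ![μ, μ, μ, ν] ![a1, a2, a3, b] (by
    intro i
    fin_cases i
    · exact hF _
    · exact hF _
    · exact hF _
    · exact hV _)
  rw [hq, Fin.prod_univ_four] at hdet
  simp only [Matrix.cons_val_zero, Matrix.cons_val_one, Matrix.cons_val] at hdet
  -- hdet : -16 (1-γ)^2 = -4 d (μ μ μ ν q)^2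
  have hq0 : q ≠ 0 := by
    rintro rfl
    have : (1 - γ) ^ 2 = 0 := by
      have h7 := hdet
      rw [Rat.cast_zero, mul_zero] at h7
      linarith
    have h2 : 1 - γ = 0 := by
      rwa [sq_eq_zero_iff] at this
    linarith
  have hq20 : (q2 : ℝ) ≠ 0 := by
    rw [← hq2]
    exact pow_ne_zero 2 hμ.1
  have hq20' : q2 ≠ 0 := by exact_mod_cast hq20
  have hq0' : (q : ℝ) ≠ 0 := by exact_mod_cast hq0
  have hsd : Real.sqrt d * Real.sqrt d = d := Real.mul_self_sqrt hd'.le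
  have hsd0 : Real.sqrt d ≠ 0 := by
    intro h0
    rw [h0] at hsd
    simp at hsd
    exact hd (by exact_mod_cast hsd.symm)
  -- (μ ν √d)^2 = (2 (1-γ) / (q2 q))^2
  have hsq : (μ * ν * Real.sqrt d) ^ 2 = (2 * (1 - γ) / (q2 * q)) ^ 2 := by
    rw [div_pow, eq_div_iff (by positivity)]
    have h5 : (μ * ν * Real.sqrt d) ^ 2 * (q2 * q) ^ 2 =
        (Real.sqrt d * Real.sqrt d) * (μ * ν * q2 * q) ^ 2 := by ring
    rw [h5, hsd, ← hq2]
    have h6 : (μ * μ * μ * ν * (q : ℝ)) ^ 2 = (μ * ν * μ ^ 2 * q) ^ 2 := by ring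
    rw [h6] at hdet
    linarith
  have hrat : (2 * (1 - γ) / (q2 * q)) = ((2 * (1 - q2 * gq d A1 A3) / (q2 * q) : ℚ) : ℝ) := by
    rw [hγq]; push_cast; ring
  rw [hrat] at hsq
  set ρ : ℚ := 2 * (1 - q2 * gq d A1 A3) / (q2 * q)
  have hfin : ∀ c : ℝ, c / d * Real.sqrt d * Real.sqrt d = c := by
    intro c
    rw [mul_assoc, hsd]
    field_simp
  have hfin2 : ∀ c : ℝ, μ * ν * Real.sqrt d = c → μ * ν = c / d * Real.sqrt d := by
    intro c hc
    apply mul_right_cancel₀ hsd0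
    rw [hc, hfin]
  rcases sq_eq_sq_iff_eq_or_eq_neg.1 hsq with h | h
  · refine ⟨ρ / d, ?_⟩
    push_cast
    exact hfin2 _ h
  · refine ⟨-ρ / d, ?_⟩
    push_cast
    exact hfin2 _ h


/-- `ℚ`-rationality plus integrality of the square gives an integer -/
theorem int_of_rat {d : ℕ} {x y : Fin 4 → ℝ} (hx : gdB d x x = 1) (hy : gdB d y y = 1)
    (hr : ∃ q : ℚ, 2 * gdB d x y = q) {n : ℕ} (hn : 0 < n)
    (hlat : ∀ z : Fin 4 → ℤ, ∃ w : Fin 4 → ℤ,
      ((rfl' (gdB d) x ∘ₗ rfl' (gdB d) y) ^ n) (toR z) = toR w) :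
    ∃ m : ℤ, 2 * gdB d x y = m := by
  obtain ⟨q, hq⟩ := hr
  have h1 := sq_int hx hy hq hn hlat
  obtain ⟨m, hm⟩ := rat_int h1
  exact ⟨m, by rw [hq, hm]; simp⟩

theorem integral_of_lattice {d : ℕ} (hd : Squarefree d) (C : Config (gdB d) V F D)
    (h : LatticeProp C) : Nonempty (Integral d C) := by
  have hd0 : d ≠ 0 := hd.ne_zero
  have hd' : (0 : ℝ) ≤ d := Nat.cast_nonneg d
  have hsd : Real.sqrt d * Real.sqrt d = d := Real.mul_self_sqrt hd'
  -- there is a dart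
  have hD : Nonempty D := by
    by_contra hcon
    rw [not_nonempty_iff] at hcon
    have hV : IsEmpty V := ⟨fun v => hcon.false (C.vert_surj v).choose⟩
    have hF : IsEmpty F := ⟨fun f => hcon.false (C.face_surj f).choose⟩
    have := C.euler
    simp [Fintype.card_eq_zero] at this
  obtain ⟨e0⟩ := hD
  obtain ⟨μ, hμ, hF⟩ := exists_muF C hd0 h e0
  obtain ⟨ν, hν, hV⟩ := exists_muV C hd0 h e0
  obtain ⟨t, ht⟩ := mu_prod hd0 C hμ hν hF hV e0
  obtain ⟨qμ, hqμ⟩ := hμ.2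
  obtain ⟨qν, hqν⟩ := hν.2
  -- face-face products
  have hA : ∀ f g, ∃ m : ℤ, 2 * gdB d (C.a f) (C.a g) = m := by
    intro f g
    obtain ⟨n, hn, hlat⟩ := h (C.a f) (Or.inl ⟨_, rfl⟩) (C.a g) (Or.inl ⟨_, rfl⟩)
    apply int_of_rat (C.a_unit f) (C.a_unit g) _ hn hlat
    obtain ⟨X, hX⟩ := hF f
    obtain ⟨Y, hY⟩ := hF g
    refine ⟨2 * (qμ * gq d X Y), ?_⟩
    rw [gdB_apply, gd_QV hX hY, ← pow_two, hqμ]
    push_cast
    ring
  have hB : ∀ v w, ∃ m : ℤ, 2 * gdB d (C.b v) (C.b w) = m := by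
    intro f g
    obtain ⟨n, hn, hlat⟩ := h (C.b f) (Or.inr ⟨_, rfl⟩) (C.b g) (Or.inr ⟨_, rfl⟩)
    apply int_of_rat (C.b_unit f) (C.b_unit g) _ hn hlat
    obtain ⟨X, hX⟩ := hV f
    obtain ⟨Y, hY⟩ := hV g
    refine ⟨2 * (qν * gq d X Y), ?_⟩
    rw [gdB_apply, gd_QV hX hY, ← pow_two, hqν]
    push_cast
    ring
  have hM : ∀ f v, ∃ m : ℤ, 2 * gdB d (C.a f) (C.b v) = Real.sqrt d * m := by
    intro f v
    obtain ⟨n, hn, hlat⟩ := h (C.a f) (Or.inl ⟨_, rfl⟩) (C.b v) (Or.inr ⟨_, rfl⟩)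
    obtain ⟨X, hX⟩ := hF f
    obtain ⟨Y, hY⟩ := hV v
    have h1 : 2 * gdB d (C.a f) (C.b v) = Real.sqrt d * ((2 * t * gq d X Y : ℚ) : ℝ) := by
      rw [gdB_apply, gd_QV hX hY, ht]
      push_cast
      ring
    set r : ℚ := 2 * t * gq d X Y with hr
    have h2 := (sq_int (C.a_unit f) (C.b_unit v) h1 hn hlat).pow 2
    have h3 : (((Real.sqrt d * (r : ℝ) : ℝ)) : ℂ) ^ 2 = ((((d * r ^ 2 : ℚ)) : ℝ) : ℂ) := by
      rw [← Complex.ofReal_pow, mul_pow, pow_two (Real.sqrt d), hsd]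
      push_cast
      ring
    rw [h3] at h2
    obtain ⟨m, hm⟩ := rat_int h2
    obtain ⟨k, hk⟩ := sqfree_int hd hm
    exact ⟨k, by rw [h1, hk]; simp⟩
  choose A hA using hA
  choose Bv hB using hB
  choose M hM using hM
  refine ⟨⟨A, Bv, M, hA, hB, hM, ?_⟩⟩
  intro f g v w
  rw [gram4_det]
  obtain ⟨q, hq⟩ := det_QV ![μ, μ, ν, ν] ![C.a f, C.a g, C.b v, C.b w] (by
    intro i
    fin_cases i
    · exact hF _
    · exact hF _
    · exact hV _
    · exact hV _)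
  refine ⟨2 * (qμ * qν * q), ?_⟩
  rw [hq, Fin.prod_univ_four]
  simp only [Matrix.cons_val_zero, Matrix.cons_val_one, Matrix.cons_val]
  have h6 : μ * μ * ν * ν * (q : ℝ) = μ ^ 2 * ν ^ 2 * q := by ring
  rw [h6, hqμ, hqν]
  push_cast
  ring

end ArithPoly
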