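import Pool.Agent.LibArithPoly.Basic

/-!
# Arithmetic of odd primes dividing `d`
-/

open Matrix

set_option linter.unusedSectionVars false

namespace ArithPoly

variable {V F D : Type} [Fintype V] [Fintype F] [Fintype D]
variable {W : Type} [AddCommGroup W] [Module ℝ W] {B : LinearMap.BilinForm ℝ W}

namespace DMap

variable (m : DMap V F D)

theorem card_vert_le (n : ℕ) (h : ∀ d, n ≤ per m.rot d) : n * Fintype.card V ≤ Fintype.card D := by
  classical
  rw [card_eq_sum m.vert, mul_comm, ← smul_eq_mul, ← Finset.card_univ, ← Finset.sum_const]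
  apply Finset.sum_le_sum
  intro v _
  obtain ⟨d, rfl⟩ := m.vert_surj v
  rw [card_fiber m.rot m.vert m.vert_iff]
  exact h d

theorem card_face_le (n : ℕ) (h : ∀ d, n ≤ per m.phi d) : n * Fintype.card F ≤ Fintype.card D := by
  classical
  rw [card_eq_sum m.face, mul_comm, ← smul_eq_mul, ← Finset.card_univ, ← Finset.sum_const]
  apply Finset.sum_le_sum
  intro v _
  obtain ⟨d, rfl⟩ := m.face_surj v
  rw [card_fiber m.phi m.face m.face_iff]
  exact h d

/-- there is a vertex of degree 3 or a triangular face -/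
theorem exists_three : (∃ d, per m.rot d = 3) ∨ (∃ d, per m.phi d = 3) := by
  by_contra hc
  push Not at hc
  have h1 := m.card_vert_le 4 (fun d => by
    have := m.three_le_per_rot d; have := hc.1 d; omega)
  have h2 := m.card_face_le 4 (fun d => by
    have := m.three_le_per_phi d; have := hc.2 d; omega)
  have := m.euler
  omega

/-- if all faces are even there is a quadrilateral -/
theorem exists_four (he : ∀ d, Even (per m.phi d)) : ∃ d, per m.phi d = 4 := by
  by_contra hc
  push Not at hc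
  have h1 := m.card_vert_le 3 m.three_le_per_rot
  have h2 := m.card_face_le 6 (fun d => by
    have h3 := m.three_le_per_phi d
    have h4 := hc d
    obtain ⟨k, hk⟩ := he d
    omega)
  have := m.euler
  omega

end DMap

namespace Integral

variable {d : ℕ} {C : Config B V F D} (I : Integral d C)

/-- integral `k`-value on the face polygon -/
def kFz (x : D) : ℤ := 2 - I.Bv (C.vert (C.rev x)) (C.vert (C.rev (C.rot x)))
/-- integral `k`-value on the vertex polygon -/
def kVz (x : D) : ℤ := 2 - I.A (C.face (C.rev x)) (C.face (C.rot x))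

theorem kFz_eq (x : D) : (I.kFz x : ℝ) = C.kF x := by
  unfold kFz Config.kF
  rw [I.hB]; push_cast; ring

theorem kVz_eq (x : D) : (I.kVz x : ℝ) = C.kV x := by
  unfold kVz Config.kV
  rw [I.hA]; push_cast; ring

theorem kFz_pos (x : D) : 0 < I.kFz x := by
  have := C.kF_pos x
  rw [← I.kFz_eq] at this
  exact_mod_cast this

theorem kVz_pos (x : D) : 0 < I.kVz x := by
  have := C.kV_pos x
  rw [← I.kVz_eq] at this
  exact_mod_cast this

theorem Bv_symm (v w : V) : I.Bv v w = I.Bv w v := by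
  have h1 := I.hB v w
  have h2 := I.hB w v
  rw [C.symm] at h1
  rw [h1] at h2
  exact_mod_cast h2

theorem A_symm (v w : F) : I.A v w = I.A w v := by
  have h1 := I.hA v w
  have h2 := I.hA w v
  rw [C.symm] at h1
  rw [h1] at h2
  exact_mod_cast h2

theorem Bv_self (v : V) : I.Bv v v = 2 := by
  have h1 := I.hB v v
  rw [C.b_unit] at h1
  have : (I.Bv v v : ℝ) = 2 := by linarith
  exact_mod_cast this

theorem A_self (v : F) : I.A v v = 2 := by
  have h1 := I.hA v v
  rw [C.a_unit] at h1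
  have : (I.A v v : ℝ) = 2 := by linarith
  exact_mod_cast this

theorem Bv_adj (x : D) : I.Bv (C.vert x) (C.vert (C.rev x)) = -2 := by
  have h1 := I.hB (C.vert x) (C.vert (C.rev x))
  rw [C.bb_adj] at h1
  have : (I.Bv (C.vert x) (C.vert (C.rev x)) : ℝ) = -2 := by linarith
  exact_mod_cast this

theorem A_adj (x : D) : I.A (C.face x) (C.face (C.rev x)) = -2 := by
  have h1 := I.hA (C.face x) (C.face (C.rev x))
  rw [C.aa_adj] at h1
  have : (I.A (C.face x) (C.face (C.rev x)) : ℝ) = -2 := by linarith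
  exact_mod_cast this

theorem quadz (x : D) (h4 : per C.phi x = 4) :
    (I.kFz x - 4) * (I.kFz (C.phi x) - 4) = 16 := by
  have h : C.phi (C.phi (C.phi (C.phi x))) = x := by
    have := pow_per C.phi x
    rw [h4] at this
    simpa [pow_succ] using this
  have := C.quad x h
  rw [← I.kFz_eq, ← I.kFz_eq] at this
  exact_mod_cast this

/-- the basic identity at a vertex of degree three -/
theorem star (d0 : D) (h3 : C.rot (C.rot (C.rot d0)) = d0) (v w : V) :
    4 * I.Bv v w = 2 * I.Bv v (C.vert d0) * I.Bv w (C.vert d0) -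
      d * ((I.M (C.face (C.rot d0)) v + I.M (C.face (C.rot (C.rot d0))) v) *
            I.M (C.face d0) w +
          (I.M (C.face d0) v + I.M (C.face (C.rot (C.rot d0))) v) * I.M (C.face (C.rot d0)) w +
          (I.M (C.face d0) v + I.M (C.face (C.rot d0)) v) *
            I.M (C.face (C.rot (C.rot d0))) w) := by
  set f1 := C.face d0
  set f2 := C.face (C.rot d0)
  set f3 := C.face (C.rot (C.rot d0))
  have h12 : B (C.a f1) (C.a f2) = -1 := by
    have := C.aa_adj (C.rot d0)
    rw [C.face_rev_rot, C.symm] at this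
    exact this
  have h23 : B (C.a f2) (C.a f3) = -1 := by
    have := C.aa_adj (C.rot (C.rot d0))
    rw [C.face_rev_rot, C.symm] at this
    exact this
  have h13 : B (C.a f1) (C.a f3) = -1 := by
    have := C.aa_adj (C.rot (C.rot (C.rot d0)))
    rw [C.face_rev_rot, h3] at this
    exact this
  have hb1 : B (C.a f1) (C.b (C.vert d0)) = 0 := C.a_b d0
  have hb2 : B (C.a f2) (C.b (C.vert d0)) = 0 := by
    have := C.a_b (C.rot d0); rwa [C.vert_rot] at this
  have hb3 : B (C.a f3) (C.b (C.vert d0)) = 0 := by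
    have := C.a_b (C.rot (C.rot d0)); rwa [C.vert_rot, C.vert_rot] at this
  have key := expand_tri_norm B C.symm C.finrank _ _ _ _ (C.a_unit f1) (C.a_unit f2) (C.a_unit f3)
    h12 h13 h23 (C.b_unit (C.vert d0)) hb1 hb2 hb3 (C.b v) (C.b w)
  have hM : ∀ f v, B (C.b v) (C.a f) = Real.sqrt d * I.M f v / 2 := by
    intro f v
    have := I.hM f v
    rw [C.symm]; linarith
  have hB : ∀ v w, B (C.b v) (C.b w) = I.Bv v w / 2 := by
    intro v w
    have := I.hB v w
    linarith
  rw [hB, hB, hB, hM, hM, hM, hM, hM, hM] at key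
  have hd : Real.sqrt d * Real.sqrt d = d := Real.mul_self_sqrt (Nat.cast_nonneg d)
  have : (4 * I.Bv v w : ℝ) = 2 * I.Bv v (C.vert d0) * I.Bv w (C.vert d0) -
      d * ((I.M f2 v + I.M f3 v) * I.M f1 w + (I.M f1 v + I.M f3 v) * I.M f2 w +
          (I.M f1 v + I.M f2 v) * I.M f3 w) := by
    rw [← hd]
    linear_combination 8 * key
  exact_mod_cast this

section prime

variable (q : ℕ) [hq : Fact q.Prime] (hq2 : q ≠ 2) (hqd : q ∣ d) (d0 : D)
  (h3 : C.rot (C.rot (C.rot d0)) = d0)
include hq2 hqd h3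

theorem two_ne : (2 : ZMod q) ≠ 0 := by
  intro h
  have : ((2 : ℕ) : ZMod q) = 0 := by exact_mod_cast h
  rw [ZMod.natCast_eq_zero_iff] at this
  exact hq2 ((Nat.prime_dvd_prime_iff_eq hq.out Nat.prime_two).1 this)

theorem starq (v w : V) :
    2 * (I.Bv v w : ZMod q) = (I.Bv v (C.vert d0) : ZMod q) * I.Bv w (C.vert d0) := by
  have h := I.star d0 h3 v w
  have h1 := congrArg (fun z : ℤ => (z : ZMod q)) h
  have hd0 : ((d : ℤ) : ZMod q) = 0 := by
    have := (ZMod.natCast_eq_zero_iff d q).2 hqd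
    exact_mod_cast this
  push_cast at h1
  have hd1 : (d : ZMod q) = 0 := (ZMod.natCast_eq_zero_iff d q).2 hqd
  rw [hd1, zero_mul, sub_zero] at h1
  have h2 := two_ne q hq2 (C := C) hqd d0 h3
  have : (2 : ZMod q) * (2 * (I.Bv v w : ZMod q)) =
      2 * ((I.Bv v (C.vert d0) : ZMod q) * I.Bv w (C.vert d0)) := by linear_combination h1
  exact mul_left_cancel₀ h2 this

theorem sq4 (v : V) : (I.Bv v (C.vert d0) : ZMod q) * I.Bv v (C.vert d0) = 4 := by
  have := I.starq q hq2 hqd d0 h3 v v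
  rw [I.Bv_self] at this
  rw [← this]; norm_num

theorem adj_neg (x : D) :
    (I.Bv (C.vert (C.rev x)) (C.vert d0) : ZMod q) = - I.Bv (C.vert x) (C.vert d0) := by
  have h1 := I.starq q hq2 hqd d0 h3 (C.vert x) (C.vert (C.rev x))
  have h2 := I.sq4 q hq2 hqd d0 h3 (C.vert x)
  rw [I.Bv_adj] at h1
  push_cast at h1
  have h2' := two_ne q hq2 (C := C) hqd d0 h3
  have h4 : (4 : ZMod q) ≠ 0 := by
    intro h; apply h2'
    have : (2 : ZMod q) * 2 = 0 := by rw [← h]; norm_num
    rcases mul_eq_zero.mp this with h | h <;> exact h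
  apply mul_left_cancel₀ h4
  linear_combination (-(I.Bv (C.vert (C.rev x)) (C.vert d0) : ZMod q)) * h2 -
    (I.Bv (C.vert x) (C.vert d0) : ZMod q) * h1

/-- every `k`-value on a face polygon is divisible by `q` -/
theorem q_dvd_kFz (x : D) : (q : ℤ) ∣ I.kFz x := by
  rw [← ZMod.intCast_zmod_eq_zero_iff_dvd]
  unfold kFz
  have h1 := I.starq q hq2 hqd d0 h3 (C.vert (C.rev x)) (C.vert (C.rev (C.rot x)))
  have h2 := I.adj_neg q hq2 hqd d0 h3 x
  have h2' := I.adj_neg q hq2 hqd d0 h3 (C.rot x)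
  rw [C.vert_rot] at h2'
  have h4 := I.sq4 q hq2 hqd d0 h3 (C.vert x)
  rw [h2, h2'] at h1
  have h5 := two_ne q hq2 (C := C) hqd d0 h3
  push_cast
  apply mul_left_cancel₀ h5
  linear_combination -h1 - h4

include I in
/-- every face has an even number of sides -/
theorem even_face (x : D) : Even (per C.phi x) := by
  have key : ∀ n, (I.Bv (C.vert ((C.phi ^ n) x)) (C.vert d0) : ZMod q) =
      (-1) ^ n * I.Bv (C.vert x) (C.vert d0) := by
    intro n
    induction n with
    | zero => simp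
    | succ n ih =>
      rw [pow_succ', Equiv.Perm.mul_apply, C.vert_phi, I.adj_neg q hq2 hqd d0 h3, ih]
      ring
  by_contra hodd
  rw [Nat.not_even_iff_odd] at hodd
  have h := key (per C.phi x)
  rw [pow_per, hodd.neg_one_pow] at h
  have h4 := I.sq4 q hq2 hqd d0 h3 (C.vert x)
  have h5 := two_ne q hq2 (C := C) hqd d0 h3
  have h6 : (I.Bv (C.vert x) (C.vert d0) : ZMod q) = 0 := by
    apply mul_left_cancel₀ h5
    linear_combination h
  rw [h6, zero_mul] at h4
  have : (2 : ZMod q) * 2 = 0 := by rw [h4]; norm_num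
  rcases mul_eq_zero.mp this with h | h <;> exact h5 h

end prime

theorem quad_cases (x : D) (h4 : per C.phi x = 4) :
    (I.kFz x = 5 ∧ I.kFz (C.phi x) = 20) ∨ (I.kFz x = 6 ∧ I.kFz (C.phi x) = 12) ∨
    (I.kFz x = 8 ∧ I.kFz (C.phi x) = 8) ∨ (I.kFz x = 12 ∧ I.kFz (C.phi x) = 6) ∨
    (I.kFz x = 20 ∧ I.kFz (C.phi x) = 5) := by
  have h := I.quadz x h4
  have p1 := I.kFz_pos x
  have p2 := I.kFz_pos (C.phi x)
  set k := I.kFz x
  set k' := I.kFz (C.phi x)
  have hk : 4 < k := by
    by_contra hc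
    push Not at hc
    have : k' - 4 ≤ 0 := by
      by_contra h'
      push Not at h'
      nlinarith
    have h5 : k - 4 ≥ -3 := by omega
    have h6 : k' - 4 ≥ -3 := by omega
    nlinarith
  have hk' : 4 < k' := by nlinarith
  have hk2 : k ≤ 20 := by nlinarith
  have hk2' : k' ≤ 20 := by nlinarith
  interval_cases k <;> omega

theorem prime_cases (q : ℕ) [hq : Fact q.Prime] (hq2 : q ≠ 2) (hqd : q ∣ d) (d0 : D)
    (h3 : C.rot (C.rot (C.rot d0)) = d0) :
    (q = 3 ∧ ∀ x, per C.phi x = 4 →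
      (I.kFz x = 6 ∧ I.kFz (C.phi x) = 12) ∨ (I.kFz x = 12 ∧ I.kFz (C.phi x) = 6)) ∨
    (q = 5 ∧ ∀ x, per C.phi x = 4 →
      (I.kFz x = 5 ∧ I.kFz (C.phi x) = 20) ∨ (I.kFz x = 20 ∧ I.kFz (C.phi x) = 5)) := by
  have he := I.even_face q hq2 hqd d0 h3
  have hdv := I.q_dvd_kFz q hq2 hqd d0 h3
  have key : ∀ x, per C.phi x = 4 →
      (q = 3 ∧ ((I.kFz x = 6 ∧ I.kFz (C.phi x) = 12) ∨ (I.kFz x = 12 ∧ I.kFz (C.phi x) = 6))) ∨
      (q = 5 ∧ ((I.kFz x = 5 ∧ I.kFz (C.phi x) = 20) ∨ (I.kFz x = 20 ∧ I.kFz (C.phi x) = 5))) := by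
    intro x hx
    have d1 := hdv x
    have d2 := hdv (C.phi x)
    have hq1 := hq.out.two_le
    have prim : ∀ n : ℕ, q ∣ n → q ≤ n ∨ n = 0 := fun n hn => by
      rcases Nat.eq_zero_or_pos n with h | h
      · right; exact h
      · left; exact Nat.le_of_dvd h hn
    rcases I.quad_cases x hx with ⟨h1, h2⟩ | ⟨h1, h2⟩ | ⟨h1, h2⟩ | ⟨h1, h2⟩ | ⟨h1, h2⟩ <;>
      rw [h1] at d1 <;> rw [h2] at d2
    · right
      have : q ∣ 5 := by exact_mod_cast d1
      have := (Nat.prime_dvd_prime_iff_eq hq.out Nat.prime_five).1 this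
      exact ⟨this, Or.inl ⟨h1, h2⟩⟩
    · left
      have : q ∣ 6 := by exact_mod_cast d1
      have h6 : q ∣ 2 * 3 := this
      rcases (Nat.Prime.dvd_mul hq.out).1 h6 with h | h
      · exact absurd ((Nat.prime_dvd_prime_iff_eq hq.out Nat.prime_two).1 h) hq2
      · exact ⟨(Nat.prime_dvd_prime_iff_eq hq.out Nat.prime_three).1 h, Or.inl ⟨h1, h2⟩⟩
    · exfalso
      have : q ∣ 8 := by exact_mod_cast d1
      have h6 : q ∣ 2 ^ 3 := this
      exact hq2 ((Nat.prime_dvd_prime_iff_eq hq.out Nat.prime_two).1 (hq.out.dvd_of_dvd_pow h6))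
    · left
      have : q ∣ 6 := by exact_mod_cast d2
      have h6 : q ∣ 2 * 3 := this
      rcases (Nat.Prime.dvd_mul hq.out).1 h6 with h | h
      · exact absurd ((Nat.prime_dvd_prime_iff_eq hq.out Nat.prime_two).1 h) hq2
      · exact ⟨(Nat.prime_dvd_prime_iff_eq hq.out Nat.prime_three).1 h, Or.inr ⟨h1, h2⟩⟩
    · right
      have : q ∣ 5 := by exact_mod_cast d2
      have := (Nat.prime_dvd_prime_iff_eq hq.out Nat.prime_five).1 this
      exact ⟨this, Or.inr ⟨h1, h2⟩⟩
  obtain ⟨x, hx⟩ := C.exists_four he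
  rcases key x hx with ⟨h, _⟩ | ⟨h, _⟩
  · left
    refine ⟨h, fun y hy => ?_⟩
    rcases key y hy with ⟨_, h'⟩ | ⟨h', _⟩
    · exact h'
    · omega
  · right
    refine ⟨h, fun y hy => ?_⟩
    rcases key y hy with ⟨h', _⟩ | ⟨_, h'⟩
    · omega
    · exact h'

include I in
/-- the possible `d` if there is a vertex of degree 3 -/
theorem d_cases (hd : Squarefree d) (d0 : D) (h3 : C.rot (C.rot (C.rot d0)) = d0) :
    d = 1 ∨ d = 2 ∨ d = 3 ∨ d = 5 ∨ d = 6 ∨ d = 10 := by
  have h35 : ∀ q : ℕ, q.Prime → q ∣ d → q = 2 ∨ q = 3 ∨ q = 5 := by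
    intro q hq hqd
    by_cases h2 : q = 2
    · left; exact h2
    · have := Fact.mk hq
      rcases I.prime_cases q h2 hqd d0 h3 with ⟨h, _⟩ | ⟨h, _⟩
      · right; left; exact h
      · right; right; exact h
  have h15 : ¬ (3 ∣ d ∧ 5 ∣ d) := by
    rintro ⟨ha, hb⟩
    have : Fact (Nat.Prime 3) := ⟨Nat.prime_three⟩
    have : Fact (Nat.Prime 5) := ⟨Nat.prime_five⟩
    obtain ⟨x, hx⟩ := C.exists_four (I.even_face 3 (by norm_num) ha d0 h3)
    rcases I.prime_cases 3 (by norm_num) ha d0 h3 with ⟨_, h⟩ | ⟨h, _⟩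
    · rcases I.prime_cases 5 (by norm_num) hb d0 h3 with ⟨h', _⟩ | ⟨_, h'⟩
      · omega
      · have e1 := h x hx
        have e2 := h' x hx
        omega
    · omega
  have hd0 : d ≠ 0 := hd.ne_zero
  -- write d as a product of its prime factors
  have hprod : d = ∏ p ∈ d.primeFactors, p := (Nat.prod_primeFactors_of_squarefree hd).symm
  have hsub : d.primeFactors ⊆ {2, 3, 5} := by
    intro q hq
    have := h35 q (Nat.prime_of_mem_primeFactors hq) (Nat.dvd_of_mem_primeFactors hq)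
    simp only [Finset.mem_insert, Finset.mem_singleton]
    exact this
  have hmem : ∀ S ∈ ({2, 3, 5} : Finset ℕ).powerset, d.primeFactors = S →
      d = 1 ∨ d = 2 ∨ d = 3 ∨ d = 5 ∨ d = 6 ∨ d = 10 ∨ (3 ∣ d ∧ 5 ∣ d) := by
    intro S hS h
    rw [h] at hprod
    have hS' : S = ∅ ∨ S = {2} ∨ S = {3} ∨ S = {5} ∨ S = {2,3} ∨ S = {2,5} ∨ S = {3,5} ∨
        S = {2,3,5} := by
      revert hS
      have : ∀ S ∈ ({2, 3, 5} : Finset ℕ).powerset, S = ∅ ∨ S = {2} ∨ S = {3} ∨ S = {5} ∨
          S = {2,3} ∨ S = {2,5} ∨ S = {3,5} ∨ S = {2,3,5} := by decide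
      exact this S
    rcases hS' with h | h | h | h | h | h | h | h <;> rw [h] at hprod <;> norm_num at hprod <;>
      omega
  rcases hmem _ (Finset.mem_powerset.2 hsub) rfl with h | h | h | h | h | h | h
  · left; exact h
  · right; left; exact h
  · right; right; left; exact h
  · right; right; right; left; exact h
  · right; right; right; right; left; exact h
  · right; right; right; right; right; exact h
  · exact absurd h h15

end Integral

end ArithPoly
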