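import Pool.Agent.LibArithPoly.T1Geom
import Pool.Agent.LibArithPoly.T2Lattice
import Pool.Agent.LibArithPoly.T3Integral
import Pool.Agent.LibArithPoly.T4Mod

/-!
# From commensurable polyhedra to integral configurations
-/

open Matrix

namespace ArithPoly

variable {V F D : Type} [Fintype V] [Fintype F] [Fintype D]

section map

variable {W W' : Type} [AddCommGroup W] [Module ℝ W] [AddCommGroup W'] [Module ℝ W']
variable {B : LinearMap.BilinForm ℝ W} {B' : LinearMap.BilinForm ℝ W'}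

/-- transport of a configuration along an isometry -/
noncomputable def Config.map (C : Config B V F D) (κ : W ≃ₗ[ℝ] W')
    (h : ∀ x y, B x y = B' (κ x) (κ y)) : Config B' V F D where
  toDMap := C.toDMap
  symm := fun x y => by
    rw [← κ.apply_symm_apply x, ← κ.apply_symm_apply y, ← h, ← h, C.symm]
  finrank := by rw [← κ.finrank_eq, C.finrank]
  a := fun f => κ (C.a f)
  b := fun v => κ (C.b v)
  p := fun d => κ (C.p d)
  ca := C.ca
  cb := C.cb
  ca_pos := C.ca_pos
  cb_pos := C.cb_pos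
  a_unit := fun f => by rw [← h, C.a_unit]
  b_unit := fun f => by rw [← h, C.b_unit]
  a_b := fun d => by rw [← h, C.a_b]
  a_b_nonpos := fun f v => by rw [← h]; exact C.a_b_nonpos f v
  a_b_eq := fun f v => by rw [← h]; exact C.a_b_eq f v
  p_rev := fun d => by rw [C.p_rev]
  p_null := fun d => by rw [← h, C.p_null]
  p_neg := fun d e => by rw [← h]; exact C.p_neg d e
  sum_a := fun d => by rw [← map_add, C.sum_a, map_smul]
  sum_b := fun d => by rw [← map_add, C.sum_b, map_smul]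
  a_p := fun f d => by rw [← h]; exact C.a_p f d
  b_p := fun f d => by rw [← h]; exact C.b_p f d
  a_p_eq := fun f d => by rw [← h]; exact C.a_p_eq f d
  b_p_eq := fun f d => by rw [← h]; exact C.b_p_eq f d

/-- duality for integrality -/
def Integral.dual {d : ℕ} {C : Config B V F D} (I : Integral d C) : Integral d C.dual where
  A := I.Bv
  Bv := I.A
  M := fun v f => I.M f v
  hA := I.hB
  hB := I.hA
  hM := fun v f => by
    show 2 * B (C.b v) (C.a f) = _
    rw [C.symm, I.hM]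
  hdet := fun v w f g => by
    obtain ⟨r, hr⟩ := I.hdet f g v w
    refine ⟨r, ?_⟩
    rw [← hr]
    show (gram4 B ![C.b v, C.b w, C.a f, C.a g]).det = (gram4 B ![C.a f, C.a g, C.b v, C.b w]).det
    have h2 : gram4 B ![C.b v, C.b w, C.a f, C.a g] =
        (gram4 B ![C.a f, C.a g, C.b v, C.b w]).submatrix
          (![2, 3, 0, 1] : Fin 4 → Fin 4) (![2, 3, 0, 1] : Fin 4 → Fin 4) := by
      ext i j
      fin_cases i <;> fin_cases j <;> rfl
    have h3 : (![2, 3, 0, 1] : Fin 4 → Fin 4) =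
        (⟨![2, 3, 0, 1], ![2, 3, 0, 1], by decide, by decide⟩ : Fin 4 ≃ Fin 4) := rfl
    rw [h2, h3, Matrix.det_submatrix_equiv_self]

end map

theorem rfl'_unit (n : Mink) (hn : 0 < lor n n) (x : Mink) :
    rfl' lorB ((Real.sqrt (lor n n))⁻¹ • n) x = hypReflection n x := by
  rw [rfl'_apply, hypReflection_apply, lorB_apply, lor_smul_left, smul_smul]
  congr 2
  have h2 := Real.mul_self_sqrt hn.le
  have h3 := Real.sqrt_pos.2 hn
  field_simp
  rw [sq, h2]
  ring

namespace MidscribedPolyhedron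

variable (P : MidscribedPolyhedron V F D)

/-- the linear map of a wall reflection is in the reflection group -/
theorem wall_mem (x : Mink) (hx : x ∈ Set.range P.ua ∪ Set.range P.ub) :
    ∃ g ∈ reflectionGroup P, ∀ z, rfl' lorB x z = g z := by
  rcases hx with ⟨f, rfl⟩ | ⟨v, rfl⟩
  · refine ⟨hypReflection (P.yf f), Subgroup.subset_closure (Or.inl ⟨f, rfl⟩), fun z => ?_⟩
    exact rfl'_unit _ (P.lor_yf_pos f) z
  · refine ⟨hypReflection (P.xv v), Subgroup.subset_closure (Or.inr ⟨v, rfl⟩), fun z => ?_⟩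
    exact rfl'_unit _ (P.lor_xv_pos v) z

end MidscribedPolyhedron

/-- an arithmetic polyhedron gives an integral configuration -/
theorem exists_integral (P : MidscribedPolyhedron V F D) (d : ℕ) (hd : Squarefree d)
    (h : CommensurableWith P d) :
    ∃ C : Config (gdB d) V F D, C.toDMap = P.toConfig.toDMap ∧ Nonempty (Integral d C) := by
  obtain ⟨κ, hκ0, hlat⟩ := lattice_of_commensurable P d (Nat.pos_of_ne_zero hd.ne_zero) h
  have hκ : ∀ x y, lorB x y = gdB d (κ x) (κ y) := hκ0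
  refine ⟨P.toConfig.map κ hκ, rfl, ?_⟩
  apply integral_of_lattice hd
  have key : ∀ x ∈ Set.range (P.toConfig.map κ hκ).a ∪ Set.range (P.toConfig.map κ hκ).b,
      ∃ g ∈ reflectionGroup P, ∀ z, rfl' (gdB d) x z = κ (g (κ.symm z)) := by
    intro x hx
    have hx' : ∃ x0 ∈ Set.range P.ua ∪ Set.range P.ub, x = κ x0 := by
      rcases hx with ⟨f, rfl⟩ | ⟨v, rfl⟩
      · exact ⟨P.ua f, Or.inl ⟨f, rfl⟩, rfl⟩
      · exact ⟨P.ub v, Or.inr ⟨v, rfl⟩, rfl⟩
    obtain ⟨x0, hx0, rfl⟩ := hx'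
    obtain ⟨g, hg, hgz⟩ := P.wall_mem x0 hx0
    refine ⟨g, hg, fun z => ?_⟩
    rw [← hgz, rfl'_apply, rfl'_apply, map_sub, map_smul, hκ, κ.apply_symm_apply]
  intro x hx y hy
  obtain ⟨g, hg, hgz⟩ := key x hx
  obtain ⟨g', hg', hgz'⟩ := key y hy
  obtain ⟨n, hn, hn'⟩ := hlat (g * g') (Subgroup.mul_mem _ hg hg')
  refine ⟨n, hn, fun z => ?_⟩
  obtain ⟨w, hw⟩ := hn' z
  refine ⟨w, ?_⟩
  rw [← hw]
  have hpow : ∀ (m : ℕ) (z : Fin 4 → ℝ),
      ((rfl' (gdB d) x ∘ₗ rfl' (gdB d) y) ^ m) z = κ (((g * g') ^ m) (κ.symm z)) := by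
    intro m
    induction m with
    | zero => intro z; simp
    | succ m ih =>
      intro z
      rw [pow_succ', pow_succ', Module.End.mul_apply, ih, LinearMap.comp_apply, hgz', hgz,
        κ.symm_apply_apply, κ.symm_apply_apply]
      rfl
  exact hpow n _

/-- partial result: `d ∈ {1, 2, 3, 5, 6, 10}` -/
theorem d_cases_poly (P : MidscribedPolyhedron V F D) (d : ℕ) (hd : Squarefree d)
    (h : CommensurableWith P d) :
    d = 1 ∨ d = 2 ∨ d = 3 ∨ d = 5 ∨ d = 6 ∨ d = 10 := by
  obtain ⟨C, -, ⟨I⟩⟩ := exists_integral P d hd h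
  rcases C.exists_three with ⟨d0, h0⟩ | ⟨d0, h0⟩
  · refine I.d_cases hd d0 ?_
    have := pow_per C.rot d0
    rwa [h0] at this
  · refine I.dual.d_cases hd d0 ?_
    have := pow_per C.phi d0
    rwa [h0] at this

end ArithPoly
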