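import Pool.Agent.LibArithPoly.DefsArith
import Pool.Agent.LibArithPoly.Transport

/-!
# A parabolic element of the reflection group and its matrix (tasks B1, B2)
-/

open scoped ComplexConjugate
open Matrix

namespace ArithPoly

variable {V F D : Type} [Fintype V] [Fintype F] [Fintype D]

/-! ### B1 -/

theorem MidscribedPolyhedron.exists_dart (P : MidscribedPolyhedron V F D) : Nonempty D := by
  by_contra hD
  rw [not_nonempty_iff] at hD
  have hV : IsEmpty V := ⟨fun v => by obtain ⟨d, -⟩ := P.vert_surj v; exact hD.false d⟩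
  have hF : IsEmpty F := ⟨fun v => by obtain ⟨d, -⟩ := P.face_surj v; exact hD.false d⟩
  have h := P.euler
  rw [Fintype.card_eq_zero, Fintype.card_eq_zero, Fintype.card_eq_zero] at h
  omega

theorem exists_parabolic (P : MidscribedPolyhedron V F D) : ∃ g ∈ reflectionGroup P,
    ∀ n : ℕ, 0 < n → g ^ n ≠ 1 ∧
      ((((g ^ n : Mink ≃ₗ[ℝ] Mink)) : Mink →ₗ[ℝ] Mink) - 1) ^ 3 = 0 := by
  obtain ⟨d⟩ := P.exists_dart
  have hs : ∀ x y, lorB x y = lorB y x := P.toConfig.symm
  obtain ⟨g1, hg1, hz1⟩ := P.wall_mem (P.toConfig.a (P.face d)) (Or.inl ⟨_, rfl⟩)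
  obtain ⟨g2, hg2, hz2⟩ := P.wall_mem (P.toConfig.a (P.face (P.rev d))) (Or.inl ⟨_, rfl⟩)
  have haa := P.toConfig.a_unit (P.face d)
  have haa' := P.toConfig.a_unit (P.face (P.rev d))
  have hN : P.toConfig.a (P.face d) + P.toConfig.a (P.face (P.rev d)) =
      P.toConfig.ca d • P.toConfig.p d := P.toConfig.sum_a d
  have hca := P.toConfig.ca_pos d
  set a := P.toConfig.a (P.face d) with ha
  set a' := P.toConfig.a (P.face (P.rev d)) with ha'
  set N := P.toConfig.ca d • P.toConfig.p d with hNdef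
  have hNN : lorB N N = 0 := by
    rw [hNdef]; simp [P.toConfig.p_null]
  have h1 := unip_prod lorB hs haa haa' hN hNN
  have hNa : lorB N a = 0 := by
    rw [← hN, map_add, LinearMap.add_apply, hs a' a, haa, h1]; norm_num
  have haN : lorB a N = 0 := by rw [hs, hNa]
  refine ⟨g1 * g2, Subgroup.mul_mem _ hg1 hg2, fun n hn => ?_⟩
  have hpow : ∀ (m : ℕ) (z : Mink),
      ((rfl' lorB a ∘ₗ rfl' lorB a') ^ m) z = ((g1 * g2) ^ m) z := by
    intro m
    induction m with
    | zero => intro z; simp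
    | succ m ih =>
      intro z
      rw [pow_succ', pow_succ', Module.End.mul_apply, ih, LinearMap.comp_apply, hz2, hz1]
      rfl
  have key : ∀ z, (((((g1 * g2) ^ n : Mink ≃ₗ[ℝ] Mink)) : Mink →ₗ[ℝ] Mink) - 1) z =
      (2 * n : ℝ) • (lorB a z • N - lorB N z • a) - (2 * n ^ 2 * lorB N z) • N := by
    intro z
    rw [LinearMap.sub_apply, Module.End.one_apply, LinearEquiv.coe_coe, ← hpow,
      unip_pow lorB hs haa haa' hN hNN n z]
    abel
  set T := ((((g1 * g2) ^ n : Mink ≃ₗ[ℝ] Mink)) : Mink →ₗ[ℝ] Mink) - 1 with hT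
  have kN : ∀ z, lorB N (T z) = 0 := by
    intro z
    rw [key]
    simp only [map_sub, map_smul, smul_eq_mul, hNN, hNa]; ring
  have ka : ∀ z, lorB a (T z) = -(2 * n) * lorB N z := by
    intro z
    rw [key]
    simp only [map_sub, map_smul, smul_eq_mul, haN, haa]; ring
  have kT2 : ∀ z, T (T z) = (-(4 * n ^ 2) * lorB N z) • N := by
    intro z
    rw [key (T z), kN, ka]
    module
  have kTN : T N = 0 := by
    rw [key N, haN, hNN]; simp
  constructor
  · intro h
    have hT0 : ∀ z, T z = 0 := by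
      intro z
      rw [hT, LinearMap.sub_apply, LinearEquiv.coe_coe, h]; simp
    have hz := P.toConfig.p_neg d (P.toConfig.rot d) (P.toConfig.rot_ne d)
      (P.toConfig.rot_ne_rev d)
    have h4 := kT2 (P.toConfig.p (P.toConfig.rot d))
    rw [hT0 (T _)] at h4
    have hn' : (0 : ℝ) < n := by exact_mod_cast hn
    have h5 : lorB N (P.toConfig.p (P.toConfig.rot d)) ≠ 0 := by
      rw [hNdef]
      simp only [map_smul, LinearMap.smul_apply, smul_eq_mul]
      exact mul_ne_zero hca.ne' hz.ne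
    have h6 := smul_eq_zero.1 h4.symm
    rcases h6 with h6 | h6
    · have : -(4 * (n : ℝ) ^ 2) ≠ 0 := by
        have : 0 < 4 * (n : ℝ) ^ 2 := by positivity
        linarith
      exact mul_ne_zero this h5 h6
    · rw [h6] at h5; simp at h5
  · apply LinearMap.ext
    intro z
    rw [pow_succ, pow_two, Module.End.mul_apply, Module.End.mul_apply, kT2 (T z), kN]
    simp

/-! ### B2 -/

theorem herm_add (x y : Mink) : herm (x + y) = herm x + herm y := by
  ext i j
  fin_cases i <;> fin_cases j <;> simp [herm] <;> ring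

theorem herm_smul (c : ℝ) (x : Mink) : herm (c • x) = (c : ℂ) • herm x := by
  ext i j
  fin_cases i <;> fin_cases j <;> simp [herm] <;> ring

theorem herm_sub (x y : Mink) : herm (x - y) = herm x - herm y := by
  ext i j
  fin_cases i <;> fin_cases j <;> simp [herm] <;> ring

/-- completeness relation of the Pauli matrices -/
theorem pauli (A B : Matrix (Fin 2) (Fin 2) ℂ) :
    ((1 : Matrix (Fin 2) (Fin 2) ℂ) * (A * 1 * B)).trace +
    ((!![1, 0; 0, -1] : Matrix (Fin 2) (Fin 2) ℂ) * (A * !![1, 0; 0, -1] * B)).trace +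
    ((!![0, 1; 1, 0] : Matrix (Fin 2) (Fin 2) ℂ) * (A * !![0, 1; 1, 0] * B)).trace +
    ((!![0, Complex.I; -Complex.I, 0] : Matrix (Fin 2) (Fin 2) ℂ) *
      (A * !![0, Complex.I; -Complex.I, 0] * B)).trace = 2 * A.trace * B.trace := by
  simp only [Matrix.trace_fin_two, Matrix.mul_apply, Fin.sum_univ_two, Matrix.one_apply, of_apply,
    cons_val', cons_val_zero, cons_val_one, cons_val_fin_one]
  simp
  linear_combination (-(A 0 0 * B 1 1) - B 0 0 * A 1 1 + A 0 1 * B 0 1 + B 1 0 * A 1 0) *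
    Complex.I_sq

/-- the four Pauli matrices are Hermitian matrices of vectors -/
theorem herm_pauli :
    herm ((0 : E3), (1 : ℝ)) = 1 ∧
    herm (EuclideanSpace.single 2 1, (0 : ℝ)) = !![1, 0; 0, -1] ∧
    herm (EuclideanSpace.single 0 1, (0 : ℝ)) = !![0, 1; 1, 0] ∧
    herm (EuclideanSpace.single 1 1, (0 : ℝ)) = !![0, Complex.I; -Complex.I, 0] := by
  refine ⟨?_, ?_, ?_, ?_⟩ <;>
  · ext i j
    fin_cases i <;> fin_cases j <;> simp [herm]

theorem trace_rel (M M' : Matrix (Fin 2) (Fin 2) ℂ)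
    (hK : ∀ X, M * (M * herm X * Mᴴ) * Mᴴ - (3 : ℂ) • (M * herm X * Mᴴ) + (3 : ℂ) • herm X -
      M' * herm X * M'ᴴ = 0) :
    (M * M).trace * (M * M)ᴴ.trace - 3 * (M.trace * Mᴴ.trace) + 12 - M'.trace * M'ᴴ.trace = 0 := by
  obtain ⟨p0, p1, p2, p3⟩ := herm_pauli
  have hK' : ∀ X, (herm X * ((M * M) * herm X * (M * M)ᴴ)).trace -
      3 * (herm X * (M * herm X * Mᴴ)).trace + 3 * (herm X * (1 * herm X * 1)).trace -
      (herm X * (M' * herm X * M'ᴴ)).trace = 0 := by
    intro X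
    have h := congrArg (fun Y => (herm X * Y).trace) (hK X)
    simp only [mul_add, mul_sub, Matrix.trace_add, Matrix.trace_sub, Matrix.mul_smul,
      Matrix.trace_smul, smul_eq_mul, mul_zero, Matrix.trace_zero] at h
    rw [conjTranspose_mul]
    simp only [one_mul, mul_one, Matrix.mul_assoc] at h ⊢
    exact h
  have e0 := hK' ((0 : E3), (1 : ℝ))
  have e1 := hK' (EuclideanSpace.single 2 1, (0 : ℝ))
  have e2 := hK' (EuclideanSpace.single 0 1, (0 : ℝ))
  have e3 := hK' (EuclideanSpace.single 1 1, (0 : ℝ))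
  rw [p0] at e0
  rw [p1] at e1
  rw [p2] at e2
  rw [p3] at e3
  have f0 := pauli (M * M) (M * M)ᴴ
  have f1 := pauli M Mᴴ
  have f2 := pauli 1 1
  have f3 := pauli M' M'ᴴ
  have t1 : (1 : Matrix (Fin 2) (Fin 2) ℂ).trace = 2 := by simp
  rw [t1] at f2
  linear_combination (1 / 2 : ℂ) * (e0 + e1 + e2 + e3) - (1 / 2 : ℂ) * f0 + (3 / 2 : ℂ) * f1 -
    (3 / 2 : ℂ) * f2 + (1 / 2 : ℂ) * f3

theorem parabolic_matrix (M : Matrix (Fin 2) (Fin 2) ℂ) (hM : M.det = 1) (g : Mink ≃ₗ[ℝ] Mink)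
    (hg : ∀ X, herm (g X) = M * herm X * Mᴴ) (h1 : g ≠ 1)
    (h3 : ((g : Mink →ₗ[ℝ] Mink) - 1) ^ 3 = 0) :
    ∃ ε : ℤ, (ε = 1 ∨ ε = -1) ∧ (M - (ε : ℂ) • (1 : Matrix (Fin 2) (Fin 2) ℂ)) ^ 2 = 0 ∧
      M - (ε : ℂ) • (1 : Matrix (Fin 2) (Fin 2) ℂ) ≠ 0 := by
  have hdet : IsUnit M.det := by rw [hM]; exact isUnit_one
  have hinv : M⁻¹ = !![M 1 1, - M 0 1; - M 1 0, M 0 0] := by
    rw [Matrix.inv_def, hM, Ring.inverse_one, one_smul, Matrix.adjugate_fin_two]
  have hg' : ∀ X, herm (g.symm X) = M⁻¹ * herm X * (M⁻¹)ᴴ := by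
    intro X
    have h := hg (g.symm X)
    rw [g.apply_symm_apply] at h
    rw [h, conjTranspose_nonsing_inv]
    have h5 : IsUnit Mᴴ.det := by rw [det_conjTranspose, hM]; simp
    rw [← Matrix.mul_assoc, ← Matrix.mul_assoc, Matrix.nonsing_inv_mul _ hdet, Matrix.one_mul,
      Matrix.mul_assoc, Matrix.mul_nonsing_inv _ h5, Matrix.mul_one]
  have hK : ∀ X, M * (M * herm X * Mᴴ) * Mᴴ - (3 : ℂ) • (M * herm X * Mᴴ) + (3 : ℂ) • herm X -
      M⁻¹ * herm X * (M⁻¹)ᴴ = 0 := by
    intro X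
    have h := congrArg (fun f => f (g.symm X)) h3
    simp only [pow_succ, pow_zero, one_mul, Module.End.mul_apply, LinearMap.sub_apply,
      Module.End.one_apply, LinearEquiv.coe_coe, map_sub, g.apply_symm_apply,
      LinearMap.zero_apply] at h
    have h4 : g (g X) - (3 : ℝ) • g X + (3 : ℝ) • X - g.symm X = 0 := by
      rw [← h]; module
    have h5 := congrArg herm h4
    rw [herm_sub, herm_add, herm_sub, herm_smul, herm_smul, hg', hg, hg] at h5
    have h6 : herm 0 = 0 := by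
      have := herm_smul 0 0
      simpa using this
    rw [h6] at h5
    rw [← h5]
    push_cast
    rfl
  have hrel := trace_rel M M⁻¹ hK
  have htr : (M⁻¹).trace = M.trace := by
    rw [hinv]; simp [Matrix.trace_fin_two]; ring
  have htr2 : (M * M).trace = M.trace ^ 2 - 2 := by
    rw [Matrix.det_fin_two] at hM
    simp only [Matrix.trace_fin_two, Matrix.mul_apply, Fin.sum_univ_two]
    linear_combination (-2 : ℂ) * hM
  rw [trace_conjTranspose, trace_conjTranspose, trace_conjTranspose, htr, htr2] at hrel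
  have hreal : (M.trace.re ^ 2 + M.trace.im ^ 2 - 4) ^ 2 + 8 * M.trace.im ^ 2 = 0 := by
    have h := congrArg Complex.re hrel
    simp [pow_two] at h
    nlinarith [h]
  have him : M.trace.im = 0 := by
    have : M.trace.im ^ 2 = 0 := by
      nlinarith [sq_nonneg (M.trace.re ^ 2 + M.trace.im ^ 2 - 4), sq_nonneg M.trace.im]
    simpa using this
  have hre : M.trace.re ^ 2 = 4 := by
    rw [him] at hreal
    have : (M.trace.re ^ 2 - 4) ^ 2 = 0 := by
      rw [← hreal]; ring
    have h2 : M.trace.re ^ 2 - 4 = 0 := by simpa using this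
    linarith
  have hε : ∃ ε : ℤ, (ε = 1 ∨ ε = -1) ∧ M.trace = 2 * ε := by
    have h4 : (M.trace.re - 2) * (M.trace.re + 2) = 0 := by linarith
    rcases mul_eq_zero.1 h4 with h5 | h5
    · refine ⟨1, Or.inl rfl, ?_⟩
      apply Complex.ext
      · simp; linarith
      · simp [him]
    · refine ⟨-1, Or.inr rfl, ?_⟩
      apply Complex.ext
      · simp; linarith
      · simp [him]
  obtain ⟨ε, hε1, hε2⟩ := hε
  have hεsq : (ε : ℂ) * ε = 1 := by
    rcases hε1 with h | h <;> rw [h] <;> norm_num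
  refine ⟨ε, hε1, ?_, ?_⟩
  · rw [Matrix.det_fin_two] at hM
    rw [Matrix.trace_fin_two] at hε2
    have e11 : M 1 1 = 2 * ε - M 0 0 := by linear_combination hε2
    rw [e11] at hM
    ext i j
    rw [pow_two, Matrix.mul_apply, Fin.sum_univ_two]
    fin_cases i <;> fin_cases j
    · simp
      linear_combination (-1 : ℂ) * hM + hεsq
    · simp
      rw [e11]; ring
    · simp
      rw [e11]; ring
    · simp
      rw [e11]
      linear_combination (-1 : ℂ) * hM + hεsq
  · intro h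
    apply h1
    have hM' : M = (ε : ℂ) • (1 : Matrix (Fin 2) (Fin 2) ℂ) := sub_eq_zero.1 h
    apply LinearEquiv.ext
    intro X
    apply herm_injective
    rw [hg, hM']
    simp only [conjTranspose_smul, conjTranspose_one, Matrix.smul_mul, Matrix.mul_smul,
      Matrix.one_mul, Matrix.mul_one, smul_smul]
    rw [show star (ε : ℂ) * (ε : ℂ) = 1 by
      rw [← hεsq]; simp]
    rw [one_smul]
    rfl

end ArithPoly
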