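import Pool.Agent.LibArithPoly.DefsArith

/-!
# Quaternion algebras with a nilpotent element

Task B3: a quaternion algebra over a field which has a nonzero nilpotent element is unramified at
all real places and is split.
-/

open scoped ComplexConjugate
open Matrix

namespace ArithPoly

section

variable {k : Type} [Field k] [CharZero k]

theorem quat_sq_eq (a b : k) (y : QuaternionAlgebra k a 0 b) :
    y * y = algebraMap k _ (2 * y.re) * y -
      algebraMap k _ (y.re ^ 2 - a * y.imI ^ 2 - b * y.imJ ^ 2 + a * b * y.imK ^ 2) := by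
  ext <;> simp [QuaternionAlgebra.algebraMap_eq] <;> ring

theorem re_eq_zero_of_nilp (σ : k →+* ℂ) (a b : k)
    (ρ : QuaternionAlgebra k a 0 b →+* Matrix (Fin 2) (Fin 2) ℂ)
    (hρ : ∀ c : k, ρ (algebraMap k _ c) = (σ c) • (1 : Matrix (Fin 2) (Fin 2) ℂ))
    (y : QuaternionAlgebra k a 0 b) (hy : (ρ y) ^ 2 = 0) (hy0 : ρ y ≠ 0) :
    y.re = 0 ∧ - a * y.imI ^ 2 - b * y.imJ ^ 2 + a * b * y.imK ^ 2 = 0 := by
  have h := congrArg ρ (quat_sq_eq a b y)
  rw [map_mul, map_sub, map_mul, hρ, hρ, ← pow_two, hy] at h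
  have hre : y.re = 0 := by
    by_contra hne
    have h1 : σ (2 * y.re) ≠ 0 := by
      intro h0
      rw [map_eq_zero] at h0
      exact hne (by simpa using h0)
    obtain ⟨c, hc⟩ : ∃ c : ℂ, ρ y = c • (1 : Matrix (Fin 2) (Fin 2) ℂ) := by
      refine ⟨(σ (2 * y.re))⁻¹ * σ (y.re ^ 2 - a * y.imI ^ 2 - b * y.imJ ^ 2 +
        a * b * y.imK ^ 2), ?_⟩
      rw [mul_smul, ← sub_eq_zero.mp h.symm, smul_mul_assoc, one_mul, smul_smul,
        inv_mul_cancel₀ h1, one_smul]
    rw [hc] at hy hy0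
    rw [smul_pow, one_pow] at hy
    have h2 := congrFun (congrFun hy 0) 0
    simp at h2
    exact hy0 (by rw [h2, zero_smul])
  refine ⟨hre, ?_⟩
  rw [hre] at h
  have h2 := congrFun (congrFun h 0) 0
  simp only [mul_zero, map_zero, zero_smul, zero_mul, zero_sub, Matrix.zero_apply,
    Matrix.neg_apply, Matrix.smul_apply, Matrix.one_apply_eq, smul_eq_mul, mul_one] at h2
  have h3 : σ (0 ^ 2 - a * y.imI ^ 2 - b * y.imJ ^ 2 + a * b * y.imK ^ 2) = 0 := by
    linear_combination h2
  rw [map_eq_zero] at h3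
  linear_combination h3

/-- matrix units from a pair of nilpotents -/
theorem exists_pair (a b : k) (ha : a ≠ 0) (hb : b ≠ 0) (y : QuaternionAlgebra k a 0 b)
    (hy0 : y ≠ 0) (hre : y.re = 0)
    (hN : - a * y.imI ^ 2 - b * y.imJ ^ 2 + a * b * y.imK ^ 2 = 0) :
    ∃ z : QuaternionAlgebra k a 0 b, y * y = 0 ∧ z * z = 0 ∧ y * z + z * y = 1 := by
  have hyy : y * y = 0 := by
    ext <;> simp [hre]
    · linear_combination -hN
    · ring
    · ring
    · ring
  -- a pure element with trace one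
  obtain ⟨w, hw0, hw⟩ : ∃ w : QuaternionAlgebra k a 0 b, w.re = 0 ∧
      y * w + w * y = 1 := by
    by_cases h1 : y.imI = 0
    · by_cases h2 : y.imJ = 0
      · have h3 : y.imK ≠ 0 := by
          intro h3
          exact hy0 (by ext <;> simp [hre, h1, h2, h3])
        refine ⟨⟨0, 0, 0, -(2 * a * b * y.imK)⁻¹⟩, rfl, ?_⟩
        ext <;> simp [hre, h1, h2]
        field_simp
        ring
      · refine ⟨⟨0, 0, (2 * b * y.imJ)⁻¹, 0⟩, rfl, ?_⟩
        ext <;> simp [hre, h1] <;> field_simp <;> ring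
    · refine ⟨⟨0, (2 * a * y.imI)⁻¹, 0, 0⟩, rfl, ?_⟩
      ext <;> simp [hre] <;> field_simp <;> ring
  refine ⟨w + algebraMap k _ (- a * w.imI ^ 2 - b * w.imJ ^ 2 + a * b * w.imK ^ 2) * y,
    hyy, ?_, ?_⟩
  · have h1 := quat_sq_eq a b w
    rw [hw0] at h1
    have h2 : ∀ c : k, (w + algebraMap k _ c * y) * (w + algebraMap k _ c * y) =
        w * w + algebraMap k _ c * (y * w + w * y) + algebraMap k _ (c * c) * (y * y) := by
      intro c
      have e : w * (algebraMap k _ c * y) = algebraMap k _ c * (w * y) := by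
        rw [← mul_assoc, ← Algebra.commutes, mul_assoc]
      have e2 : algebraMap k _ c * y * (algebraMap k _ c * y) =
          algebraMap k (QuaternionAlgebra k a 0 b) (c * c) * (y * y) := by
        rw [map_mul, mul_assoc, ← mul_assoc y, ← Algebra.commutes, mul_assoc, mul_assoc]
      rw [add_mul, mul_add, mul_add, e, e2, mul_add, mul_assoc]
      abel
    rw [h2, hyy, hw, h1, mul_one, mul_zero, mul_zero, add_zero, map_zero, zero_mul, zero_sub,
      ← map_neg, ← map_add]
    rw [← map_zero (algebraMap k (QuaternionAlgebra k a 0 b))]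
    congr 1
    ring
  · have e : ∀ c : k, y * (w + algebraMap k _ c * y) + (w + algebraMap k _ c * y) * y =
        (y * w + w * y) + algebraMap k _ c * (y * y) + algebraMap k _ c * (y * y) := by
      intro c
      have e1 : y * (algebraMap k _ c * y) = algebraMap k _ c * (y * y) := by
        rw [← mul_assoc, ← Algebra.commutes, mul_assoc]
      rw [mul_add, add_mul, e1, mul_assoc]
      abel
    rw [e, hyy, hw]
    simp

/-- the ring homomorphism given by matrix units -/
noncomputable def unitsHom {A : Type} [Ring A] [Algebra k A] (y z : A) (hy : y * y = 0)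
    (hz : z * z = 0) (h : y * z + z * y = 1) : Matrix (Fin 2) (Fin 2) k →ₐ[k] A := by
  have hzy : z * y = 1 - y * z := by rw [← h]; abel
  have h1 : y * z * y = y := by
    rw [mul_assoc, hzy, mul_sub, mul_one, ← mul_assoc, hy, zero_mul, sub_zero]
  have h2 : z * y * z = z := by
    rw [hzy, sub_mul, one_mul, mul_assoc, hz, mul_zero, sub_zero]
  refine AlgHom.ofLinearMap
    { toFun := fun M => M 0 0 • (y * z) + M 0 1 • y + M 1 0 • z + M 1 1 • (z * y)
      map_add' := fun M N => by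
        simp only [Matrix.add_apply, add_smul]
        abel
      map_smul' := fun c M => by
        simp only [Matrix.smul_apply, smul_eq_mul, mul_smul, smul_add, RingHom.id_apply] }
    ?_ ?_
  · simp [h]
  · intro M N
    have m1 : (y * z) * (y * z) = y * z := by rw [← mul_assoc, h1]
    have m2 : (y * z) * y = y := h1
    have m3 : (y * z) * z = 0 := by rw [mul_assoc, hz, mul_zero]
    have m4 : (y * z) * (z * y) = 0 := by rw [← mul_assoc, m3, zero_mul]
    have m5 : y * (y * z) = 0 := by rw [← mul_assoc, hy, zero_mul]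
    have m6 : y * (z * y) = y := by rw [← mul_assoc, h1]
    have m7 : z * (y * z) = z := by rw [← mul_assoc, h2]
    have m8 : z * (z * y) = 0 := by rw [← mul_assoc, hz, zero_mul]
    have m9 : (z * y) * (y * z) = 0 := by rw [mul_assoc, m5, mul_zero]
    have m10 : (z * y) * y = 0 := by rw [mul_assoc, hy, mul_zero]
    have m11 : (z * y) * z = z := h2
    have m12 : (z * y) * (z * y) = z * y := by rw [← mul_assoc, h2]
    simp only [LinearMap.coe_mk, AddHom.coe_mk, Matrix.mul_apply, Fin.sum_univ_two, add_mul,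
      mul_add, smul_mul_smul_comm, m1, m2, m3, m4, m5, m6, m7, m8, m9, m10, m11, m12, hy, hz,
      smul_zero, add_smul]
    abel

theorem unitsHom_apply {A : Type} [Ring A] [Algebra k A] (y z : A) (hy : y * y = 0)
    (hz : z * z = 0) (h : y * z + z * y = 1) (M : Matrix (Fin 2) (Fin 2) k) :
    unitsHom (k := k) y z hy hz h M =
      M 0 0 • (y * z) + M 0 1 • y + M 1 0 • z + M 1 1 • (z * y) := rfl

end

/-- a pair of complex matrices with the relations of `E₀₁`, `E₁₀` is conjugate to them -/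
theorem conj_units (Y Z : Matrix (Fin 2) (Fin 2) ℂ) (hY : Y * Y = 0) (hZ : Z * Z = 0)
    (h : Y * Z + Z * Y = 1) :
    ∃ H : Matrix (Fin 2) (Fin 2) ℂ, H.det = 1 ∧
      H * Y * H⁻¹ = !![0, 1; 0, 0] ∧ H * Z * H⁻¹ = !![0, 0; 1, 0] := by
  have hY0 : Y ≠ 0 := by
    intro h0
    rw [h0] at h
    simp at h
  obtain ⟨w, hw⟩ : ∃ w, Y *ᵥ w ≠ 0 := by
    by_contra hcon
    push Not at hcon
    apply hY0
    ext i j
    have := congrFun (hcon (Pi.single j 1)) i
    simpa using this
  set v := Y *ᵥ w with hv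
  set u := Z *ᵥ v with hu
  have hYv : Y *ᵥ v = 0 := by rw [hv, mulVec_mulVec, hY, zero_mulVec]
  have hZu : Z *ᵥ u = 0 := by rw [hu, mulVec_mulVec, hZ, zero_mulVec]
  have hYu : Y *ᵥ u = v := by
    have h1 : (Y * Z + Z * Y) *ᵥ v = v := by rw [h, one_mulVec]
    rw [add_mulVec, ← mulVec_mulVec, ← mulVec_mulVec, hYv, mulVec_zero, add_zero] at h1
    exact h1
  set P : Matrix (Fin 2) (Fin 2) ℂ := !![v 0, u 0; v 1, u 1] with hP
  have hYP : Y * P = P * !![0, 1; 0, 0] := by
    have e1 := congrFun hYv 0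
    have e2 := congrFun hYv 1
    have e3 := congrFun hYu 0
    have e4 := congrFun hYu 1
    simp only [mulVec, dotProduct, Fin.sum_univ_two, Pi.zero_apply] at e1 e2 e3 e4
    ext i j
    fin_cases i <;> fin_cases j <;>
      simp [hP, Matrix.mul_apply, Fin.sum_univ_two, e1, e2, e3, e4]
  have hZP : Z * P = P * !![0, 0; 1, 0] := by
    have e1 := congrFun hZu 0
    have e2 := congrFun hZu 1
    have e3 := congrFun hu 0
    have e4 := congrFun hu 1
    simp only [mulVec, dotProduct, Fin.sum_univ_two, Pi.zero_apply] at e1 e2 e3 e4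
    ext i j
    fin_cases i <;> fin_cases j <;>
      simp [hP, Matrix.mul_apply, Fin.sum_univ_two, e1, e2] <;> simp [← e3, ← e4]
  have hdet : P.det ≠ 0 := by
    intro h0
    obtain ⟨c, hc0, hc⟩ := exists_mulVec_eq_zero_iff.mpr h0
    have h1 : c 0 • v + c 1 • u = 0 := by
      have e1 := congrFun hc 0
      have e2 := congrFun hc 1
      simp [hP, mulVec, dotProduct, Fin.sum_univ_two] at e1 e2
      ext i
      fin_cases i
      · simp only [Fin.zero_eta, Pi.add_apply, Pi.smul_apply, smul_eq_mul, Pi.zero_apply]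
        linear_combination e1
      · simp only [Fin.mk_one, Pi.add_apply, Pi.smul_apply, smul_eq_mul, Pi.zero_apply]
        linear_combination e2
    have h2 := congrArg (fun t => Y *ᵥ t) h1
    simp only [mulVec_add, mulVec_smul, hYv, hYu, smul_zero, zero_add, mulVec_zero] at h2
    have h3 : c 1 = 0 := (smul_eq_zero.mp h2).resolve_right hw
    rw [h3, zero_smul, add_zero] at h1
    have h4 : c 0 = 0 := (smul_eq_zero.mp h1).resolve_right hw
    apply hc0
    ext i
    fin_cases i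
    · exact h4
    · exact h3
  obtain ⟨s, hs⟩ : ∃ s : ℂ, s ^ 2 = P.det := IsAlgClosed.exists_pow_nat_eq _ (by norm_num)
  have hs0 : s ≠ 0 := by
    rintro rfl
    apply hdet
    rw [← hs]; ring
  have hPu : IsUnit P.det := isUnit_iff_ne_zero.mpr hdet
  have hPP : P⁻¹ * P = 1 := nonsing_inv_mul P hPu
  have hinv : (s • P⁻¹)⁻¹ = s⁻¹ • P := by
    apply inv_eq_right_inv
    rw [smul_mul_smul_comm, hPP, mul_inv_cancel₀ hs0, one_smul]
  have hconj : ∀ M N : Matrix (Fin 2) (Fin 2) ℂ, M * P = P * N →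
      (s • P⁻¹) * M * (s • P⁻¹)⁻¹ = N := by
    intro M N hMN
    rw [hinv, smul_mul_assoc, smul_mul_smul_comm, mul_inv_cancel₀ hs0, one_smul, mul_assoc, hMN,
      ← mul_assoc, hPP, one_mul]
  refine ⟨s • P⁻¹, ?_, hconj _ _ hYP, hconj _ _ hZP⟩
  rw [det_smul, Fintype.card_fin, hs, det_nonsing_inv, Ring.mul_inverse_cancel _ hPu]

section

variable {k : Type} [Field k] [CharZero k] (σ : k →+* ℂ) (a b : k)
    (ρ : QuaternionAlgebra k a 0 b →+* Matrix (Fin 2) (Fin 2) ℂ) (ha : a ≠ 0) (hb : b ≠ 0)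
    (hρ : ∀ c : k, ρ (algebraMap k _ c) = (σ c) • (1 : Matrix (Fin 2) (Fin 2) ℂ))
    (y : QuaternionAlgebra k a 0 b) (hy : (ρ y) ^ 2 = 0) (hy0 : ρ y ≠ 0)
include ha hb hρ hy hy0

theorem no_real_place (τ : k →+* ℝ) : ¬ (τ a < 0 ∧ τ b < 0) := by
  rintro ⟨h1, h2⟩
  obtain ⟨hre, hN⟩ := re_eq_zero_of_nilp σ a b ρ hρ y hy hy0
  have h3 := congrArg τ hN
  simp only [map_add, map_sub, map_mul, map_neg, map_pow, map_zero] at h3
  have t1 : 0 ≤ - τ a * τ y.imI ^ 2 := mul_nonneg (by linarith) (sq_nonneg _)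
  have t2 : 0 ≤ - τ b * τ y.imJ ^ 2 := mul_nonneg (by linarith) (sq_nonneg _)
  have t3 : 0 ≤ τ a * τ b * τ y.imK ^ 2 :=
    mul_nonneg (mul_nonneg_of_nonpos_of_nonpos h1.le h2.le) (sq_nonneg _)
  have e1 : - τ a * τ y.imI ^ 2 = 0 := by linarith
  have e2 : - τ b * τ y.imJ ^ 2 = 0 := by linarith
  have e3 : τ a * τ b * τ y.imK ^ 2 = 0 := by linarith
  have f1 : y.imI = 0 := by
    rcases mul_eq_zero.mp e1 with h | h
    · linarith
    · exact (map_eq_zero τ).mp (pow_eq_zero_iff (by norm_num) |>.mp h)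
  have f2 : y.imJ = 0 := by
    rcases mul_eq_zero.mp e2 with h | h
    · linarith
    · exact (map_eq_zero τ).mp (pow_eq_zero_iff (by norm_num) |>.mp h)
  have f3 : y.imK = 0 := by
    rcases mul_eq_zero.mp e3 with h | h
    · rcases mul_eq_zero.mp h with h | h <;> linarith
    · exact (map_eq_zero τ).mp (pow_eq_zero_iff (by norm_num) |>.mp h)
  apply hy0
  have : y = 0 := by ext <;> simp [hre, f1, f2, f3]
  rw [this, map_zero]

theorem exists_split : ∃ (h : Matrix (Fin 2) (Fin 2) ℂ)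
    (φ : QuaternionAlgebra k a 0 b ≃+* Matrix (Fin 2) (Fin 2) k), h.det = 1 ∧
    ∀ x, h * ρ x * h⁻¹ = (φ x).map σ := by
  obtain ⟨hre, hN⟩ := re_eq_zero_of_nilp σ a b ρ hρ y hy hy0
  have hyne : y ≠ 0 := by
    rintro rfl
    exact hy0 (map_zero ρ)
  obtain ⟨z, hyy, hzz, hyz⟩ := exists_pair a b ha hb y hyne hre hN
  set ψ := unitsHom (k := k) y z hyy hzz hyz with hψ
  have hinj : Function.Injective ψ := by
    have := RingHom.injective ψ.toRingHom
    exact this
  have hfin : Module.finrank k (Matrix (Fin 2) (Fin 2) k) =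
      Module.finrank k (QuaternionAlgebra k a 0 b) := by
    rw [QuaternionAlgebra.finrank_eq_four, Module.finrank_matrix]
    simp
  have hsurj : Function.Surjective ψ :=
    (LinearMap.injective_iff_surjective_of_finrank_eq_finrank (f := ψ.toLinearMap) hfin).mp hinj
  set e := RingEquiv.ofBijective ψ ⟨hinj, hsurj⟩ with he
  obtain ⟨H, hH, hHY, hHZ⟩ := conj_units (ρ y) (ρ z) (by rw [← map_mul, hyy, map_zero])
    (by rw [← map_mul, hzz, map_zero]) (by rw [← map_mul, ← map_mul, ← map_add, hyz, map_one])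
  refine ⟨H, e.symm, hH, fun x => ?_⟩
  obtain ⟨M, rfl⟩ := e.surjective x
  rw [RingEquiv.symm_apply_apply]
  have hHu : IsUnit H.det := by rw [hH]; exact isUnit_one
  have hHH : H⁻¹ * H = 1 := nonsing_inv_mul H hHu
  have hsm : ∀ (c : k) (q : QuaternionAlgebra k a 0 b), ρ (c • q) = σ c • ρ q := by
    intro c q
    rw [Algebra.smul_def, map_mul, hρ, smul_mul_assoc, one_mul]
  have heM : e M = M 0 0 • (y * z) + M 0 1 • y + M 1 0 • z + M 1 1 • (z * y) := rfl
  have hc : ∀ A B : Matrix (Fin 2) (Fin 2) ℂ,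
      H * (A * B) * H⁻¹ = (H * A * H⁻¹) * (H * B * H⁻¹) := by
    intro A B
    have : (H * A * H⁻¹) * (H * B * H⁻¹) = H * A * (H⁻¹ * H) * B * H⁻¹ := by
      simp only [Matrix.mul_assoc]
    rw [this, hHH, mul_one]
    simp only [Matrix.mul_assoc]
  rw [heM, map_add, map_add, map_add, hsm, hsm, hsm, hsm, map_mul, map_mul]
  simp only [mul_add, add_mul, mul_smul_comm, smul_mul_assoc, hc, hHY, hHZ]
  ext i j
  fin_cases i <;> fin_cases j <;> simp [Matrix.mul_apply, Fin.sum_univ_two]

end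

end ArithPoly
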