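import Mathlib

/-!
Task B4: a number field without real embeddings with exactly one complex place is
an imaginary quadratic field.
-/

namespace ArithPoly

open scoped ComplexConjugate

theorem quad_field (k : Type) [Field k] [NumberField k] (σ : k →+* ℂ)
    (hσ : ∃ x, conj (σ x) ≠ σ x)
    (h1 : ∀ τ : k →+* ℂ, (∃ x, conj (τ x) ≠ τ x) → τ = σ ∨ τ = (starRingEnd ℂ).comp σ)
    (h2 : (k →+* ℝ) → False) :
    ∃ (d : ℕ) (s : k), Squarefree d ∧ σ s = (Real.sqrt d : ℂ) * Complex.I ∧
      ∀ x : k, ∃ p q : ℚ, x = p + q * s := by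
  classical
  -- every embedding is non-real
  have hall : ∀ τ : k →+* ℂ, τ = σ ∨ τ = (starRingEnd ℂ).comp σ := by
    intro τ
    apply h1
    by_contra hcon
    push Not at hcon
    have hreal : NumberField.ComplexEmbedding.IsReal τ := by
      rw [NumberField.ComplexEmbedding.isReal_iff]
      ext x
      simpa using hcon x
    exact h2 hreal.embedding
  have hcard : Fintype.card (k →+* ℂ) ≤ 2 := by
    have hsub : (Finset.univ : Finset (k →+* ℂ)) ⊆ {σ, (starRingEnd ℂ).comp σ} := by
      intro τ _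
      rcases hall τ with h | h <;> simp [h]
    calc Fintype.card (k →+* ℂ) = (Finset.univ : Finset (k →+* ℂ)).card := rfl
      _ ≤ ({σ, (starRingEnd ℂ).comp σ} : Finset (k →+* ℂ)).card := Finset.card_le_card hsub
      _ ≤ 2 := Finset.card_le_two
  rw [NumberField.Embeddings.card k ℂ] at hcard
  obtain ⟨al, hal⟩ := hσ
  -- 1, al independent
  have hli : LinearIndependent ℚ ![(1 : k), al] := by
    rw [LinearIndependent.pair_iff]
    intro a b hab
    have hb : b = 0 := by
      by_contra hb
      apply hal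
      have h3 : al = ((-a / b : ℚ) : k) := by
        have hb' : ((b : ℚ) : k) ≠ 0 := by exact_mod_cast hb
        rw [Algebra.smul_def, Algebra.smul_def] at hab
        simp only [eq_ratCast, mul_one] at hab
        push_cast
        field_simp
        linear_combination hab
      rw [h3]
      rw [map_ratCast]
      simp
    subst hb
    rw [zero_smul, add_zero] at hab
    refine ⟨?_, rfl⟩
    rcases smul_eq_zero.mp hab with h | h
    · exact h
    · exact absurd h one_ne_zero
  have hspan : ⊤ ≤ Submodule.span ℚ (Set.range ![(1 : k), al]) := by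
    have hfin : Module.finrank ℚ k ≤ Module.finrank ℚ (Submodule.span ℚ (Set.range ![(1 : k), al])) := by
      rw [finrank_span_eq_card hli]
      simpa using hcard
    have := Submodule.eq_top_of_finrank_eq
      (le_antisymm (Submodule.finrank_le (Submodule.span ℚ (Set.range ![(1 : k), al]))) hfin)
    rw [this]
  have hrep : ∀ x : k, ∃ p q : ℚ, x = p + q * al := by
    intro x
    have hx := hspan (Submodule.mem_top : x ∈ ⊤)
    rw [Matrix.range_cons, Matrix.range_cons, Matrix.range_empty, Set.union_empty,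
      Set.singleton_union, Submodule.mem_span_pair] at hx
    obtain ⟨p, q, hpq⟩ := hx
    refine ⟨p, q, ?_⟩
    rw [← hpq, Algebra.smul_def, Algebra.smul_def]
    simp
  obtain ⟨p, q, hpq⟩ := hrep (al ^ 2)
  set s0 : k := 2 * al - (q : k) with hs0
  set D : ℚ := 4 * p + q ^ 2 with hD
  have hs0sq : s0 ^ 2 = (D : k) := by
    rw [hs0, hD]
    push_cast
    linear_combination 4 * hpq
  have hs0real : conj (σ s0) ≠ σ s0 := by
    intro h
    apply hal
    have h4 : σ al = (σ s0 + ((q : ℚ) : ℂ)) / 2 := by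
      rw [hs0]
      rw [map_sub, map_mul, map_ratCast, map_ofNat]
      ring
    rw [h4]
    rw [map_div₀, map_add, h, map_ofNat]
    simp
  have hσsq : (σ s0) ^ 2 = ((D : ℚ) : ℂ) := by
    rw [← map_pow, hs0sq, map_ratCast]
  have hDneg : D < 0 := by
    by_contra hD0
    push Not at hD0
    apply hs0real
    have hDr : (0 : ℝ) ≤ (D : ℝ) := by exact_mod_cast hD0
    have h5 : (σ s0) ^ 2 = ((Real.sqrt (D : ℝ) : ℝ) : ℂ) ^ 2 := by
      rw [hσsq, ← Complex.ofReal_pow, Real.sq_sqrt hDr]
      simp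
    rcases sq_eq_sq_iff_eq_or_eq_neg.mp h5 with h | h
    · rw [h]; simp
    · rw [h]; simp
  -- squarefree part
  set n : ℕ := (-D).num.natAbs with hn
  set m : ℕ := (-D).den with hm
  have hmpos : 0 < m := (-D).den_pos
  have hDpos : 0 < -D := by linarith
  have hnum : ((-D).num : ℤ) = (n : ℤ) := by
    rw [hn]
    exact (Int.natAbs_of_nonneg (Rat.num_nonneg.mpr hDpos.le)).symm
  have hDnm : -D = (n : ℚ) / (m : ℚ) := by
    conv_lhs => rw [← Rat.num_div_den (-D)]
    rw [hnum]
    simp [hm]
  obtain ⟨a, b, hab, hsf⟩ := Nat.sq_mul_squarefree (n * m)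
  have hmq : (m : ℚ) ≠ 0 := by exact_mod_cast hmpos.ne'
  have hnpos : 0 < n := by
    rcases Nat.eq_zero_or_pos n with h | h
    · exfalso
      rw [hDnm, h] at hDpos
      simp at hDpos
    · exact h
  have hbpos : 0 < b := by
    rcases Nat.eq_zero_or_pos b with h | h
    · exfalso
      rw [h] at hab
      have : 0 < n * m := Nat.mul_pos hnpos hmpos
      rw [← hab] at this
      simp at this
    · exact h
  have hbq : (b : ℚ) ≠ 0 := by exact_mod_cast hbpos.ne'
  have habq : (b : ℚ) ^ 2 * (a : ℚ) = n * m := by exact_mod_cast hab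
  have hDa : D = - ((a : ℚ) * ((b : ℚ) / m) ^ 2) := by
    have h6 : -D = (a : ℚ) * ((b : ℚ) / m) ^ 2 := by
      rw [hDnm]
      field_simp
      linear_combination (-1 : ℚ) * habq
    linarith
  set r : ℚ := (m : ℚ) / b with hr
  have hrne : r ≠ 0 := div_ne_zero hmq hbq
  set s1 : k := (r : k) * s0 with hs1
  have hs1sq : s1 ^ 2 = -(a : k) := by
    rw [hs1, mul_pow, hs0sq]
    have h7 : r ^ 2 * D = -(a : ℚ) := by
      rw [hDa, hr]
      field_simp
    have h8 : ((r ^ 2 * D : ℚ) : k) = ((-(a : ℚ) : ℚ) : k) := by rw [h7]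
    push_cast at h8
    exact h8
  have hσs1 : (σ s1) ^ 2 = ((Real.sqrt a : ℂ) * Complex.I) ^ 2 := by
    rw [← map_pow, hs1sq, map_neg, map_natCast, mul_pow, Complex.I_sq,
      ← Complex.ofReal_pow, Real.sq_sqrt (Nat.cast_nonneg a)]
    simp
  have hrk : ((r : ℚ) : k) ≠ 0 := by exact_mod_cast hrne
  have hal2 : al = ((q / 2 : ℚ) : k) + ((1 / (2 * r) : ℚ) : k) * s1 := by
    rw [hs1, hs0]
    push_cast
    field_simp
    ring
  rcases sq_eq_sq_iff_eq_or_eq_neg.mp hσs1 with h | h
  · refine ⟨a, s1, hsf, h, ?_⟩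
    intro x
    obtain ⟨u, v, huv⟩ := hrep x
    refine ⟨u + v * (q / 2), v * (1 / (2 * r)), ?_⟩
    rw [huv]
    nth_rewrite 1 [hal2]
    push_cast
    ring
  · refine ⟨a, -s1, hsf, ?_, ?_⟩
    · rw [map_neg, h, neg_neg]
    intro x
    obtain ⟨u, v, huv⟩ := hrep x
    refine ⟨u + v * (q / 2), - (v * (1 / (2 * r))), ?_⟩
    rw [huv]
    nth_rewrite 1 [hal2]
    push_cast
    ring

end ArithPoly
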