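import Pool.Agent.LibArithPoly.DefsArith

/-!
# Unit groups of two orders are commensurable
-/

open scoped ComplexConjugate
open Matrix

namespace ArithPoly

variable {A : Type} [Ring A]

/-- `g` is the transformation of the unit `x` -/
def Rep (ρ : A →+* Matrix (Fin 2) (Fin 2) ℂ) (g : Mink ≃ₗ[ℝ] Mink) (x : A) : Prop :=
  (ρ x).det = 1 ∧ ∀ X, herm (g X) = ρ x * herm X * (ρ x)ᴴ

theorem Rep.mul {ρ : A →+* Matrix (Fin 2) (Fin 2) ℂ} {g h : Mink ≃ₗ[ℝ] Mink} {x y : A}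
    (hg : Rep ρ g x) (hh : Rep ρ h y) : Rep ρ (g * h) (x * y) := by
  refine ⟨by rw [map_mul, Matrix.det_mul, hg.1, hh.1, one_mul], fun X => ?_⟩
  rw [LinearEquiv.mul_apply, hg.2, hh.2]
  simp only [map_mul, conjTranspose_mul, Matrix.mul_assoc]

theorem Rep.inv {ρ : A →+* Matrix (Fin 2) (Fin 2) ℂ} {g : Mink ≃ₗ[ℝ] Mink} {x y : A}
    (hg : Rep ρ g x) (hyx : y * x = 1) : Rep ρ g⁻¹ y := by
  have e : ρ y * ρ x = 1 := by rw [← map_mul, hyx, map_one]
  have e2 : (ρ x)ᴴ * (ρ y)ᴴ = 1 := by rw [← conjTranspose_mul, e, conjTranspose_one]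
  refine ⟨?_, fun X => ?_⟩
  · have := congrArg Matrix.det e
    rwa [Matrix.det_mul, hg.1, mul_one, Matrix.det_one] at this
  · have h1 := hg.2 (g⁻¹ X)
    have h2 : g (g⁻¹ X) = X := by
      rw [← LinearEquiv.mul_apply, mul_inv_cancel]; rfl
    rw [h2] at h1
    calc herm (g⁻¹ X) = (ρ y * ρ x) * herm (g⁻¹ X) * ((ρ x)ᴴ * (ρ y)ᴴ) := by rw [e, e2]; simp
      _ = ρ y * (ρ x * herm (g⁻¹ X) * (ρ x)ᴴ) * (ρ y)ᴴ := by simp only [Matrix.mul_assoc]
      _ = _ := by rw [← h1]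

theorem mem_unitGroup {ρ : A →+* Matrix (Fin 2) (Fin 2) ℂ} {O : Subring A}
    {g : Mink ≃ₗ[ℝ] Mink} : g ∈ unitGroup ρ O ↔
      ∃ x y : A, x ∈ O ∧ y ∈ O ∧ x * y = 1 ∧ y * x = 1 ∧ Rep ρ g x := by
  constructor
  · rintro ⟨x, hx1, hx⟩
    refine ⟨(x : O), ((x⁻¹ : Oˣ) : O), (x : O).2, ((x⁻¹ : Oˣ) : O).2, ?_, ?_, hx1, hx⟩
    · rw [← Subring.coe_mul, Units.mul_inv]; simp
    · rw [← Subring.coe_mul, Units.inv_mul]; simp
  · rintro ⟨x, y, hx, hy, hxy, hyx, hrep⟩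
    exact ⟨⟨⟨x, hx⟩, ⟨y, hy⟩, Subtype.ext hxy, Subtype.ext hyx⟩, hrep.1, hrep.2⟩

theorem exists_uniform (O1 O2 : Subring A) (h1 : O1.toAddSubgroup.FG)
    (h2 : ∀ x : A, ∃ n : ℕ, 0 < n ∧ n • x ∈ O2) :
    ∃ N : ℕ, 0 < N ∧ ∀ x ∈ O1, N • x ∈ O2 := by
  classical
  obtain ⟨S, hS⟩ := h1
  choose n hn hn2 using h2
  have key : ∀ x ∈ AddSubgroup.closure (S : Set A), (∏ s ∈ S, n s) • x ∈ O2 := by
    intro x hx
    induction hx using AddSubgroup.closure_induction with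
    | mem y hy =>
      obtain ⟨c, hc⟩ := Finset.dvd_prod_of_mem n (Finset.mem_coe.1 hy)
      rw [hc, mul_comm, mul_smul]
      exact nsmul_mem (hn2 y) c
    | zero => rw [smul_zero]; exact O2.zero_mem
    | add y z _ _ hy hz => rw [smul_add]; exact O2.add_mem hy hz
    | neg y _ hy => rw [smul_neg]; exact O2.neg_mem hy
  refine ⟨∏ s ∈ S, n s, Finset.prod_pos (fun s _ => hn s), fun x hx => key x ?_⟩
  rw [hS]; exact hx

theorem relIndex_unitGroup (ρ : A →+* Matrix (Fin 2) (Fin 2) ℂ) (O1 O2 : Subring A)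
    (h1 : O1.toAddSubgroup.FG) (h2 : ∀ x : A, ∃ n : ℕ, 0 < n ∧ n • x ∈ O2) :
    (unitGroup ρ O2).relIndex (unitGroup ρ O1) ≠ 0 := by
  classical
  obtain ⟨N, hN, hNO⟩ := exists_uniform O1 O2 h1 h2
  -- the finite quotient
  let K : AddSubgroup O1 := (nsmulAddMonoidHom (α := O1) N).range
  have hfin : Finite (O1 ⧸ K) := by
    have f1 : AddGroup.FG O1.toAddSubgroup := (AddGroup.fg_iff_addSubgroup_fg _).2 h1
    have f2 : AddGroup.FG O1 := f1
    have f3 : AddGroup.FG (O1 ⧸ K) := inferInstance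
    apply AddCommGroup.finite_of_fg_isAddTorsion
    intro z
    obtain ⟨m, rfl⟩ := QuotientAddGroup.mk_surjective z
    rw [isOfFinAddOrder_iff_nsmul_eq_zero]
    refine ⟨N, hN, ?_⟩
    rw [← QuotientAddGroup.mk_nsmul, QuotientAddGroup.eq_zero_iff]
    exact ⟨m, rfl⟩
  have hrep : ∀ g : unitGroup ρ O1, ∃ x y : A, x ∈ O1 ∧ y ∈ O1 ∧ x * y = 1 ∧ y * x = 1 ∧
      Rep ρ g x := fun g => mem_unitGroup.1 g.2
  choose x y hx hy hxy hyx hR using hrep
  let F : unitGroup ρ O1 → O1 ⧸ K := fun g => QuotientAddGroup.mk ⟨x g, hx g⟩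
  have key : ∀ g g' : unitGroup ρ O1, F g = F g' → (g : Mink ≃ₗ[ℝ] Mink)⁻¹ * g' ∈ unitGroup ρ O2 := by
    intro g g' h
    rw [QuotientAddGroup.eq] at h
    obtain ⟨m, hm⟩ := h
    have hm' : N • (m : A) = - x g + x g' := congrArg Subtype.val hm
    have o1 : y g * x g' ∈ O2 := by
      have : y g * x g' = 1 + N • (y g * (m : A)) := by
        rw [← mul_smul_comm, hm', mul_add, mul_neg, hyx]
        abel
      rw [this]
      exact O2.add_mem O2.one_mem (hNO _ (O1.mul_mem (hy g) m.2))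
    have o2 : y g' * x g ∈ O2 := by
      have : y g' * x g = 1 - N • (y g' * (m : A)) := by
        rw [← mul_smul_comm, hm', mul_add, mul_neg, hyx]
        abel
      rw [this]
      exact O2.sub_mem O2.one_mem (hNO _ (O1.mul_mem (hy g') m.2))
    refine mem_unitGroup.2 ⟨y g * x g', y g' * x g, o1, o2, ?_, ?_, ?_⟩
    · rw [mul_assoc, ← mul_assoc (x g'), hxy, one_mul, hyx]
    · rw [mul_assoc, ← mul_assoc (x g), hxy, one_mul, hyx]
    · exact ((hR g).inv (hyx g)).mul (hR g')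
  unfold Subgroup.relIndex
  have : Finite (unitGroup ρ O1 ⧸ (unitGroup ρ O2).subgroupOf (unitGroup ρ O1)) := by
    refine Finite.of_injective (fun q => F (Quotient.out q)) (fun q q' h => ?_)
    have h2 := key _ _ h
    rw [← QuotientGroup.out_eq' q, ← QuotientGroup.out_eq' q', QuotientGroup.eq]
    exact h2
  exact Subgroup.index_ne_zero_of_finite

theorem unitGroup_commensurable (ρ : A →+* Matrix (Fin 2) (Fin 2) ℂ)
    (O1 O2 : Subring A) (h1 : IsOrder O1) (h2 : IsOrder O2) :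
    Subgroup.Commensurable (unitGroup ρ O1) (unitGroup ρ O2) :=
  ⟨relIndex_unitGroup ρ O2 O1 h2.1 h1.2, relIndex_unitGroup ρ O1 O2 h1.1 h2.2⟩

end ArithPoly
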