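import Pool.Agent.LibArithPoly.BP1
import Pool.Agent.LibArithPoly.BP3
import Pool.Agent.LibArithPoly.BP4
import Pool.Agent.LibArithPoly.BP5

/-!
# Conjugating an arithmetic group into `PSL₂(ℤ[√-d])`
-/

open scoped ComplexConjugate RealInnerProductSpace
open Matrix

namespace ArithPoly

/-- the inverse of `herm` -/
noncomputable def unherm (H : Matrix (Fin 2) (Fin 2) ℂ) : Mink :=
  (!₂[(H 0 1).re, (H 0 1).im, ((H 0 0).re - (H 1 1).re) / 2], ((H 0 0).re + (H 1 1).re) / 2)

theorem unherm_herm (x : Mink) : unherm (herm x) = x := by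
  refine Prod.ext ?_ ?_
  · ext i
    fin_cases i
    · simp [unherm, herm]
    · simp [unherm, herm]
    · simp [unherm, herm]
  · simp [unherm, herm]

theorem herm_unherm (H : Matrix (Fin 2) (Fin 2) ℂ) (hH : Hᴴ = H) : herm (unherm H) = H := by
  have h00 := congrFun (congrFun hH 0) 0
  have h01 := congrFun (congrFun hH 0) 1
  have h10 := congrFun (congrFun hH 1) 0
  have h11 := congrFun (congrFun hH 1) 1
  simp only [conjTranspose_apply] at h00 h01 h10 h11
  ext i j
  fin_cases i <;> fin_cases j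
  · apply Complex.ext
    · simp [unherm, herm]; ring
    · have := congrArg Complex.im h00
      simp at this
      simp [unherm, herm]
      linarith
  · apply Complex.ext
    · simp [unherm, herm]
    · simp [unherm, herm]
  · apply Complex.ext
    · have := congrArg Complex.re h10
      simp at this
      simp [unherm, herm, this]
    · have := congrArg Complex.im h10
      simp at this
      simp [unherm, herm]
      linarith
  · apply Complex.ext
    · simp [unherm, herm]; ring
    · have := congrArg Complex.im h11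
      simp at this
      simp [unherm, herm]
      linarith

theorem herm_conjTranspose (x : Mink) : (herm x)ᴴ = herm x := by
  ext i j
  fin_cases i <;> fin_cases j <;> simp [herm, sub_eq_add_neg]

theorem det_herm (x : Mink) : (herm x).det = -((lor x x : ℝ) : ℂ) := by
  rw [Matrix.det_fin_two]
  simp only [herm, lor, of_apply, cons_val', cons_val_zero, cons_val_one, cons_val_fin_one,
    empty_val', PiLp.inner_apply, Fin.sum_univ_three]
  simp
  ring_nf
  simp
  ring

theorem conj_herm (h : Matrix (Fin 2) (Fin 2) ℂ) (x : Mink) :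
    (h * herm x * hᴴ)ᴴ = h * herm x * hᴴ := by
  rw [conjTranspose_mul, conjTranspose_mul, conjTranspose_conjTranspose, herm_conjTranspose,
    Matrix.mul_assoc]

theorem herm_conj (h : Matrix (Fin 2) (Fin 2) ℂ) (x : Mink) :
    herm (unherm (h * herm x * hᴴ)) = h * herm x * hᴴ := herm_unherm _ (conj_herm h x)

/-- the isometry of `ℝ^{3,1}` given by a matrix of determinant 1 -/
noncomputable def act (h : Matrix (Fin 2) (Fin 2) ℂ) (hh : h.det = 1) : Mink ≃ₗ[ℝ] Mink where
  toFun x := unherm (h * herm x * hᴴ)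
  invFun x := unherm (h⁻¹ * herm x * h⁻¹ᴴ)
  map_add' x y := by
    apply herm_injective
    rw [herm_conj, herm_add (unherm _) (unherm _), herm_conj, herm_conj, herm_add,
      Matrix.mul_add, Matrix.add_mul]
  map_smul' c x := by
    apply herm_injective
    rw [RingHom.id_apply, herm_conj, herm_smul c (unherm _), herm_conj, herm_smul,
      Matrix.mul_smul, Matrix.smul_mul]
  left_inv x := by
    apply herm_injective
    have hu : IsUnit h.det := by rw [hh]; exact isUnit_one
    have e1 : h⁻¹ * h = 1 := Matrix.nonsing_inv_mul h hu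
    have e2 : hᴴ * h⁻¹ᴴ = 1 := by rw [← conjTranspose_mul, e1, conjTranspose_one]
    show herm (unherm (h⁻¹ * herm (unherm (h * herm x * hᴴ)) * h⁻¹ᴴ)) = herm x
    rw [herm_conj, herm_conj]
    calc h⁻¹ * (h * herm x * hᴴ) * h⁻¹ᴴ = (h⁻¹ * h) * herm x * (hᴴ * h⁻¹ᴴ) := by
          simp only [Matrix.mul_assoc]
      _ = herm x := by rw [e1, e2]; simp
  right_inv x := by
    apply herm_injective
    have hu : IsUnit h.det := by rw [hh]; exact isUnit_one
    have e1 : h * h⁻¹ = 1 := Matrix.mul_nonsing_inv h hu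
    have e2 : h⁻¹ᴴ * hᴴ = 1 := by rw [← conjTranspose_mul, e1, conjTranspose_one]
    show herm (unherm (h * herm (unherm (h⁻¹ * herm x * h⁻¹ᴴ)) * hᴴ)) = herm x
    rw [herm_conj, herm_conj]
    calc h * (h⁻¹ * herm x * h⁻¹ᴴ) * hᴴ = (h * h⁻¹) * herm x * (h⁻¹ᴴ * hᴴ) := by
          simp only [Matrix.mul_assoc]
      _ = herm x := by rw [e1, e2]; simp

theorem herm_act (h : Matrix (Fin 2) (Fin 2) ℂ) (hh : h.det = 1) (x : Mink) :
    herm (act h hh x) = h * herm x * hᴴ := herm_conj h x

theorem act_isometry (h : Matrix (Fin 2) (Fin 2) ℂ) (hh : h.det = 1) (x y : Mink) :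
    lor (act h hh x) (act h hh y) = lor x y := by
  have key : ∀ z, lor (act h hh z) (act h hh z) = lor z z := by
    intro z
    have h1 := det_herm (act h hh z)
    rw [herm_act, Matrix.det_mul, Matrix.det_mul, Matrix.det_conjTranspose, hh, det_herm] at h1
    simp at h1
    exact_mod_cast h1.symm
  have h1 := key (x + y)
  rw [map_add, lor_add_left, lor_add_right, lor_add_right, lor_add_left, lor_add_right,
    lor_add_right, key x, key y] at h1
  have h2 := lor_comm (act h hh x) (act h hh y)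
  have h3 := lor_comm x y
  linarith

/-- conjugation of a unit group -/
theorem unitGroup_conj {A A' : Type} [Ring A] [Ring A'] (ρ : A →+* Matrix (Fin 2) (Fin 2) ℂ)
    (ρ' : A' →+* Matrix (Fin 2) (Fin 2) ℂ) (h : Matrix (Fin 2) (Fin 2) ℂ) (hh : h.det = 1)
    (φ : A ≃+* A') (hφ : ∀ x, h * ρ x * h⁻¹ = ρ' (φ x)) (O : Subring A) :
    (unitGroup ρ O).map (MulAut.conj (act h hh)).toMonoidHom =
      unitGroup ρ' (O.map (φ : A →+* A')) := by
  have hu : IsUnit h.det := by rw [hh]; exact isUnit_one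
  have e1 : h * h⁻¹ = 1 := Matrix.mul_nonsing_inv h hu
  have e1' : h⁻¹ * h = 1 := Matrix.nonsing_inv_mul h hu
  have e2 : h⁻¹ᴴ * hᴴ = 1 := by rw [← conjTranspose_mul, e1, conjTranspose_one]
  have e2' : hᴴ * h⁻¹ᴴ = 1 := by rw [← conjTranspose_mul, e1', conjTranspose_one]
  have hinv : h⁻¹.det = 1 := by
    have := congrArg Matrix.det e1
    rwa [Matrix.det_mul, hh, one_mul, Matrix.det_one] at this
  have hdet : ∀ x, (ρ' (φ x)).det = (ρ x).det := by
    intro x
    rw [← hφ, Matrix.det_mul, Matrix.det_mul, hh, hinv, one_mul, mul_one]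
  have hsymm : ∀ X, herm ((act h hh).symm X) = h⁻¹ * herm X * h⁻¹ᴴ := by
    intro X
    exact herm_conj h⁻¹ X
  ext g
  rw [Subgroup.mem_map]
  constructor
  · rintro ⟨g0, ⟨x, hx1, hx⟩, rfl⟩
    -- the unit of the image
    refine ⟨⟨⟨φ (x : O), ⟨_, (x : O).2, rfl⟩⟩, ⟨φ ((x⁻¹ : Oˣ) : O), ⟨_, ((x⁻¹ : Oˣ) : O).2, rfl⟩⟩,
      ?_, ?_⟩, ?_, ?_⟩
    · apply Subtype.ext
      show φ (x : O) * φ ((x⁻¹ : Oˣ) : O) = 1
      rw [← map_mul, ← Subring.coe_mul, Units.mul_inv]
      simp
    · apply Subtype.ext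
      show φ ((x⁻¹ : Oˣ) : O) * φ (x : O) = 1
      rw [← map_mul, ← Subring.coe_mul, Units.inv_mul]
      simp
    · show (ρ' (φ (x : O))).det = 1
      rw [hdet, hx1]
    · intro X
      show herm ((act h hh) (g0 ((act h hh).symm X))) = ρ' (φ (x : O)) * herm X * (ρ' (φ (x : O)))ᴴ
      rw [herm_act, hx, hsymm, ← hφ]
      simp only [conjTranspose_mul, Matrix.mul_assoc]
  · rintro ⟨x, hx1, hx⟩
    obtain ⟨y, hy, hyx⟩ := (x : (O.map (φ : A →+* A'))).2
    obtain ⟨z, hz, hzx⟩ := ((x⁻¹ : (O.map (φ : A →+* A'))ˣ) : (O.map (φ : A →+* A'))).2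
    have hyx' : φ y = ((x : (O.map (φ : A →+* A'))) : A') := hyx
    have hzx' : φ z = (((x⁻¹ : (O.map (φ : A →+* A'))ˣ) : (O.map (φ : A →+* A'))) : A') := hzx
    have m1 : y * z = 1 := by
      apply φ.injective
      rw [map_mul, hyx', hzx', ← Subring.coe_mul, Units.mul_inv]; simp
    have m2 : z * y = 1 := by
      apply φ.injective
      rw [map_mul, hyx', hzx', ← Subring.coe_mul, Units.inv_mul]; simp
    refine ⟨(act h hh)⁻¹ * g * (act h hh), ⟨⟨⟨y, hy⟩, ⟨z, hz⟩, Subtype.ext m1, Subtype.ext m2⟩,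
      ?_, ?_⟩, ?_⟩
    · show (ρ y).det = 1
      rw [← hdet, hyx']; exact hx1
    · intro X
      show herm ((act h hh).symm (g ((act h hh) X))) = ρ y * herm X * (ρ y)ᴴ
      rw [hsymm, hx, herm_act, ← hyx', ← hφ]
      simp only [conjTranspose_mul, ← Matrix.mul_assoc]
      rw [e1', Matrix.one_mul]
      simp only [Matrix.mul_assoc]
      rw [e2', Matrix.mul_one, ← Matrix.mul_assoc hᴴ, e2', Matrix.one_mul,
        ← Matrix.mul_assoc h⁻¹ h, e1', Matrix.one_mul]
    · show (act h hh) * ((act h hh)⁻¹ * g * (act h hh)) * (act h hh)⁻¹ = g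
      group

section field

variable {k : Type} [Field k] [CharZero k] (σ : k →+* ℂ) (d : ℕ) (s : k)
  (hs : σ s = (Real.sqrt d : ℂ) * Complex.I)

include hs in
theorem s_sq : s * s = ((-(d : ℤ) : ℤ) : k) := by
  apply σ.injective
  rw [map_mul, hs]
  have h : ((Real.sqrt d : ℝ) : ℂ) * (Real.sqrt d : ℝ) = (d : ℂ) := by
    rw [← Complex.ofReal_mul, Real.mul_self_sqrt (Nat.cast_nonneg d)]; simp
  calc (Real.sqrt d : ℂ) * Complex.I * ((Real.sqrt d : ℂ) * Complex.I)
      = ((Real.sqrt d : ℝ) : ℂ) * (Real.sqrt d : ℝ) * (Complex.I * Complex.I) := by ring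
    _ = _ := by rw [h, Complex.I_mul_I]; push_cast; simp

/-- `ℤ[√-d]` in the field `k` -/
noncomputable def theta : ℤ√(-(d : ℤ)) →+* k := Zsqrtd.lift ⟨s, s_sq σ d s hs⟩

theorem theta_apply (x : ℤ√(-(d : ℤ))) : theta σ d s hs x = x.re + x.im * s := rfl

theorem sigma_theta (x : ℤ√(-(d : ℤ))) : σ (theta σ d s hs x) = zsqrtToComplex d x := by
  rw [theta_apply, map_add, map_mul, hs, map_intCast, map_intCast]
  rfl

/-- the order `M₂(ℤ[√-d])` in `M₂(k)` -/
noncomputable def Od : Subring (Matrix (Fin 2) (Fin 2) k) := ((theta σ d s hs).mapMatrix).range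

theorem zsqrt_injective (hd : 0 < d) : Function.Injective (zsqrtToComplex d) := by
  intro x y h
  have h1 : (x.re : ℂ) + x.im * ((Real.sqrt d : ℂ) * Complex.I) =
      (y.re : ℂ) + y.im * ((Real.sqrt d : ℂ) * Complex.I) := h
  have e1 := congrArg Complex.re h1
  have e2 := congrArg Complex.im h1
  simp at e1 e2
  rcases e2 with e2 | e2
  · exact Zsqrtd.ext e1 e2
  · omega

theorem PSL2Z_eq (hd : 0 < d) : PSL2Z d = unitGroup σ.mapMatrix (Od σ d s hs) := by
  ext g
  constructor
  · rintro ⟨M, hM⟩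
    refine ⟨⟨⟨(theta σ d s hs).mapMatrix M.1, ⟨_, rfl⟩⟩, ⟨(theta σ d s hs).mapMatrix (M⁻¹).1, ⟨_, rfl⟩⟩,
      ?_, ?_⟩, ?_, ?_⟩
    · apply Subtype.ext
      show (theta σ d s hs).mapMatrix M.1 * (theta σ d s hs).mapMatrix (M⁻¹).1 = 1
      rw [← map_mul, ← Matrix.SpecialLinearGroup.coe_mul, mul_inv_cancel]
      simp
    · apply Subtype.ext
      show (theta σ d s hs).mapMatrix (M⁻¹).1 * (theta σ d s hs).mapMatrix M.1 = 1
      rw [← map_mul, ← Matrix.SpecialLinearGroup.coe_mul, inv_mul_cancel]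
      simp
    · show (σ.mapMatrix ((theta σ d s hs).mapMatrix M.1)).det = 1
      rw [← RingHom.map_det, ← RingHom.map_det, M.2, map_one, map_one]
    · intro X
      have e : (σ.mapMatrix ((theta σ d s hs).mapMatrix M.1)) = toC d M := by
        ext i j
        exact sigma_theta σ d s hs _
      show herm (g X) = (σ.mapMatrix ((theta σ d s hs).mapMatrix M.1)) * herm X *
        (σ.mapMatrix ((theta σ d s hs).mapMatrix M.1))ᴴ
      rw [e]; exact hM X
  · rintro ⟨x, hx1, hx⟩
    obtain ⟨m, hm⟩ := (x : Od σ d s hs).2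
    have e : σ.mapMatrix ((theta σ d s hs).mapMatrix m) = m.map (zsqrtToComplex d) := by
      ext i j
      exact sigma_theta σ d s hs _
    have hdet : m.det = 1 := by
      apply zsqrt_injective d hd
      rw [map_one, RingHom.map_det]
      have : ((zsqrtToComplex d).mapMatrix m) = σ.mapMatrix ((theta σ d s hs).mapMatrix m) := by
        rw [e]; rfl
      rw [this, hm]; exact hx1
    refine ⟨⟨m, hdet⟩, fun X => ?_⟩
    rw [hx]
    have e2 : toC d ⟨m, hdet⟩ = σ.mapMatrix ((x : Od σ d s hs) : Matrix (Fin 2) (Fin 2) k) := by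
      rw [← hm, e]; rfl
    rw [e2]

theorem isOrder_Od (hbasis : ∀ x : k, ∃ p q : ℚ, x = p + q * s) : IsOrder (Od σ d s hs) := by
  constructor
  · classical
    refine ⟨Finset.univ.image (fun p : Fin 2 × Fin 2 × Fin 2 =>
      if p.2.2 = 0 then Matrix.single p.1 p.2.1 (1 : k) else Matrix.single p.1 p.2.1 s), ?_⟩
    apply le_antisymm
    · rw [AddSubgroup.closure_le]
      intro m hm
      simp only [Finset.coe_image, Finset.coe_univ, Set.image_univ, Set.mem_range] at hm
      obtain ⟨⟨i, j, l⟩, rfl⟩ := hm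
      split_ifs
      · refine ⟨Matrix.single i j 1, ?_⟩
        rw [RingHom.mapMatrix_apply, Matrix.map_single, map_one]
      · refine ⟨Matrix.single i j ⟨0, 1⟩, ?_⟩
        rw [RingHom.mapMatrix_apply, Matrix.map_single, theta_apply]
        simp
    · rintro x ⟨m, rfl⟩
      have e : (theta σ d s hs).mapMatrix m = ∑ i, ∑ j, ((m i j).re • Matrix.single i j (1 : k) +
          (m i j).im • Matrix.single i j s) := by
        conv_lhs => rw [Matrix.matrix_eq_sum_single m]
        simp only [map_sum]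
        refine Finset.sum_congr rfl (fun i _ => Finset.sum_congr rfl (fun j _ => ?_))
        rw [RingHom.mapMatrix_apply, Matrix.map_single, theta_apply, Matrix.smul_single,
          Matrix.smul_single, ← Matrix.single_add]
        simp
      rw [e]
      refine AddSubgroup.sum_mem _ (fun i _ => AddSubgroup.sum_mem _ (fun j _ => ?_))
      refine AddSubgroup.add_mem _ (AddSubgroup.zsmul_mem _ (AddSubgroup.subset_closure ?_) _)
        (AddSubgroup.zsmul_mem _ (AddSubgroup.subset_closure ?_) _)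
      · simp only [Finset.coe_image, Finset.coe_univ, Set.image_univ, Set.mem_range]
        exact ⟨⟨i, j, 0⟩, by simp⟩
      · simp only [Finset.coe_image, Finset.coe_univ, Set.image_univ, Set.mem_range]
        exact ⟨⟨i, j, 1⟩, by simp⟩
  · intro x
    choose p q hpq using fun i j => hbasis (x i j)
    set N : ℕ := ∏ i, ∏ j, ((p i j).den * (q i j).den) with hN
    have hNpos : 0 < N := by
      rw [hN]
      refine Finset.prod_pos (fun i _ => Finset.prod_pos (fun j _ => ?_))
      exact Nat.mul_pos (p i j).den_pos (q i j).den_pos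
    have hdvd : ∀ i j, (p i j).den * (q i j).den ∣ N := by
      intro i j
      rw [hN]
      exact dvd_trans (Finset.dvd_prod_of_mem (fun j => (p i j).den * (q i j).den)
        (Finset.mem_univ j)) (Finset.dvd_prod_of_mem
          (fun i => ∏ j, ((p i j).den * (q i j).den)) (Finset.mem_univ i))
    have hmul : ∀ (r : ℚ) (n : ℕ), r.den ∣ n → ∃ a : ℤ, (n : ℚ) * r = a := by
      rintro r n ⟨c, rfl⟩
      refine ⟨c * r.num, ?_⟩
      have h1 : (r.den : ℚ) * r = r.num := Rat.den_mul_eq_num r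
      push_cast
      rw [← h1]; ring
    have hp : ∀ i j, ∃ a : ℤ, (N : ℚ) * p i j = a := fun i j =>
      hmul _ _ (dvd_trans (Nat.dvd_mul_right _ _) (hdvd i j))
    have hq : ∀ i j, ∃ a : ℤ, (N : ℚ) * q i j = a := fun i j =>
      hmul _ _ (dvd_trans (Nat.dvd_mul_left _ _) (hdvd i j))
    choose a ha using hp
    choose b hb using hq
    refine ⟨N, hNpos, ⟨Matrix.of (fun i j => ⟨a i j, b i j⟩), ?_⟩⟩
    ext i j
    rw [RingHom.mapMatrix_apply, Matrix.map_apply, Matrix.of_apply, theta_apply]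
    show ((a i j : ℤ) : k) + (b i j : ℤ) * s = (N • x) i j
    have h1 : ((a i j : ℤ) : k) = (N : k) * (p i j : k) := by
      have := congrArg (fun r : ℚ => (r : k)) (ha i j)
      push_cast at this
      exact this.symm
    have h2 : ((b i j : ℤ) : k) = (N : k) * (q i j : k) := by
      have := congrArg (fun r : ℚ => (r : k)) (hb i j)
      push_cast at this
      exact this.symm
    rw [h1, h2, Matrix.smul_apply, hpq i j, nsmul_eq_mul]
    ring

end field

theorem isOrder_map {A A' : Type} [Ring A] [Ring A'] (φ : A ≃+* A') (O : Subring A)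
    (h : IsOrder O) : IsOrder (O.map (φ : A →+* A')) := by
  constructor
  · classical
    obtain ⟨S, hS⟩ := h.1
    refine ⟨S.image φ, ?_⟩
    have e : AddSubgroup.closure ((φ : A → A') '' (S : Set A)) =
        (AddSubgroup.closure (S : Set A)).map ((φ : A →+* A') : A →+ A') :=
      (AddMonoidHom.map_closure ((φ : A →+* A') : A →+ A') (S : Set A)).symm
    rw [Finset.coe_image, e, hS]
    rfl
  · intro x
    obtain ⟨n, hn, hx⟩ := h.2 (φ.symm x)
    refine ⟨n, hn, ⟨n • φ.symm x, hx, ?_⟩⟩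
    show φ (n • φ.symm x) = n • x
    rw [map_nsmul, φ.apply_symm_apply]

theorem commensurable_map {G : Type} [Group G] {H K : Subgroup G} (f : G ≃* G)
    (h : Subgroup.Commensurable H K) :
    Subgroup.Commensurable (H.map f.toMonoidHom) (K.map f.toMonoidHom) := by
  constructor
  · rw [Subgroup.relIndex_map_map_of_injective _ _ f.injective]; exact h.1
  · rw [Subgroup.relIndex_map_map_of_injective _ _ f.injective]; exact h.2

variable {V F D : Type} [Fintype V] [Fintype F] [Fintype D]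

/-- an arithmetic polyhedron group is commensurable with some `PSL₂(ℤ[√-d])` -/
theorem exists_bianchi (P : MidscribedPolyhedron V F D) (h : IsArithmetic (reflectionGroup P)) :
    ∃ d, Squarefree d ∧ CommensurableWith P d := by
  obtain ⟨k, _, _, σ, a, b, ρ, O, T, hσ, hplace, ha, hb, hram, hρ, hO, hT, hcomm⟩ := h
  obtain ⟨g, hg, hpar⟩ := exists_parabolic P
  -- a power of the conjugate of `g` lies in the unit group
  obtain ⟨n, hn, -, hmem⟩ := Subgroup.exists_pow_mem_of_relIndex_ne_zero hcomm.2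
    (Subgroup.mem_map_of_mem _ hg : (MulAut.conj T).toMonoidHom g ∈ _)
  obtain ⟨hg1, hg3⟩ := hpar n hn
  have hpow : (MulAut.conj T).toMonoidHom g ^ n = T * g ^ n * T⁻¹ := by
    rw [← map_pow]; rfl
  rw [hpow] at hmem
  obtain ⟨x, hx1, hx⟩ := hmem.1
  have hne : T * g ^ n * T⁻¹ ≠ 1 := by
    intro h
    apply hg1
    have : g ^ n = T⁻¹ * (T * g ^ n * T⁻¹) * T := by group
    rw [this, h]; group
  have hnil : (((T * g ^ n * T⁻¹ : Mink ≃ₗ[ℝ] Mink) : Mink →ₗ[ℝ] Mink) - 1) ^ 3 = 0 := by
    have e : ∀ z, (((T * g ^ n * T⁻¹ : Mink ≃ₗ[ℝ] Mink) : Mink →ₗ[ℝ] Mink) - 1) z =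
        T (((((g ^ n : Mink ≃ₗ[ℝ] Mink)) : Mink →ₗ[ℝ] Mink) - 1) (T.symm z)) := by
      intro z
      rw [LinearMap.sub_apply, LinearMap.sub_apply, map_sub]
      show T ((g ^ n) (T.symm z)) - z = T ((g ^ n) (T.symm z)) - T (T.symm z)
      rw [T.apply_symm_apply]
    refine LinearMap.ext (fun z => ?_)
    rw [pow_succ, pow_succ, pow_one, Module.End.mul_apply, Module.End.mul_apply, e, e, e,
      T.symm_apply_apply, T.symm_apply_apply]
    have h3 := LinearMap.congr_fun hg3 (T.symm z)
    rw [pow_succ, pow_succ, pow_one, Module.End.mul_apply, Module.End.mul_apply] at h3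
    rw [h3]; simp
  obtain ⟨ε, -, hε2, hε0⟩ := parabolic_matrix _ hx1 _ hx hne hnil
  set y : QuaternionAlgebra k a 0 b := ((x : O) : QuaternionAlgebra k a 0 b) - algebraMap k _ (ε : k)
    with hy
  have hρy : ρ y = ρ (x : O) - (ε : ℂ) • (1 : Matrix (Fin 2) (Fin 2) ℂ) := by
    rw [hy, map_sub, hρ, map_intCast]
  rw [← hρy] at hε2 hε0
  have hreal : (k →+* ℝ) → False := fun τ =>
    no_real_place σ a b ρ ha hb hρ y hε2 hε0 τ (hram τ)
  obtain ⟨d, s, hd, hs, hbasis⟩ := quad_field k σ hσ hplace hreal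
  obtain ⟨h, φ, hh, hφ⟩ := exists_split σ a b ρ ha hb hρ y hε2 hε0
  refine ⟨d, hd, act h hh * T, ?_, ?_⟩
  · intro u v
    rw [LinearEquiv.mul_apply, LinearEquiv.mul_apply, act_isometry, hT]
  · have c1 := commensurable_map (MulAut.conj (act h hh)) hcomm
    have c2 := unitGroup_conj ρ σ.mapMatrix h hh φ (fun x => by rw [hφ]; rfl) O
    have c3 := unitGroup_commensurable σ.mapMatrix _ _ (isOrder_map φ O hO)
      (isOrder_Od σ d s hs hbasis)
    rw [← PSL2Z_eq σ d s hs (Nat.pos_of_ne_zero hd.ne_zero), ← c2] at c3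
    have c4 := c1.trans c3
    rw [Subgroup.map_map] at c4
    have e : (MulAut.conj (act h hh * T)).toMonoidHom =
        (MulAut.conj (act h hh)).toMonoidHom.comp (MulAut.conj T).toMonoidHom := by
      rw [map_mul]; rfl
    rw [e]
    exact c4

end ArithPoly
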