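import Mathlib

/-!
# Cycles of a permutation on a finite type
-/

namespace ArithPoly

open Equiv.Perm

set_option linter.unusedSectionVars false

variable {D : Type} [Fintype D]

/-- the length of the cycle through `d` -/
noncomputable def per (σ : Equiv.Perm D) (d : D) : ℕ := Function.minimalPeriod σ d

theorem per_pos (σ : Equiv.Perm D) (d : D) : 0 < per σ d := by
  apply Function.minimalPeriod_pos_of_mem_periodicPts
  have := σ.injective.mem_periodicPts d
  exact this

theorem pow_per (σ : Equiv.Perm D) (d : D) : (σ ^ per σ d) d = d := by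
  have := Function.isPeriodicPt_minimalPeriod σ d
  rw [Function.IsPeriodicPt, Function.IsFixedPt, ← Equiv.Perm.coe_pow] at this
  exact this

theorem pow_inj_of_lt (σ : Equiv.Perm D) (d : D) {i j : ℕ} (hi : i < per σ d) (hj : j < per σ d)
    (h : (σ ^ i) d = (σ ^ j) d) : i = j := by
  apply Function.iterate_injOn_Iio_minimalPeriod (f := σ) (x := d) hi hj
  simpa [Equiv.Perm.coe_pow] using h

theorem pow_mod (σ : Equiv.Perm D) (d : D) (i : ℕ) : (σ ^ (i % per σ d)) d = (σ ^ i) d := by
  have := Function.iterate_mod_minimalPeriod_eq (f := σ) (x := d) (n := i)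
  rw [← Equiv.Perm.coe_pow, ← Equiv.Perm.coe_pow] at this
  exact this

theorem pow_add_per (σ : Equiv.Perm D) (d : D) (i : ℕ) : (σ ^ (i + per σ d)) d = (σ ^ i) d := by
  rw [pow_add, Equiv.Perm.mul_apply, pow_per]

theorem exists_pow (σ : Equiv.Perm D) {d e : D} (h : σ.SameCycle d e) :
    ∃ i < per σ d, (σ ^ i) d = e := by
  obtain ⟨i, hi⟩ := h.exists_nat_pow_eq
  exact ⟨i % per σ d, Nat.mod_lt _ (per_pos σ d), by rw [pow_mod, hi]⟩

theorem sameCycle_pow (σ : Equiv.Perm D) (d : D) (i : ℕ) : σ.SameCycle d ((σ ^ i) d) :=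
  ⟨i, by simp⟩

/-- the cycle through `d` is parametrised by `Fin (per σ d)` -/
noncomputable def cycEquiv (σ : Equiv.Perm D) (d : D) : Fin (per σ d) ≃ {e // σ.SameCycle d e} :=
  Equiv.ofBijective (fun i => ⟨(σ ^ (i : ℕ)) d, sameCycle_pow σ d i⟩) (by
    constructor
    · intro i j h
      exact Fin.ext (pow_inj_of_lt σ d i.2 j.2 (congrArg Subtype.val h))
    · rintro ⟨e, he⟩
      obtain ⟨i, hi, h⟩ := exists_pow σ he
      exact ⟨⟨i, hi⟩, Subtype.ext h⟩)

theorem card_cycle (σ : Equiv.Perm D) (d : D) : Nat.card {e // σ.SameCycle d e} = per σ d := by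
  rw [← Nat.card_congr (cycEquiv σ d)]; simp

/-- if the fibres of `g` are the cycles of `σ`, products over fibres are products over a period -/
theorem prod_fiber {X M : Type} [DecidableEq X] [CommMonoid M] (σ : Equiv.Perm D) (g : D → X)
    (hg : ∀ d e, g d = g e ↔ σ.SameCycle d e) (F : D → M) (d : D) :
    ∏ e ∈ Finset.univ.filter (fun e => g e = g d), F e =
      ∏ i ∈ Finset.range (per σ d), F ((σ ^ i) d) := by
  symm
  apply Finset.prod_bij (fun i _ => (σ ^ i) d)
  · intro i _
    simp only [Finset.mem_filter, Finset.mem_univ, true_and]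
    exact ((hg _ _).2 (sameCycle_pow σ d i)).symm
  · intro i hi j hj h
    exact pow_inj_of_lt σ d (Finset.mem_range.1 hi) (Finset.mem_range.1 hj) h
  · intro e he
    simp only [Finset.mem_filter, Finset.mem_univ, true_and] at he
    obtain ⟨i, hi, h⟩ := exists_pow σ ((hg _ _).1 he.symm)
    exact ⟨i, Finset.mem_range.2 hi, h⟩
  · intro i _
    rfl

theorem sum_fiber {X M : Type} [DecidableEq X] [AddCommMonoid M] (σ : Equiv.Perm D) (g : D → X)
    (hg : ∀ d e, g d = g e ↔ σ.SameCycle d e) (F : D → M) (d : D) :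
    ∑ e ∈ Finset.univ.filter (fun e => g e = g d), F e =
      ∑ i ∈ Finset.range (per σ d), F ((σ ^ i) d) := by
  symm
  apply Finset.sum_bij (fun i _ => (σ ^ i) d)
  · intro i _
    simp only [Finset.mem_filter, Finset.mem_univ, true_and]
    exact ((hg _ _).2 (sameCycle_pow σ d i)).symm
  · intro i hi j hj h
    exact pow_inj_of_lt σ d (Finset.mem_range.1 hi) (Finset.mem_range.1 hj) h
  · intro e he
    simp only [Finset.mem_filter, Finset.mem_univ, true_and] at he
    obtain ⟨i, hi, h⟩ := exists_pow σ ((hg _ _).1 he.symm)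
    exact ⟨i, Finset.mem_range.2 hi, h⟩
  · intro i _
    rfl

/-- the fibres of `g` have cardinality the period -/
theorem card_fiber {X : Type} [DecidableEq X] (σ : Equiv.Perm D) (g : D → X)
    (hg : ∀ d e, g d = g e ↔ σ.SameCycle d e) (d : D) :
    (Finset.univ.filter (fun e => g e = g d)).card = per σ d := by
  rw [Finset.card_eq_sum_ones, sum_fiber σ g hg]; simp

theorem natCard_fiber {X : Type} (σ : Equiv.Perm D) (g : D → X)
    (hg : ∀ d e, g d = g e ↔ σ.SameCycle d e) (d : D) :
    Nat.card {e // g e = g d} = per σ d := by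
  rw [← card_cycle σ d]
  apply Nat.card_congr
  apply Equiv.subtypeEquivRight
  intro e
  rw [← hg]
  exact eq_comm

theorem per_pow (σ : Equiv.Perm D) (d : D) (i : ℕ) : per σ ((σ ^ i) d) = per σ d := by
  unfold per
  rw [Equiv.Perm.coe_pow]
  exact Function.minimalPeriod_apply_iterate (σ.injective.mem_periodicPts d) i

/-- the number of darts is the sum of the fibre sizes -/
theorem card_eq_sum {X : Type} [Fintype X] [DecidableEq X] (g : D → X) :
    Fintype.card D = ∑ x, (Finset.univ.filter (fun e => g e = x)).card := by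
  rw [← Finset.card_univ]
  exact Finset.card_eq_sum_card_fiberwise (fun _ _ => Finset.mem_coe.2 (Finset.mem_univ _))

end ArithPoly
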