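import Pool.Agent.LibArithPoly.T9Cone
import Pool.Agent.LibArithPoly.Cycles

/-!
# First consequences for configurations
-/

open Matrix

namespace ArithPoly

section LinAlg

variable {W : Type} [AddCommGroup W] [Module ℝ W] (B : LinearMap.BilinForm ℝ W)

theorem span4 (hf : Module.finrank ℝ W = 4) (x : Fin 4 → W) (hli : LinearIndependent ℝ x) (z : W) :
    ∃ c : Fin 4 → ℝ, z = c 0 • x 0 + c 1 • x 1 + c 2 • x 2 + c 3 • x 3 := by
  have : FiniteDimensional ℝ W := Module.finite_of_finrank_pos (by rw [hf]; norm_num)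
  have h : z ∈ Submodule.span ℝ (Set.range x) := by
    rw [hli.span_eq_top_of_card_eq_finrank (by simp [hf])]
    trivial
  rw [Submodule.mem_span_range_iff_exists_fun] at h
  obtain ⟨c, hc⟩ := h
  exact ⟨c, by rw [← hc, Fin.sum_univ_four]⟩

/-- expansion in a basis `a, b` (orthonormal) and `P, Q` (null) -/
theorem expand (hs : ∀ x y, B x y = B y x) (hf : Module.finrank ℝ W = 4) (a b P Q : W)
    (haa : B a a = 1) (hbb : B b b = 1) (hab : B a b = 0) (hPP : B P P = 0) (hQQ : B Q Q = 0)
    (haP : B a P = 0) (haQ : B a Q = 0) (hbP : B b P = 0) (hbQ : B b Q = 0) (hPQ : B P Q ≠ 0)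
    (z : W) :
    z = B z a • a + B z b • b + (B z Q / B P Q) • P + (B z P / B P Q) • Q := by
  have hli : LinearIndependent ℝ ![a, b, P, Q] := by
    rw [Fintype.linearIndependent_iff]
    intro c hc
    simp only [Fin.sum_univ_four, cons_val_zero, cons_val_one, cons_val] at hc
    have e1 := congrArg (B a) hc
    have e2 := congrArg (B b) hc
    have e3 := congrArg (B P) hc
    have e4 := congrArg (B Q) hc
    simp only [map_add, map_smul, smul_eq_mul, map_zero, haa, hbb, hab, hPP, hQQ, haP, haQ, hbP,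
      hbQ, hs b a, hs P a, hs P b, hs Q a, hs Q b, hs Q P, mul_zero, add_zero, mul_one,
      zero_add] at e1 e2 e3 e4
    intro i
    fin_cases i
    · exact e1
    · exact e2
    · rcases mul_eq_zero.mp e4 with h | h
      · exact h
      · exact absurd h hPQ
    · rcases mul_eq_zero.mp e3 with h | h
      · exact h
      · exact absurd h hPQ
  obtain ⟨c, hc⟩ := span4 hf _ hli z
  simp only [cons_val_zero, cons_val_one, cons_val] at hc
  have e1 : B z a = c 0 := by
    rw [hs, hc]
    simp only [map_add, map_smul, smul_eq_mul, haa, hab, haP, haQ]; ring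
  have e2 : B z b = c 1 := by
    rw [hs, hc]
    simp only [map_add, map_smul, smul_eq_mul, hs b a, hab, hbb, hbP, hbQ]; ring
  have e3 : B z P = c 3 * B P Q := by
    rw [hs, hc]
    simp only [map_add, map_smul, smul_eq_mul, hs P a, haP, hs P b, hbP, hPP]; ring
  have e4 : B z Q = c 2 * B P Q := by
    rw [hs, hc]
    simp only [map_add, map_smul, smul_eq_mul, hs Q a, haQ, hs Q b, hbQ, hs Q P, hQQ]; ring
  rw [e1, e2, e3, e4, mul_div_assoc, div_self hPQ, mul_div_assoc, div_self hPQ, mul_one, mul_one]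
  exact hc

theorem expand_norm (hs : ∀ x y, B x y = B y x) (hf : Module.finrank ℝ W = 4) (a b P Q : W)
    (haa : B a a = 1) (hbb : B b b = 1) (hab : B a b = 0) (hPP : B P P = 0) (hQQ : B Q Q = 0)
    (haP : B a P = 0) (haQ : B a Q = 0) (hbP : B b P = 0) (hbQ : B b Q = 0) (hPQ : B P Q ≠ 0)
    (z w : W) :
    B z w = B z a * B w a + B z b * B w b + (B z Q * B w P + B z P * B w Q) / B P Q := by
  have h := expand B hs hf a b P Q haa hbb hab hPP hQQ haP haQ hbP hbQ hPQ z
  have h2 := congrArg (fun x => B x w) h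
  simp only [map_add, map_smul, smul_eq_mul, LinearMap.add_apply, LinearMap.smul_apply] at h2
  rw [h2, hs a w, hs b w, hs P w, hs Q w]
  field_simp
  ring

/-- expansion in the basis of an ideal triangle and an orthogonal unit vector -/
theorem expand_tri (hs : ∀ x y, B x y = B y x) (hf : Module.finrank ℝ W = 4) (a1 a2 a3 b : W)
    (h11 : B a1 a1 = 1) (h22 : B a2 a2 = 1) (h33 : B a3 a3 = 1) (h12 : B a1 a2 = -1)
    (h13 : B a1 a3 = -1) (h23 : B a2 a3 = -1) (hb : B b b = 1) (h1b : B a1 b = 0)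
    (h2b : B a2 b = 0) (h3b : B a3 b = 0) (z : W) :
    z = (-(B z a2 + B z a3) / 2) • a1 + (-(B z a1 + B z a3) / 2) • a2 +
      (-(B z a1 + B z a2) / 2) • a3 + B z b • b := by
  have hli : LinearIndependent ℝ ![a1, a2, a3, b] := by
    rw [Fintype.linearIndependent_iff]
    intro c hc
    simp only [Fin.sum_univ_four, cons_val_zero, cons_val_one, cons_val] at hc
    have e1 := congrArg (B a1) hc
    have e2 := congrArg (B a2) hc
    have e3 := congrArg (B a3) hc
    have e4 := congrArg (B b) hc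
    simp only [map_add, map_smul, smul_eq_mul, map_zero, h11, h22, h33, h12, h13, h23, hb, h1b,
      h2b, h3b, hs a2 a1, hs a3 a1, hs a3 a2, hs b a1, hs b a2, hs b a3, mul_zero, add_zero,
      mul_one, zero_add] at e1 e2 e3 e4
    intro i
    fin_cases i
    · show c 0 = 0; linarith
    · show c 1 = 0; linarith
    · show c 2 = 0; linarith
    · show c 3 = 0; linarith
  obtain ⟨c, hc⟩ := span4 hf _ hli z
  simp only [cons_val_zero, cons_val_one, cons_val] at hc
  have e1 : B z a1 = c 0 - c 1 - c 2 := by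
    rw [hs, hc]
    simp only [map_add, map_smul, smul_eq_mul, h11, h12, h13, h1b]; ring
  have e2 : B z a2 = - c 0 + c 1 - c 2 := by
    rw [hs, hc]
    simp only [map_add, map_smul, smul_eq_mul, hs a2 a1, h12, h22, h23, h2b]; ring
  have e3 : B z a3 = - c 0 - c 1 + c 2 := by
    rw [hs, hc]
    simp only [map_add, map_smul, smul_eq_mul, hs a3 a1, hs a3 a2, h13, h23, h33, h3b]; ring
  have e4 : B z b = c 3 := by
    rw [hs, hc]
    simp only [map_add, map_smul, smul_eq_mul, hs b a1, hs b a2, hs b a3, h1b, h2b, h3b, hb]; ring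
  rw [e1, e2, e3, e4]
  rw [show -(-c 0 + c 1 - c 2 + (-c 0 - c 1 + c 2)) / 2 = c 0 by ring,
    show -(c 0 - c 1 - c 2 + (-c 0 - c 1 + c 2)) / 2 = c 1 by ring,
    show -(c 0 - c 1 - c 2 + (-c 0 + c 1 - c 2)) / 2 = c 2 by ring]
  exact hc

theorem expand_tri_norm (hs : ∀ x y, B x y = B y x) (hf : Module.finrank ℝ W = 4) (a1 a2 a3 b : W)
    (h11 : B a1 a1 = 1) (h22 : B a2 a2 = 1) (h33 : B a3 a3 = 1) (h12 : B a1 a2 = -1)
    (h13 : B a1 a3 = -1) (h23 : B a2 a3 = -1) (hb : B b b = 1) (h1b : B a1 b = 0)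
    (h2b : B a2 b = 0) (h3b : B a3 b = 0) (z w : W) :
    B z w = B z b * B w b - ((B z a2 + B z a3) * B w a1 + (B z a1 + B z a3) * B w a2 +
      (B z a1 + B z a2) * B w a3) / 2 := by
  have h := expand_tri B hs hf a1 a2 a3 b h11 h22 h33 h12 h13 h23 hb h1b h2b h3b z
  have h2 := congrArg (fun x => B x w) h
  simp only [map_add, map_smul, smul_eq_mul, LinearMap.add_apply, LinearMap.smul_apply] at h2
  rw [h2, hs a1 w, hs a2 w, hs a3 w, hs b w]
  ring

end LinAlg

variable {V F D : Type} [Fintype V] [Fintype F] [Fintype D]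

namespace DMap

variable (m : DMap V F D)

theorem phi_apply (d : D) : m.phi d = m.rot⁻¹ (m.rev d) := rfl

theorem rot_phi (d : D) : m.rot (m.phi d) = m.rev d := by
  rw [phi_apply]; simp

theorem vert_rot_inv (d : D) : m.vert (m.rot⁻¹ d) = m.vert d := by
  symm; rw [m.vert_iff]; exact ⟨-1, by simp⟩

theorem face_rev_rot (d : D) : m.face (m.rev (m.rot d)) = m.face d := by
  have h : m.phi (m.rev (m.rot d)) = d := by
    rw [phi_apply, m.rev_rev]; simp
  rw [← m.face_phi (m.rev (m.rot d)), h]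

theorem face_rot_inv (d : D) : m.face (m.rot⁻¹ d) = m.face (m.rev d) := by
  have h := m.face_phi (m.rev d)
  rw [phi_apply, m.rev_rev] at h
  exact h

theorem vert_rot_pow (d : D) (i : ℕ) : m.vert ((m.rot ^ i) d) = m.vert d := by
  symm; rw [m.vert_iff]; exact ⟨i, by simp⟩

theorem face_phi_pow (d : D) (i : ℕ) : m.face ((m.phi ^ i) d) = m.face d := by
  symm; rw [m.face_iff]; exact ⟨i, by simp [phi]⟩

theorem three_le_per_rot (d : D) : 3 ≤ per m.rot d := by
  have h := m.three_le_vert (m.vert d)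
  rwa [natCard_fiber m.rot m.vert m.vert_iff] at h

theorem three_le_per_phi (d : D) : 3 ≤ per m.phi d := by
  have h := m.three_le_face (m.face d)
  rwa [natCard_fiber m.phi m.face m.face_iff] at h

theorem rot_ne (d : D) : m.rot d ≠ d := by
  intro h
  have h3 := m.three_le_per_rot d
  have := pow_inj_of_lt m.rot d (i := 1) (j := 0) (by omega) (by omega) (by simpa using h)
  omega

theorem rot_ne_rev (d : D) : m.rot d ≠ m.rev d := by
  intro h
  apply m.vert_ne d
  rw [← h, vert_rot]

theorem phi_ne (d : D) : m.phi d ≠ d := by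
  intro h
  have h3 := m.three_le_per_phi d
  have := pow_inj_of_lt m.phi d (i := 1) (j := 0) (by omega) (by omega) (by simpa using h)
  omega

theorem phi_ne_rev (d : D) : m.phi d ≠ m.rev d := by
  intro h
  apply m.face_ne d
  rw [← h, face_phi]

end DMap

namespace Config

variable {W : Type} [AddCommGroup W] [Module ℝ W] {B : LinearMap.BilinForm ℝ W}
variable (C : Config B V F D)

theorem b_p0 (d : D) : B (C.b (C.vert d)) (C.p d) = 0 := by
  have h := congrArg (fun x => B x x) (C.sum_b d)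
  simp only [map_add, map_smul, smul_eq_mul, LinearMap.add_apply, LinearMap.smul_apply, C.b_unit,
    C.p_null, C.symm (C.b (C.vert (C.rev d))) (C.b (C.vert d)), mul_zero] at h
  have h2 := congrArg (fun x => B (C.b (C.vert d)) x) (C.sum_b d)
  simp only [map_add, map_smul, smul_eq_mul, C.b_unit] at h2
  have h3 : C.cb d * B (C.b (C.vert d)) (C.p d) = 0 := by linarith
  rcases mul_eq_zero.mp h3 with h | h
  · exact absurd h (C.cb_pos d).ne'
  · exact h

theorem b_p0' (d : D) : B (C.b (C.vert (C.rev d))) (C.p d) = 0 := by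
  rw [← C.p_rev]; exact C.b_p0 _

theorem a_p0 (d : D) : B (C.a (C.face d)) (C.p d) = 0 := by
  have h := congrArg (fun x => B x x) (C.sum_a d)
  simp only [map_add, map_smul, smul_eq_mul, LinearMap.add_apply, LinearMap.smul_apply, C.a_unit,
    C.p_null, C.symm (C.a (C.face (C.rev d))) (C.a (C.face d)), mul_zero] at h
  have h2 := congrArg (fun x => B (C.a (C.face d)) x) (C.sum_a d)
  simp only [map_add, map_smul, smul_eq_mul, C.a_unit] at h2
  have h3 : C.ca d * B (C.a (C.face d)) (C.p d) = 0 := by linarith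
  rcases mul_eq_zero.mp h3 with h | h
  · exact absurd h (C.ca_pos d).ne'
  · exact h

theorem a_p0' (d : D) : B (C.a (C.face (C.rev d))) (C.p d) = 0 := by
  rw [← C.p_rev]; exact C.a_p0 _

theorem bb_adj (d : D) : B (C.b (C.vert d)) (C.b (C.vert (C.rev d))) = -1 := by
  have h2 := congrArg (fun x => B (C.b (C.vert d)) x) (C.sum_b d)
  simp only [map_add, map_smul, smul_eq_mul, C.b_unit, C.b_p0, mul_zero] at h2
  linarith

theorem aa_adj (d : D) : B (C.a (C.face d)) (C.a (C.face (C.rev d))) = -1 := by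
  have h2 := congrArg (fun x => B (C.a (C.face d)) x) (C.sum_a d)
  simp only [map_add, map_smul, smul_eq_mul, C.a_unit, C.a_p0, mul_zero] at h2
  linarith

/-- incidence with the other end of a dart -/
theorem a_b' (d : D) : B (C.a (C.face d)) (C.b (C.vert (C.rev d))) = 0 := by
  have h := C.a_b (C.phi d)
  rwa [C.face_phi, C.vert_phi] at h

theorem a_b'' (d : D) : B (C.a (C.face (C.rev d))) (C.b (C.vert d)) = 0 := by
  have h := C.a_b' (C.rev d)
  rwa [C.rev_rev] at h

/-- the face is orthogonal to the previous edge at a corner -/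
theorem a_prot (d : D) : B (C.a (C.face d)) (C.p (C.rot d)) = 0 := by
  have h := C.a_p0 (C.rev (C.rot d))
  rwa [C.face_rev_rot, C.p_rev] at h

theorem b_prot (d : D) : B (C.b (C.vert d)) (C.p (C.rot d)) = 0 := by
  have h := C.b_p0 (C.rot d)
  rwa [C.vert_rot] at h

theorem pp_rot_neg (d : D) : B (C.p d) (C.p (C.rot d)) < 0 :=
  C.p_neg d (C.rot d) (C.rot_ne d) (C.rot_ne_rev d)

/-- expansion at a corner -/
theorem corner_norm (d : D) (z w : W) :
    B z w = B z (C.a (C.face d)) * B w (C.a (C.face d)) +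
      B z (C.b (C.vert d)) * B w (C.b (C.vert d)) +
      (B z (C.p (C.rot d)) * B w (C.p d) + B z (C.p d) * B w (C.p (C.rot d))) /
        B (C.p d) (C.p (C.rot d)) :=
  expand_norm B C.symm C.finrank _ _ _ _ (C.a_unit _) (C.b_unit _) (C.a_b d) (C.p_null _)
    (C.p_null _) (C.a_p0 d) (C.a_prot d) (C.b_p0 d) (C.b_prot d) (C.pp_rot_neg d).ne z w

theorem sum_b_rot (d : D) :
    C.b (C.vert d) + C.b (C.vert (C.rev (C.rot d))) = C.cb (C.rot d) • C.p (C.rot d) := by
  have h := C.sum_b (C.rot d)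
  rwa [C.vert_rot] at h

theorem sum_a_rot (d : D) :
    C.a (C.face d) + C.a (C.face (C.rot d)) = C.ca (C.rot d) • C.p (C.rot d) := by
  have h := C.sum_a (C.rot d)
  rw [C.face_rev_rot, add_comm] at h
  exact h

/-- `k`-value of a corner on the face polygon -/
noncomputable def kF (d : D) : ℝ := 2 - 2 * B (C.b (C.vert (C.rev d))) (C.b (C.vert (C.rev (C.rot d))))
/-- `k`-value of a corner on the vertex polygon -/
noncomputable def kV (d : D) : ℝ := 2 - 2 * B (C.a (C.face (C.rev d))) (C.a (C.face (C.rot d)))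

theorem kF_eq (d : D) : C.kF d = - 2 * C.cb d * C.cb (C.rot d) * B (C.p d) (C.p (C.rot d)) := by
  have h1 := C.sum_b d
  have h2 := C.sum_b_rot d
  have h3 : B (C.b (C.vert d) + C.b (C.vert (C.rev d)))
      (C.b (C.vert d) + C.b (C.vert (C.rev (C.rot d)))) =
      B (C.cb d • C.p d) (C.cb (C.rot d) • C.p (C.rot d)) := by rw [h1, h2]
  have h4 := C.bb_adj d
  have h5 := C.bb_adj (C.rot d)
  rw [C.vert_rot] at h5
  simp only [map_add, map_smul, smul_eq_mul, LinearMap.add_apply, LinearMap.smul_apply, C.b_unit,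
    h5, C.symm (C.b (C.vert (C.rev d))) (C.b (C.vert d)), h4] at h3
  unfold kF
  linarith

theorem kV_eq (d : D) : C.kV d = - 2 * C.ca d * C.ca (C.rot d) * B (C.p d) (C.p (C.rot d)) := by
  have h1 := C.sum_a d
  have h2 := C.sum_a_rot d
  have h3 : B (C.a (C.face d) + C.a (C.face (C.rev d)))
      (C.a (C.face d) + C.a (C.face (C.rot d))) =
      B (C.ca d • C.p d) (C.ca (C.rot d) • C.p (C.rot d)) := by rw [h1, h2]
  have h4 := C.aa_adj d
  have h5 := C.aa_adj (C.rot d)
  rw [C.face_rev_rot, C.symm] at h5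
  simp only [map_add, map_smul, smul_eq_mul, LinearMap.add_apply, LinearMap.smul_apply, C.a_unit,
    h5, C.symm (C.a (C.face (C.rev d))) (C.a (C.face d)), h4] at h3
  unfold kV
  linarith

theorem kF_pos (d : D) : 0 < C.kF d := by
  rw [kF_eq]
  have := C.pp_rot_neg d
  have h1 := C.cb_pos d
  have h2 := C.cb_pos (C.rot d)
  have : 0 < C.cb d * C.cb (C.rot d) := by positivity
  nlinarith

theorem kV_pos (d : D) : 0 < C.kV d := by
  rw [kV_eq]
  have := C.pp_rot_neg d
  have h1 := C.ca_pos d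
  have h2 := C.ca_pos (C.rot d)
  have : 0 < C.ca d * C.ca (C.rot d) := by positivity
  nlinarith

/-- ratio of the two sides of the cusp -/
noncomputable def τ (d : D) : ℝ := C.ca d / C.cb d

theorem τ_pos (d : D) : 0 < C.τ d := div_pos (C.ca_pos d) (C.cb_pos d)

theorem kV_kF (d : D) : C.kV d = C.τ d * C.τ (C.rot d) * C.kF d := by
  rw [kV_eq, kF_eq, τ, τ]
  have h1 := (C.cb_pos d).ne'
  have h2 := (C.cb_pos (C.rot d)).ne'
  field_simp

/-- In a quadrilateral face the two `k`-values satisfy `(k-4)(k'-4) = 16`. -/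
theorem quad (d : D) (h4 : C.phi (C.phi (C.phi (C.phi d))) = d) :
    (C.kF d - 4) * (C.kF (C.phi d) - 4) = 16 := by
  have hd3 : C.rot d = C.rev (C.phi (C.phi (C.phi d))) := by
    conv_lhs => rw [← h4]
    exact C.rot_phi _
  have hr : C.rev (C.rot d) = C.phi (C.phi (C.phi d)) := by rw [hd3, C.rev_rev]
  have n := C.corner_norm d (C.b (C.vert (C.phi (C.phi d)))) (C.b (C.vert (C.phi (C.phi d))))
  have a2 : B (C.b (C.vert (C.phi (C.phi d)))) (C.a (C.face d)) = 0 := by
    have := C.a_b (C.phi (C.phi d))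
    rw [C.face_phi, C.face_phi] at this
    rw [C.symm]; exact this
  rw [a2, C.b_unit] at n
  set b0 := C.b (C.vert d) with hb0
  set b2 := C.b (C.vert (C.phi (C.phi d))) with hb2
  have v1 : C.vert (C.rev d) = C.vert (C.phi d) := (C.vert_phi d).symm
  have e1 : C.cb d * B b2 (C.p d) = B b2 b0 - 1 := by
    have h1 := congrArg (B b2) (C.sum_b d)
    have h2 := C.bb_adj (C.phi d)
    rw [← C.vert_phi (C.phi d), C.symm] at h2
    simp only [map_add, map_smul, smul_eq_mul, v1, hb2, h2] at h1 ⊢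
    linarith
  have e2 : C.cb (C.rot d) * B b2 (C.p (C.rot d)) = B b2 b0 - 1 := by
    have h1 := congrArg (B b2) (C.sum_b_rot d)
    have h2 := C.bb_adj (C.phi (C.phi d))
    rw [← C.vert_phi (C.phi (C.phi d))] at h2
    simp only [map_add, map_smul, smul_eq_mul, hr, hb2, h2] at h1 ⊢
    linarith
  have e3 := C.kF_eq d
  have e5 : C.kF (C.phi d) = 2 - 2 * B b2 b0 := by
    unfold kF
    rw [C.rot_phi, C.rev_rev, ← C.vert_phi (C.phi d)]
  have p1 := C.kF_pos d
  have p2 := C.kF_pos (C.phi d)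
  have p3 := C.pp_rot_neg d
  have c1 := C.cb_pos d
  have c2 := C.cb_pos (C.rot d)
  -- eliminate
  set x := B b2 b0
  set β := B (C.p d) (C.p (C.rot d))
  set s := B b2 (C.p d)
  set t := B b2 (C.p (C.rot d))
  have n1 : (1 - x ^ 2) * β = 2 * (s * t) := by
    have h : (t * s + s * t) / β = 1 - x ^ 2 := by linarith
    rw [div_eq_iff p3.ne] at h
    linarith
  have n2 : (1 - x ^ 2) * (C.cb d * C.cb (C.rot d) * β) = 2 * (x - 1) ^ 2 := by
    have : C.cb d * s * (C.cb (C.rot d) * t) = (x - 1) ^ 2 := by rw [e1, e2]; ring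
    linear_combination (C.cb d * C.cb (C.rot d)) * n1 + 2 * this
  have n3 : (1 - x) * ((1 + x) * C.kF d + 4 * (1 - x)) = 0 := by
    rw [e3]; linear_combination -2 * n2
  have hx : 1 - x ≠ 0 := by
    rw [e5] at p2; intro h; linarith
  have n4 : (1 + x) * C.kF d + 4 * (1 - x) = 0 := by
    rcases mul_eq_zero.mp n3 with h | h
    · exact absurd h hx
    · exact h
  rw [e5]
  linear_combination -2 * n4

end Config

end ArithPoly
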