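import Pool.Agent.LibArithPoly.Defs

/-!
# Arithmetic subgroups of `Isom(ℍ³)`

`IsArithmetic Γ` : `Γ` is commensurable, up to conjugation, with the group `Pρ(O¹)` of an order `O`
in a quaternion algebra over a number field with exactly one complex place, ramified at all real
places.
-/

open scoped ComplexConjugate
open Matrix

namespace ArithPoly

/-- An order: a subring which is finitely generated as an abelian group and contains a nonzero
multiple of every element. -/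
def IsOrder {A : Type} [Ring A] (O : Subring A) : Prop :=
  O.toAddSubgroup.FG ∧ ∀ x : A, ∃ n : ℕ, 0 < n ∧ n • x ∈ O

/-- For a ring homomorphism `ρ : A → M₂(ℂ)` and a subring `O` of `A`, the group `Pρ(O¹)` of all
transformations `X ↦ ρ(x) X ρ(x)ᴴ` of `ℝ^{3,1}` (Hermitian matrices), `x` a unit of `O` with
`det ρ(x) = 1`. -/
noncomputable def unitGroup {A : Type} [Ring A] (ρ : A →+* Matrix (Fin 2) (Fin 2) ℂ)
    (O : Subring A) : Subgroup (Mink ≃ₗ[ℝ] Mink) where
  carrier := {g | ∃ x : Oˣ, (ρ (x : O)).det = 1 ∧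
    ∀ X, herm (g X) = ρ (x : O) * herm X * (ρ (x : O))ᴴ}
  one_mem' := ⟨1, by simp, fun X => by simp⟩
  mul_mem' := by
    rintro g h ⟨x, hx1, hx⟩ ⟨y, hy1, hy⟩
    refine ⟨x * y, by simp [hx1, hy1], fun X => ?_⟩
    rw [LinearEquiv.mul_apply, hx, hy]
    simp only [Units.val_mul, Subring.coe_mul, map_mul, conjTranspose_mul, Matrix.mul_assoc]
  inv_mem' := by
    rintro g ⟨x, hx1, hx⟩
    have e : ρ ((x⁻¹ : Oˣ) : O) * ρ (x : O) = 1 := by
      rw [← map_mul, ← Subring.coe_mul, Units.inv_mul]; simp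
    have e2 : (ρ (x : O))ᴴ * (ρ ((x⁻¹ : Oˣ) : O))ᴴ = 1 := by
      rw [← conjTranspose_mul, e, conjTranspose_one]
    refine ⟨x⁻¹, ?_, fun X => ?_⟩
    · have := congrArg Matrix.det e
      rwa [Matrix.det_mul, hx1, mul_one, Matrix.det_one] at this
    · have h1 := hx (g⁻¹ X)
      have h2 : g (g⁻¹ X) = X := by
        rw [← LinearEquiv.mul_apply, mul_inv_cancel]; rfl
      rw [h2] at h1
      calc herm (g⁻¹ X) = (ρ ((x⁻¹ : Oˣ) : O) * ρ (x : O)) * herm (g⁻¹ X) *
            ((ρ (x : O))ᴴ * (ρ ((x⁻¹ : Oˣ) : O))ᴴ) := by rw [e, e2]; simp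
        _ = ρ ((x⁻¹ : Oˣ) : O) * (ρ (x : O) * herm (g⁻¹ X) * (ρ (x : O))ᴴ) *
            (ρ ((x⁻¹ : Oˣ) : O))ᴴ := by simp only [Matrix.mul_assoc]
        _ = _ := by rw [← h1]

/-- A subgroup `Γ` of the isometry group of hyperbolic 3-space (acting on `ℝ^{3,1}`) is arithmetic:
there are a number field `k` with exactly one complex place (given by `σ`), a quaternion algebra
`(a, b / k)` ramified at all real places of `k`, a `k`-embedding `ρ` of it in `M₂(ℂ)` and an order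
`O` of it such that `Γ` is commensurable with `Pρ(O¹)`, up to conjugation by an isometry `T`. -/
def IsArithmetic (Γ : Subgroup (Mink ≃ₗ[ℝ] Mink)) : Prop :=
  ∃ (k : Type) (_ : Field k) (_ : NumberField k) (σ : k →+* ℂ) (a b : k)
    (ρ : QuaternionAlgebra k a 0 b →+* Matrix (Fin 2) (Fin 2) ℂ)
    (O : Subring (QuaternionAlgebra k a 0 b)) (T : Mink ≃ₗ[ℝ] Mink),
    -- `σ` is a complex place, the only one
    (∃ x, conj (σ x) ≠ σ x) ∧
    (∀ τ : k →+* ℂ, (∃ x, conj (τ x) ≠ τ x) → τ = σ ∨ τ = (starRingEnd ℂ).comp σ) ∧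
    -- the quaternion algebra is ramified at all real places
    a ≠ 0 ∧ b ≠ 0 ∧ (∀ τ : k →+* ℝ, τ a < 0 ∧ τ b < 0) ∧
    -- `ρ` extends `σ`
    (∀ c : k, ρ (algebraMap k _ c) = (σ c) • (1 : Matrix (Fin 2) (Fin 2) ℂ)) ∧
    IsOrder O ∧
    (∀ x y, lor (T x) (T y) = lor x y) ∧
    Subgroup.Commensurable (Γ.map (MulAut.conj T).toMonoidHom) (unitGroup ρ O)

end ArithPoly
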