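import Pool.Agent.LibArithPoly.Statement
import Pool.Agent.LibArithPoly.DefsArith

/-!
# The compact definitions agree with the ones used in the proof
-/

open scoped RealInnerProductSpace ComplexConjugate
open Matrix

namespace ArithPoly

variable {V F D : Type} [Fintype V] [Fintype F] [Fintype D]

/-- the same polyhedron -/
def ofNew (P : ArithPolyhedra.MidscribedPolyhedron V F D) : MidscribedPolyhedron V F D where
  rot := P.rot
  rev := P.rev
  vert := P.vert
  face := P.face
  rev_rev := P.rev_rev
  rev_ne := P.rev_ne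
  vert_surj := P.vert_surj
  face_surj := P.face_surj
  vert_iff := P.vert_iff
  face_iff := P.face_iff
  connected := P.connected
  euler := P.euler
  simple := P.simple
  face_ne := P.face_ne
  three_le_vert := P.three_le_vert
  three_le_face := P.three_le_face
  pos := P.pos
  normal := P.normal
  offset := P.offset
  convexIndependent := P.convexIndependent
  on_plane := P.on_plane
  below_plane := P.below_plane
  face_ext := P.face_ext
  tangent := P.tangent

/-- the forgetful homomorphism -/
def toPermHom : (Mink ≃ₗ[ℝ] Mink) →* Equiv.Perm Mink where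
  toFun g := g.toEquiv
  map_one' := rfl
  map_mul' _ _ := rfl

theorem toPermHom_injective : Function.Injective toPermHom := by
  intro g h e
  exact LinearEquiv.toEquiv_injective e

theorem toPermHom_apply (g : Mink ≃ₗ[ℝ] Mink) (x : Mink) : toPermHom g x = g x := rfl

theorem lor_eq (x y : Mink) : ArithPolyhedra.lor x y = lor x y := rfl
theorem herm_eq (x : Mink) : ArithPolyhedra.herm x = herm x := rfl

theorem toPermHom_refl (n : Mink) :
    toPermHom (hypReflection n) = ArithPolyhedra.hypReflection n := by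
  ext1 x
  rfl

theorem map_reflectionGroup (P : ArithPolyhedra.MidscribedPolyhedron V F D) :
    (reflectionGroup (ofNew P)).map toPermHom = ArithPolyhedra.reflectionGroup P := by
  unfold reflectionGroup ArithPolyhedra.reflectionGroup
  rw [MonoidHom.map_closure, Set.image_union, ← Set.range_comp, ← Set.range_comp]
  rfl

/-- nondegeneracy -/
theorem eq_zero_of_lor (x : Mink) (h : ∀ y, lor x y = 0) : x = 0 := by
  have h1 := h (x.1, -x.2)
  have h2 : ⟪x.1, x.1⟫ + x.2 * x.2 = 0 := by
    have : lor x (x.1, -x.2) = ⟪x.1, x.1⟫ + x.2 * x.2 := by simp [lor]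
    rw [← this]; exact h1
  have h3 := real_inner_self_nonneg (x := x.1)
  have h4 := mul_self_nonneg x.2
  have h5 : ⟪x.1, x.1⟫ = 0 := by linarith
  have h6 : x.2 * x.2 = 0 := by linarith
  exact Prod.ext (inner_self_eq_zero.1 h5) (mul_self_eq_zero.1 h6)

theorem lor_sub_left (x y z : Mink) : lor (x - y) z = lor x z - lor y z := by
  have h := lor_add_left (x - y) y z
  rw [sub_add_cancel] at h
  linarith

/-- an isometry is linear -/
noncomputable def linOf (T : Equiv.Perm Mink) (hT : ArithPolyhedra.IsIsometry T) :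
    Mink ≃ₗ[ℝ] Mink :=
  { T with
    map_add' := fun x y => by
      show T (x + y) = T x + T y
      rw [← sub_eq_zero]
      apply eq_zero_of_lor
      intro z
      obtain ⟨w, rfl⟩ := T.surjective z
      have h1 : ∀ u v, lor (T u) (T v) = lor u v := hT
      rw [lor_sub_left, lor_add_left, h1, h1, h1, lor_add_left]
      ring
    map_smul' := fun c x => by
      show T (c • x) = c • T x
      rw [← sub_eq_zero]
      apply eq_zero_of_lor
      intro z
      obtain ⟨w, rfl⟩ := T.surjective z
      have h1 : ∀ u v, lor (T u) (T v) = lor u v := hT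
      rw [lor_sub_left, lor_smul_left, h1, h1, lor_smul_left]
      ring }

theorem toPermHom_linOf (T : Equiv.Perm Mink) (hT : ArithPolyhedra.IsIsometry T) :
    toPermHom (linOf T hT) = T := by
  ext1 x; rfl

/-- commensurability is the same in the two models -/
theorem wideCommensurable_iff (G H : Subgroup (Mink ≃ₗ[ℝ] Mink)) :
    ArithPolyhedra.WideCommensurable (G.map toPermHom) (H.map toPermHom) ↔
    ∃ T : Mink ≃ₗ[ℝ] Mink, (∀ x y, lor (T x) (T y) = lor x y) ∧
      Subgroup.Commensurable (G.map (MulAut.conj T).toMonoidHom) H := by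
  have key : ∀ T : Mink ≃ₗ[ℝ] Mink, (G.map toPermHom).map (MulAut.conj (toPermHom T)).toMonoidHom =
      (G.map (MulAut.conj T).toMonoidHom).map toPermHom := by
    intro T
    rw [Subgroup.map_map, Subgroup.map_map]
    congr 1
  constructor
  · rintro ⟨T, hT, hc⟩
    refine ⟨linOf T hT, hT, ?_⟩
    rw [← toPermHom_linOf T hT, key] at hc
    refine ⟨?_, ?_⟩
    · have := hc.1
      rwa [Subgroup.relIndex_map_map_of_injective _ _ toPermHom_injective] at this
    · have := hc.2
      rwa [Subgroup.relIndex_map_map_of_injective _ _ toPermHom_injective] at this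
  · rintro ⟨T, hT, hc⟩
    refine ⟨toPermHom T, hT, ?_⟩
    rw [key]
    refine ⟨?_, ?_⟩
    · rw [Subgroup.relIndex_map_map_of_injective _ _ toPermHom_injective]; exact hc.1
    · rw [Subgroup.relIndex_map_map_of_injective _ _ toPermHom_injective]; exact hc.2

/-- a permutation of Hermitian matrices given by a matrix is linear -/
noncomputable def linOfAction {M : Matrix (Fin 2) (Fin 2) ℂ} {g : Equiv.Perm Mink}
    (hg : ArithPolyhedra.IsAction M g) : Mink ≃ₗ[ℝ] Mink :=
  { g with
    map_add' := fun x y => by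
      show g (x + y) = g x + g y
      apply herm_injective
      have hadd : ∀ u v, herm (u + v) = herm u + herm v := by
        intro u v
        ext i j
        fin_cases i <;> fin_cases j <;> simp [herm] <;> ring
      have h1 : ∀ u, herm (g u) = M * herm u * Mᴴ := hg
      rw [hadd, h1, h1, h1, hadd, Matrix.mul_add, Matrix.add_mul]
    map_smul' := fun c x => by
      show g (c • x) = c • g x
      apply herm_injective
      have hsm : ∀ u, herm (c • u) = (c : ℂ) • herm u := by
        intro u
        ext i j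
        fin_cases i <;> fin_cases j <;> simp [herm] <;> ring
      have h1 : ∀ u, herm (g u) = M * herm u * Mᴴ := hg
      rw [hsm, h1, h1, hsm, Matrix.mul_smul, Matrix.smul_mul] }

theorem toPermHom_linOfAction {M : Matrix (Fin 2) (Fin 2) ℂ} {g : Equiv.Perm Mink}
    (hg : ArithPolyhedra.IsAction M g) : toPermHom (linOfAction hg) = g := by
  ext1 x; rfl

theorem toC_eq (d : ℕ) (M : SpecialLinearGroup (Fin 2) (ℤ√(-(d : ℤ)))) :
    ArithPolyhedra.toC d M = toC d M := by
  ext i j
  rfl

theorem map_PSL2Z (d : ℕ) : (PSL2Z d).map toPermHom = ArithPolyhedra.PSL2Z d := by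
  ext g
  constructor
  · rintro ⟨g0, ⟨M, hM⟩, rfl⟩
    exact ⟨M, fun x => hM x⟩
  · rintro ⟨M, hM⟩
    exact ⟨linOfAction hM, ⟨M, fun x => hM x⟩, toPermHom_linOfAction hM⟩

theorem map_unitGroup {A : Type} [Ring A] (ρ : A →+* Matrix (Fin 2) (Fin 2) ℂ) (O : Subring A) :
    (unitGroup ρ O).map toPermHom = ArithPolyhedra.unitGroup ρ O := by
  ext g
  constructor
  · rintro ⟨g0, ⟨x, hx1, hx⟩, rfl⟩
    refine ⟨(x : O), (x : O).2, ((x⁻¹ : Oˣ) : O), ((x⁻¹ : Oˣ) : O).2, ?_, ?_, hx1, fun x => hx x⟩
    · rw [← Subring.coe_mul, Units.mul_inv]; simp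
    · rw [← Subring.coe_mul, Units.inv_mul]; simp
  · rintro ⟨x, hx, y, hy, hxy, hyx, hd, ha⟩
    exact ⟨linOfAction ha, ⟨⟨⟨x, hx⟩, ⟨y, hy⟩, Subtype.ext hxy, Subtype.ext hyx⟩, hd, fun x => ha x⟩,
      toPermHom_linOfAction ha⟩

theorem wide_PSL2Z_iff (P : ArithPolyhedra.MidscribedPolyhedron V F D) (d : ℕ) :
    ArithPolyhedra.WideCommensurable (ArithPolyhedra.reflectionGroup P) (ArithPolyhedra.PSL2Z d) ↔
      CommensurableWith (ofNew P) d := by
  rw [← map_reflectionGroup, ← map_PSL2Z, wideCommensurable_iff]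
  rfl

theorem isArithmetic_iff (P : ArithPolyhedra.MidscribedPolyhedron V F D) :
    ArithPolyhedra.IsArithmetic (ArithPolyhedra.reflectionGroup P) →
      IsArithmetic (reflectionGroup (ofNew P)) := by
  rintro ⟨k, h1, h2, σ, a, b, ρ, O, hσ, ha, hb, hr, hρ, hO, hc⟩
  rw [← map_reflectionGroup, ← map_unitGroup, wideCommensurable_iff] at hc
  obtain ⟨T, hT, hc⟩ := hc
  refine ⟨k, h1, h2, σ, a, b, ρ, O, T, hσ.1, fun τ hτ => ?_, ha, hb, hr, fun c => ?_, hO, hT, hc⟩
  · rcases hσ.2 τ hτ with h | h
    · left; exact h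
    · right; ext1 x; exact h x
  · have := hρ c
    rw [show (algebraMap k (QuaternionAlgebra k a 0 b)) c = QuaternionAlgebra.coe c from rfl, this]
    ext i j
    by_cases h : i = j
    · subst h; simp
    · simp [h]

end ArithPoly
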