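import Pool.Agent.LibArithPoly.Defs

/-!
# Abstract configurations of walls

A `DMap` is a self-dual version of a polyhedral map; a `Config` is a `DMap` together with unit
spacelike vectors `a f` (faces), `b v` (vertices) and lightlike vectors `p d` (edges) in a
4-dimensional space with a symmetric bilinear form.
-/

open Matrix

namespace ArithPoly

/-- A polyhedral map on the sphere, with enough conditions to be closed under duality. -/
structure DMap (V F D : Type) [Fintype V] [Fintype F] [Fintype D] where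
  rot : Equiv.Perm D
  rev : Equiv.Perm D
  vert : D → V
  face : D → F
  rev_rev : ∀ d, rev (rev d) = d
  rev_ne : ∀ d, rev d ≠ d
  vert_surj : Function.Surjective vert
  face_surj : Function.Surjective face
  vert_iff : ∀ d e, vert d = vert e ↔ rot.SameCycle d e
  face_iff : ∀ d e, face d = face e ↔ (rot⁻¹ * rev).SameCycle d e
  conn : ∀ d e, ∃ g ∈ Subgroup.closure ({rot, rev} : Set (Equiv.Perm D)), g d = e
  euler : 2 * (Fintype.card V + Fintype.card F) = Fintype.card D + 4
  simple : ∀ d e, vert d = vert e → vert (rev d) = vert (rev e) → d = e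
  dsimple : ∀ d e, face d = face e → face (rev d) = face (rev e) → d = e
  vert_ne : ∀ d, vert (rev d) ≠ vert d
  face_ne : ∀ d, face (rev d) ≠ face d
  three_le_vert : ∀ v, 3 ≤ Nat.card {d // vert d = v}
  three_le_face : ∀ f, 3 ≤ Nat.card {d // face d = f}

variable {V F D : Type} [Fintype V] [Fintype F] [Fintype D]

/-- the rotation around a face: the next dart along the face `face d` -/
def DMap.phi (m : DMap V F D) : Equiv.Perm D := m.rot⁻¹ * m.rev

/-- A configuration of walls. -/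
structure Config {W : Type} [AddCommGroup W] [Module ℝ W] (B : LinearMap.BilinForm ℝ W)
    (V F D : Type) [Fintype V] [Fintype F] [Fintype D] extends DMap V F D where
  symm : ∀ x y, B x y = B y x
  finrank : Module.finrank ℝ W = 4
  a : F → W
  b : V → W
  p : D → W
  ca : D → ℝ
  cb : D → ℝ
  ca_pos : ∀ d, 0 < ca d
  cb_pos : ∀ d, 0 < cb d
  a_unit : ∀ f, B (a f) (a f) = 1
  b_unit : ∀ v, B (b v) (b v) = 1
  a_b : ∀ d, B (a (face d)) (b (vert d)) = 0
  a_b_nonpos : ∀ f v, B (a f) (b v) ≤ 0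
  a_b_eq : ∀ f v, B (a f) (b v) = 0 → ∃ d, face d = f ∧ vert d = v
  p_rev : ∀ d, p (rev d) = p d
  p_null : ∀ d, B (p d) (p d) = 0
  p_neg : ∀ d e, e ≠ d → e ≠ rev d → B (p d) (p e) < 0
  sum_a : ∀ d, a (face d) + a (face (rev d)) = ca d • p d
  sum_b : ∀ d, b (vert d) + b (vert (rev d)) = cb d • p d
  a_p : ∀ f d, B (a f) (p d) ≤ 0
  b_p : ∀ v d, B (b v) (p d) ≤ 0
  a_p_eq : ∀ f d, B (a f) (p d) = 0 → f = face d ∨ f = face (rev d)
  b_p_eq : ∀ v d, B (b v) (p d) = 0 → v = vert d ∨ v = vert (rev d)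

/-- `lor` as a bilinear form -/
noncomputable def lorB : LinearMap.BilinForm ℝ Mink :=
  LinearMap.mk₂ ℝ lor lor_add_left lor_smul_left lor_add_right lor_smul_right

theorem lorB_apply (x y : Mink) : lorB x y = lor x y := rfl

/-- The form `x² + d y² - a c` in the coordinates `(a, c, x, y)` of the Hermitian matrix
`[[a, x + y √-d], [x - y √-d, c]]`. -/
noncomputable def gd (d : ℕ) (x y : Fin 4 → ℝ) : ℝ :=
  x 2 * y 2 + d * (x 3 * y 3) - (x 0 * y 1 + x 1 * y 0) / 2

noncomputable def gdB (d : ℕ) : LinearMap.BilinForm ℝ (Fin 4 → ℝ) :=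
  LinearMap.mk₂ ℝ (gd d)
    (fun x y z => by simp only [gd, Pi.add_apply]; ring)
    (fun c x z => by simp only [gd, Pi.smul_apply, smul_eq_mul]; ring)
    (fun x y z => by simp only [gd, Pi.add_apply]; ring)
    (fun c x z => by simp only [gd, Pi.smul_apply, smul_eq_mul]; ring)

theorem gdB_apply (d : ℕ) (x y : Fin 4 → ℝ) : gdB d x y = gd d x y := rfl

/-- reflection in a unit vector `n` -/
def rfl' {W : Type} [AddCommGroup W] [Module ℝ W] (B : LinearMap.BilinForm ℝ W) (n : W) :
    W →ₗ[ℝ] W := LinearMap.id - (2 : ℝ) • (B n).smulRight n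

theorem rfl'_apply {W : Type} [AddCommGroup W] [Module ℝ W] (B : LinearMap.BilinForm ℝ W)
    (n x : W) : rfl' B n x = x - (2 * B n x) • n := by
  simp [rfl', mul_smul]

/-- The integer vector `z` as a real vector. -/
def toR (z : Fin 4 → ℤ) : Fin 4 → ℝ := fun i => (z i : ℝ)

/-- For any two walls `x, y` some power of `r_x r_y` maps `ℤ⁴` to itself. -/
def LatticeProp {d : ℕ} (C : Config (gdB d) V F D) : Prop :=
  ∀ x ∈ Set.range C.a ∪ Set.range C.b, ∀ y ∈ Set.range C.a ∪ Set.range C.b,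
    ∃ n : ℕ, 0 < n ∧ ∀ z : Fin 4 → ℤ, ∃ w : Fin 4 → ℤ,
      ((rfl' (gdB d) x ∘ₗ rfl' (gdB d) y) ^ n) (toR z) = toR w

/-- the Gram matrix (of `2 B`) of four vectors -/
def gram4 {W : Type} [AddCommGroup W] [Module ℝ W] (B : LinearMap.BilinForm ℝ W)
    (x : Fin 4 → W) : Matrix (Fin 4) (Fin 4) ℝ := Matrix.of fun i j => 2 * B (x i) (x j)

/-- Integrality of a configuration. -/
structure Integral {W : Type} [AddCommGroup W] [Module ℝ W] {B : LinearMap.BilinForm ℝ W}
    (d : ℕ) (C : Config B V F D) where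
  A : F → F → ℤ
  Bv : V → V → ℤ
  M : F → V → ℤ
  hA : ∀ f g, 2 * B (C.a f) (C.a g) = A f g
  hB : ∀ v w, 2 * B (C.b v) (C.b w) = Bv v w
  hM : ∀ f v, 2 * B (C.a f) (C.b v) = Real.sqrt d * M f v
  hdet : ∀ f g v w, ∃ r : ℚ,
    (gram4 B ![C.a f, C.a g, C.b v, C.b w]).det = - (d : ℝ) * (r : ℝ) ^ 2

end ArithPoly
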