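import Pool.Agent.LibArithPoly.Statement

/-!
# `PSL₂(ℤ[√-d])` is arithmetic
-/

open scoped ComplexConjugate
open Matrix

namespace ArithPoly.Converse

open ArithPolyhedra

/-- `√-d` -/
noncomputable def al (d : ℕ) : ℂ := (Real.sqrt d : ℂ) * Complex.I

theorem al_sq (d : ℕ) : al d * al d = -(d:ℂ) := by
  have := sqrt_mul_I_sq d
  rw [al, this]; push_cast; ring

theorem conj_al (d : ℕ) : conj (al d) = - al d := by
  rw [al, map_mul, Complex.conj_ofReal, Complex.conj_I]; ring

theorem al_ne (d : ℕ) (hd : 0 < d) : al d ≠ 0 := by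
  intro h
  have := al_sq d
  rw [h] at this
  have hd' : (d:ℂ) ≠ 0 := by exact_mod_cast hd.ne'
  apply hd'
  have h2 : -(d:ℂ) = 0 := by rw [← this]; ring
  simpa using h2

theorem comb_eq_zero (d : ℕ) (hd : 0 < d) (p q : ℚ) (h : (p:ℂ) + q * al d = 0) : p = 0 ∧ q = 0 := by
  have h1 : conj ((p:ℂ) + q * al d) = 0 := by rw [h, map_zero]
  rw [map_add, map_mul, conj_al, map_ratCast, map_ratCast] at h1
  have h2 : (2:ℂ) * p = 0 := by linear_combination h + h1
  have h3 : (2:ℂ) * q * al d = 0 := by linear_combination h - h1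
  constructor
  · have : (p:ℂ) = 0 := by simpa using h2
    exact_mod_cast this
  · have : (q:ℂ) = 0 := by
      rcases mul_eq_zero.mp h3 with h | h
      · simpa using h
      · exact absurd h (al_ne d hd)
    exact_mod_cast this

/-- The field `ℚ(√-d)`. -/
noncomputable def Kd (d : ℕ) (hd : 0 < d) : Subfield ℂ where
  carrier := {z | ∃ p q : ℚ, z = p + q * al d}
  mul_mem' := by
    rintro _ _ ⟨p, q, rfl⟩ ⟨p', q', rfl⟩
    refine ⟨p * p' - d * (q * q'), p * q' + q * p', ?_⟩
    push_cast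
    linear_combination (q:ℂ) * q' * al_sq d
  one_mem' := ⟨1, 0, by simp⟩
  add_mem' := by
    rintro _ _ ⟨p, q, rfl⟩ ⟨p', q', rfl⟩
    exact ⟨p + p', q + q', by push_cast; ring⟩
  zero_mem' := ⟨0, 0, by simp⟩
  neg_mem' := by
    rintro _ ⟨p, q, rfl⟩
    exact ⟨-p, -q, by push_cast; ring⟩
  inv_mem' := by
    rintro _ ⟨p, q, rfl⟩
    by_cases h : (p:ℂ) + q * al d = 0
    · exact ⟨0, 0, by rw [h]; simp⟩
    · have hN : p ^ 2 + d * q ^ 2 ≠ 0 := by
        intro h0
        have hd' : (0:ℚ) < d := by exact_mod_cast hd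
        have h1 : p = 0 := by nlinarith [sq_nonneg p, sq_nonneg q, mul_nonneg hd'.le (sq_nonneg q)]
        have h2 : q = 0 := by
          rw [h1] at h0
          have : (d:ℚ) * q ^ 2 = 0 := by linarith
          rcases mul_eq_zero.mp this with h | h
          · exact absurd h hd'.ne'
          · exact pow_eq_zero_iff (by norm_num) |>.mp h
        apply h
        rw [h1, h2]; simp
      refine ⟨p / (p ^ 2 + d * q ^ 2), - q / (p ^ 2 + d * q ^ 2), ?_⟩
      have hN' : (p:ℂ) ^ 2 + d * (q:ℂ) ^ 2 ≠ 0 := by exact_mod_cast hN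
      rw [inv_eq_iff_eq_inv]
      apply eq_inv_of_mul_eq_one_left
      push_cast
      have h3 : ((p:ℂ) + q * al d) * (p - q * al d) = (p:ℂ) ^ 2 + d * (q:ℂ) ^ 2 := by
        linear_combination (-(q:ℂ)^2) * al_sq d
      calc ((p:ℂ) + q * al d) * (p / ((p:ℂ) ^ 2 + d * (q:ℂ) ^ 2) + -q / ((p:ℂ) ^ 2 + d * (q:ℂ) ^ 2) * al d)
          = (((p:ℂ) + q * al d) * (p - q * al d)) / ((p:ℂ) ^ 2 + d * (q:ℂ) ^ 2) := by ring
        _ = 1 := by rw [h3, div_self hN']

theorem al_mem (d : ℕ) (hd : 0 < d) : al d ∈ Kd d hd := ⟨0, 1, by simp⟩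

instance (d : ℕ) (hd : 0 < d) : NumberField (Kd d hd) where
  to_charZero := inferInstance
  to_finiteDimensional := by
    let f : (ℚ × ℚ) →ₗ[ℚ] Kd d hd :=
      { toFun := fun x => (x.1 : Kd d hd) + (x.2 : Kd d hd) * ⟨al d, al_mem d hd⟩
        map_add' := by intro x y; simp only [Prod.fst_add, Prod.snd_add]; push_cast; ring
        map_smul' := by
          intro c x
          simp only [Prod.smul_fst, Prod.smul_snd, smul_eq_mul, RingHom.id_apply, Rat.smul_def]
          push_cast; ring }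
    apply Module.Finite.of_surjective f
    rintro ⟨z, p, q, rfl⟩
    refine ⟨(p, q), ?_⟩
    apply Subtype.ext
    simp [f]

theorem uniqueComplexPlace (d : ℕ) (hd : 0 < d) : UniqueComplexPlace (Kd d hd).subtype := by
  constructor
  · refine ⟨⟨al d, al_mem d hd⟩, ?_⟩
    show conj (al d) ≠ al d
    rw [conj_al]
    intro h
    apply al_ne d hd
    have : (2:ℂ) * al d = 0 := by linear_combination -h
    simpa using this
  · intro τ _
    set a : Kd d hd := ⟨al d, al_mem d hd⟩ with ha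
    have ha2 : a * a = -(d : Kd d hd) := by
      apply Subtype.ext
      show al d * al d = _
      rw [al_sq]
      simp
    have h1 : τ a * τ a = -(d:ℂ) := by rw [← map_mul, ha2, map_neg, map_natCast]
    have h2 : (τ a - al d) * (τ a + al d) = 0 := by linear_combination h1 - al_sq d
    have hx : ∀ x : Kd d hd, ∃ p q : ℚ, x = (p : Kd d hd) + q * a := by
      rintro ⟨z, p, q, rfl⟩
      exact ⟨p, q, Subtype.ext (by simp [ha])⟩
    rcases mul_eq_zero.mp h2 with h | h
    · left
      ext x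
      obtain ⟨p, q, rfl⟩ := hx x
      rw [map_add, map_mul, map_ratCast, map_ratCast, map_add, map_mul, map_ratCast, map_ratCast]
      have : τ a = al d := by linear_combination h
      rw [this]; rfl
    · right
      intro x
      obtain ⟨p, q, rfl⟩ := hx x
      rw [map_add, map_mul, map_ratCast, map_ratCast, map_add, map_mul, map_ratCast, map_ratCast]
      have h3 : τ a = - al d := by linear_combination h
      have h4 : (Kd d hd).subtype a = al d := rfl
      rw [h3, h4, map_add, map_mul, map_ratCast, map_ratCast, conj_al]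

theorem ramified (d : ℕ) (hd : 0 < d) : RamifiedAtReal (1 : Kd d hd) 1 := by
  intro τ
  exfalso
  set a : Kd d hd := ⟨al d, al_mem d hd⟩ with ha
  have ha2 : a * a = -(d : Kd d hd) := by
    apply Subtype.ext
    show al d * al d = _
    rw [al_sq]
    simp
  have h1 : τ a * τ a = -(d:ℝ) := by rw [← map_mul, ha2, map_neg, map_natCast]
  have h2 : (0:ℝ) < d := by exact_mod_cast hd
  nlinarith [mul_self_nonneg (τ a)]

/-- The embedding of `(1, 1 / ℚ(√-d))` in the matrices. -/
noncomputable def rho (d : ℕ) (hd : 0 < d) : Quat (1 : Kd d hd) 1 →+* Matrix (Fin 2) (Fin 2) ℂ where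
  toFun x := !![((x.re + x.imI : Kd d hd) : ℂ), ((x.imJ + x.imK : Kd d hd) : ℂ);
    ((x.imJ - x.imK : Kd d hd) : ℂ), ((x.re - x.imI : Kd d hd) : ℂ)]
  map_one' := by
    ext i j
    fin_cases i <;> fin_cases j <;> simp
  map_zero' := by
    ext i j
    fin_cases i <;> fin_cases j <;> simp
  map_add' x y := by
    ext i j
    fin_cases i <;> fin_cases j <;> simp <;> ring
  map_mul' x y := by
    ext i j
    fin_cases i <;> fin_cases j <;> simp [Matrix.mul_apply, Fin.sum_univ_two] <;> ring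

theorem extends_rho (d : ℕ) (hd : 0 < d) : Extends (Kd d hd).subtype (rho d hd) := by
  intro c
  ext i j
  fin_cases i <;> fin_cases j <;> simp [rho]

/-- The order `M₂(ℤ[√-d])`. -/
noncomputable def ord (d : ℕ) (hd : 0 < d) : Subring (Quat (1 : Kd d hd) 1) where
  carrier := {x | ∀ i j, rho d hd x i j ∈ (zsqrtToComplex d).range}
  mul_mem' := by
    intro x y hx hy i j
    rw [map_mul, Matrix.mul_apply]
    exact Subring.sum_mem _ fun k _ => Subring.mul_mem _ (hx i k) (hy k j)
  one_mem' := by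
    intro i j
    rw [map_one, Matrix.one_apply]
    split_ifs
    · exact Subring.one_mem _
    · exact Subring.zero_mem _
  add_mem' := by
    intro x y hx hy i j
    rw [map_add, Matrix.add_apply]
    exact Subring.add_mem _ (hx i j) (hy i j)
  zero_mem' := by
    intro i j
    rw [map_zero, Matrix.zero_apply]
    exact Subring.zero_mem _
  neg_mem' := by
    intro x hx i j
    rw [map_neg, Matrix.neg_apply]
    exact Subring.neg_mem _ (hx i j)

theorem zs_apply (d : ℕ) (z : ℤ√(-(d : ℤ))) : zsqrtToComplex d z = z.re + z.im * al d := by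
  rw [zsqrtToComplex, Zsqrtd.lift_apply_apply]; rfl

theorem zs_mem_Kd (d : ℕ) (hd : 0 < d) (z : ℤ√(-(d : ℤ))) : zsqrtToComplex d z ∈ Kd d hd :=
  ⟨z.re, z.im, by rw [zs_apply]; push_cast; ring⟩

/-- the element of the order with given matrix -/
noncomputable def ofMat (d : ℕ) (hd : 0 < d) (M : Matrix (Fin 2) (Fin 2) (Kd d hd)) : Quat (1 : Kd d hd) 1 :=
  ⟨(M 0 0 + M 1 1) / 2, (M 0 0 - M 1 1) / 2, (M 0 1 + M 1 0) / 2, (M 0 1 - M 1 0) / 2⟩

theorem rho_ofMat (d : ℕ) (hd : 0 < d) (M : Matrix (Fin 2) (Fin 2) (Kd d hd)) :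
    rho d hd (ofMat d hd M) = M.map (Kd d hd).subtype := by
  have h2 : ((2 : Kd d hd) : ℂ) = 2 := rfl
  ext i j
  fin_cases i <;> fin_cases j <;> simp [rho, ofMat, h2] <;> ring

theorem rho_injective (d : ℕ) (hd : 0 < d) : Function.Injective (rho d hd) := by
  intro x y h
  have h00 := congrFun (congrFun h 0) 0
  have h01 := congrFun (congrFun h 0) 1
  have h10 := congrFun (congrFun h 1) 0
  have h11 := congrFun (congrFun h 1) 1
  simp [rho] at h00 h01 h10 h11
  have e1 : (x.re : ℂ) = y.re := by linear_combination (h00 + h11) / 2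
  have e2 : (x.imI : ℂ) = y.imI := by linear_combination (h00 - h11) / 2
  have e3 : (x.imJ : ℂ) = y.imJ := by linear_combination (h01 + h10) / 2
  have e4 : (x.imK : ℂ) = y.imK := by linear_combination (h01 - h10) / 2
  ext
  · exact_mod_cast e1
  · exact_mod_cast e2
  · exact_mod_cast e3
  · exact_mod_cast e4

/-- entries in the field -/
noncomputable def toKd (d : ℕ) (hd : 0 < d) (M : Matrix (Fin 2) (Fin 2) (ℤ√(-(d : ℤ)))) :
    Matrix (Fin 2) (Fin 2) (Kd d hd) := Matrix.of fun i j => ⟨zsqrtToComplex d (M i j), zs_mem_Kd d hd _⟩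

theorem rho_ofZs (d : ℕ) (hd : 0 < d) (M : Matrix (Fin 2) (Fin 2) (ℤ√(-(d : ℤ)))) :
    rho d hd (ofMat d hd (toKd d hd M)) = Matrix.of fun i j => zsqrtToComplex d (M i j) := by
  rw [rho_ofMat]
  ext i j
  simp [toKd]

theorem ofZs_mem (d : ℕ) (hd : 0 < d) (M : Matrix (Fin 2) (Fin 2) (ℤ√(-(d : ℤ)))) :
    ofMat d hd (toKd d hd M) ∈ ord d hd := by
  intro i j
  rw [rho_ofZs]
  exact ⟨M i j, rfl⟩

theorem exists_of_mem (d : ℕ) (hd : 0 < d) {x : Quat (1 : Kd d hd) 1} (hx : x ∈ ord d hd) :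
    ∃ M : Matrix (Fin 2) (Fin 2) (ℤ√(-(d : ℤ))), rho d hd x = Matrix.of fun i j => zsqrtToComplex d (M i j) := by
  have h : ∀ i j, ∃ z, zsqrtToComplex d z = rho d hd x i j := fun i j => hx i j
  choose M hM using h
  exact ⟨Matrix.of M, by ext i j; simp [hM]⟩

theorem isOrder (d : ℕ) (hd : 0 < d) : IsOrder (ord d hd) := by
  constructor
  · -- the order is the image of `ℤ^8`
    let f : (Matrix (Fin 2) (Fin 2) (ℤ × ℤ)) →+ Quat (1 : Kd d hd) 1 :=
      { toFun := fun M => ofMat d hd (toKd d hd (Matrix.of fun i j => ⟨(M i j).1, (M i j).2⟩))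
        map_zero' := by
          apply rho_injective d hd
          rw [rho_ofZs, map_zero]
          ext i j
          simp [zs_apply]
        map_add' := by
          intro M N
          apply rho_injective d hd
          rw [rho_ofZs, map_add, rho_ofZs, rho_ofZs]
          ext i j
          simp [zs_apply]
          ring }
    have hr : (ord d hd).toAddSubgroup = f.range := by
      ext x
      constructor
      · intro hx
        obtain ⟨M, hM⟩ := exists_of_mem d hd hx
        refine ⟨Matrix.of fun i j => ((M i j).re, (M i j).im), ?_⟩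
        apply rho_injective d hd
        show rho d hd (ofMat d hd (toKd d hd _)) = _
        rw [rho_ofZs, hM]
        ext i j
        simp
      · rintro ⟨M, rfl⟩
        exact ofZs_mem d hd _
    rw [hr]
    have : AddGroup.FG (Matrix (Fin 2) (Fin 2) (ℤ × ℤ)) :=
      Module.Finite.iff_addGroup_fg.mp (inferInstance : Module.Finite ℤ (Matrix (Fin 2) (Fin 2) (ℤ × ℤ)))
    exact (AddGroup.fg_iff_addSubgroup_fg _).mp (AddGroup.fg_range f)
  · intro x
    -- common denominator of the four entries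
    have h : ∀ z : Kd d hd, ∃ n : ℕ, 0 < n ∧ ∃ w : ℤ√(-(d : ℤ)), (n:ℂ) * z = zsqrtToComplex d w := by
      rintro ⟨_, p, q, rfl⟩
      refine ⟨p.den * q.den, Nat.mul_pos p.pos q.pos, ⟨p.num * q.den, q.num * p.den⟩, ?_⟩
      rw [zs_apply]
      have hp : (p:ℂ) = p.num / p.den := by exact_mod_cast (Rat.num_div_den p).symm
      have hq : (q:ℂ) = q.num / q.den := by exact_mod_cast (Rat.num_div_den q).symm
      have hp0 : (p.den:ℂ) ≠ 0 := by exact_mod_cast p.den_ne_zero
      have hq0 : (q.den:ℂ) ≠ 0 := by exact_mod_cast q.den_ne_zero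
      show ((p.den * q.den : ℕ) : ℂ) * ((p:ℂ) + q * al d) = _
      rw [hp, hq]
      push_cast
      field_simp
    obtain ⟨n1, hn1, w1, hw1⟩ := h (x.re + x.imI)
    obtain ⟨n2, hn2, w2, hw2⟩ := h (x.imJ + x.imK)
    obtain ⟨n3, hn3, w3, hw3⟩ := h (x.imJ - x.imK)
    obtain ⟨n4, hn4, w4, hw4⟩ := h (x.re - x.imI)
    refine ⟨n1 * n2 * n3 * n4, by positivity, ?_⟩
    have hxe : rho d hd ((n1 * n2 * n3 * n4) • x) = ((n1 * n2 * n3 * n4 : ℕ) : ℂ) • rho d hd x := by
      rw [map_nsmul, ← Nat.cast_smul_eq_nsmul ℂ]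
    intro i j
    rw [hxe]
    fin_cases i <;> fin_cases j
    · refine ⟨(n2 * n3 * n4 : ℕ) * w1, ?_⟩
      rw [map_mul, ← hw1, map_natCast]
      simp [rho]; ring
    · refine ⟨(n1 * n3 * n4 : ℕ) * w2, ?_⟩
      rw [map_mul, ← hw2, map_natCast]
      simp [rho]; ring
    · refine ⟨(n1 * n2 * n4 : ℕ) * w3, ?_⟩
      rw [map_mul, ← hw3, map_natCast]
      simp [rho]; ring
    · refine ⟨(n1 * n2 * n3 : ℕ) * w4, ?_⟩
      rw [map_mul, ← hw4, map_natCast]
      simp [rho]; ring

theorem zs_injective (d : ℕ) (hd : 0 < d) : Function.Injective (zsqrtToComplex d) := by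
  intro z w h
  rw [zs_apply, zs_apply] at h
  have h1 : (((z.re - w.re : ℚ)):ℂ) + ((z.im - w.im : ℚ)) * al d = 0 := by
    push_cast
    linear_combination h
  obtain ⟨h2, h3⟩ := comb_eq_zero d hd _ _ h1
  ext
  · have : (z.re:ℚ) = w.re := by linarith
    exact_mod_cast this
  · have : (z.im:ℚ) = w.im := by linarith
    exact_mod_cast this

theorem unitGroup_eq (d : ℕ) (hd : 0 < d) : unitGroup (rho d hd) (ord d hd) = PSL2Z d := by
  ext g
  constructor
  · rintro ⟨x, hx, y, hy, hxy, hyx, hdet, hact⟩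
    obtain ⟨M, hM⟩ := exists_of_mem d hd hx
    have hMd : M.det = 1 := by
      apply zs_injective d hd
      rw [map_one, ← hdet, hM, RingHom.map_det]
      rfl
    refine ⟨⟨M, hMd⟩, ?_⟩
    have : toC d ⟨M, hMd⟩ = rho d hd x := by rw [hM]; rfl
    rw [this]
    exact hact
  · rintro ⟨M, hact⟩
    have e1 : rho d hd (ofMat d hd (toKd d hd (M : Matrix _ _ _))) = toC d M := by rw [rho_ofZs]; rfl
    have e2 : rho d hd (ofMat d hd (toKd d hd ((M⁻¹ : SL2Zsqrt d) : Matrix _ _ _))) = toC d M⁻¹ := by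
      rw [rho_ofZs]; rfl
    refine ⟨_, ofZs_mem d hd M, _, ofZs_mem d hd (M⁻¹ : SL2Zsqrt d), ?_, ?_, ?_, ?_⟩
    · apply rho_injective d hd
      rw [map_mul, e1, e2, map_one, ← toC_mul, mul_inv_cancel, toC_one]
    · apply rho_injective d hd
      rw [map_mul, e1, e2, map_one, ← toC_mul, inv_mul_cancel, toC_one]
    · rw [e1]
      have : toC d M = (zsqrtToComplex d).mapMatrix (M : Matrix _ _ _) := rfl
      rw [this, ← RingHom.map_det, M.2, map_one]
    · rw [e1]
      exact hact

theorem isArithmetic_of_wide (d : ℕ) (hd : 0 < d) (G : Subgroup (Equiv.Perm Mink))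
    (h : WideCommensurable G (PSL2Z d)) : IsArithmetic G :=
  ⟨Kd d hd, inferInstance, inferInstance, (Kd d hd).subtype, 1, 1, rho d hd, ord d hd,
    uniqueComplexPlace d hd, one_ne_zero, one_ne_zero, ramified d hd, extends_rho d hd, isOrder d hd,
    by rw [unitGroup_eq]; exact h⟩

end ArithPoly.Converse
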