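import Mathlib

/-!
# Arithmetic polyhedra (MP_84cd0b_gt): definitions

* `SphericalMap`         : combinatorial map (rotation system) of a polyhedral graph on the sphere
* `MidscribedPolyhedron` : convex polyhedron in `ℝ³` all of whose edges are tangent to the unit sphere
* `reflectionGroup P`    : the group `Γ_P`, in the linear (hyperboloid) model of hyperbolic 3-space
* `PSL2Z d`              : the group `PSL₂(ℤ[√-d])` in the same model
-/

open scoped RealInnerProductSpace ComplexConjugate
open Matrix

namespace ArithPoly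

/-- A combinatorial map on the sphere.  `D` is the set of darts (oriented edges), `rot` rotates a
dart about its origin `vert d`, `rev` reverses a dart, `face d` is the face on the side of `d`
bounded by the cycle of `rot⁻¹ ∘ rev` through `d`. -/
structure SphericalMap (V F D : Type) [Fintype V] [Fintype F] [Fintype D] where
  rot : Equiv.Perm D
  rev : Equiv.Perm D
  vert : D → V
  face : D → F
  rev_rev : ∀ d, rev (rev d) = d
  rev_ne : ∀ d, rev d ≠ d
  vert_surj : Function.Surjective vert
  face_surj : Function.Surjective face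
  /-- vertices are the cycles of `rot` -/
  vert_iff : ∀ d e, vert d = vert e ↔ rot.SameCycle d e
  /-- faces are the cycles of `rot⁻¹ * rev` -/
  face_iff : ∀ d e, face d = face e ↔ (rot⁻¹ * rev).SameCycle d e
  /-- the graph is connected -/
  connected : ∀ v w, Relation.ReflTransGen (fun x y => ∃ d, vert d = x ∧ vert (rev d) = y) v w
  /-- Euler's formula `V - E + F = 2`, where `E = card D / 2` -/
  euler : 2 * (Fintype.card V + Fintype.card F) = Fintype.card D + 4
  /-- the graph is simple -/
  simple : ∀ d e, vert d = vert e → vert (rev d) = vert (rev e) → d = e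
  /-- the two faces at an edge are different -/
  face_ne : ∀ d, face (rev d) ≠ face d
  /-- every vertex has degree at least 3 -/
  three_le_vert : ∀ v, 3 ≤ Nat.card {d // vert d = v}
  /-- every face has at least 3 sides -/
  three_le_face : ∀ f, 3 ≤ Nat.card {d // face d = f}

variable {V F D : Type} [Fintype V] [Fintype F] [Fintype D]

/-- `v` is a vertex of the face `f`. -/
def SphericalMap.Inc (m : SphericalMap V F D) (f : F) (v : V) : Prop :=
  ∃ d, m.face d = f ∧ m.vert d = v

/-- Euclidean 3-space. -/
abbrev E3 := EuclideanSpace ℝ (Fin 3)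

/-- A convex polyhedron in `ℝ³` (given by its vertices, its face planes `⟪normal f, x⟫ = offset f`
and its combinatorial map) all of whose edges are tangent to the unit sphere. -/
structure MidscribedPolyhedron (V F D : Type) [Fintype V] [Fintype F] [Fintype D] extends
    SphericalMap V F D where
  /-- position of the vertices -/
  pos : V → E3
  /-- outer normal vectors of the faces -/
  normal : F → E3
  offset : F → ℝ
  /-- the vertices are the extreme points of their convex hull -/
  convexIndependent : ConvexIndependent ℝ pos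
  /-- the vertices of a face lie on its plane -/
  on_plane : ∀ f v, toSphericalMap.Inc f v → ⟪normal f, pos v⟫ = offset f
  /-- all other vertices lie strictly on the inner side of it -/
  below_plane : ∀ f v, ¬ toSphericalMap.Inc f v → ⟪normal f, pos v⟫ < offset f
  /-- no face is contained in another one -/
  face_ext : ∀ f g, (∀ v, toSphericalMap.Inc f v → toSphericalMap.Inc g v) → f = g
  /-- every edge is tangent to the unit sphere, at an interior point `p` of the edge -/
  tangent : ∀ d, ∃ p ∈ openSegment ℝ (pos (vert d)) (pos (vert (rev d))),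
    ‖p‖ = 1 ∧ ⟪p, pos (vert (rev d)) - pos (vert d)⟫ = 0

/-- Minkowski space `ℝ^{3,1} = ℝ³ × ℝ`. -/
abbrev Mink := E3 × ℝ

/-- The Lorentzian form `x₁y₁ + x₂y₂ + x₃y₃ - x₄y₄`.  The open unit ball is the projective (Klein)
model of hyperbolic space: `x` in the ball is the line spanned by `(x, 1)`, and the plane
`⟪n, x⟫ = h` meets the ball in the hyperbolic plane orthogonal to `(n, h)`. -/
noncomputable def lor (x y : Mink) : ℝ := ⟪x.1, y.1⟫ - x.2 * y.2

theorem lor_add_left (x y z : Mink) : lor (x + y) z = lor x z + lor y z := by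
  simp only [lor, Prod.fst_add, Prod.snd_add, inner_add_left]; ring

theorem lor_smul_left (c : ℝ) (x z : Mink) : lor (c • x) z = c * lor x z := by
  simp only [lor, Prod.smul_fst, Prod.smul_snd, real_inner_smul_left, smul_eq_mul]; ring

theorem lor_comm (x y : Mink) : lor x y = lor y x := by
  simp only [lor, real_inner_comm x.1 y.1]; ring

theorem lor_add_right (x y z : Mink) : lor x (y + z) = lor x y + lor x z := by
  rw [lor_comm, lor_add_left, lor_comm y, lor_comm z]

theorem lor_smul_right (c : ℝ) (x z : Mink) : lor x (c • z) = c * lor x z := by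
  rw [lor_comm, lor_smul_left, lor_comm]

/-- Reflection of `ℝ^{3,1}` in the hyperplane orthogonal to `n`. -/
noncomputable def reflMap (n : Mink) : Mink →ₗ[ℝ] Mink where
  toFun x := x - (2 * lor n x / lor n n) • n
  map_add' x y := by
    rw [lor_add_right, mul_add, add_div, add_smul]; abel
  map_smul' c x := by
    rw [lor_smul_right, RingHom.id_apply, smul_sub, smul_smul]
    congr 2; ring

theorem reflMap_apply (n x : Mink) : reflMap n x = x - (2 * lor n x / lor n n) • n := rfl

theorem reflMap_involutive (n : Mink) : Function.Involutive (reflMap n) := by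
  intro x
  by_cases h : lor n n = 0
  · simp [reflMap_apply, h]
  · have h1 : lor n (reflMap n x) = - lor n x := by
      rw [reflMap_apply, sub_eq_add_neg, ← neg_smul, lor_add_right, lor_smul_right]
      field_simp; ring
    rw [reflMap_apply (n := n) (x := reflMap n x), h1, reflMap_apply]
    rw [sub_sub, ← add_smul]
    rw [show 2 * lor n x / lor n n + 2 * -lor n x / lor n n = 0 by ring]
    simp

/-- Reflection of `ℝ^{3,1}` in the hyperplane orthogonal to `n`; for `lor n n > 0` this is the
hyperbolic reflection in the plane of `ℍ³` orthogonal to `n`. -/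
noncomputable def hypReflection (n : Mink) : Mink ≃ₗ[ℝ] Mink :=
  LinearEquiv.ofInvolutive (reflMap n) (reflMap_involutive n)

theorem hypReflection_apply (n x : Mink) :
    hypReflection n x = x - (2 * lor n x / lor n n) • n := rfl

/-- The group `Γ_P` generated by the reflections in the face planes of `P` and in the face planes
`⟪pos v, x⟫ = 1` of the dual polyhedron `P*`. -/
noncomputable def reflectionGroup (P : MidscribedPolyhedron V F D) :
    Subgroup (Mink ≃ₗ[ℝ] Mink) :=
  Subgroup.closure
    (Set.range (fun f => hypReflection (P.normal f, P.offset f)) ∪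
      Set.range (fun v => hypReflection (P.pos v, 1)))

/-- `ℝ^{3,1}` as the space of Hermitian `2 × 2` matrices; `lor x x = - det (herm x)`. -/
noncomputable def herm (x : Mink) : Matrix (Fin 2) (Fin 2) ℂ :=
  !![(x.2 + x.1 2 : ℂ), x.1 0 + x.1 1 * Complex.I; x.1 0 - x.1 1 * Complex.I, x.2 - x.1 2]

/-- The ring homomorphism `ℤ[√-d] → ℂ`. -/
noncomputable def zsqrtToComplex (d : ℕ) : ℤ√(-(d : ℤ)) →+* ℂ :=
  Zsqrtd.lift ⟨(Real.sqrt d : ℂ) * Complex.I, by
    have h : ((Real.sqrt d : ℝ) : ℂ) * (Real.sqrt d : ℝ) = (d : ℂ) := by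
      rw [← Complex.ofReal_mul, Real.mul_self_sqrt (Nat.cast_nonneg d)]; simp
    calc (Real.sqrt d : ℂ) * Complex.I * ((Real.sqrt d : ℂ) * Complex.I)
        = ((Real.sqrt d : ℝ) : ℂ) * (Real.sqrt d : ℝ) * (Complex.I * Complex.I) := by ring
      _ = _ := by rw [h, Complex.I_mul_I]; push_cast; ring⟩

/-- The matrix over `ℂ` of an element of `SL₂(ℤ[√-d])`. -/
noncomputable def toC (d : ℕ) (M : SpecialLinearGroup (Fin 2) (ℤ√(-(d : ℤ)))) :
    Matrix (Fin 2) (Fin 2) ℂ :=
  (M : Matrix (Fin 2) (Fin 2) (ℤ√(-(d : ℤ)))).map (zsqrtToComplex d)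

theorem herm_injective : Function.Injective herm := by
  intro x y h
  have h00 := congrFun (congrFun h 0) 0
  have h01 := congrFun (congrFun h 0) 1
  have h10 := congrFun (congrFun h 1) 0
  have h11 := congrFun (congrFun h 1) 1
  simp only [herm, of_apply, cons_val', cons_val_zero, cons_val_one, cons_val_fin_one,
    empty_val'] at h00 h01 h10 h11
  have e0 := congrArg Complex.re h01
  have e1 := congrArg Complex.im h01
  have e2 := congrArg Complex.re h00
  have e3 := congrArg Complex.re h11
  simp at e0 e1 e2 e3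
  refine Prod.ext ?_ (by linarith)
  ext i
  fin_cases i
  · exact e0
  · exact e1
  · show x.1 2 = y.1 2
    linarith

theorem toC_mul (d : ℕ) (M N : SpecialLinearGroup (Fin 2) (ℤ√(-(d : ℤ)))) :
    toC d (M * N) = toC d M * toC d N := by
  simp [toC, Matrix.map_mul]

theorem toC_one (d : ℕ) : toC d 1 = 1 := by
  simp [toC]

/-- The group `PSL₂(ℤ[√-d])`, acting on `ℝ^{3,1}` (and so on `ℍ³`) by `X ↦ M X Mᴴ` on Hermitian
matrices. -/
noncomputable def PSL2Z (d : ℕ) : Subgroup (Mink ≃ₗ[ℝ] Mink) where
  carrier := {g | ∃ M : SpecialLinearGroup (Fin 2) (ℤ√(-(d : ℤ))),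
    ∀ x, herm (g x) = toC d M * herm x * (toC d M)ᴴ}
  one_mem' := ⟨1, fun x => by simp [toC_one]⟩
  mul_mem' := by
    rintro g h ⟨M, hM⟩ ⟨N, hN⟩
    refine ⟨M * N, fun x => ?_⟩
    rw [LinearEquiv.mul_apply, hM, hN, toC_mul, conjTranspose_mul]
    simp only [Matrix.mul_assoc]
  inv_mem' := by
    rintro g ⟨M, hM⟩
    refine ⟨M⁻¹, fun x => ?_⟩
    have h1 := hM (g⁻¹ x)
    have h2 : g (g⁻¹ x) = x := by
      rw [← LinearEquiv.mul_apply, mul_inv_cancel]; rfl
    have h3 : toC d M⁻¹ * toC d M = 1 := by rw [← toC_mul, inv_mul_cancel, toC_one]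
    have h4 : (toC d M)ᴴ * (toC d M⁻¹)ᴴ = 1 := by
      rw [← conjTranspose_mul, h3, conjTranspose_one]
    rw [h2] at h1
    calc herm (g⁻¹ x) = (toC d M⁻¹ * toC d M) * herm (g⁻¹ x) *
          ((toC d M)ᴴ * (toC d M⁻¹)ᴴ) := by rw [h3, h4]; simp
      _ = toC d M⁻¹ * (toC d M * herm (g⁻¹ x) * (toC d M)ᴴ) * (toC d M⁻¹)ᴴ := by
          simp only [Matrix.mul_assoc]
      _ = _ := by rw [← h1]

/-- `Γ_P` is commensurable with `PSL₂(ℤ[√-d])`, up to conjugation by an isometry `T`. -/
def CommensurableWith (P : MidscribedPolyhedron V F D) (d : ℕ) : Prop :=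
  ∃ T : Mink ≃ₗ[ℝ] Mink, (∀ x y, lor (T x) (T y) = lor x y) ∧
    Subgroup.Commensurable ((reflectionGroup P).map (MulAut.conj T).toMonoidHom) (PSL2Z d)

end ArithPoly
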