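import Pool.Agent.LibArithPoly.T15a

/-!
# The case `d = 3`: discharging
-/

open Matrix

set_option linter.unusedSectionVars false

namespace ArithPoly

/-- twice the amount paid to an end -/
def pay2 (A B : ℤ) : ℤ :=
  if B = 1 then (if A = 1 then 3 else if A = 2 then 2 else 1) else if B = 2 ∧ A = 1 then 1 else 0

theorem pay2_nonneg (A B : ℤ) : 0 ≤ pay2 A B := by
  unfold pay2; split_ifs <;> omega

theorem pay2_le (A B : ℤ) : pay2 A B ≤ 1 + 2 * (if A = 1 then 1 else 0) + (if A = 2 then 1 else 0) := by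
  unfold pay2; split_ifs <;> omega

theorem pay2_cases (A B : ℤ) : pay2 A B ≤ 1 ∨ A = 2 ∨ (A = 1 ∧ B = 1 ∧ pay2 A B = 3) := by
  unfold pay2; split_ifs <;> omega

variable {V F D : Type} [Fintype V] [Fintype F] [Fintype D]
variable {W : Type} [AddCommGroup W] [Module ℝ W] {B : LinearMap.BilinForm ℝ W}

namespace Lat3

variable {C : Config B V F D} (L : Lat3 C)

noncomputable def pd (d : D) : ℤ := pay2 (L.Aw d) (L.Bw d)

theorem pd_rev (d : D) : L.pd (C.rev d) = L.pd d := by
  unfold pd; rw [L.Aw_rev, L.Bw_rev]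

theorem pd_nonneg (d : D) : 0 ≤ L.pd d := pay2_nonneg _ _

open Classical in
/-- the units of a side -/
noncomputable def U (e : D) : Finset D := Finset.univ.filter (fun d => L.Unit e d)

theorem mem_U {e d : D} : d ∈ L.U e ↔ L.Unit e d := by simp [U]

open Classical in
/-- the claims of a side -/
noncomputable def K (e : D) : Finset D := Finset.univ.filter (fun s => L.Claim s e)

theorem mem_K {e s : D} : s ∈ L.K e ↔ L.Claim s e := by simp [K]

/-- twice the payment of a side to its units -/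
noncomputable def pu2 (e : D) : ℤ := ∑ d ∈ L.U e, (L.pd d + L.pd (C.rot d))

open Classical in
/-- twice the amount received on one side -/
noncomputable def rec2 (e : D) : ℤ :=
  L.pd e * ((if L.δ e = 4 then 1 else 0) + (if L.δ (C.rot⁻¹ e) = 4 then 1 else 0))

theorem rec2_nonneg (e : D) : 0 ≤ L.rec2 e := by
  unfold rec2
  apply mul_nonneg (L.pd_nonneg e)
  split_ifs <;> norm_num

open Classical in
noncomputable def sp (e : D) : ℤ := if L.Special e then 1 else 0

theorem sp_nonneg (e : D) : 0 ≤ L.sp e := by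
  unfold sp; split_ifs <;> norm_num

/-- everything received is paid by somebody -/
theorem sum_rec2_le : ∑ e, L.rec2 e ≤ ∑ e, L.pu2 e := by
  classical
  have e1 : ∑ e, L.rec2 e = ∑ d, (if L.δ d = 4 then (L.pd d + L.pd (C.rot d)) else 0) := by
    have h1 : ∑ e, L.rec2 e = ∑ e, L.pd e * (if L.δ e = 4 then 1 else 0) +
        ∑ e, L.pd e * (if L.δ (C.rot⁻¹ e) = 4 then 1 else 0) := by
      rw [← Finset.sum_add_distrib]
      apply Finset.sum_congr rfl
      intro e _
      unfold rec2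
      rw [mul_add]
    have h2 : ∑ e, L.pd e * (if L.δ (C.rot⁻¹ e) = 4 then 1 else 0) =
        ∑ d, L.pd (C.rot d) * (if L.δ d = 4 then 1 else 0) := by
      rw [← Equiv.sum_comp C.rot]
      apply Finset.sum_congr rfl
      intro d _
      simp
    rw [h1, h2, ← Finset.sum_add_distrib]
    apply Finset.sum_congr rfl
    intro d _
    split_ifs <;> ring
  have e2 : ∑ e, L.pu2 e = ∑ d, ∑ e, (if L.Unit e d then (L.pd d + L.pd (C.rot d)) else 0) := by
    rw [Finset.sum_comm]
    apply Finset.sum_congr rfl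
    intro e _
    unfold pu2 U
    rw [Finset.sum_filter]
  rw [e1, e2]
  apply Finset.sum_le_sum
  intro d _
  have hnn : 0 ≤ L.pd d + L.pd (C.rot d) := add_nonneg (L.pd_nonneg _) (L.pd_nonneg _)
  have hterm : ∀ e ∈ Finset.univ, 0 ≤ (if L.Unit e d then (L.pd d + L.pd (C.rot d)) else 0) := by
    intro e _; split_ifs
    · exact hnn
    · exact le_rfl
  split_ifs with h
  · obtain ⟨e, he, -⟩ := L.exists_host d h
    refine le_trans (le_of_eq ?_) (Finset.single_le_sum hterm (Finset.mem_univ e))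
    rw [if_pos he]
  · exact Finset.sum_nonneg hterm

theorem sum_sp_le : ∑ e, L.sp e ≤ ∑ e, ((L.K e).card : ℤ) := by
  classical
  have e2 : ∑ e, ((L.K e).card : ℤ) = ∑ s, ∑ e, (if L.Claim s e then 1 else 0) := by
    rw [Finset.sum_comm]
    apply Finset.sum_congr rfl
    intro e _
    unfold K
    rw [Finset.card_filter]
    push_cast
    rfl
  rw [e2]
  apply Finset.sum_le_sum
  intro s _
  have hterm : ∀ e ∈ Finset.univ, 0 ≤ (if L.Claim s e then (1 : ℤ) else 0) := by
    intro e _; split_ifs <;> norm_num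
  unfold sp
  split_ifs with h
  · obtain ⟨g, hg⟩ := L.exists_claim s h
    refine le_trans (le_of_eq ?_) (Finset.single_le_sum hterm (Finset.mem_univ g))
    rw [if_pos hg]
  · exact Finset.sum_nonneg hterm

/-- cost of the units of one side -/
theorem pu2_le_aux (e' : D) (q : D → ℤ) (S : Finset ℤ) (hS : ∀ n, n ∈ S ↔ ∃ d, L.Unit e' d ∧ q d = n)
    (A c1 c2 : ℤ) (hc : (c1 = 2 ∧ c2 = A - 2) ∨ (c1 = A - 2 ∧ c2 = 2))
    (inj : ∀ d d', L.Unit e' d → L.Unit e' d' → q d = q d' → d = d')
    (left : ∀ d, L.Unit e' d → L.Aw d = 1 → d = C.rot e' ∧ q d = c1)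
    (right : ∀ d, L.Unit e' d → L.Aw (C.rot d) = 1 → C.rot d = C.rot⁻¹ e' ∧ q d = c2)
    (adj : ∀ d, L.Unit e' d → L.Unit e' (C.rot d) → |q d - q (C.rot d)| = 4) :
    L.pu2 e' ≤ 2 * sideCost A S ∅ := by
  classical
  have cardS : S.card = (L.U e').card := by
    have h1 : S = (L.U e').image q := by
      ext n
      rw [hS, Finset.mem_image]
      simp only [L.mem_U]
    rw [h1, Finset.card_image_of_injOn]
    intro d hd d' hd' h
    exact inj d d' (L.mem_U.1 hd) (L.mem_U.1 hd') h
  have h1 : L.pu2 e' ≤ ∑ d ∈ L.U e', ((1 + 2 * (if L.Aw d = 1 then 1 else 0) +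
      (if L.Aw d = 2 then 1 else 0)) + (1 + 2 * (if L.Aw (C.rot d) = 1 then 1 else 0) +
      (if L.Aw (C.rot d) = 2 then 1 else 0))) :=
    Finset.sum_le_sum (fun d _ => add_le_add (pay2_le _ _) (pay2_le _ _))
  have h2 : ∑ d ∈ L.U e', ((1 + 2 * (if L.Aw d = 1 then 1 else 0) +
      (if L.Aw d = 2 then 1 else 0)) + (1 + 2 * (if L.Aw (C.rot d) = 1 then 1 else 0) +
      (if L.Aw (C.rot d) = 2 then 1 else 0))) = 2 * ((L.U e').card : ℤ) +
      2 * (((L.U e').filter (fun d => L.Aw d = 1)).card : ℤ) +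
      2 * (((L.U e').filter (fun d => L.Aw (C.rot d) = 1)).card : ℤ) +
      (((L.U e').filter (fun d => L.Aw d = 2)).card : ℤ) +
      (((L.U e').filter (fun d => L.Aw (C.rot d) = 2)).card : ℤ) := by
    simp only [Finset.sum_add_distrib, ← Finset.mul_sum, Finset.card_filter, Finset.sum_const,
      nsmul_eq_mul, mul_one]
    push_cast
    ring
  have h3 : ((L.U e').filter (fun d => L.Aw d = 1)).card ≤ if c1 ∈ S then 1 else 0 := by
    by_cases hem : ((L.U e').filter (fun d => L.Aw d = 1)) = ∅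
    · rw [hem]; simp
    · obtain ⟨d, hd⟩ := Finset.nonempty_iff_ne_empty.2 hem
      rw [Finset.mem_filter, L.mem_U] at hd
      have hl := left d hd.1 hd.2
      rw [if_pos ((hS c1).2 ⟨d, hd.1, hl.2⟩)]
      rw [Finset.card_le_one]
      intro x hx y hy
      rw [Finset.mem_filter, L.mem_U] at hx hy
      rw [(left x hx.1 hx.2).1, (left y hy.1 hy.2).1]
  have h4 : ((L.U e').filter (fun d => L.Aw (C.rot d) = 1)).card ≤ if c2 ∈ S then 1 else 0 := by
    by_cases hem : ((L.U e').filter (fun d => L.Aw (C.rot d) = 1)) = ∅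
    · rw [hem]; simp
    · obtain ⟨d, hd⟩ := Finset.nonempty_iff_ne_empty.2 hem
      rw [Finset.mem_filter, L.mem_U] at hd
      have hl := right d hd.1 hd.2
      rw [if_pos ((hS c2).2 ⟨d, hd.1, hl.2⟩)]
      rw [Finset.card_le_one]
      intro x hx y hy
      rw [Finset.mem_filter, L.mem_U] at hx hy
      apply C.rot.injective
      rw [(right x hx.1 hx.2).1, (right y hy.1 hy.2).1]
  -- adjacent pairs
  set Kp := (L.U e').filter (fun d => C.rot d ∈ L.U e') with hKp
  have h5 : Kp.card ≤ (S.filter (fun s => s + 4 ∈ S)).card := by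
    apply Finset.card_le_card_of_injOn (fun d => min (q d) (q (C.rot d)))
    · intro d hd
      rw [Finset.mem_coe, hKp, Finset.mem_filter, L.mem_U, L.mem_U] at hd
      rw [Finset.mem_coe, Finset.mem_filter, hS, hS]
      have ha := adj d hd.1 hd.2
      have ha' : q (C.rot d) = q d + 4 ∨ q d = q (C.rot d) + 4 := by
        rcases abs_eq (by norm_num : (0 : ℤ) ≤ 4) |>.1 ha with h | h <;> omega
      rcases ha' with h | h
      · have hm : min (q d) (q (C.rot d)) = q d := by omega
        show (∃ x, L.Unit e' x ∧ q x = min (q d) (q (C.rot d))) ∧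
          (∃ x, L.Unit e' x ∧ q x = min (q d) (q (C.rot d)) + 4)
        rw [hm]
        exact ⟨⟨d, hd.1, rfl⟩, ⟨C.rot d, hd.2, h⟩⟩
      · have hm : min (q d) (q (C.rot d)) = q (C.rot d) := by omega
        show (∃ x, L.Unit e' x ∧ q x = min (q d) (q (C.rot d))) ∧
          (∃ x, L.Unit e' x ∧ q x = min (q d) (q (C.rot d)) + 4)
        rw [hm]
        exact ⟨⟨C.rot d, hd.2, rfl⟩, ⟨d, hd.1, h⟩⟩
    · intro d hd d' hd' h
      rw [Finset.mem_coe, hKp, Finset.mem_filter, L.mem_U, L.mem_U] at hd hd'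
      have h' : min (q d) (q (C.rot d)) = min (q d') (q (C.rot d')) := h
      have ha := abs_eq (by norm_num : (0 : ℤ) ≤ 4) |>.1 (adj d hd.1 hd.2)
      have ha' := abs_eq (by norm_num : (0 : ℤ) ≤ 4) |>.1 (adj d' hd'.1 hd'.2)
      by_cases hq : q d = q d'
      · exact inj d d' hd.1 hd'.1 hq
      · exfalso
        have q1 : q d = q (C.rot d') := by omega
        have q2 : q (C.rot d) = q d' := by omega
        have r1 := inj _ _ hd.1 hd'.2 q1
        have r2 := inj _ _ hd.2 hd'.1 q2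
        rw [← r2] at r1
        have h4 := C.three_le_per_rot d
        have := pow_inj_of_lt C.rot d (i := 2) (j := 0) (by omega) (by omega)
          (by simpa [pow_succ] using r1.symm)
        omega
  have h6 : ((L.U e').filter (fun d => L.Aw (C.rot d) = 2)).card ≤ Kp.card := by
    apply Finset.card_le_card
    intro d hd
    rw [Finset.mem_filter, L.mem_U] at hd
    rw [hKp, Finset.mem_filter, L.mem_U, L.mem_U]
    exact ⟨hd.1, L.unit_right2 e' d hd.1 hd.2⟩
  have h7 : ((L.U e').filter (fun d => L.Aw d = 2)).card ≤ Kp.card := by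
    apply Finset.card_le_card_of_injOn (fun d => C.rot⁻¹ d)
    · intro d hd
      rw [Finset.mem_coe, Finset.mem_filter, L.mem_U] at hd
      rw [Finset.mem_coe, hKp, Finset.mem_filter, L.mem_U, L.mem_U]
      refine ⟨L.unit_left2 e' d hd.1 hd.2, ?_⟩
      have : C.rot (C.rot⁻¹ d) = d := by simp
      rw [this]; exact hd.1
    · intro d _ d' _ h
      exact (C.rot⁻¹).injective h
  have h8 : sideCost A S ∅ = S.card + (if c1 ∈ S then 1 else 0) + (if c2 ∈ S then 1 else 0) +
      (S.filter (fun s => s + 4 ∈ S)).card := by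
    unfold sideCost
    rcases hc with ⟨rfl, rfl⟩ | ⟨rfl, rfl⟩
    · simp
    · simp only [Finset.card_empty, Nat.cast_zero, add_zero]
      ring
  rw [h8, cardS]
  have h3' : (((L.U e').filter (fun d => L.Aw d = 1)).card : ℤ) ≤ if c1 ∈ S then 1 else 0 := by
    exact_mod_cast h3
  have h4' : (((L.U e').filter (fun d => L.Aw (C.rot d) = 1)).card : ℤ) ≤ if c2 ∈ S then 1 else 0 := by
    exact_mod_cast h4
  rw [h2] at h1
  omega

theorem inj_U (e : D) (d d' : D) (h : L.Unit e d) (h' : L.Unit e d')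
    (hq : L.posz e (C.a (C.face d)) = L.posz e (C.a (C.face d'))) : d = d' := by
  by_contra hne
  have h1 := L.unit_sep e d d' h h' hne
  rw [← L.posz_a, ← L.posz_a, hq] at h1
  norm_num at h1

theorem inj_U' (e : D) (d d' : D) (h : L.Unit (C.rev e) d) (h' : L.Unit (C.rev e) d')
    (hq : L.posz e (C.a (C.face d)) = L.posz e (C.a (C.face d'))) : d = d' := by
  by_contra hne
  have h1 := L.unit_sep' e d d' h h' hne
  rw [← L.posz_a, ← L.posz_a, hq] at h1
  norm_num at h1

theorem unit_null (e d : D) (h : L.Unit e d) : 2 * B (C.a (C.face d)) (L.P e) = -1 := h.2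

theorem pu2_le (e : D) : L.pu2 e ≤ 2 * sideCost (L.Aw e) (L.US e e) ∅ := by
  apply L.pu2_le_aux e (fun d => L.posz e (C.a (C.face d))) (L.US e e) (fun n => L.mem_US)
    (L.Aw e) 2 (L.Aw e - 2) (Or.inl ⟨rfl, rfl⟩) (L.inj_U e)
  · intro d hd hA
    obtain ⟨h1, h2⟩ := L.unit_left e d hd hA
    refine ⟨h1, ?_⟩
    rw [← L.posz_a] at h2
    exact_mod_cast h2
  · intro d hd hA
    obtain ⟨h1, h2⟩ := L.unit_right e d hd hA
    refine ⟨h1, ?_⟩
    rw [← L.posz_a] at h2
    exact_mod_cast h2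
  · intro d hd hd'
    have h := L.unit_adj e d hd hd'
    rw [← L.posz_a, ← L.posz_a] at h
    exact_mod_cast h

theorem pu2_le' (e : D) : L.pu2 (C.rev e) ≤ 2 * sideCost (L.Aw e) (L.US e (C.rev e)) ∅ := by
  have hrev : ∀ d, L.Unit (C.rev e) d →
      L.pos (C.rev e) (C.a (C.face d)) = L.Aw e - L.pos e (C.a (C.face d)) := by
    intro d hd
    apply L.pos_rev
    have := hd.2
    rwa [L.P_rev] at this
  apply L.pu2_le_aux (C.rev e) (fun d => L.posz e (C.a (C.face d))) (L.US e (C.rev e))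
    (fun n => L.mem_US) (L.Aw e) (L.Aw e - 2) 2 (Or.inr ⟨rfl, rfl⟩) (L.inj_U' e)
  · intro d hd hA
    obtain ⟨h1, h2⟩ := L.unit_left _ d hd hA
    refine ⟨h1, ?_⟩
    rw [hrev d hd, ← L.posz_a] at h2
    have : (L.posz e (C.a (C.face d)) : ℝ) = ((L.Aw e - 2 : ℤ) : ℝ) := by push_cast; linarith
    exact_mod_cast this
  · intro d hd hA
    obtain ⟨h1, h2⟩ := L.unit_right _ d hd hA
    refine ⟨h1, ?_⟩
    rw [hrev d hd, ← L.posz_a, L.Aw_rev] at h2
    have : (L.posz e (C.a (C.face d)) : ℝ) = ((2 : ℤ) : ℝ) := by push_cast; linarith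
    exact_mod_cast this
  · intro d hd hd'
    have h := L.unit_adj _ d hd hd'
    rw [hrev d hd, hrev _ hd', ← L.posz_a, ← L.posz_a] at h
    have h2 : |(L.posz e (C.a (C.face (C.rot d))) : ℝ) - L.posz e (C.a (C.face d))| = 4 := by
      rw [← h]; congr 1; ring
    rw [abs_sub_comm]
    exact_mod_cast h2

theorem card_K (e : D) : ((L.YS e e).card) = (L.K e).card := by
  classical
  have h1 : L.YS e e = (L.K e).image (fun s => L.posz e (L.P s)) := by
    ext n
    rw [L.mem_YS, Finset.mem_image]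
    simp only [L.mem_K]
  rw [h1, Finset.card_image_of_injOn]
  intro s hs s' hs' h
  rw [Finset.mem_coe, L.mem_K] at hs hs'
  by_contra hne
  have h1 := L.claim_sep s s' e hs hs' hne
  have h' : L.posz e (L.P s) = L.posz e (L.P s') := h
  rw [← L.posz_P, ← L.posz_P, h'] at h1
  norm_num at h1

theorem card_K' (e : D) : ((L.YS e (C.rev e)).card) = (L.K (C.rev e)).card := by
  classical
  have h1 : L.YS e (C.rev e) = (L.K (C.rev e)).image (fun s => L.posz e (L.P s)) := by
    ext n
    rw [L.mem_YS, Finset.mem_image]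
    simp only [L.mem_K]
  rw [h1, Finset.card_image_of_injOn]
  intro s hs s' hs' h
  rw [Finset.mem_coe, L.mem_K] at hs hs'
  by_contra hne
  have h1 := L.claim_sep' s s' e hs hs' hne
  have h' : L.posz e (L.P s) = L.posz e (L.P s') := h
  rw [← L.posz_P, ← L.posz_P, h'] at h1
  norm_num at h1

/-- the exceptional case: one unit in a cusp of size `4 × 2` -/
theorem one_unit (e' : D) (hA : L.Aw e' = 4) (hB : L.Bw e' = 2) (h1 : (L.U e').card ≤ 1) :
    L.pu2 e' ≤ (if (L.U e').card = 0 then 0 else 4) + 2 * L.sp e' := by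
  classical
  have hsp := L.sp_nonneg e'
  rcases Nat.le_one_iff_eq_zero_or_eq_one.1 h1 with h | h
  · rw [if_pos h]
    rw [Finset.card_eq_zero] at h
    unfold pu2
    rw [h]
    simpa using hsp
  · rw [if_neg (by omega)]
    obtain ⟨d, hd⟩ := Finset.card_eq_one.1 h
    have hdU : L.Unit e' d := by
      rw [← L.mem_U, hd]; exact Finset.mem_singleton_self d
    have hp : L.pu2 e' = L.pd d + L.pd (C.rot d) := by
      unfold pu2; rw [hd, Finset.sum_singleton]
    rw [hp]
    have n1 : L.Aw d ≠ 2 := by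
      intro h2
      have := L.unit_left2 e' d hdU h2
      rw [← L.mem_U, hd, Finset.mem_singleton] at this
      have h3 : C.rot (C.rot⁻¹ d) = d := by simp
      rw [this] at h3
      exact C.rot_ne d h3
    have n2 : L.Aw (C.rot d) ≠ 2 := by
      intro h2
      have := L.unit_right2 e' d hdU h2
      rw [← L.mem_U, hd, Finset.mem_singleton] at this
      exact C.rot_ne d this
    have c1 := pay2_cases (L.Aw d) (L.Bw d)
    have c2 := pay2_cases (L.Aw (C.rot d)) (L.Bw (C.rot d))
    have u1 : L.pd d = pay2 (L.Aw d) (L.Bw d) := rfl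
    have u2 : L.pd (C.rot d) = pay2 (L.Aw (C.rot d)) (L.Bw (C.rot d)) := rfl
    rw [← u1] at c1
    rw [← u2] at c2
    by_cases hs : L.Special e'
    · unfold sp
      rw [if_pos hs]
      omega
    · rcases c1 with c1 | c1 | ⟨a1, b1, c1⟩
      · omega
      · exact absurd c1 n1
      · rcases c2 with c2 | c2 | ⟨a2, b2, c2⟩
        · omega
        · exact absurd c2 n2
        · exfalso
          apply hs
          obtain ⟨l1, -⟩ := L.unit_left e' d hdU a1
          obtain ⟨r1, -⟩ := L.unit_right e' d hdU a2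
          have hr : C.rot (C.rot⁻¹ e') = e' := by simp
          exact
            { tri := by rw [← l1, r1, hr]
              A0 := hA
              B0 := hB
              A1 := by rw [← l1]; exact a1
              B1 := by rw [← l1]; exact b1
              A2 := by rw [← l1]; exact a2
              B2 := by rw [← l1]; exact b2
              δ1 := by rw [← l1]; exact (L.unit_ends e' d hdU).2.2 }

theorem δ_odd (d : D) : (L.δ d = 4 ∧ Even (L.δ d)) ∨ (L.δ d = 1 ∧ ¬ Even (L.δ d)) := by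
  rcases L.δ_eq d with h | h <;> rw [h]
  · right; exact ⟨rfl, by decide⟩
  · left; exact ⟨rfl, by decide⟩

theorem rec2_sum (e : D) (h : Odd (L.Aw e) ∨ Odd (L.Bw e)) :
    L.rec2 e + L.rec2 (C.rev e) = 2 * L.pd e := by
  have hphi : C.phi (C.rev e) = C.rot⁻¹ e := by rw [C.phi_apply, C.rev_rev]
  have hphi' : C.rot⁻¹ (C.rev e) = C.phi e := rfl
  unfold rec2
  rw [L.pd_rev, hphi', ← mul_add, mul_comm 2]
  congr 1
  have p1 := L.parA e
  have p2 := L.parA (C.rev e)
  have p3 := L.parB e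
  have p4 := L.parB (C.rev e)
  rw [L.Aw_rev, hphi'] at p2
  rw [L.Bw_rev, hphi] at p4
  rcases h with ⟨k, h⟩ | ⟨k, h⟩
  · obtain ⟨k1, hk1⟩ := p1
    obtain ⟨k2, hk2⟩ := p2
    rcases L.δ_eq e with e1 | e1 <;> rcases L.δ_eq (C.rot⁻¹ e) with e2 | e2 <;>
      rcases L.δ_eq (C.rev e) with e3 | e3 <;> rcases L.δ_eq (C.phi e) with e4 | e4 <;>
      rw [e1, e2, e3, e4] <;> rw [e1, e2] at hk1 <;> rw [e3, e4] at hk2 <;>
      first | (exfalso; omega) | norm_num
  · obtain ⟨k1, hk1⟩ := p3
    obtain ⟨k2, hk2⟩ := p4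
    rcases L.δ_eq e with e1 | e1 <;> rcases L.δ_eq (C.rot⁻¹ e) with e2 | e2 <;>
      rcases L.δ_eq (C.rev e) with e3 | e3 <;> rcases L.δ_eq (C.phi e) with e4 | e4 <;>
      rw [e1, e2, e3, e4] <;> rw [e1, e4] at hk1 <;> rw [e3, e2] at hk2 <;>
      first | (exfalso; omega) | norm_num

theorem sideCost_split (A : ℤ) (S Y : Finset ℤ) : sideCost A S Y = sideCost A S ∅ + Y.card := by
  unfold sideCost; simp

theorem card_U (e : D) : (L.US e e).card = (L.U e).card := by
  classical
  have h1 : L.US e e = (L.U e).image (fun d => L.posz e (C.a (C.face d))) := by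
    ext n
    rw [L.mem_US, Finset.mem_image]
    simp only [L.mem_U]
  rw [h1, Finset.card_image_of_injOn]
  intro d hd d' hd' h
  rw [Finset.mem_coe, L.mem_U] at hd hd'
  exact L.inj_U e d d' hd hd' h

theorem card_U' (e : D) : (L.US e (C.rev e)).card = (L.U (C.rev e)).card := by
  classical
  have h1 : L.US e (C.rev e) = (L.U (C.rev e)).image (fun d => L.posz e (C.a (C.face d))) := by
    ext n
    rw [L.mem_US, Finset.mem_image]
    simp only [L.mem_U]
  rw [h1, Finset.card_image_of_injOn]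
  intro d hd d' hd' h
  rw [Finset.mem_coe, L.mem_U] at hd hd'
  exact L.inj_U' e d d' hd hd' h

theorem pu2_of_card (e : D) (h : (L.U e).card = 0) : L.pu2 e = 0 := by
  rw [Finset.card_eq_zero] at h
  unfold pu2
  rw [h]; simp

/-- the balance at an edge -/
theorem edge_ineq (e : D) :
    L.pu2 e + L.pu2 (C.rev e) + 2 * ((L.K e).card : ℤ) + 2 * ((L.K (C.rev e)).card : ℤ) ≤
    2 * (L.Aw e + 2 * L.Bw e - 6) + (L.rec2 e + L.rec2 (C.rev e)) +
      2 * (L.sp e + L.sp (C.rev e)) := by
  obtain ⟨hc1, hc2⟩ := cusp_cost _ _ _ _ _ _ (L.cuspData e)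
  have hcd := L.cuspData e
  have hA := L.Aw_pos e
  have hB := L.Bw_pos e
  have s1 := L.sp_nonneg e
  have s2 := L.sp_nonneg (C.rev e)
  have r1 := L.rec2_nonneg e
  have r2 := L.rec2_nonneg (C.rev e)
  rw [← L.card_K e, ← L.card_K' e]
  by_cases hB1 : L.Bw e = 1
  · obtain ⟨hS, hT⟩ := hcd.b1 hB1
    have p1 := L.pu2_of_card e (by rw [← L.card_U, hS]; rfl)
    have p2 := L.pu2_of_card (C.rev e) (by rw [← L.card_U', hT]; rfl)
    rw [p1, p2]
    have hr := L.rec2_sum e (Or.inr (by rw [hB1]; decide))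
    rw [hr]
    have hpd : 2 * L.pd e = 2 * (if L.Aw e = 1 then 3 else if L.Aw e = 2 then 2 else 1) := by
      unfold pd pay2; rw [if_pos hB1]
    rw [hpd]
    rcases hc1 hB1 with h | ⟨hY, hZ⟩
    · split_ifs <;> omega
    · rw [hY, hZ]
      simp only [Finset.card_empty, Nat.cast_zero]
      split_ifs <;> omega
  · have hB2 : 2 ≤ L.Bw e := by omega
    have q1 := L.pu2_le e
    have q2 := L.pu2_le' e
    rcases hc2 hB2 with h | ⟨hA1, hBB, hS, hT, hY, hZ⟩ | ⟨hA4, hBB, hY, hZ, hST⟩
    · rw [sideCost_split, sideCost_split (Y := L.YS e (C.rev e))] at h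
      omega
    · have p1 := L.pu2_of_card e (by rw [← L.card_U, hS]; rfl)
      have p2 := L.pu2_of_card (C.rev e) (by rw [← L.card_U', hT]; rfl)
      have hA' : L.Aw e = 1 := by omega
      have hr := L.rec2_sum e (Or.inl (by rw [hA']; decide))
      have hpd : L.pd e = 1 := by
        unfold pd pay2; rw [hA', hBB]; decide
      rw [p1, p2, hr, hpd, hY, hZ]
      simp only [Finset.card_empty, Nat.cast_zero]
      omega
    · rw [L.card_U, L.card_U'] at hST
      have o1 := L.one_unit e hA4 hBB (by omega)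
      have o2 := L.one_unit (C.rev e) (by rw [L.Aw_rev, hA4]) (by rw [L.Bw_rev, hBB]) (by omega)
      rw [hY, hZ]
      simp only [Finset.card_empty, Nat.cast_zero]
      split_ifs at o1 o2 <;> omega

include L in
/-- the contradiction -/
theorem false_of (he : ∀ d, Even (per C.phi d)) : False := by
  have h1 := L.sum_Aw
  have h2 := L.sum_Bw he
  have h3 := C.euler
  have h4 : ∑ e, (L.pu2 e + L.pu2 (C.rev e) + 2 * ((L.K e).card : ℤ) +
      2 * ((L.K (C.rev e)).card : ℤ)) ≤ ∑ e, (2 * (L.Aw e + 2 * L.Bw e - 6) +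
      (L.rec2 e + L.rec2 (C.rev e)) + 2 * (L.sp e + L.sp (C.rev e))) :=
    Finset.sum_le_sum (fun e _ => L.edge_ineq e)
  simp only [Finset.sum_add_distrib, ← Finset.mul_sum, Finset.sum_sub_distrib, Finset.sum_const,
    nsmul_eq_mul] at h4
  have t1 : ∑ e, L.pu2 (C.rev e) = ∑ e, L.pu2 e := Equiv.sum_comp C.rev L.pu2
  have t2 : ∑ e, L.rec2 (C.rev e) = ∑ e, L.rec2 e := Equiv.sum_comp C.rev L.rec2
  have t3 : ∑ e, L.sp (C.rev e) = ∑ e, L.sp e := Equiv.sum_comp C.rev L.sp
  have t4 : ∑ e, ((L.K (C.rev e)).card : ℤ) = ∑ e, ((L.K e).card : ℤ) :=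
    Equiv.sum_comp C.rev (fun e => ((L.K e).card : ℤ))
  rw [t1, t2, t3, t4, h1, h2] at h4
  have u1 := L.sum_rec2_le
  have u2 := L.sum_sp_le
  rw [Finset.card_univ] at h4
  have h3' : 2 * ((Fintype.card V : ℤ) + Fintype.card F) = Fintype.card D + 4 := by
    exact_mod_cast h3
  linarith

end Lat3

end ArithPoly
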