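import Pool.Agent.LibArithPoly.T5Comb

/-!
# Task T5: product inequality for ideal polygons with integral normals
-/

namespace ArithPoly

section

variable {E : Type} [AddCommGroup E] [Module ℝ E] (B : LinearMap.BilinForm ℝ E)

/-- expansion in a basis `p, e, x` with `e` null -/
theorem expand3 (hsymm : ∀ x y, B x y = B y x) (hE : Module.finrank ℝ E = 3)
    (p e x : E) (m : ℝ) (hpp : B p p = 1) (hpe : B p e = 0) (hpx : B p x = 0)
    (hee : B e e = 0) (hex : B e x = -1) (hxx : B x x = m) (z : E) :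
    z = B z p • p - (B z x + m * B z e) • e - B z e • x := by
  have hep : B e p = 0 := by rw [hsymm, hpe]
  have hxp : B x p = 0 := by rw [hsymm, hpx]
  have hxe : B x e = -1 := by rw [hsymm, hex]
  have hli : LinearIndependent ℝ ![p, e, x] := by
    rw [Fintype.linearIndependent_iff]
    intro g hg
    rw [Fin.sum_univ_three] at hg
    simp only [Matrix.cons_val_zero, Matrix.cons_val_one, Matrix.cons_val] at hg
    have e1 := congrArg (fun z => B z p) hg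
    have e2 := congrArg (fun z => B z e) hg
    have e3 := congrArg (fun z => B z x) hg
    simp only [LinearMap.map_add₂, LinearMap.map_smul₂, hpp, hpe, hpx, hep, hxp, hee, hex, hxe,
      hxx, smul_eq_mul, LinearMap.map_zero₂] at e1 e2 e3
    have g2 : g 2 = 0 := by linarith
    have g0 : g 0 = 0 := by linarith
    have g1 : g 1 = 0 := by rw [g2] at e3; linarith
    intro i
    fin_cases i
    · exact g0
    · exact g1
    · exact g2
  let b := basisOfLinearIndependentOfCardEqFinrank hli (by simp [hE])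
  have hb : ⇑b = ![p, e, x] := coe_basisOfLinearIndependentOfCardEqFinrank hli _
  have hrep := b.sum_repr z
  rw [Fin.sum_univ_three, hb] at hrep
  simp only [Matrix.cons_val_zero, Matrix.cons_val_one, Matrix.cons_val] at hrep
  obtain ⟨α, hα⟩ : ∃ α, α = b.repr z 0 := ⟨_, rfl⟩
  obtain ⟨β, hβ⟩ : ∃ β, β = b.repr z 1 := ⟨_, rfl⟩
  obtain ⟨γ, hγ⟩ : ∃ γ, γ = b.repr z 2 := ⟨_, rfl⟩
  rw [← hα, ← hβ, ← hγ] at hrep
  have e1 : B z p = α := by
    rw [← hrep]
    simp only [LinearMap.map_add₂, LinearMap.map_smul₂, hpp, hep, hxp, smul_eq_mul]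
    ring
  have e2 : B z e = - γ := by
    rw [← hrep]
    simp only [LinearMap.map_add₂, LinearMap.map_smul₂, hpe, hee, hxe, smul_eq_mul]
    ring
  have e3 : B z x = - β + m * γ := by
    rw [← hrep]
    simp only [LinearMap.map_add₂, LinearMap.map_smul₂, hpx, hex, hxx, smul_eq_mul]
    ring
  rw [e1, e2, e3, ← hrep]
  module

/-- a unimodular lattice -/
structure UniLat (L : AddSubgroup E) : Prop where
  int : ∀ x ∈ L, ∀ y ∈ L, ∃ k : ℤ, B x y = k
  dual : ∀ z, (∀ y ∈ L, ∃ k : ℤ, B z y = k) → z ∈ L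

theorem genZ (T : AddSubgroup E) (N : E) (hint : ∀ x ∈ T, ∃ k : ℤ, B N x = k)
    (hne : ∃ x ∈ T, B N x ≠ 0) :
    ∃ c : ℤ, 0 < c ∧ (∃ w ∈ T, B N w = - c) ∧ ∀ x ∈ T, ∃ k : ℤ, B N x = c * k := by
  let H : AddSubgroup ℤ :=
    { carrier := {k | ∃ x ∈ T, B N x = k}
      zero_mem' := ⟨0, T.zero_mem, by simp⟩
      add_mem' := by
        rintro a b ⟨x, hx, hx'⟩ ⟨y, hy, hy'⟩
        exact ⟨x + y, T.add_mem hx hy, by rw [map_add, hx', hy']; push_cast; ring⟩
      neg_mem' := by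
        rintro a ⟨x, hx, hx'⟩
        exact ⟨-x, T.neg_mem hx, by rw [map_neg, hx']; push_cast; ring⟩ }
  obtain ⟨a, ha⟩ := Int.subgroup_cyclic H
  have hmem : ∀ k, k ∈ H ↔ ∃ q : ℤ, k = a * q := by
    intro k
    rw [ha, AddSubgroup.mem_closure_singleton]
    constructor
    · rintro ⟨q, hq⟩; exact ⟨q, by rw [← hq, smul_eq_mul, mul_comm]⟩
    · rintro ⟨q, hq⟩; exact ⟨q, by rw [hq, smul_eq_mul, mul_comm]⟩
  have ha0 : a ≠ 0 := by
    rintro rfl
    obtain ⟨x, hx, hx'⟩ := hne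
    obtain ⟨k, hk⟩ := hint x hx
    obtain ⟨q, hq⟩ := (hmem k).1 ⟨x, hx, hk⟩
    rw [hk, hq] at hx'
    simp at hx'
  refine ⟨|a|, abs_pos.2 ha0, ?_, ?_⟩
  · have : -|a| ∈ H := by
      rw [hmem]
      rcases abs_cases a with h | h
      · exact ⟨-1, by rw [h.1]; ring⟩
      · exact ⟨1, by rw [h.1]; ring⟩
    obtain ⟨w, hw, hw'⟩ := this
    exact ⟨w, hw, by rw [hw']; push_cast; ring⟩
  · intro x hx
    obtain ⟨k, hk⟩ := hint x hx
    obtain ⟨q, hq⟩ := (hmem k).1 ⟨x, hx, hk⟩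
    rw [hk, hq]
    rcases abs_cases a with h | h
    · exact ⟨q, by rw [h.1]; push_cast; ring⟩
    · exact ⟨-q, by rw [h.1]; push_cast; ring⟩

theorem exists_uniLat (hsymm : ∀ x y, B x y = B y x) (hE : Module.finrank ℝ E = 3)
    (f : ℕ → E) (hint : ∀ i j, ∃ k : ℤ, B (f i) (f j) = k) (h00 : B (f 0) (f 0) = 1)
    (h01 : B (f 0) (f 1) = -1) (h11 : B (f 1) (f 1) = 1) (hne : B (f 0 + f 1) (f 2) ≠ 0) :
    ∃ L : AddSubgroup E, UniLat B L ∧ ∀ j, f j ∈ L := by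
  -- the span of the `f j`
  let S := AddSubgroup.closure (Set.range f)
  have hfS : ∀ j, f j ∈ S := fun j => AddSubgroup.subset_closure ⟨j, rfl⟩
  have hSf : ∀ x ∈ S, ∀ j, ∃ k : ℤ, B x (f j) = k := by
    intro x hx j
    induction hx using AddSubgroup.closure_induction with
    | mem x hx => obtain ⟨i, rfl⟩ := hx; exact hint i j
    | zero => exact ⟨0, by simp⟩
    | add x y _ _ hx hy =>
      obtain ⟨k, hk⟩ := hx; obtain ⟨l, hl⟩ := hy
      exact ⟨k + l, by rw [LinearMap.map_add₂, hk, hl]; push_cast; ring⟩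
    | neg x _ hx =>
      obtain ⟨k, hk⟩ := hx
      exact ⟨-k, by rw [LinearMap.map_neg₂, hk]; push_cast; ring⟩
  have hSS : ∀ x ∈ S, ∀ y ∈ S, ∃ k : ℤ, B x y = k := by
    intro x hx y hy
    induction hy using AddSubgroup.closure_induction with
    | mem y hy => obtain ⟨j, rfl⟩ := hy; exact hSf x hx j
    | zero => exact ⟨0, by simp⟩
    | add y z _ _ hy hz =>
      obtain ⟨k, hk⟩ := hy; obtain ⟨l, hl⟩ := hz
      exact ⟨k + l, by rw [map_add, hk, hl]; push_cast; ring⟩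
    | neg y _ hy =>
      obtain ⟨k, hk⟩ := hy
      exact ⟨-k, by rw [map_neg, hk]; push_cast; ring⟩
  have hN : f 0 + f 1 ∈ S := S.add_mem (hfS 0) (hfS 1)
  obtain ⟨c, hc, ⟨w, hw, hw'⟩, hall⟩ := genZ B S (f 0 + f 1) (hSS _ hN) ⟨f 2, hfS 2, hne⟩
  have hcR : (0 : ℝ) < c := by exact_mod_cast hc
  -- null vector
  obtain ⟨e, he⟩ : ∃ e : E, e = (1 / (c : ℝ)) • (f 0 + f 1) := ⟨_, rfl⟩
  have h10 : B (f 1) (f 0) = -1 := by rw [hsymm, h01]
  have hee : B e e = 0 := by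
    rw [he]
    simp only [LinearMap.add_apply, LinearMap.smul_apply, map_smul, map_add, smul_eq_mul, h00, h01,
      h10, h11]
    ring
  have hfe : B (f 1) e = 0 := by
    rw [he]
    simp only [map_smul, map_add, smul_eq_mul, h10, h11]
    ring
  have hew : B e w = -1 := by
    rw [he, LinearMap.map_smul₂, hw', smul_eq_mul]
    field_simp
  obtain ⟨k1, hk1⟩ := hSf w hw 1
  obtain ⟨x, hx⟩ : ∃ x : E, x = w - (k1 : ℝ) • f 1 := ⟨_, rfl⟩
  have hxS : x ∈ S := by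
    rw [hx]
    refine S.sub_mem hw ?_
    rw [Int.cast_smul_eq_zsmul]
    exact S.zsmul_mem (hfS 1) k1
  have hfx : B (f 1) x = 0 := by
    rw [hx, map_sub, map_smul, h11, hsymm, hk1]; simp
  have hex : B e x = -1 := by
    rw [hx, map_sub, map_smul, hsymm e (f 1), hfe, hew]; simp
  obtain ⟨m, hm⟩ := hSS x hxS x hxS
  have hexp := expand3 B hsymm hE (f 1) e x m h11 hfe hfx hee hex hm
  let L : AddSubgroup E :=
    { carrier := {z | (∃ k : ℤ, B z (f 1) = k) ∧ (∃ k : ℤ, B z e = k) ∧ ∃ k : ℤ, B z x = k}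
      zero_mem' := ⟨⟨0, by simp⟩, ⟨0, by simp⟩, ⟨0, by simp⟩⟩
      add_mem' := by
        rintro a b ⟨⟨p1, h1⟩, ⟨p2, h2⟩, ⟨p3, h3⟩⟩ ⟨⟨q1, g1⟩, ⟨q2, g2⟩, ⟨q3, g3⟩⟩
        refine ⟨⟨p1 + q1, ?_⟩, ⟨p2 + q2, ?_⟩, ⟨p3 + q3, ?_⟩⟩
        · rw [LinearMap.map_add₂, h1, g1]; push_cast; ring
        · rw [LinearMap.map_add₂, h2, g2]; push_cast; ring
        · rw [LinearMap.map_add₂, h3, g3]; push_cast; ring
      neg_mem' := by
        rintro a ⟨⟨p1, h1⟩, ⟨p2, h2⟩, ⟨p3, h3⟩⟩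
        refine ⟨⟨-p1, ?_⟩, ⟨-p2, ?_⟩, ⟨-p3, ?_⟩⟩
        · rw [LinearMap.map_neg₂, h1]; push_cast; ring
        · rw [LinearMap.map_neg₂, h2]; push_cast; ring
        · rw [LinearMap.map_neg₂, h3]; push_cast; ring }
  have hmem : ∀ z, z ∈ L ↔ (∃ k : ℤ, B z (f 1) = k) ∧ (∃ k : ℤ, B z e = k) ∧
      ∃ k : ℤ, B z x = k := fun z => Iff.rfl
  refine ⟨L, ⟨?_, ?_⟩, ?_⟩
  · intro z hz y hy
    rw [hmem] at hz hy
    obtain ⟨⟨p1, h1⟩, ⟨p2, h2⟩, ⟨p3, h3⟩⟩ := hz
    obtain ⟨⟨q1, g1⟩, ⟨q2, g2⟩, ⟨q3, g3⟩⟩ := hy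
    have := hexp y
    rw [g1, g2, g3] at this
    refine ⟨q1 * p1 - (q3 + m * q2) * p2 - q2 * p3, ?_⟩
    rw [this]
    simp only [map_sub, map_smul, smul_eq_mul, h1, h2, h3]
    push_cast
    ring
  · intro z hz
    rw [hmem]
    refine ⟨hz _ ?_, hz _ ?_, hz _ ?_⟩
    · rw [hmem]
      exact ⟨⟨1, by simp [h11]⟩, ⟨0, by simp [hfe]⟩, ⟨0, by simp [hfx]⟩⟩
    · rw [hmem]
      exact ⟨⟨0, by simp [hsymm e (f 1), hfe]⟩, ⟨0, by simp [hee]⟩, ⟨-1, by simp [hex]⟩⟩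
    · rw [hmem]
      exact ⟨⟨0, by simp [hsymm x (f 1), hfx]⟩, ⟨-1, by simp [hsymm x e, hex]⟩, ⟨m, hm⟩⟩
  · intro j
    rw [hmem]
    refine ⟨hint j 1, ?_, ?_⟩
    · obtain ⟨k, hk⟩ := hall (f j) (hfS j)
      refine ⟨k, ?_⟩
      rw [hsymm, he, LinearMap.map_smul₂, hk, smul_eq_mul]
      field_simp
    · exact hSS _ (hfS j) _ hxS

variable {B}

/-- the two types of sides -/
theorem UniLat.side {L : AddSubgroup E} (hL : UniLat B L) (hsymm : ∀ x y, B x y = B y x)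
    (hE : Module.finrank ℝ E = 3) (f P Q w w' : E) (hf : f ∈ L) (hP : P ∈ L) (hQ : Q ∈ L)
    (hw : w ∈ L) (hw' : w' ∈ L) (hff : B f f = 1) (hfP : B f P = 0) (hfQ : B f Q = 0)
    (hPP : B P P = 0) (hQQ : B Q Q = 0) (hPw : B P w = -1) (hQw : B Q w' = -1)
    (hPQ : B P Q < 0) :
    ∃ ν : ℤ, (ν = 1 ∨ ν = 2) ∧ B P Q = -ν ∧
      ∀ x ∈ L, ∃ k : ℤ, B x x - B f x - (ν - 1) * B P x = 2 * k := by
  obtain ⟨k1, hk1⟩ := hL.int w hw f hf
  obtain ⟨x, hx⟩ : ∃ x : E, x = w - (k1 : ℝ) • f := ⟨_, rfl⟩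
  have hxL : x ∈ L := by
    rw [hx]
    refine L.sub_mem hw ?_
    rw [Int.cast_smul_eq_zsmul]
    exact L.zsmul_mem hf k1
  have hfx : B f x = 0 := by
    rw [hx, map_sub, map_smul, hff, hsymm, hk1]; simp
  have hPx : B P x = -1 := by
    rw [hx, map_sub, map_smul, hsymm P f, hfP, hPw]; simp
  obtain ⟨m, hm⟩ := hL.int x hxL x hxL
  have hexp := expand3 B hsymm hE f P x m hff hfP hfx hPP hPx hm
  obtain ⟨n, hn⟩ := hL.int P hP Q hQ
  obtain ⟨ν, rfl⟩ : ∃ ν, n = -ν := ⟨-n, by ring⟩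
  have hν : 0 < ν := by
    rw [hn] at hPQ
    push_cast at hPQ
    have : (0 : ℝ) < ν := by linarith
    exact_mod_cast this
  obtain ⟨t, ht⟩ := hL.int Q hQ x hxL
  have hQe := hexp Q
  rw [hsymm Q f, hfQ, ht, hsymm Q P, hn] at hQe
  obtain ⟨α, hα⟩ : ∃ α : ℤ, α = m * ν - t := ⟨_, rfl⟩
  have hQe' : Q = (α : ℝ) • P + (ν : ℝ) • x := by
    rw [hQe, hα]
    push_cast
    module
  have h2α : 2 * α = ν * m := by
    have h1 : (ν : ℝ) * (ν * m - 2 * α) = 0 := by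
      have := hQQ
      rw [hQe'] at this
      simp only [LinearMap.add_apply, LinearMap.smul_apply, map_add, map_smul, smul_eq_mul, hPP,
        hPx, hsymm x P, hm] at this
      linear_combination this
    have h2 : ν * (ν * m - 2 * α) = 0 := by exact_mod_cast h1
    rcases mul_eq_zero.1 h2 with h3 | h3
    · omega
    · linarith
  obtain ⟨r, hr⟩ := hL.int P hP w' hw'
  obtain ⟨s, hs⟩ := hL.int x hxL w' hw'
  have hrs : α * r + ν * s = -1 := by
    have h1 : (α : ℝ) * r + ν * s = -1 := by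
      rw [← hQw, hQe', LinearMap.map_add₂, LinearMap.map_smul₂, LinearMap.map_smul₂, hr, hs]
      simp
    exact_mod_cast h1
  have hdvd : ν * (m * r + 2 * s) = -2 := by linear_combination 2 * hrs - r * h2α
  have hν2 : ν = 1 ∨ ν = 2 := by
    have h1 : ν ∣ 2 := ⟨-(m * r + 2 * s), by linarith⟩
    have h2 := Int.le_of_dvd (by norm_num) h1
    omega
  have hpar : ∃ u : ℤ, m = ν - 1 + 2 * u := by
    rcases hν2 with h | h
    · exact ⟨α, by rw [h] at h2α ⊢; linarith⟩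
    · rw [h] at hdvd h2α
      have h3 : m * r + 2 * s = -1 := by linarith
      have h4 : m % 2 = 1 := by
        by_contra h5
        have h6 : m % 2 = 0 := by omega
        obtain ⟨m', hm'⟩ : ∃ m', m = 2 * m' := ⟨m / 2, by omega⟩
        rw [hm'] at h3
        have : 2 * (m' * r + s) = -1 := by linarith
        omega
      exact ⟨m / 2, by omega⟩
  refine ⟨ν, hν2, by rw [hn]; push_cast; ring, ?_⟩
  intro z hz
  obtain ⟨a, ha⟩ := hL.int z hz f hf
  obtain ⟨b, hb⟩ := hL.int z hz x hxL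
  obtain ⟨g, hg⟩ := hL.int z hz P hP
  obtain ⟨u, hu⟩ := hpar
  have hz' := hexp z
  rw [ha, hb, hg] at hz'
  have hzz : B z z = a * a - 2 * ((b + m * g) * g) + m * g * g := by
    rw [hz']
    simp only [map_sub, map_smul, LinearMap.sub_apply, LinearMap.smul_apply, smul_eq_mul, hff, hfP,
      hfx, hsymm P f, hsymm x f, hPP, hPx, hsymm x P, hm]
    ring
  obtain ⟨q1, hq1⟩ := Int.even_mul_succ_self (a - 1)
  obtain ⟨q2, hq2⟩ := Int.even_mul_succ_self g
  rw [hsymm f z, hsymm P z, ha, hg, hzz]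
  refine ⟨q1 - b * g - m * q2 + u * g, ?_⟩
  have h1 : ((a : ℝ) - 1) * a = q1 + q1 := by
    have : (a - 1) * a = q1 + q1 := by rw [← hq1]; ring
    exact_mod_cast this
  have h2 : (g : ℝ) * (g + 1) = q2 + q2 := by exact_mod_cast hq2
  have h3 : (m : ℝ) = ν - 1 + 2 * u := by exact_mod_cast hu
  push_cast
  linear_combination h1 - m * h2 + g * h3

/-- the multiplicity of a lattice vector -/
theorem UniLat.exists_mult {L : AddSubgroup E} (hL : UniLat B L) (N : E) (hN : N ∈ L)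
    (hne : ∃ x ∈ L, B N x ≠ 0) :
    ∃ c : ℤ, 0 < c ∧ (1 / (c : ℝ)) • N ∈ L ∧ ∃ w ∈ L, B ((1 / (c : ℝ)) • N) w = -1 := by
  obtain ⟨c, hc, ⟨w, hw, hw'⟩, hall⟩ := genZ B L N (hL.int N hN) hne
  have hcR : (0 : ℝ) < c := by exact_mod_cast hc
  refine ⟨c, hc, hL.dual _ (fun y hy => ?_), w, hw, ?_⟩
  · obtain ⟨k, hk⟩ := hall y hy
    refine ⟨k, ?_⟩
    rw [LinearMap.map_smul₂, hk, smul_eq_mul]
    field_simp
  · rw [LinearMap.map_smul₂, hw', smul_eq_mul]
    field_simp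

open Classical in
/-- the multiplicity as a function -/
noncomputable def mult (B : LinearMap.BilinForm ℝ E) (L : AddSubgroup E) (N : E) : ℤ :=
  if h : ∃ c : ℤ, 0 < c ∧ (1 / (c : ℝ)) • N ∈ L ∧ ∃ w ∈ L, B ((1 / (c : ℝ)) • N) w = -1 then
    h.choose else 1

theorem UniLat.mult_spec {L : AddSubgroup E} (hL : UniLat B L) (N : E) (hN : N ∈ L)
    (hne : ∃ x ∈ L, B N x ≠ 0) :
    0 < mult B L N ∧ (1 / (mult B L N : ℝ)) • N ∈ L ∧
      ∃ w ∈ L, B ((1 / (mult B L N : ℝ)) • N) w = -1 := by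
  have h := hL.exists_mult N hN hne
  have e : mult B L N = h.choose := by
    unfold mult
    rw [dif_pos h]
  rw [e]
  exact h.choose_spec

end

/-- weight of a side -/
noncomputable def wt (k : ℤ) : ℝ := if k = 6 then 4 / 3 else (k : ℝ) / 4

theorem wt_eq (k : ℤ) : wt k = wtR (k : ℝ) := by
  unfold wt wtR
  by_cases h : k = 6
  · rw [if_pos h, if_pos (by rw [h]; norm_num)]
  · rw [if_neg h, if_neg (fun h' => h (by exact_mod_cast h'))]

theorem good5_of {x y : ℝ} {a p q : ℤ} (hx : x ^ 2 = 2 * p) (hy : y ^ 2 = 2 * q)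
    (hp : p = 1 ∨ p = 2) (hq : q = 1 ∨ q = 2) (h : ∃ k : ℤ, a + p + q = 2 * k) :
    Good5 x y a := by
  obtain ⟨k, hk⟩ := h
  rcases hp with rfl | rfl <;> rcases hq with rfl | rfl
  · refine Or.inl ⟨by rw [hx]; norm_num, by rw [hy]; norm_num, k - 1, ?_⟩
    have : a = 2 * (k - 1) := by omega
    rw [this]; push_cast; ring
  · refine Or.inr (Or.inl ⟨by rw [hx]; norm_num, by rw [hy]; norm_num, k - 2, ?_⟩)
    have : a = 2 * (k - 2) + 1 := by omega
    rw [this]; push_cast; ring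
  · refine Or.inr (Or.inr (Or.inl ⟨by rw [hx]; norm_num, by rw [hy]; norm_num, k - 2, ?_⟩))
    have : a = 2 * (k - 2) + 1 := by omega
    rw [this]; push_cast; ring
  · refine Or.inr (Or.inr (Or.inr ⟨by rw [hx]; norm_num, by rw [hy]; norm_num, k - 2, ?_⟩))
    have : a = 2 * (k - 2) := by omega
    rw [this]; push_cast; ring

theorem evenPoly {E : Type} [AddCommGroup E] [Module ℝ E] (B : LinearMap.BilinForm ℝ E)
    (hsymm : ∀ x y, B x y = B y x) (hE : Module.finrank ℝ E = 3)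
    (n : ℕ) (hn : 3 ≤ n) (f : ℕ → E) (per : ∀ i, f (i + n) = f i)
    (G : ℕ → ℕ → ℤ) (hG : ∀ i j, B (f i) (f j) = G i j)
    (h0 : ∀ i, G i i = 1) (h1 : ∀ i, G i (i + 1) = -1)
    (h2 : ∀ i j, i < n → j < n → i ≠ j → G i j ≤ -1) :
    ∏ i ∈ Finset.range n, wt (2 - 2 * G i (i + 2)) ≤ 16 ^ (n - 3) := by
  have perm : ∀ i, f (i % n) = f i := by
    intro i
    exact forall_of_lt (Q := fun i => f (i % n) = f i) n (by omega)
      (fun i hi => by rw [Nat.mod_eq_of_lt hi])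
      (fun i hi => by rw [Nat.add_mod_right, hi, per]) i
  have unit : ∀ i, B (f i) (f i) = 1 := fun i => by rw [hG, h0]; simp
  have adj : ∀ i, B (f i) (f (i + 1)) = -1 := fun i => by rw [hG, h1]; simp
  have neg : ∀ i j, i < j → j < i + n → B (f i) (f j) ≤ -1 := by
    intro i j hij hj
    have h3 : i % n ≠ j % n := by
      intro h
      have h4 : (j - i) % n = 0 := Nat.sub_mod_eq_zero_of_mod_eq h.symm
      rw [Nat.mod_eq_of_lt (by omega)] at h4
      omega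
    have h4 := h2 (i % n) (j % n) (Nat.mod_lt _ (by omega)) (Nat.mod_lt _ (by omega)) h3
    have h5 := hG (i % n) (j % n)
    rw [perm, perm] at h5
    rw [h5]
    exact_mod_cast h4
  have adj' : ∀ i, B (f (i + 1)) (f i) = -1 := fun i => by rw [hsymm, adj]
  have hNf : ∀ i, B (f i + f (i + 1)) (f (i + 2)) < 0 := by
    intro i
    have e1 := adj (i + 1)
    have e2 := neg i (i + 2) (by omega) (by omega)
    rw [LinearMap.map_add₂]
    have e3 : B (f (i + 1)) (f (i + 2)) = -1 := e1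
    linarith
  obtain ⟨L, hL, hfL⟩ := exists_uniLat B hsymm hE f (fun i j => ⟨G i j, hG i j⟩) (unit 0) (adj 0)
    (unit 1) (hNf 0).ne
  -- multiplicities
  have hmul : ∀ i, 0 < mult B L (f i + f (i + 1)) ∧
      (1 / (mult B L (f i + f (i + 1)) : ℝ)) • (f i + f (i + 1)) ∈ L ∧
      ∃ w ∈ L, B ((1 / (mult B L (f i + f (i + 1)) : ℝ)) • (f i + f (i + 1))) w = -1 :=
    fun i => hL.mult_spec _ (L.add_mem (hfL _) (hfL _)) ⟨f (i + 2), hfL _, (hNf i).ne⟩
  obtain ⟨a, ha⟩ : ∃ a : ℕ → ℤ, ∀ i, a i = mult B L (f i + f (i + 1)) := ⟨_, fun _ => rfl⟩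
  obtain ⟨P, hP⟩ : ∃ P : ℕ → E, ∀ i, P i = (1 / (a i : ℝ)) • (f i + f (i + 1)) :=
    ⟨_, fun _ => rfl⟩
  have apos : ∀ i, 0 < a i := fun i => by rw [ha]; exact (hmul i).1
  have aposR : ∀ i, (0 : ℝ) < a i := fun i => by exact_mod_cast apos i
  have hPL : ∀ i, P i ∈ L := fun i => by rw [hP, ha]; exact (hmul i).2.1
  have hw : ∀ i, ∃ w ∈ L, B (P i) w = -1 := fun i => by rw [hP, ha]; exact (hmul i).2.2
  have hNP : ∀ i, f i + f (i + 1) = (a i : ℝ) • P i := by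
    intro i
    rw [hP, smul_smul, mul_one_div_cancel (aposR i).ne', one_smul]
  have pera : ∀ i, a (i + n) = a i := by
    intro i
    rw [ha, ha, show i + n + 1 = i + 1 + n by ring, per, per]
  have perP : ∀ i, P (i + n) = P i := by
    intro i
    rw [hP, hP, pera, show i + n + 1 = i + 1 + n by ring, per, per]
  have hPP : ∀ i, B (P i) (P i) = 0 := by
    intro i
    rw [hP]
    simp only [LinearMap.add_apply, LinearMap.smul_apply, map_add, map_smul, smul_eq_mul, unit, adj,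
      adj']
    ring
  have hfP : ∀ i, B (f i) (P i) = 0 := by
    intro i
    rw [hP]
    simp only [map_add, map_smul, smul_eq_mul, unit, adj]
    ring
  have hfP' : ∀ i, B (f (i + 1)) (P i) = 0 := by
    intro i
    rw [hP]
    simp only [map_add, map_smul, smul_eq_mul, unit, adj']
    ring
  have hNN : ∀ i, B (f i + f (i + 1)) (f (i + 1) + f (i + 2)) = B (f i) (f (i + 2)) - 1 := by
    intro i
    simp only [map_add, LinearMap.add_apply, unit, adj]
    ring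
  have hPQ : ∀ i, (a i * a (i + 1) : ℝ) * B (P i) (P (i + 1)) = B (f i) (f (i + 2)) - 1 := by
    intro i
    rw [← hNN, hNP i]
    have := hNP (i + 1)
    rw [show i + 1 + 1 = i + 2 by ring] at this
    rw [this]
    simp only [map_smul, LinearMap.smul_apply, smul_eq_mul]
    ring
  have hPneg : ∀ i, B (P i) (P (i + 1)) < 0 := by
    intro i
    have e2 := neg i (i + 2) (by omega) (by omega)
    have e3 := hPQ i
    by_contra h
    push Not at h
    have e4 : 0 ≤ (a i * a (i + 1) : ℝ) * B (P i) (P (i + 1)) :=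
      mul_nonneg (mul_nonneg (aposR i).le (aposR (i + 1)).le) h
    linarith
  -- the two types of sides
  have side1 : ∀ i, ∃ ν : ℤ, (ν = 1 ∨ ν = 2) ∧ B (P i) (P (i + 1)) = -ν ∧
      ∀ x ∈ L, ∃ k : ℤ, B x x - B (f (i + 1)) x - (ν - 1) * B (P i) x = 2 * k := by
    intro i
    obtain ⟨w, hw1, hw2⟩ := hw i
    obtain ⟨w', hw3, hw4⟩ := hw (i + 1)
    exact hL.side hsymm hE (f (i + 1)) (P i) (P (i + 1)) w w' (hfL _) (hPL _) (hPL _) hw1 hw3
      (unit _) (hfP' i) (hfP (i + 1)) (hPP _) (hPP _) hw2 hw4 (hPneg i)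
  have side2 : ∀ i, ∃ ν : ℤ, (ν = 1 ∨ ν = 2) ∧ B (P i) (P (i + 1)) = -ν ∧
      ∀ x ∈ L, ∃ k : ℤ, B x x - B (f (i + 1)) x - (ν - 1) * B (P (i + 1)) x = 2 * k := by
    intro i
    obtain ⟨w, hw1, hw2⟩ := hw i
    obtain ⟨w', hw3, hw4⟩ := hw (i + 1)
    have := hL.side hsymm hE (f (i + 1)) (P (i + 1)) (P i) w' w (hfL _) (hPL _) (hPL _) hw3 hw1
      (unit _) (hfP (i + 1)) (hfP' i) (hPP _) (hPP _) hw4 hw2 (by rw [hsymm]; exact hPneg i)
    rw [hsymm (P (i + 1)) (P i)] at this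
    exact this
  obtain ⟨l, hl⟩ : ∃ l : ℕ → ℝ, ∀ i, l i = Real.sqrt (2 * (- B (P i) (P (i + 1)))) :=
    ⟨_, fun _ => rfl⟩
  have lpos : ∀ i, 0 < l i := by
    intro i
    rw [hl]
    exact Real.sqrt_pos.2 (by have := hPneg i; linarith)
  have lsq : ∀ i, l i ^ 2 = 2 * (- B (P i) (P (i + 1))) := by
    intro i
    rw [hl, Real.sq_sqrt (by have := hPneg i; linarith)]
  have hf : FPoly B n f (fun i => (a i : ℝ)) l := by
    refine ⟨per, fun i => by simp only [pera], fun i => ?_, unit, adj, neg, aposR, lpos,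
      fun i => ?_⟩
    · rw [hl, hl, show i + n + 1 = i + 1 + n by ring, perP, perP]
    · rw [lsq]
      have := hPQ i
      linarith
  have hp := hf.pgn hn hsymm hE
  have hlam : ∀ i, lam (vv (fun i => (a i : ℝ)) l) i = l i := fun i => dt_vv_one _ _ hf.lpos i
  have hwd : ∀ i, wd (vv (fun i => (a i : ℝ)) l) i = a (i + 1) := by
    intro i
    rw [wd, dt_vv_two _ _ hf.lpos, hlam, hlam]
    have := (lpos i).ne'
    have := (lpos (i + 1)).ne'
    field_simp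
  have hgood : ∀ i, Good5 (lam (vv (fun i => (a i : ℝ)) l) i)
      (lam (vv (fun i => (a i : ℝ)) l) (i + 1)) (wd (vv (fun i => (a i : ℝ)) l) i) := by
    intro i
    rw [hlam, hlam, hwd]
    obtain ⟨p, hp1, hp2, hp3⟩ := side2 i
    obtain ⟨q, hq1, hq2, hq3⟩ := side1 (i + 1)
    obtain ⟨w, hw1, hw2⟩ := hw (i + 1)
    obtain ⟨k1, hk1⟩ := hp3 w hw1
    obtain ⟨k2, hk2⟩ := hq3 w hw1
    obtain ⟨k3, hk3⟩ := hL.int w hw1 w hw1
    refine good5_of (by rw [lsq, hp2]; ring) (by rw [lsq, hq2]; ring) hp1 hq1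
      ⟨k1 + k2 - k3 + 1, ?_⟩
    have e1 : B (f (i + 1)) w + B (f (i + 1 + 1)) w = - (a (i + 1) : ℝ) := by
      rw [← LinearMap.map_add₂, hNP (i + 1), LinearMap.map_smul₂, hw2, smul_eq_mul]
      ring
    have e2 : ((a (i + 1) + p + q : ℤ) : ℝ) = ((2 * (k1 + k2 - k3 + 1) : ℤ) : ℝ) := by
      rw [hw2, hk3] at hk1 hk2
      push_cast
      linear_combination hk1 + hk2 + e1
    exact_mod_cast e2
  obtain ⟨m, rfl⟩ : ∃ m, n = m + 3 := ⟨n - 3, by omega⟩
  have key := prod5 m _ hp hgood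
  have hkk : ∀ i, kk (vv (fun i => (a i : ℝ)) l) i = 2 - 2 * B (f (i + 1)) (f (i + 1 + 2)) := by
    intro i
    simp only [kk]
    rw [hwd, hwd, hlam, lsq]
    have := hPQ (i + 1)
    linear_combination (-2 : ℝ) * this
  simp only [hkk] at key
  have e := prod_shift (fun i => wtR (2 - 2 * B (f i) (f (i + 2)))) (m + 3)
    (fun i => by simp only [show i + (m + 3) + 2 = i + 2 + (m + 3) by ring, per])
    (fun i => (wtR_pos (by have := neg i (i + 2) (by omega) (by omega); linarith)).ne') 1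
  rw [e] at key
  have hfin : ∏ i ∈ Finset.range (m + 3), wt (2 - 2 * G i (i + 2)) =
      ∏ i ∈ Finset.range (m + 3), wtR (2 - 2 * B (f i) (f (i + 2))) := by
    refine Finset.prod_congr rfl (fun i _ => ?_)
    rw [wt_eq, hG]
    push_cast
    rfl
  rw [hfin, show m + 3 - 3 = m by omega]
  exact key

end ArithPoly
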