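import Pool.Agent.LibArithPoly.T4Mod
import Pool.Agent.LibArithPoly.T3Integral
import Pool.Agent.LibArithPoly.T5EvenPoly

/-!
# The case `5 ∣ d`
-/

open Matrix

set_option linter.unusedSectionVars false

namespace ArithPoly

variable {V F D : Type} [Fintype V] [Fintype F] [Fintype D]
variable {W : Type} [AddCommGroup W] [Module ℝ W] {B : LinearMap.BilinForm ℝ W}

namespace Config

variable (C : Config B V F D)

/-- the orthogonal complement of `b v` -/
def perp (v : V) : Submodule ℝ W := LinearMap.ker (B (C.b v))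

theorem mem_perp (v : V) (x : W) : x ∈ C.perp v ↔ B (C.b v) x = 0 := Iff.rfl

theorem finrank_perp (v : V) : Module.finrank ℝ (C.perp v) = 3 := by
  have : FiniteDimensional ℝ W := Module.finite_of_finrank_pos (by rw [C.finrank]; norm_num)
  have h := LinearMap.finrank_range_add_finrank_ker (B (C.b v))
  have h2 : LinearMap.range (B (C.b v)) = ⊤ := by
    rw [LinearMap.range_eq_top]
    intro c
    refine ⟨c • C.b v, ?_⟩
    rw [map_smul, C.b_unit, smul_eq_mul, mul_one]
  rw [h2, finrank_top, Module.finrank_self, C.finrank] at h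
  unfold perp
  omega

theorem a_mem_perp (d : D) : C.a (C.face d) ∈ C.perp (C.vert d) := by
  rw [mem_perp, C.symm, C.a_b]

/-- the walls around a vertex -/
def aPoly (d : D) (i : ℕ) : C.perp (C.vert d) :=
  ⟨C.a (C.face ((C.rot ^ i) d)), by
    have := C.a_mem_perp ((C.rot ^ i) d)
    rwa [C.vert_rot_pow] at this⟩

theorem rot_inj {d : D} {i j : ℕ} (hi : i < per C.rot d) (hj : j < per C.rot d)
    (h : C.face ((C.rot ^ i) d) = C.face ((C.rot ^ j) d)) : i = j := by
  apply pow_inj_of_lt C.rot d hi hj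
  apply C.dart_unique h
  rw [C.vert_rot_pow, C.vert_rot_pow]

/-- different faces at a corner -/
theorem face_rev_ne_rot (x : D) : C.face (C.rev x) ≠ C.face (C.rot x) := by
  intro h
  rw [← C.face_rot_inv] at h
  have h1 := C.dart_unique h (by rw [C.vert_rot_inv, C.vert_rot])
  have h2 : C.rot (C.rot⁻¹ x) = C.rot (C.rot x) := by rw [h1]
  have h3 : C.rot (C.rot⁻¹ x) = x := by simp
  rw [h3] at h2
  have h4 := C.three_le_per_rot x
  have := pow_inj_of_lt C.rot x (i := 2) (j := 0) (by omega) (by omega)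
    (by simpa [pow_succ] using h2.symm)
  omega

theorem kV_ge (x : D) : 4 ≤ C.kV x := by
  unfold kV
  have := ff_le C _ _ (C.face_rev_ne_rot x)
  linarith

end Config

namespace Integral

variable {d : ℕ} {C : Config B V F D} (I : Integral d C)

theorem kVz_ge (x : D) : 4 ≤ I.kVz x := by
  have := C.kV_ge x
  rw [← I.kVz_eq] at this
  exact_mod_cast this

theorem A_le (f g : F) (h : f ≠ g) : I.A f g ≤ -2 := by
  have h1 := ff_le C f g h
  have h2 := I.hA f g
  have : (I.A f g : ℝ) ≤ -2 := by linarith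
  exact_mod_cast this

theorem A_rot (x : D) : I.A (C.face x) (C.face (C.rot x)) = -2 := by
  have := I.A_adj (C.rot x)
  rw [C.face_rev_rot] at this
  rw [I.A_symm]; exact this

/-- product inequality at a vertex all of whose faces have even mutual `A` -/
theorem vertex_prod (x : D)
    (he : ∀ y z, C.vert y = C.vert x → C.vert z = C.vert x → Even (I.A (C.face y) (C.face z))) :
    ∏ i ∈ Finset.range (per C.rot x), wt (I.kVz ((C.rot ^ i) x)) ≤ 16 ^ (per C.rot x - 3) := by
  set d0 := C.rot⁻¹ x with hd0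
  have hx : C.rot d0 = x := by rw [hd0]; simp
  have hper : per C.rot x = per C.rot d0 := by
    have := per_pow C.rot d0 1
    rw [pow_one, hx] at this
    exact this
  have hvx : C.vert d0 = C.vert x := C.vert_rot_inv x
  rw [hper]
  set n := per C.rot d0 with hn
  have hev : ∀ i j : ℕ, ∃ k : ℤ, I.A (C.face ((C.rot ^ i) d0)) (C.face ((C.rot ^ j) d0)) = 2 * k := by
    intro i j
    obtain ⟨k, hk⟩ := he ((C.rot ^ i) d0) ((C.rot ^ j) d0) (by rw [C.vert_rot_pow, hvx])
      (by rw [C.vert_rot_pow, hvx])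
    exact ⟨k, by rw [hk]; ring⟩
  choose G hG using hev
  have key := evenPoly (B.restrict (C.perp (C.vert d0))) (fun x y => C.symm _ _)
    (C.finrank_perp (C.vert d0)) n (C.three_le_per_rot d0) (C.aPoly d0)
    (fun i => Subtype.ext (by
      show C.a (C.face ((C.rot ^ (i + n)) d0)) = C.a (C.face ((C.rot ^ i) d0))
      rw [pow_add_per]))
    G
    (fun i j => by
      show B (C.a (C.face ((C.rot ^ i) d0))) (C.a (C.face ((C.rot ^ j) d0))) = _
      have h1 := I.hA (C.face ((C.rot ^ i) d0)) (C.face ((C.rot ^ j) d0))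
      rw [hG, Int.cast_mul, Int.cast_ofNat] at h1
      linarith)
    (fun i => by
      have h1 := hG i i
      rw [I.A_self] at h1
      omega)
    (fun i => by
      have h1 := hG i (i + 1)
      rw [pow_succ', Equiv.Perm.mul_apply, I.A_rot] at h1
      omega)
    (fun i j hi hj hij => by
      have h1 := hG i j
      have h2 := I.A_le (C.face ((C.rot ^ i) d0)) (C.face ((C.rot ^ j) d0))
        (fun h => hij (C.rot_inj hi hj h))
      omega)
  refine le_trans (le_of_eq ?_) key
  apply Finset.prod_congr rfl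
  intro i _
  congr 1
  unfold kVz
  have h1 := hG i (i + 2)
  have e1 : C.face (C.rev ((C.rot ^ i) x)) = C.face ((C.rot ^ i) d0) := by
    rw [← C.face_rot_inv, ← hx]
    congr 1
    rw [← Equiv.Perm.mul_apply (C.rot ^ i) C.rot, ← pow_succ, pow_succ', Equiv.Perm.mul_apply]
    simp
  have e2 : C.rot ((C.rot ^ i) x) = (C.rot ^ (i + 2)) d0 := by
    rw [← hx, ← Equiv.Perm.mul_apply (C.rot ^ i) C.rot, ← pow_succ, ← Equiv.Perm.mul_apply,
      ← pow_succ']
  rw [e1, e2]
  omega

end Integral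

theorem one_le_wt {k : ℤ} (h : 4 ≤ k) : 1 ≤ wt k := by
  unfold wt
  split_ifs
  · norm_num
  · have : (4 : ℝ) ≤ k := by exact_mod_cast h
    linarith

theorem wt_four {k m : ℤ} (h : k = 4 * m) : wt k = k / 4 := by
  unfold wt
  rw [if_neg]
  omega

namespace Integral

variable {d : ℕ} {C : Config B V F D} (I : Integral d C)

theorem M_inc (hd : d ≠ 0) (x : D) : I.M (C.face x) (C.vert x) = 0 := by
  have h := I.hM (C.face x) (C.vert x)
  rw [C.a_b, mul_zero] at h
  have hs : Real.sqrt d ≠ 0 := by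
    have : (0 : ℝ) < d := by exact_mod_cast Nat.pos_of_ne_zero hd
    exact (Real.sqrt_pos.2 this).ne'
  rcases mul_eq_zero.mp h.symm with h | h
  · exact absurd h hs
  · exact_mod_cast h

/-- the determinant condition for two faces at `v` and two vertices -/
theorem det_int (hd : Squarefree d) (x y : D) (w : V) (hxy : C.vert x = C.vert y) : ∃ r : ℤ,
    (4 - I.A (C.face x) (C.face y) ^ 2) * (4 - I.Bv (C.vert x) w ^ 2) -
      4 * d * (I.M (C.face x) w ^ 2 - I.A (C.face x) (C.face y) * I.M (C.face x) w *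
        I.M (C.face y) w + I.M (C.face y) w ^ 2) = - d * r ^ 2 := by
  obtain ⟨r, hr⟩ := I.hdet (C.face x) (C.face y) (C.vert x) w
  have hs : Real.sqrt d * Real.sqrt d = d := Real.mul_self_sqrt (Nat.cast_nonneg d)
  have e1 := I.M_inc hd.ne_zero x
  have e2 : I.M (C.face y) (C.vert x) = 0 := by rw [hxy]; exact I.M_inc hd.ne_zero y
  have hM' : ∀ f v, 2 * B (C.b v) (C.a f) = Real.sqrt d * I.M f v := fun f v => by
    rw [C.symm]; exact I.hM f v
  have hM := I.hM
  have hdet : (gram4 B ![C.a (C.face x), C.a (C.face y), C.b (C.vert x), C.b w]).det =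
      (4 - I.A (C.face x) (C.face y) ^ 2) * (4 - I.Bv (C.vert x) w ^ 2) -
      4 * d * (I.M (C.face x) w ^ 2 - I.A (C.face x) (C.face y) * I.M (C.face x) w *
        I.M (C.face y) w + I.M (C.face y) w ^ 2) := by
    generalize Real.sqrt d = s at hs hM hM'
    rw [Matrix.det_succ_row_zero]
    simp only [Fin.sum_univ_succ, Matrix.det_fin_three, gram4, Matrix.submatrix_apply,
      Matrix.of_apply, Fin.succAbove, Matrix.cons_val]
    simp [I.hA, I.hB, hM, hM', e1, e2, I.A_self, I.Bv_self,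
      I.A_symm (C.face y) (C.face x), I.Bv_symm w (C.vert x)]
    rw [← hs]
    ring
  rw [hdet] at hr
  have hr2 : (d : ℚ) * r ^ 2 = ((-((4 - I.A (C.face x) (C.face y) ^ 2) * (4 - I.Bv (C.vert x) w ^ 2) -
      4 * d * (I.M (C.face x) w ^ 2 - I.A (C.face x) (C.face y) * I.M (C.face x) w *
        I.M (C.face y) w + I.M (C.face y) w ^ 2)) : ℤ) : ℚ) := by
    have : (d : ℝ) * (r : ℝ) ^ 2 = ((-((4 - I.A (C.face x) (C.face y) ^ 2) * (4 - I.Bv (C.vert x) w ^ 2) -
      4 * d * (I.M (C.face x) w ^ 2 - I.A (C.face x) (C.face y) * I.M (C.face x) w *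
        I.M (C.face y) w + I.M (C.face y) w ^ 2)) : ℤ) : ℝ) := by
      push_cast
      linarith
    exact_mod_cast this
  obtain ⟨n, hn⟩ := sqfree_int hd hr2
  refine ⟨n, ?_⟩
  rw [hn] at hr2
  have h3 : (d : ℤ) * n ^ 2 = -((4 - I.A (C.face x) (C.face y) ^ 2) * (4 - I.Bv (C.vert x) w ^ 2) -
      4 * d * (I.M (C.face x) w ^ 2 - I.A (C.face x) (C.face y) * I.M (C.face x) w *
        I.M (C.face y) w + I.M (C.face y) w ^ 2)) := by exact_mod_cast hr2
  linarith

theorem ntype_even (hd : d = 5 ∨ d = 10) (x y : D) (w : V) (hxy : C.vert x = C.vert y)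
    (hw : Odd (I.Bv (C.vert x) w)) : Even (I.A (C.face x) (C.face y)) := by
  by_contra hA
  rw [Int.not_even_iff_odd] at hA
  obtain ⟨a, ha⟩ := hA
  obtain ⟨b, hb⟩ := hw
  have hsq : Squarefree d := by
    rcases hd with rfl | rfl
    · exact Nat.prime_five.squarefree
    · rw [show 10 = 2 * 5 by norm_num, Nat.squarefree_mul (by norm_num)]
      exact ⟨Nat.prime_two.squarefree, Nat.prime_five.squarefree⟩
  obtain ⟨r, hr⟩ := I.det_int hsq x y w hxy
  set X := I.M (C.face x) w ^ 2 - I.A (C.face x) (C.face y) * I.M (C.face x) w *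
        I.M (C.face y) w + I.M (C.face y) w ^ 2 with hX
  have e1 : (4 - I.A (C.face x) (C.face y) ^ 2) * (4 - I.Bv (C.vert x) w ^ 2) =
      4 * (2 - 3 * (a ^ 2 + a) - 3 * (b ^ 2 + b) + 4 * (a ^ 2 + a) * (b ^ 2 + b)) + 1 := by
    rw [ha, hb]; ring
  rw [e1] at hr
  generalize (2 - 3 * (a ^ 2 + a) - 3 * (b ^ 2 + b) + 4 * (a ^ 2 + a) * (b ^ 2 + b)) = Y at hr
  clear_value X
  rcases Int.even_or_odd r with ⟨c, hc⟩ | ⟨c, hc⟩
  · have e2 : r ^ 2 = 4 * c ^ 2 := by rw [hc]; ring
    rw [e2] at hr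
    generalize c ^ 2 = Z at hr
    rcases hd with rfl | rfl <;> push_cast at hr <;> omega
  · have e2 : r ^ 2 = 4 * (c ^ 2 + c) + 1 := by rw [hc]; ring
    rw [e2] at hr
    generalize c ^ 2 + c = Z at hr
    rcases hd with rfl | rfl <;> push_cast at hr <;> omega

end Integral

namespace Config

variable (C : Config B V F D)

theorem p_ne_zero (e : D) : C.p e ≠ 0 := by
  intro h
  have := C.pp_rot_neg e
  rw [h] at this
  simp at this

theorem ca_rev (x : D) : C.ca (C.rev x) = C.ca x := by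
  have h1 := C.sum_a (C.rev x)
  have h2 := C.sum_a x
  rw [C.rev_rev, add_comm, h2, C.p_rev] at h1
  exact (smul_left_injective ℝ (C.p_ne_zero x) h1).symm

theorem cb_rev (x : D) : C.cb (C.rev x) = C.cb x := by
  have h1 := C.sum_b (C.rev x)
  have h2 := C.sum_b x
  rw [C.rev_rev, add_comm, h2, C.p_rev] at h1
  exact (smul_left_injective ℝ (C.p_ne_zero x) h1).symm

theorem τ_rev (x : D) : C.τ (C.rev x) = C.τ x := by
  rw [τ, τ, C.ca_rev, C.cb_rev]

theorem kV_phi (x : D) : C.kV (C.phi x) = C.τ (C.phi x) * C.τ x * C.kF (C.phi x) := by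
  rw [C.kV_kF, C.rot_phi, C.τ_rev]

end Config

namespace Integral

variable {d : ℕ} {C : Config B V F D} (I : Integral d C)

theorem phi4 {x : D} (h4 : per C.phi x = 4) : C.phi (C.phi (C.phi (C.phi x))) = x := by
  have := pow_per C.phi x
  rw [h4] at this
  simpa [pow_succ] using this

theorem quad_prod {x : D} (h4 : per C.phi x = 4) :
    C.kV x * C.kV (C.phi (C.phi x)) * (C.kF (C.phi x) * C.kF (C.phi (C.phi (C.phi x)))) =
    C.kV (C.phi x) * C.kV (C.phi (C.phi (C.phi x))) * (C.kF x * C.kF (C.phi (C.phi x))) := by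
  have h := phi4 h4
  have e0 : C.kV x = C.τ x * C.τ (C.phi (C.phi (C.phi x))) * C.kF x := by
    have := C.kV_phi (C.phi (C.phi (C.phi x)))
    rwa [h] at this
  rw [e0, C.kV_phi, C.kV_phi, C.kV_phi]
  ring

/-- at a corner with `kF = 20` of a quadrilateral the value `kV` is divisible by 4 -/
theorem four_dvd (hd : d = 5 ∨ d = 10) {x : D} (h4 : per C.phi x = 4) (h20 : I.kFz x = 20)
    (h5 : I.kFz (C.phi x) = 5) : ∃ m, I.kVz x = 4 * m := by
  have hp := phi4 h4
  set v4 := C.vert (C.phi (C.phi x)) with hv4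
  have hr : C.rev (C.rot x) = C.phi (C.phi (C.phi x)) := by
    have := C.rot_phi (C.phi (C.phi (C.phi x)))
    rw [hp] at this
    rw [this, C.rev_rev]
  have f4 : B (C.a (C.face x)) (C.b v4) = 0 := by
    have := C.a_b (C.phi (C.phi x))
    rwa [C.face_phi, C.face_phi] at this
  have b24 : B (C.b (C.vert x)) (C.b v4) = -3 / 2 := by
    have h := I.kFz_eq (C.phi x)
    rw [h5] at h
    unfold Config.kF at h
    rw [C.rot_phi, C.rev_rev, ← C.vert_phi (C.phi x), C.symm, ← hv4] at h
    push_cast at h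
    linarith
  have b34 : B (C.b (C.vert (C.rev x))) (C.b v4) = -1 := by
    have := C.bb_adj (C.phi x)
    rwa [C.vert_phi, ← C.vert_phi (C.phi x), ← hv4] at this
  have b14 : B (C.b (C.vert (C.rev (C.rot x)))) (C.b v4) = -1 := by
    have := C.bb_adj (C.phi (C.phi x))
    rw [← C.vert_phi (C.phi (C.phi x)), C.symm] at this
    rw [hr]; exact this
  have e1 := congrArg (fun z => B z (C.b v4)) (C.sum_a x)
  have e2 := congrArg (fun z => B z (C.b v4)) (C.sum_b x)
  have e3 := congrArg (fun z => B z (C.b v4)) (C.sum_a_rot x)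
  have e4 := congrArg (fun z => B z (C.b v4)) (C.sum_b_rot x)
  simp only [map_add, map_smul, smul_eq_mul, LinearMap.add_apply, LinearMap.smul_apply, f4, b24,
    b34, b14, zero_add] at e1 e2 e3 e4
  have m1 := I.hM (C.face (C.rev x)) v4
  have m2 := I.hM (C.face (C.rot x)) v4
  have k1 := I.kVz_eq x
  have k2 := I.kFz_eq x
  rw [C.kV_eq] at k1
  rw [C.kF_eq, h20] at k2
  have hs : Real.sqrt d * Real.sqrt d = d := Real.mul_self_sqrt (Nat.cast_nonneg d)
  set M1 := I.M (C.face (C.rev x)) v4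
  set M2 := I.M (C.face (C.rot x)) v4
  set β := B (C.p x) (C.b v4)
  set β' := B (C.p (C.rot x)) (C.b v4)
  set π := B (C.p x) (C.p (C.rot x))
  have key : (I.kVz x : ℝ) * 5 = 4 * d * M1 * M2 := by
    have h1 : (I.kVz x : ℝ) * ((C.cb x * β) * (C.cb (C.rot x) * β')) =
        (C.ca x * β) * (C.ca (C.rot x) * β') * 20 := by
      have : (20 : ℝ) = -2 * C.cb x * C.cb (C.rot x) * π := by exact_mod_cast k2
      rw [k1, this]; ring
    rw [← e2, ← e4, ← e1, ← e3] at h1
    have h2 : B (C.a (C.face (C.rev x))) (C.b v4) = Real.sqrt d * M1 / 2 := by linarith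
    have h3 : B (C.a (C.face (C.rot x))) (C.b v4) = Real.sqrt d * M2 / 2 := by linarith
    rw [h2, h3] at h1
    rw [← hs]
    linear_combination (4 / 5 : ℝ) * h1
  have key2 : I.kVz x * 5 = 4 * d * M1 * M2 := by exact_mod_cast key
  rcases hd with rfl | rfl
  · refine ⟨M1 * M2, ?_⟩
    have : I.kVz x * 5 = (4 * (M1 * M2)) * 5 := by rw [key2]; push_cast; ring
    omega
  · refine ⟨2 * (M1 * M2), ?_⟩
    have : I.kVz x * 5 = (4 * (2 * (M1 * M2))) * 5 := by rw [key2]; push_cast; ring
    omega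

include I in
theorem no_five (hd : d = 5 ∨ d = 10) (d0 : D) (h3 : C.rot (C.rot (C.rot d0)) = d0) : False := by
  classical
  have : Fact (Nat.Prime 5) := ⟨Nat.prime_five⟩
  have hqd : 5 ∣ d := by rcases hd with rfl | rfl <;> norm_num
  have he := I.even_face 5 (by norm_num) hqd d0 h3
  have hq : ∀ x, per C.phi x = 4 →
      (I.kFz x = 5 ∧ I.kFz (C.phi x) = 20) ∨ (I.kFz x = 20 ∧ I.kFz (C.phi x) = 5) := by
    rcases I.prime_cases 5 (by norm_num) hqd d0 h3 with ⟨h, _⟩ | ⟨_, h⟩
    · omega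
    · exact h
  have hper : ∀ x, per C.phi (C.phi x) = per C.phi x := fun x => by
    have := per_pow C.phi x 1
    rwa [pow_one] at this
  set S : Finset D := Finset.univ.filter (fun x => per C.phi x = 4 ∧ I.kFz x = 20) with hS
  have memS : ∀ x, x ∈ S ↔ (per C.phi x = 4 ∧ I.kFz x = 20) := fun x => by simp [hS]
  -- the two other corners
  have h20 : ∀ x ∈ S, I.kFz (C.phi x) = 5 ∧ I.kFz (C.phi (C.phi x)) = 20 ∧
      I.kFz (C.phi (C.phi (C.phi x))) = 5 := by
    intro x hx
    obtain ⟨h1, h2⟩ := (memS x).1 hx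
    have a1 := hq x h1
    have a2 := hq (C.phi x) (by rw [hper, h1])
    have a3 := hq (C.phi (C.phi x)) (by rw [hper, hper, h1])
    omega
  have memS2 : ∀ x ∈ S, C.phi (C.phi x) ∈ S := by
    intro x hx
    rw [memS, hper, hper]
    exact ⟨((memS x).1 hx).1, (h20 x hx).2.1⟩
  -- (1)
  have c1 : 6 * Fintype.card F ≤ Fintype.card D + S.card := by
    have e1 : Fintype.card D + S.card = ∑ x : D, (1 + if x ∈ S then 1 else 0) := by
      rw [Finset.sum_add_distrib]; simp
    have e2 : ∑ x : D, (1 + if x ∈ S then 1 else 0) =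
        ∑ f : F, ∑ x ∈ Finset.univ.filter (fun x => C.face x = f),
          (1 + if x ∈ S then 1 else 0) := (Finset.sum_fiberwise _ _ _).symm
    have e3 : 6 * Fintype.card F = ∑ f : F, 6 := by simp [mul_comm]
    rw [e1, e2, e3]
    apply Finset.sum_le_sum
    intro f _
    obtain ⟨x, rfl⟩ := C.face_surj f
    rw [sum_fiber C.phi C.face C.face_iff (fun x => 1 + if x ∈ S then 1 else 0) x]
    have p3 := C.three_le_per_phi x
    obtain ⟨k, hk⟩ := he x
    by_cases p4 : per C.phi x = 4
    · rw [p4]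
      simp only [Finset.sum_range_succ, Finset.sum_range_zero, pow_zero, pow_one,
        Equiv.Perm.one_apply]
      have q2 : (C.phi ^ 2) x = C.phi (C.phi x) := by simp [pow_succ]
      have q3 : (C.phi ^ 3) x = C.phi (C.phi (C.phi x)) := by simp [pow_succ]
      rw [q2, q3]
      rcases hq x p4 with ⟨_, h2⟩ | ⟨h1, _⟩
      · have m1 : C.phi x ∈ S := by rw [memS, hper]; exact ⟨p4, h2⟩
        have m2 := memS2 _ m1
        rw [if_pos m1, if_pos m2]
        omega
      · have m1 : x ∈ S := by rw [memS]; exact ⟨p4, h1⟩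
        have m2 := memS2 _ m1
        rw [if_pos m1, if_pos m2]
        omega
    · have : 6 ≤ per C.phi x := by omega
      calc 6 ≤ per C.phi x := this
        _ = ∑ i ∈ Finset.range (per C.phi x), 1 := by simp
        _ ≤ _ := Finset.sum_le_sum (fun i _ => by omega)
  -- (2)
  have hN : ∀ v, (∃ w, Odd (I.Bv v w)) → ∀ x, C.vert x = v →
      ∏ i ∈ Finset.range (per C.rot x), wt (I.kVz ((C.rot ^ i) x)) ≤ 16 ^ (per C.rot x - 3) := by
    rintro v ⟨w, hw⟩ x rfl
    apply I.vertex_prod
    intro y z hy hz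
    rw [← hy] at hw
    exact I.ntype_even hd y z w (by rw [hy, hz]) hw
  set g : D → ℝ := fun x => if ∃ w, Odd (I.Bv (C.vert x) w) then wt (I.kVz x) else 1 with hg
  have g1 : ∀ x, 1 ≤ g x := by
    intro x
    simp only [hg]
    split_ifs
    · exact one_le_wt (I.kVz_ge x)
    · exact le_rfl
  have c2 : (∏ x : D, g x) * 16 ^ (3 * Fintype.card V) ≤ 16 ^ Fintype.card D := by
    have e1 : ∏ x : D, g x = ∏ v : V, ∏ x ∈ Finset.univ.filter (fun x => C.vert x = v), g x :=
      (Finset.prod_fiberwise _ _ _).symm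
    have e2 : (16 : ℝ) ^ (3 * Fintype.card V) = ∏ _v : V, (16 : ℝ) ^ 3 := by
      rw [Finset.prod_const, Finset.card_univ, pow_mul]
    have e3 : (16 : ℝ) ^ Fintype.card D =
        ∏ v : V, (16 : ℝ) ^ (Finset.univ.filter (fun x => C.vert x = v)).card := by
      rw [Finset.prod_pow_eq_pow_sum, ← card_eq_sum C.vert]
    rw [e1, e2, e3, ← Finset.prod_mul_distrib]
    apply Finset.prod_le_prod
    · intro v _
      apply mul_nonneg
      · exact Finset.prod_nonneg (fun x _ => le_trans zero_le_one (g1 x))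
      · norm_num
    · intro v _
      obtain ⟨x, rfl⟩ := C.vert_surj v
      rw [prod_fiber C.rot C.vert C.vert_iff g x, card_fiber C.rot C.vert C.vert_iff x]
      have p3 := C.three_le_per_rot x
      have e4 : (16 : ℝ) ^ per C.rot x = 16 ^ (per C.rot x - 3) * 16 ^ 3 := by
        rw [← pow_add]; congr 1; omega
      rw [e4]
      apply mul_le_mul_of_nonneg_right _ (by norm_num)
      by_cases hv : ∃ w, Odd (I.Bv (C.vert x) w)
      · refine le_trans (le_of_eq ?_) (hN _ hv x rfl)
        apply Finset.prod_congr rfl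
        intro i _
        simp only [hg]
        rw [if_pos]
        rw [C.vert_rot_pow]; exact hv
      · have : ∏ i ∈ Finset.range (per C.rot x), g ((C.rot ^ i) x) = 1 := by
          apply Finset.prod_eq_one
          intro i _
          simp only [hg]
          rw [if_neg]
          rw [C.vert_rot_pow]; exact hv
        rw [this]
        exact one_le_pow₀ (by norm_num)
  -- (3)
  have c3 : (4 : ℝ) ^ S.card ≤ ∏ x : D, g x := by
    have hgS : ∀ x ∈ S, g x = I.kVz x / 4 := by
      intro x hx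
      obtain ⟨h1, h2⟩ := (memS x).1 hx
      obtain ⟨h3', h4', h5'⟩ := h20 x hx
      obtain ⟨m, hm⟩ := I.four_dvd hd h1 h2 h3'
      simp only [hg]
      rw [if_pos, wt_four hm]
      refine ⟨C.vert (C.phi (C.phi x)), ?_⟩
      have e : I.kFz (C.phi x) = 2 - I.Bv (C.vert (C.phi (C.phi x))) (C.vert x) := by
        unfold kFz
        rw [C.rot_phi, C.rev_rev, ← C.vert_phi (C.phi x)]
      rw [h3', I.Bv_symm] at e
      exact ⟨-2, by omega⟩
    have e1 : ∏ x ∈ S, g x ≤ ∏ x : D, g x :=
      Finset.prod_le_prod_of_subset_of_one_le (Finset.subset_univ S)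
        (fun x _ => le_trans zero_le_one (g1 x)) (fun x _ _ => g1 x)
    refine le_trans ?_ e1
    have e2 : ∏ x ∈ S, g x = ∏ x ∈ S, g (C.phi (C.phi x)) := by
      refine Finset.prod_nbij' (fun x => C.phi (C.phi x)) (fun x => C.phi (C.phi x)) memS2 memS2
        ?_ ?_ ?_
      · intro x hx
        exact phi4 ((memS x).1 hx).1
      · intro x hx
        exact phi4 ((memS x).1 hx).1
      · intro x hx
        show g x = g (C.phi (C.phi (C.phi (C.phi x))))
        rw [phi4 ((memS x).1 hx).1]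
    have e3 : ((4 : ℝ) ^ S.card) ^ 2 ≤ (∏ x ∈ S, g x) ^ 2 := by
      have e4 : (∏ x ∈ S, g x) ^ 2 = ∏ x ∈ S, (g x * g (C.phi (C.phi x))) := by
        rw [Finset.prod_mul_distrib, ← e2, sq]
      have e5 : ((4 : ℝ) ^ S.card) ^ 2 = ∏ _x ∈ S, (16 : ℝ) := by
        rw [Finset.prod_const, ← pow_mul, mul_comm, pow_mul]; norm_num
      rw [e4, e5]
      apply Finset.prod_le_prod
      · intro x _; norm_num
      · intro x hx
        rw [hgS x hx, hgS _ (memS2 x hx)]
        obtain ⟨h1, h2⟩ := (memS x).1 hx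
        obtain ⟨k1, k2, k3⟩ := h20 x hx
        have h := quad_prod (C := C) h1
        rw [← I.kVz_eq, ← I.kVz_eq, ← I.kVz_eq, ← I.kVz_eq, ← I.kFz_eq, ← I.kFz_eq, ← I.kFz_eq,
          ← I.kFz_eq, h2, k1, k2, k3] at h
        have l1 : (4 : ℝ) ≤ I.kVz (C.phi x) := by exact_mod_cast I.kVz_ge (C.phi x)
        have l2 : (4 : ℝ) ≤ I.kVz (C.phi (C.phi (C.phi x))) := by
          exact_mod_cast I.kVz_ge (C.phi (C.phi (C.phi x)))
        push_cast at h
        nlinarith
    exact le_of_sq_le_sq (α := ℝ) e3 (Finset.prod_nonneg (fun x _ => le_trans zero_le_one (g1 x)))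
  have c4 : (4 : ℝ) ^ S.card * 4 ^ (6 * Fintype.card V) ≤ 4 ^ (2 * Fintype.card D) := by
    have h1 : (4 : ℝ) ^ (6 * Fintype.card V) = 16 ^ (3 * Fintype.card V) := by
      rw [show 6 * Fintype.card V = 2 * (3 * Fintype.card V) by ring, pow_mul]; norm_num
    have h2 : (4 : ℝ) ^ (2 * Fintype.card D) = 16 ^ Fintype.card D := by
      rw [pow_mul]; norm_num
    rw [h1, h2]
    exact le_trans (mul_le_mul_of_nonneg_right c3 (by positivity)) c2
  rw [← pow_add] at c4
  have c5 := (pow_le_pow_iff_right₀ (by norm_num : (1 : ℝ) < 4)).1 c4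
  have := C.euler
  omega

end Integral

end ArithPoly
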