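import Pool.Agent.LibArithPoly.T4Mod

/-!
# The lattice of a configuration with `d = 3`
-/

open Matrix

namespace ArithPoly

variable {V F D : Type} [Fintype V] [Fintype F] [Fintype D]
variable {W : Type} [AddCommGroup W] [Module ℝ W] {B : LinearMap.BilinForm ℝ W}

/-- Lattice data for `d = 3`. -/
structure Lat3 (C : Config B V F D) where
  L : AddSubgroup W
  even : ∀ x ∈ L, ∃ n : ℤ, B x x = n
  int : ∀ x ∈ L, ∀ y ∈ L, ∃ n : ℤ, 2 * B x y = n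
  aL : ∀ f, C.a f ∈ L
  bL : ∀ v, Real.sqrt 3 • C.b v ∈ L
  b3 : ∀ v, ∀ x ∈ L, ∃ n : ℤ, 2 * B (C.b v) x = Real.sqrt 3 * n
  Aw : D → ℤ
  Bw : D → ℤ
  δ : D → ℤ
  P : D → W
  PL : ∀ d, P d ∈ L
  P_rev : ∀ d, P (C.rev d) = P d
  Aw_pos : ∀ d, 0 < Aw d
  Bw_pos : ∀ d, 0 < Bw d
  a_sum : ∀ d, C.a (C.face d) + C.a (C.face (C.rev d)) = (Aw d : ℝ) • P d
  b_sum : ∀ d, C.b (C.vert d) + C.b (C.vert (C.rev d)) = (Real.sqrt 3 * Bw d : ℝ) • P d
  prim : ∀ d, ∀ x ∈ L, ∀ m : ℤ, P d = m • x → m = 1 ∨ m = -1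
  P_adj : ∀ d, 2 * B (P d) (P (C.rot d)) = - (δ d : ℝ)
  δ_eq : ∀ d, δ d = 1 ∨ δ d = 4
  parA : ∀ d, Even (Aw d + δ d + δ (C.rot⁻¹ d))
  parB : ∀ d, Even (Bw d + δ d + δ (C.phi d))
  host : ∀ d, δ d = 4 →
    (1 / 4 : ℝ) • (P d + P (C.rot d) - (2 : ℝ) • C.a (C.face d)) ∈ L

namespace Lat3

variable {C : Config B V F D} (L : Lat3 C)

/-- `P d` is the positive multiple `(ca d / Aw d) • p d` of the tangency vector -/
theorem P_eq (d : D) : ∃ c : ℝ, 0 < c ∧ L.P d = c • C.p d := by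
  refine ⟨C.ca d / L.Aw d, div_pos (C.ca_pos d) (by exact_mod_cast L.Aw_pos d), ?_⟩
  have h1 := L.a_sum d
  rw [C.sum_a] at h1
  have hA : (L.Aw d : ℝ) ≠ 0 := by exact_mod_cast (L.Aw_pos d).ne'
  rw [div_eq_inv_mul, mul_smul, h1, smul_smul, inv_mul_cancel₀ hA, one_smul]

theorem P_null (d : D) : B (L.P d) (L.P d) = 0 := by
  obtain ⟨c, -, h⟩ := L.P_eq d
  rw [h]; simp [C.p_null]

theorem P_neg (d e : D) (h1 : e ≠ d) (h2 : e ≠ C.rev d) : B (L.P d) (L.P e) < 0 := by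
  obtain ⟨c, hc, h⟩ := L.P_eq d
  obtain ⟨c', hc', h'⟩ := L.P_eq e
  rw [h, h']
  simp only [map_smul, LinearMap.smul_apply, smul_eq_mul]
  have := C.p_neg d e h1 h2
  have h3 : 0 < c * c' := by positivity
  nlinarith

theorem a_P (f : F) (d : D) : B (C.a f) (L.P d) ≤ 0 := by
  obtain ⟨c, hc, h⟩ := L.P_eq d
  rw [h]; simp only [map_smul, smul_eq_mul]
  exact mul_nonpos_of_nonneg_of_nonpos hc.le (C.a_p f d)

theorem b_P (v : V) (d : D) : B (C.b v) (L.P d) ≤ 0 := by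
  obtain ⟨c, hc, h⟩ := L.P_eq d
  rw [h]; simp only [map_smul, smul_eq_mul]
  exact mul_nonpos_of_nonneg_of_nonpos hc.le (C.b_p v d)

theorem a_P_eq (f : F) (d : D) (h0 : B (C.a f) (L.P d) = 0) : f = C.face d ∨ f = C.face (C.rev d) := by
  obtain ⟨c, hc, h⟩ := L.P_eq d
  apply C.a_p_eq
  rw [h] at h0; simp only [map_smul, smul_eq_mul] at h0
  rcases mul_eq_zero.mp h0 with h | h
  · exact absurd h hc.ne'
  · exact h

theorem b_P_eq (v : V) (d : D) (h0 : B (C.b v) (L.P d) = 0) : v = C.vert d ∨ v = C.vert (C.rev d) := by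
  obtain ⟨c, hc, h⟩ := L.P_eq d
  apply C.b_p_eq
  rw [h] at h0; simp only [map_smul, smul_eq_mul] at h0
  rcases mul_eq_zero.mp h0 with h | h
  · exact absurd h hc.ne'
  · exact h

theorem a_P0 (d : D) : B (C.a (C.face d)) (L.P d) = 0 := by
  obtain ⟨c, hc, h⟩ := L.P_eq d
  rw [h]; simp [C.a_p0]

theorem a_P0' (d : D) : B (C.a (C.face (C.rev d))) (L.P d) = 0 := by
  rw [← L.P_rev]; exact L.a_P0 _

theorem b_P0 (d : D) : B (C.b (C.vert d)) (L.P d) = 0 := by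
  obtain ⟨c, hc, h⟩ := L.P_eq d
  rw [h]; simp [C.b_p0]

theorem b_P0' (d : D) : B (C.b (C.vert (C.rev d))) (L.P d) = 0 := by
  rw [← L.P_rev]; exact L.b_P0 _

theorem a_Prot (d : D) : B (C.a (C.face d)) (L.P (C.rot d)) = 0 := by
  obtain ⟨c, hc, h⟩ := L.P_eq (C.rot d)
  rw [h]; simp [C.a_prot]

theorem b_Prot (d : D) : B (C.b (C.vert d)) (L.P (C.rot d)) = 0 := by
  obtain ⟨c, hc, h⟩ := L.P_eq (C.rot d)
  rw [h]; simp [C.b_prot]

/-- `d` is a unit on the side `e` (a dart at the same vertex as `e` whose face is seen from the cusp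
`P e` as a hemisphere of radius 1) -/
def Unit (e d : D) : Prop := C.vert d = C.vert e ∧ 2 * B (C.a (C.face d)) (L.P e) = -1

/-- position of a vector, measured from the face of `e` -/
noncomputable def pos (_L : Lat3 C) (e : D) (x : W) : ℝ := - 2 * B x (C.a (C.face e))

/-- a special dart: a vertex of degree 3 with widths 4, 1, 1 and `B`-widths 2, 1, 1 -/
structure Special (s : D) : Prop where
  tri : C.rot (C.rot (C.rot s)) = s
  A0 : L.Aw s = 4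
  B0 : L.Bw s = 2
  A1 : L.Aw (C.rot s) = 1
  B1 : L.Bw (C.rot s) = 1
  A2 : L.Aw (C.rot (C.rot s)) = 1
  B2 : L.Bw (C.rot (C.rot s)) = 1
  δ1 : L.δ (C.rot s) = 4

/-- the special dart `s` claims from the side `g` -/
def Claim (s g : D) : Prop :=
  L.Special s ∧ C.vert g = C.vert (C.rev s) ∧
    L.P g = (1 / 2 : ℝ) • (L.P (C.rot (C.rev s)) + L.P (C.rot⁻¹ (C.rev s))) - L.P s

end Lat3

end ArithPoly
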