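import Pool.Agent.LibArithPoly.T8Choice
import Pool.Agent.LibArithPoly.Lat3

/-!
# The lattice of an integral configuration with `d = 3`
-/

namespace ArithPoly

variable {V F D : Type} [Fintype V] [Fintype F] [Fintype D]
variable {W : Type} [AddCommGroup W] [Module ℝ W] {B : LinearMap.BilinForm ℝ W}

namespace Config

variable (C : Config B V F D)

theorem t8_phi_apply (d : D) : C.phi d = C.rot⁻¹ (C.rev d) := rfl

theorem t8_face_phi (d : D) : C.face (C.phi d) = C.face d :=
  ((C.face_iff d (C.phi d)).mpr (Equiv.Perm.sameCycle_apply_right.mpr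
    (Equiv.Perm.SameCycle.refl _ _))).symm

theorem t8_vert_rot (d : D) : C.vert (C.rot d) = C.vert d :=
  ((C.vert_iff d (C.rot d)).mpr (Equiv.Perm.sameCycle_apply_right.mpr
    (Equiv.Perm.SameCycle.refl _ _))).symm

theorem t8_rot_rot_inv (d : D) : C.rot (C.rot⁻¹ d) = d := by simp

theorem t8_rot_inv_rot (d : D) : C.rot⁻¹ (C.rot d) = d := by simp

theorem t8_vert_rot_inv (d : D) : C.vert (C.rot⁻¹ d) = C.vert d := by
  have := C.t8_vert_rot (C.rot⁻¹ d)
  rw [t8_rot_rot_inv] at this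
  exact this.symm

theorem t8_vert_phi (d : D) : C.vert (C.phi d) = C.vert (C.rev d) := by
  rw [t8_phi_apply, t8_vert_rot_inv]

theorem t8_face_rot_inv (d : D) : C.face (C.rot⁻¹ d) = C.face (C.rev d) := by
  have := C.t8_face_phi (C.rev d)
  rw [t8_phi_apply, C.rev_rev] at this
  exact this

theorem t8_face_rev_rot (d : D) : C.face (C.rev (C.rot d)) = C.face d := by
  rw [← t8_face_rot_inv, t8_rot_inv_rot]

theorem t8_a_a_rev (d : D) : B (C.a (C.face d)) (C.a (C.face (C.rev d))) = -1 := by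
  have h := congrArg (fun z => B z z) (C.sum_a d)
  simp only [map_add, map_smul, LinearMap.add_apply, LinearMap.smul_apply, smul_eq_mul,
    C.p_null, C.a_unit] at h
  rw [C.symm (C.a (C.face (C.rev d))) (C.a (C.face d))] at h
  linarith

theorem t8_b_b_rev (d : D) : B (C.b (C.vert d)) (C.b (C.vert (C.rev d))) = -1 := by
  have h := congrArg (fun z => B z z) (C.sum_b d)
  simp only [map_add, map_smul, LinearMap.add_apply, LinearMap.smul_apply, smul_eq_mul,
    C.p_null, C.b_unit] at h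
  rw [C.symm (C.b (C.vert (C.rev d))) (C.b (C.vert d))] at h
  linarith

theorem t8_p_a (d : D) : B (C.p d) (C.a (C.face d)) = 0 := by
  have h := congrArg (fun z => B z (C.a (C.face d))) (C.sum_a d)
  simp only [map_add, map_smul, LinearMap.add_apply, LinearMap.smul_apply, smul_eq_mul,
    C.a_unit] at h
  rw [C.symm (C.a (C.face (C.rev d))) (C.a (C.face d)), C.t8_a_a_rev] at h
  have : C.ca d * B (C.p d) (C.a (C.face d)) = 0 := by linarith
  exact (mul_eq_zero.mp this).resolve_left (C.ca_pos d).ne'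

theorem t8_p_b (d : D) : B (C.p d) (C.b (C.vert d)) = 0 := by
  have h := congrArg (fun z => B z (C.b (C.vert d))) (C.sum_b d)
  simp only [map_add, map_smul, LinearMap.add_apply, LinearMap.smul_apply, smul_eq_mul,
    C.b_unit] at h
  rw [C.symm (C.b (C.vert (C.rev d))) (C.b (C.vert d)), C.t8_b_b_rev] at h
  have : C.cb d * B (C.p d) (C.b (C.vert d)) = 0 := by linarith
  exact (mul_eq_zero.mp this).resolve_left (C.cb_pos d).ne'

theorem t8_p_a' (d : D) : B (C.p d) (C.a (C.face (C.rev d))) = 0 := by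
  rw [← C.p_rev]; exact C.t8_p_a (C.rev d)

theorem t8_p_b' (d : D) : B (C.p d) (C.b (C.vert (C.rev d))) = 0 := by
  rw [← C.p_rev]; exact C.t8_p_b (C.rev d)

theorem t8_rot_ne (d : D) : C.rot d ≠ d := by
  intro h
  have h3 := C.three_le_vert (C.vert d)
  have hsub : ∀ e : {e // C.vert e = C.vert d}, e = ⟨d, rfl⟩ := by
    rintro ⟨e, he⟩
    have := (C.vert_iff d e).mp he.symm
    have := this.eq_of_left h
    subst this
    rfl
  have : Subsingleton {e // C.vert e = C.vert d} := ⟨fun x y => by rw [hsub x, hsub y]⟩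
  have := Finite.card_le_one_iff_subsingleton (α := {e // C.vert e = C.vert d})
  have h1 := this.mpr inferInstance
  omega

theorem t8_rot_ne_rev (d : D) : C.rot d ≠ C.rev d := by
  intro h
  apply C.vert_ne d
  rw [← h, C.t8_vert_rot]

theorem t8_p_adj_neg (d : D) : B (C.p d) (C.p (C.rot d)) < 0 :=
  C.p_neg d (C.rot d) (C.t8_rot_ne d) (C.t8_rot_ne_rev d)

theorem t8_p_ne (d : D) : C.p d ≠ 0 := by
  intro h
  have := C.t8_p_adj_neg d
  rw [h] at this
  simp at this

end Config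

theorem sqrt3_sq : Real.sqrt 3 * Real.sqrt 3 = 3 := Real.mul_self_sqrt (by norm_num)

theorem exists_lat3 (C : Config B V F D) (I : Integral 3 C) (d0 : D)
    (h3 : C.rot (C.rot (C.rot d0)) = d0) : Nonempty (Lat3 C) := by
  classical
  have hs := C.symm
  have hW := C.finrank
  have s3 := sqrt3_sq
  have s3pos : 0 < Real.sqrt 3 := Real.sqrt_pos.mpr (by norm_num)
  have hM : ∀ f v, 2 * B (C.a f) (C.b v) = Real.sqrt 3 * I.M f v := by
    intro f v
    have := I.hM f v
    push_cast at this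
    exact this
  have hAi := I.hA
  have hBi := I.hB
  -- the base triple
  have hinv : C.rot⁻¹ d0 = C.rot (C.rot d0) := by
    conv_lhs => rw [← h3]
    rw [C.t8_rot_inv_rot]
  have adj : ∀ d, B (C.a (C.face d)) (C.a (C.face (C.rot⁻¹ d))) = -1 := by
    intro d
    rw [C.t8_face_rot_inv]
    exact C.t8_a_a_rev d
  have hbb : ∀ v w, B (Real.sqrt 3 • C.b v) (Real.sqrt 3 • C.b w) = 3 * B (C.b v) (C.b w) := by
    intro v w
    simp only [map_smul, LinearMap.smul_apply, smul_eq_mul]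
    rw [← mul_assoc, s3]
  have hab0 : ∀ d, B (C.a (C.face d)) (Real.sqrt 3 • C.b (C.vert d)) = 0 := by
    intro d
    simp only [map_smul, smul_eq_mul]
    rw [C.a_b]; ring
  have hT : IsTriple B (C.a (C.face d0)) (C.a (C.face (C.rot d0)))
      (C.a (C.face (C.rot (C.rot d0)))) (Real.sqrt 3 • C.b (C.vert d0)) := by
    refine ⟨C.a_unit _, C.a_unit _, C.a_unit _, ?_, ?_, ?_, ?_, ?_, ?_, ?_⟩
    · have := adj (C.rot d0)
      rw [C.t8_rot_inv_rot] at this
      rw [hs, this]
    · have := adj (C.rot (C.rot d0))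
      rw [C.t8_rot_inv_rot] at this
      rw [hs, this]
    · have := adj d0
      rw [hinv] at this
      rw [hs, this]
    · exact hab0 d0
    · have := hab0 (C.rot d0)
      rwa [C.t8_vert_rot] at this
    · have := hab0 (C.rot (C.rot d0))
      rwa [C.t8_vert_rot, C.t8_vert_rot] at this
    · rw [hbb, C.b_unit]; ring
  -- all scaled walls
  have hbM : ∀ v f, 2 * B (Real.sqrt 3 • C.b v) (C.a f) = ((3 * I.M f v : ℤ) : ℝ) := by
    intro v f
    simp only [map_smul, LinearMap.smul_apply, smul_eq_mul]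
    rw [hs]
    have := hM f v
    push_cast
    linear_combination Real.sqrt 3 * this + (I.M f v : ℝ) * s3
  have haM : ∀ f v, 2 * B (C.a f) (Real.sqrt 3 • C.b v) = 3 * I.M f v := by
    intro f v
    rw [hs, hbM]; push_cast; ring
  obtain ⟨P0, O0, α0, hF, hwalls⟩ := frame_choice (ι := F ⊕ V) hT hs hW
    (Sum.elim (fun f => C.a f) (fun v => Real.sqrt 3 • C.b v))
    (Sum.elim (fun f => I.A f (C.face d0)) (fun v => 3 * I.M (C.face d0) v))
    (Sum.elim (fun f => I.A f (C.face (C.rot d0))) (fun v => 3 * I.M (C.face (C.rot d0)) v))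
    (Sum.elim (fun f => I.A f (C.face (C.rot (C.rot d0))))
      (fun v => 3 * I.M (C.face (C.rot (C.rot d0))) v))
    (Sum.elim (fun f => I.M f (C.vert d0)) (fun v => I.Bv v (C.vert d0)))
    (by
      rintro (f | v)
      · exact hAi _ _
      · exact hbM _ _)
    (by
      rintro (f | v)
      · exact hAi _ _
      · exact hbM _ _)
    (by
      rintro (f | v)
      · exact hAi _ _
      · exact hbM _ _)
    (by
      rintro (f | v)
      · exact haM _ _
      · simp only [Sum.elim_inr]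
        rw [hbb, ← hBi]; ring)
    (by
      rintro (f | v)
      · exact ⟨1, by simp only [Sum.elim_inl]; rw [C.a_unit]; simp⟩
      · exact ⟨3, by simp only [Sum.elim_inr]; rw [hbb, C.b_unit]; simp⟩)
    (by
      rintro (f | v) (g | w)
      · exact ⟨_, hAi _ _⟩
      · exact ⟨3 * I.M f w, by
          simp only [Sum.elim_inl, Sum.elim_inr]; rw [haM]; push_cast; ring⟩
      · exact ⟨3 * I.M g v, by simp only [Sum.elim_inl, Sum.elim_inr]; rw [hbM]⟩
      · exact ⟨3 * I.Bv v w, by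
          simp only [Sum.elim_inr]; rw [hbb]; push_cast; rw [← hBi]; ring⟩)
  set c0 : W := Real.sqrt 3 • C.b (C.vert d0) with hc0
  set L : AddSubgroup W := frameLat B P0 O0 α0 c0 with hL
  have aL : ∀ f, C.a f ∈ L := fun f => (hwalls (Sum.inl f)).1
  have bL : ∀ v, Real.sqrt 3 • C.b v ∈ L := fun v => (hwalls (Sum.inr v)).1
  have b3' : ∀ v, ∀ x ∈ L, ∃ n : ℤ, 2 * B (Real.sqrt 3 • C.b v) x = 3 * n := by
    intro v
    obtain ⟨u, w, M, e1, e2, e3, e4⟩ := (hwalls (Sum.inr v)).2 (Dvd.intro _ rfl)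
      (Dvd.intro _ rfl) (Dvd.intro _ rfl)
    refine frameLat_b3 hF hs hW _ u w M (I.Bv v (C.vert d0)) e1 e2 e3 ?_ e4
    rw [hc0, hbb, ← hBi]; ring
  have Leven := frameLat_even hF hs hW
  have Lint := frameLat_int hF hs hW
  -- cusps
  set N : D → W := fun d => C.a (C.face d) + C.a (C.face (C.rev d)) with hN
  have hNL : ∀ d, N d ∈ L := fun d => add_mem (aL _) (aL _)
  have hNp : ∀ d, N d = C.ca d • C.p d := C.sum_a
  have hN0 : ∀ d, N d ≠ 0 := by
    intro d h
    rw [hNp, smul_eq_zero] at h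
    rcases h with h | h
    · exact (C.ca_pos d).ne' h
    · exact C.t8_p_ne d h
  have hNrev : ∀ d, N (C.rev d) = N d := by
    intro d
    simp only [hN]
    rw [C.rev_rev, add_comm]
  have hprimex : ∀ n : W, ∃ q : W, ∃ k : ℤ, n ∈ L → n ≠ 0 → (q ∈ L ∧ 0 < k ∧ n = (k : ℝ) • q ∧
      ∀ x ∈ L, ∀ m : ℤ, q = m • x → m = 1 ∨ m = -1) := by
    intro n
    by_cases h : n ∈ L ∧ n ≠ 0
    · obtain ⟨q, hq, k, hk, e, hp⟩ := frameLat_prim hF hs hW n h.1 h.2
      exact ⟨q, k, fun _ _ => ⟨hq, hk, e, hp⟩⟩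
    · exact ⟨0, 0, fun h1 h2 => absurd ⟨h1, h2⟩ h⟩
  choose pr kk hpr using hprimex
  set P : D → W := fun d => pr (N d) with hP
  set Aw : D → ℤ := fun d => kk (N d) with hAw
  have PL : ∀ d, P d ∈ L := fun d => (hpr _ (hNL d) (hN0 d)).1
  have Awpos : ∀ d, 0 < Aw d := fun d => (hpr _ (hNL d) (hN0 d)).2.1
  have Pa : ∀ d, N d = (Aw d : ℝ) • P d := fun d => (hpr _ (hNL d) (hN0 d)).2.2.1
  have Pprim : ∀ d, ∀ x ∈ L, ∀ m : ℤ, P d = m • x → m = 1 ∨ m = -1 :=
    fun d => (hpr _ (hNL d) (hN0 d)).2.2.2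
  have Prev : ∀ d, P (C.rev d) = P d := by
    intro d
    simp only [hP]
    rw [hNrev]
  have AwposR : ∀ d, (0 : ℝ) < Aw d := fun d => by exact_mod_cast Awpos d
  have Pp : ∀ d, P d = (C.ca d / Aw d) • C.p d := by
    intro d
    have e := Pa d
    rw [hNp] at e
    have := (AwposR d).ne'
    calc P d = (1 / (Aw d : ℝ)) • ((Aw d : ℝ) • P d) := by
          rw [smul_smul, one_div_mul_cancel this, one_smul]
      _ = (C.ca d / Aw d) • C.p d := by rw [← e, smul_smul]; congr 1; ring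
  have κpos : ∀ d, 0 < C.ca d / Aw d := fun d => div_pos (C.ca_pos d) (AwposR d)
  have PP : ∀ d, B (P d) (P d) = 0 := by
    intro d
    rw [Pp]
    simp only [map_smul, LinearMap.smul_apply, smul_eq_mul, C.p_null, mul_zero]
  have PaF : ∀ d, B (P d) (C.a (C.face d)) = 0 := by
    intro d
    rw [Pp]
    simp only [map_smul, LinearMap.smul_apply, smul_eq_mul, C.t8_p_a, mul_zero]
  have PbV : ∀ d, B (P d) (Real.sqrt 3 • C.b (C.vert d)) = 0 := by
    intro d
    rw [Pp]
    simp only [map_smul, LinearMap.smul_apply, smul_eq_mul, C.t8_p_b, mul_zero]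
  have PaF' : ∀ d, B (P d) (C.a (C.face (C.rev d))) = 0 := by
    intro d
    rw [← Prev]; exact PaF _
  have PbV' : ∀ d, B (P d) (Real.sqrt 3 • C.b (C.vert (C.rev d))) = 0 := by
    intro d
    rw [← Prev]; exact PbV _
  have Padj : ∀ d, B (P d) (P (C.rot d)) < 0 := by
    intro d
    rw [Pp d, Pp (C.rot d)]
    simp only [map_smul, LinearMap.smul_apply, smul_eq_mul]
    have h1 := C.t8_p_adj_neg d
    have h2 := κpos d
    have h3 := κpos (C.rot d)
    have : 0 < (C.ca (C.rot d) / Aw (C.rot d)) * (C.ca d / Aw d) := mul_pos h3 h2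
    nlinarith
  -- partners
  have hpart : ∀ d, ∃ o, o ∈ L ∧ B o o = 0 ∧ B (P d) o = -1 / 2 := by
    intro d
    obtain ⟨o, h1, h2, h3⟩ := frameLat_partner hF hs hW (P d) (PL d) (PP d) (Pprim d)
    exact ⟨o, h1, h2, h3⟩
  choose O OL OO PO using hpart
  have hR : ∀ d f, ∃ r : ℤ, 2 * B (C.a f) (O d) = r := fun d f => Lint _ (aL f) _ (OL d)
  have hTt : ∀ d v, ∃ t : ℤ, 2 * B (Real.sqrt 3 • C.b v) (O d) = 3 * t :=
    fun d v => b3' v _ (OL d)
  choose R hR using hR
  choose T hTt using hTt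
  -- the corner lemma
  have corner : ∀ e e' f v, B (P e) (C.a f) = 0 → B (P e') (C.a f) = 0 →
      B (P e) (Real.sqrt 3 • C.b v) = 0 → B (P e') (Real.sqrt 3 • C.b v) = 0 →
      B (C.a f) (Real.sqrt 3 • C.b v) = 0 → B (P e) (P e') < 0 →
      (Even (R e f + T e v) ∧ 2 * B (P e) (P e') = -1) ∨
      (¬ Even (R e f + T e v) ∧ 2 * B (P e) (P e') = -4 ∧
        (1 / 4 : ℝ) • (P e + P e' - (2 : ℝ) • C.a f) ∈ L) := by
    intro e e' f v h1 h2 h3 h4 h5 h6
    refine frameLat_corner hF hs hW (P e) (O e) (C.a f) (Real.sqrt 3 • C.b v) (P e') (PL e)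
      (aL f) (bL v) (OL e) (PL e') (b3' v) (PP e) (OO e) (PO e) h1 h3 h2 h4 (PP e') h6
      (C.a_unit f) ?_ h5 (Pprim e') (R e f) (T e v) (hR e f) (hTt e v)
    rw [hbb, C.b_unit]; ring
  have cornerD : ∀ d, (Even (R d (C.face d) + T d (C.vert d)) ∧
      2 * B (P d) (P (C.rot d)) = -1) ∨
      (¬ Even (R d (C.face d) + T d (C.vert d)) ∧ 2 * B (P d) (P (C.rot d)) = -4 ∧
        (1 / 4 : ℝ) • (P d + P (C.rot d) - (2 : ℝ) • C.a (C.face d)) ∈ L) := by
    intro d
    refine corner d (C.rot d) (C.face d) (C.vert d) (PaF d) ?_ (PbV d) ?_ (hab0 d) (Padj d)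
    · have := PaF' (C.rot d)
      rwa [C.t8_face_rev_rot] at this
    · have := PbV (C.rot d)
      rwa [C.t8_vert_rot] at this
  set δ : D → ℤ := fun d => if 2 * B (P d) (P (C.rot d)) = -1 then 1 else 4 with hδ
  have δadj : ∀ d, 2 * B (P d) (P (C.rot d)) = -(δ d : ℝ) := by
    intro d
    simp only [hδ]
    split_ifs with h
    · rw [h]; norm_num
    · rcases cornerD d with ⟨_, h1⟩ | ⟨_, h1, _⟩
      · exact absurd h1 h
      · rw [h1]; norm_num
  have δeq : ∀ d, δ d = 1 ∨ δ d = 4 := by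
    intro d
    simp only [hδ]
    split_ifs
    · left; rfl
    · right; rfl
  have δpar : ∀ (k : ℤ) e e' f v, 2 * B (P e) (P e') = -(k : ℝ) →
      ((Even (R e f + T e v) ∧ 2 * B (P e) (P e') = -1) ∨
      (¬ Even (R e f + T e v) ∧ 2 * B (P e) (P e') = -4 ∧
        (1 / 4 : ℝ) • (P e + P e' - (2 : ℝ) • C.a f) ∈ L)) → Even (k + R e f + T e v + 1) := by
    intro k e e' f v hk hcor
    rcases hcor with ⟨h1, h2⟩ | ⟨h1, h2, _⟩
    · have hk1 : k = 1 := by
        have : (k : ℝ) = 1 := by linarith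
        exact_mod_cast this
      rw [hk1]
      obtain ⟨s, hs'⟩ := h1
      exact ⟨s + 1, by linarith⟩
    · have hk1 : k = 4 := by
        have : (k : ℝ) = 4 := by linarith
        exact_mod_cast this
      rw [hk1]
      rw [Int.not_even_iff_odd] at h1
      obtain ⟨s, hs'⟩ := h1
      exact ⟨s + 3, by linarith⟩
  -- sums of the `R` and `T` at a cusp
  have Rsum : ∀ d, R d (C.face d) + R d (C.face (C.rev d)) = -Aw d := by
    intro d
    have e := congrArg (fun z => 2 * B z (O d)) (Pa d)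
    simp only [hN, map_add, map_smul, LinearMap.add_apply, LinearMap.smul_apply,
      smul_eq_mul] at e
    have h1 := hR d (C.face d)
    have h2 := hR d (C.face (C.rev d))
    rw [PO d] at e
    have : ((R d (C.face d) + R d (C.face (C.rev d)) : ℤ) : ℝ) = ((-Aw d : ℤ) : ℝ) := by
      push_cast
      linarith
    exact_mod_cast this
  set Bw : D → ℤ := fun d => -(T d (C.vert d) + T d (C.vert (C.rev d))) with hBw
  have Tsum : ∀ d, C.b (C.vert d) + C.b (C.vert (C.rev d)) = (Real.sqrt 3 * Bw d : ℝ) • P d ∧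
      0 < Bw d := by
    intro d
    have e0 : C.b (C.vert d) + C.b (C.vert (C.rev d)) = (C.cb d * (Aw d / C.ca d)) • P d := by
      rw [C.sum_b, Pp, smul_smul]
      congr 1
      have := (C.ca_pos d).ne'
      have := (AwposR d).ne'
      field_simp
    have e := congrArg (fun z => 2 * (Real.sqrt 3 * B z (O d))) e0
    simp only [map_add, map_smul, LinearMap.add_apply, LinearMap.smul_apply,
      smul_eq_mul] at e
    have h1 := hTt d (C.vert d)
    have h2 := hTt d (C.vert (C.rev d))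
    simp only [map_smul, LinearMap.smul_apply, smul_eq_mul] at h1 h2
    rw [PO d] at e
    have e1 : C.cb d * (Aw d / C.ca d) * Real.sqrt 3 = 3 * (Bw d : ℝ) := by
      simp only [hBw]
      push_cast
      linarith
    have e2 : C.cb d * (Aw d / C.ca d) = Real.sqrt 3 * (Bw d : ℝ) := by
      have : (C.cb d * (Aw d / C.ca d)) * Real.sqrt 3 = (Real.sqrt 3 * (Bw d : ℝ)) * Real.sqrt 3 := by
        rw [e1]
        linear_combination -(Bw d : ℝ) * s3
      exact mul_right_cancel₀ s3pos.ne' this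
    refine ⟨by rw [e0, e2], ?_⟩
    have hpos : 0 < C.cb d * (Aw d / C.ca d) :=
      mul_pos (C.cb_pos d) (div_pos (AwposR d) (C.ca_pos d))
    rw [e2] at hpos
    have := (mul_pos_iff_of_pos_left s3pos).mp hpos
    exact_mod_cast this
  refine ⟨⟨L, Leven, Lint, aL, bL, ?_, Aw, Bw, δ, P, PL, Prev, Awpos, fun d => (Tsum d).2, Pa,
    fun d => (Tsum d).1, Pprim, δadj, δeq, ?_, ?_, ?_⟩⟩
  · intro v x hx
    obtain ⟨n, hn⟩ := b3' v x hx
    refine ⟨n, ?_⟩
    simp only [map_smul, LinearMap.smul_apply, smul_eq_mul] at hn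
    have : (2 * B (C.b v) x) * Real.sqrt 3 = (Real.sqrt 3 * n) * Real.sqrt 3 := by
      linear_combination hn - (n : ℝ) * s3
    exact mul_right_cancel₀ s3pos.ne' this
  · intro d
    have h1 := δpar (δ d) d (C.rot d) (C.face d) (C.vert d) (δadj d) (cornerD d)
    have h2 : Even (δ (C.rot⁻¹ d) + R d (C.face (C.rev d)) + T d (C.vert d) + 1) := by
      have hadj := δadj (C.rot⁻¹ d)
      have hneg := Padj (C.rot⁻¹ d)
      rw [C.t8_rot_rot_inv, hs] at hadj hneg
      refine δpar (δ (C.rot⁻¹ d)) d (C.rot⁻¹ d) (C.face (C.rev d)) (C.vert d) hadj ?_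
      refine corner d (C.rot⁻¹ d) (C.face (C.rev d)) (C.vert d) (PaF' d) ?_ (PbV d) ?_ ?_ hneg
      · have := PaF (C.rot⁻¹ d)
        rwa [C.t8_face_rot_inv] at this
      · have := PbV (C.rot⁻¹ d)
        rwa [C.t8_vert_rot_inv] at this
      · have := hab0 (C.rot⁻¹ d)
        rwa [C.t8_face_rot_inv, C.t8_vert_rot_inv] at this
    have h3 := Rsum d
    obtain ⟨u, hu⟩ := h1
    obtain ⟨w, hw⟩ := h2
    exact ⟨u + w - T d (C.vert d) - 1 + Aw d, by linarith⟩
  · intro d
    have h1 := δpar (δ d) d (C.rot d) (C.face d) (C.vert d) (δadj d) (cornerD d)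
    have h2 : Even (δ (C.phi d) + R d (C.face d) + T d (C.vert (C.rev d)) + 1) := by
      have hrp : C.rot (C.phi d) = C.rev d := by rw [C.t8_phi_apply, C.t8_rot_rot_inv]
      have hadj := δadj (C.phi d)
      have hneg := Padj (C.phi d)
      rw [hrp, Prev, hs] at hadj hneg
      refine δpar (δ (C.phi d)) d (C.phi d) (C.face d) (C.vert (C.rev d)) hadj ?_
      refine corner d (C.phi d) (C.face d) (C.vert (C.rev d)) (PaF d) ?_ (PbV' d) ?_ ?_ hneg
      · have := PaF (C.phi d)
        rwa [C.t8_face_phi] at this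
      · have := PbV (C.phi d)
        rwa [C.t8_vert_phi] at this
      · have := hab0 (C.phi d)
        rwa [C.t8_face_phi, C.t8_vert_phi] at this
    obtain ⟨u, hu⟩ := h1
    obtain ⟨w, hw⟩ := h2
    refine ⟨u + w - R d (C.face d) - 1 + Bw d, ?_⟩
    simp only [hBw]
    linarith
  · intro d hd
    rcases cornerD d with ⟨_, h1⟩ | ⟨_, h1, h2⟩
    · have := δadj d
      rw [h1, hd] at this
      norm_num at this
    · exact h2

end ArithPoly
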