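import Pool.Agent.LibArithPoly.Transport
import Pool.Agent.LibArithPoly.T6Five
import Pool.Agent.LibArithPoly.T8Lat3
import Pool.Agent.LibArithPoly.T15b

/-!
# The theorem
-/

open Matrix

namespace ArithPoly

variable {V F D : Type} [Fintype V] [Fintype F] [Fintype D]

namespace Integral

variable {W : Type} [AddCommGroup W] [Module ℝ W] {B : LinearMap.BilinForm ℝ W}

theorem no_three {C : Config B V F D} (I : Integral 3 C) (d0 : D)
    (h3 : C.rot (C.rot (C.rot d0)) = d0) : False := by
  have : Fact (Nat.Prime 3) := ⟨Nat.prime_three⟩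
  obtain ⟨L⟩ := exists_lat3 C I d0 h3
  exact L.false_of (I.even_face 3 (by norm_num) (dvd_refl 3) d0 h3)

theorem d_cases' {d : ℕ} {C : Config B V F D} (I : Integral d C) (hd : Squarefree d) (d0 : D)
    (h3 : C.rot (C.rot (C.rot d0)) = d0) : d = 1 ∨ d = 2 ∨ d = 6 := by
  rcases I.d_cases hd d0 h3 with h | h | h | h | h | h
  · left; exact h
  · right; left; exact h
  · subst h; exact absurd (I.no_three d0 h3) id
  · exact absurd (I.no_five (Or.inl h) d0 h3) id
  · right; right; exact h
  · exact absurd (I.no_five (Or.inr h) d0 h3) id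

end Integral

/-- the theorem, for polyhedra commensurable with `PSL₂(ℤ[√-d])` -/
theorem main_theorem (P : MidscribedPolyhedron V F D) (d : ℕ) (hd : Squarefree d)
    (h : CommensurableWith P d) : d = 1 ∨ d = 2 ∨ d = 6 := by
  obtain ⟨C, -, ⟨I⟩⟩ := exists_integral P d hd h
  rcases C.exists_three with ⟨d0, h0⟩ | ⟨d0, h0⟩
  · refine I.d_cases' hd d0 ?_
    have := pow_per C.rot d0
    rwa [h0] at this
  · refine I.dual.d_cases' hd d0 ?_
    have := pow_per C.phi d0
    rwa [h0] at this

end ArithPoly
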