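import Pool.Agent.LibArithPoly.Final
import Pool.Agent.LibArithPoly.Bridge
import Pool.Agent.LibArithPoly.BP6

/-!
# The conjecture, with the general definition of an arithmetic group
-/

namespace ArithPoly

variable {V F D : Type} [Fintype V] [Fintype F] [Fintype D]

theorem conjecture (P : ArithPolyhedra.MidscribedPolyhedron V F D)
    (h : ArithPolyhedra.IsArithmetic (ArithPolyhedra.reflectionGroup P)) :
    ∃ d, (d = 1 ∨ d = 2 ∨ d = 6) ∧
      ArithPolyhedra.WideCommensurable (ArithPolyhedra.reflectionGroup P)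
        (ArithPolyhedra.PSL2Z d) := by
  obtain ⟨d, hd, hc⟩ := exists_bianchi (ofNew P) (isArithmetic_iff P h)
  exact ⟨d, main_theorem (ofNew P) d hd hc, (wide_PSL2Z_iff P d).2 hc⟩

end ArithPoly
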