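import Mathlib

/-!
# Arithmetic polyhedra (MP_84cd0b_gt): the definitions used in the final statement

* `SphericalMap`         : combinatorial map (rotation system) of a polyhedral graph on the sphere
* `MidscribedPolyhedron` : convex polyhedron in `ℝ³` all of whose edges are tangent to the unit sphere
* `reflectionGroup P`    : the group `Γ_P`, in the linear (hyperboloid) model of hyperbolic 3-space
* `PSL2Z d`              : the group `PSL₂(ℤ[√-d])` in the same model
* `WideCommensurable`    : commensurability up to conjugation by an isometry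
* `IsArithmetic`         : arithmetic groups of isometries of hyperbolic 3-space
-/

open scoped RealInnerProductSpace ComplexConjugate
open Matrix

namespace ArithPolyhedra

/-- A combinatorial map on the sphere.  `D` is the set of darts (oriented edges), `rot` rotates a
dart about its origin `vert d`, `rev` reverses a dart, `face d` is the face on the side of `d`
bounded by the cycle of `rot⁻¹ ∘ rev` through `d`. -/
structure SphericalMap (V F D : Type) [Fintype V] [Fintype F] [Fintype D] where
  rot : Equiv.Perm D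
  rev : Equiv.Perm D
  vert : D → V
  face : D → F
  rev_rev : ∀ d, rev (rev d) = d
  rev_ne : ∀ d, rev d ≠ d
  vert_surj : Function.Surjective vert
  face_surj : Function.Surjective face
  /-- vertices are the cycles of `rot` -/
  vert_iff : ∀ d e, vert d = vert e ↔ rot.SameCycle d e
  /-- faces are the cycles of `rot⁻¹ * rev` -/
  face_iff : ∀ d e, face d = face e ↔ (rot⁻¹ * rev).SameCycle d e
  /-- the graph is connected -/
  connected : ∀ v w, Relation.ReflTransGen (fun x y => ∃ d, vert d = x ∧ vert (rev d) = y) v w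
  /-- Euler's formula `V - E + F = 2`, where `E = card D / 2` -/
  euler : 2 * (Fintype.card V + Fintype.card F) = Fintype.card D + 4
  /-- the graph is simple -/
  simple : ∀ d e, vert d = vert e → vert (rev d) = vert (rev e) → d = e
  /-- the two faces at an edge are different -/
  face_ne : ∀ d, face (rev d) ≠ face d
  /-- every vertex has degree at least 3 -/
  three_le_vert : ∀ v, 3 ≤ Nat.card {d // vert d = v}
  /-- every face has at least 3 sides -/
  three_le_face : ∀ f, 3 ≤ Nat.card {d // face d = f}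

variable {V F D : Type} [Fintype V] [Fintype F] [Fintype D]

/-- `v` is a vertex of the face `f`. -/
def SphericalMap.Inc (m : SphericalMap V F D) (f : F) (v : V) : Prop :=
  ∃ d, m.face d = f ∧ m.vert d = v

/-- Euclidean 3-space. -/
abbrev E3 := EuclideanSpace ℝ (Fin 3)

/-- A convex polyhedron in `ℝ³` (given by its vertices, its face planes `⟪normal f, x⟫ = offset f`
and its combinatorial map) all of whose edges are tangent to the unit sphere. -/
structure MidscribedPolyhedron (V F D : Type) [Fintype V] [Fintype F] [Fintype D] extends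
    SphericalMap V F D where
  /-- position of the vertices -/
  pos : V → E3
  /-- outer normal vectors of the faces -/
  normal : F → E3
  offset : F → ℝ
  /-- the vertices are the extreme points of their convex hull -/
  convexIndependent : ConvexIndependent ℝ pos
  /-- the vertices of a face lie on its plane -/
  on_plane : ∀ f v, toSphericalMap.Inc f v → ⟪normal f, pos v⟫ = offset f
  /-- all other vertices lie strictly on the inner side of it -/
  below_plane : ∀ f v, ¬ toSphericalMap.Inc f v → ⟪normal f, pos v⟫ < offset f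
  /-- no face is contained in another one -/
  face_ext : ∀ f g, (∀ v, toSphericalMap.Inc f v → toSphericalMap.Inc g v) → f = g
  /-- every edge is tangent to the unit sphere, at an interior point `p` of the edge -/
  tangent : ∀ d, ∃ p ∈ openSegment ℝ (pos (vert d)) (pos (vert (rev d))),
    ‖p‖ = 1 ∧ ⟪p, pos (vert (rev d)) - pos (vert d)⟫ = 0

/-- Minkowski space `ℝ^{3,1} = ℝ³ × ℝ`. -/
abbrev Mink := E3 × ℝ

/-- The Lorentzian form `x₁y₁ + x₂y₂ + x₃y₃ - x₄y₄`.  The open unit ball is the projective (Klein)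
model of hyperbolic space: `x` in the ball is the line spanned by `(x, 1)`, and the plane
`⟪n, x⟫ = h` meets the ball in the hyperbolic plane orthogonal to `(n, h)`. -/
noncomputable def lor (x y : Mink) : ℝ := ⟪x.1, y.1⟫ - x.2 * y.2

/-- `T` is an isometry of `ℝ^{3,1}` (a bijection which preserves `lor` is linear). -/
def IsIsometry (T : Equiv.Perm Mink) : Prop := ∀ x y, lor (T x) (T y) = lor x y

/-- The image of `x` under the reflection in the hyperplane orthogonal to `n`. -/
noncomputable def reflVec (n x : Mink) : Mink := x - (2 * lor n x / lor n n) • n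

theorem reflVec_involutive (n : Mink) : Function.Involutive (reflVec n) := by
  intro x
  by_cases h : lor n n = 0
  · simp [reflVec, h]
  · have h0 : lor n (x - (2 * lor n x / lor n n) • n) =
        lor n x - (2 * lor n x / lor n n) * lor n n := by
      simp only [lor, Prod.fst_sub, Prod.snd_sub, Prod.smul_fst, Prod.smul_snd, inner_sub_right,
        real_inner_smul_right, smul_eq_mul]
      ring
    have h1 : lor n (reflVec n x) = - lor n x := by
      unfold reflVec
      rw [h0]
      field_simp; ring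
    have h2 : reflVec n (reflVec n x) = reflVec n x - (2 * lor n (reflVec n x) / lor n n) • n := rfl
    rw [h2, h1]
    unfold reflVec
    rw [sub_sub, ← add_smul, show 2 * lor n x / lor n n + 2 * -lor n x / lor n n = 0 by ring]
    simp

/-- The reflection of `ℝ^{3,1}` in the hyperplane orthogonal to `n`; for `lor n n > 0` this is the
hyperbolic reflection in the plane of `ℍ³` orthogonal to `n`. -/
noncomputable def hypReflection (n : Mink) : Equiv.Perm Mink := (reflVec_involutive n).toPerm

/-- The group `Γ_P` generated by the reflections in the face planes of `P` and in the face planes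
`⟪pos v, x⟫ = 1` of the dual polyhedron `P*`. -/
noncomputable def reflectionGroup (P : MidscribedPolyhedron V F D) : Subgroup (Equiv.Perm Mink) :=
  Subgroup.closure
    (Set.range (fun f => hypReflection (P.normal f, P.offset f)) ∪
      Set.range (fun v => hypReflection (P.pos v, 1)))

/-- `ℝ^{3,1}` as the space of Hermitian `2 × 2` matrices; `lor x x = - det (herm x)`. -/
noncomputable def herm (x : Mink) : Matrix (Fin 2) (Fin 2) ℂ :=
  !![(x.2 + x.1 2 : ℂ), x.1 0 + x.1 1 * Complex.I; x.1 0 - x.1 1 * Complex.I, x.2 - x.1 2]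

/-- `g` is the transformation `X ↦ M X Mᴴ` of `ℝ^{3,1}` (Hermitian matrices). -/
def IsAction (M : Matrix (Fin 2) (Fin 2) ℂ) (g : Equiv.Perm Mink) : Prop :=
  ∀ x, herm (g x) = M * herm x * Mᴴ

theorem IsAction.mul {M N : Matrix (Fin 2) (Fin 2) ℂ} {g h : Equiv.Perm Mink}
    (hg : IsAction M g) (hh : IsAction N h) : IsAction (M * N) (g * h) := by
  intro x
  rw [Equiv.Perm.mul_apply, hg, hh, conjTranspose_mul]
  simp only [Matrix.mul_assoc]

theorem IsAction.one : IsAction 1 1 := by
  intro x; simp

theorem IsAction.inv {M N : Matrix (Fin 2) (Fin 2) ℂ} {g : Equiv.Perm Mink}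
    (hg : IsAction M g) (hN : N * M = 1) : IsAction N g⁻¹ := by
  intro x
  have h1 := hg (g⁻¹ x)
  have h2 : g (g⁻¹ x) = x := by simp
  have h3 : Mᴴ * Nᴴ = 1 := by rw [← conjTranspose_mul, hN, conjTranspose_one]
  rw [h2] at h1
  calc herm (g⁻¹ x) = (N * M) * herm (g⁻¹ x) * (Mᴴ * Nᴴ) := by rw [hN, h3]; simp
    _ = N * (M * herm (g⁻¹ x) * Mᴴ) * Nᴴ := by simp only [Matrix.mul_assoc]
    _ = _ := by rw [← h1]

theorem sqrt_mul_I_sq (d : ℕ) : (Real.sqrt d : ℂ) * Complex.I * ((Real.sqrt d : ℂ) * Complex.I) =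
    ((-(d : ℤ) : ℤ) : ℂ) := by
  have h : ((Real.sqrt d : ℝ) : ℂ) * (Real.sqrt d : ℝ) = (d : ℂ) := by
    rw [← Complex.ofReal_mul, Real.mul_self_sqrt (Nat.cast_nonneg d)]; simp
  calc (Real.sqrt d : ℂ) * Complex.I * ((Real.sqrt d : ℂ) * Complex.I)
      = ((Real.sqrt d : ℝ) : ℂ) * (Real.sqrt d : ℝ) * (Complex.I * Complex.I) := by ring
    _ = _ := by rw [h, Complex.I_mul_I]; push_cast; ring

/-- The ring homomorphism `ℤ[√-d] → ℂ`. -/
noncomputable def zsqrtToComplex (d : ℕ) : ℤ√(-(d : ℤ)) →+* ℂ :=
  Zsqrtd.lift ⟨(Real.sqrt d : ℂ) * Complex.I, sqrt_mul_I_sq d⟩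

/-- `SL₂(ℤ[√-d])` -/
abbrev SL2Zsqrt (d : ℕ) : Type := SpecialLinearGroup (Fin 2) (ℤ√(-(d : ℤ)))

/-- The matrix over `ℂ` of an element of `SL₂(ℤ[√-d])`. -/
noncomputable def toC (d : ℕ) (M : SL2Zsqrt d) : Matrix (Fin 2) (Fin 2) ℂ :=
  Matrix.of (fun i j => zsqrtToComplex d (M i j))

theorem toC_mul (d : ℕ) (M N : SL2Zsqrt d) : toC d (M * N) = toC d M * toC d N := by
  ext i j
  simp [toC, Matrix.mul_apply]

theorem toC_one (d : ℕ) : toC d 1 = 1 := by
  ext i j
  by_cases h : i = j
  · subst h; simp [toC]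
  · simp [toC, h]

/-- `g` is given by an element of `SL₂(ℤ[√-d])`. -/
def InPSL2Z (d : ℕ) (g : Equiv.Perm Mink) : Prop := ∃ M : SL2Zsqrt d, IsAction (toC d M) g

theorem inPSL2Z_mul (d : ℕ) {g h : Equiv.Perm Mink} (hg : InPSL2Z d g) (hh : InPSL2Z d h) :
    InPSL2Z d (g * h) := by
  obtain ⟨M, hM⟩ := hg
  obtain ⟨N, hN⟩ := hh
  exact ⟨M * N, by rw [toC_mul]; exact hM.mul hN⟩

theorem inPSL2Z_one (d : ℕ) : InPSL2Z d 1 := ⟨1, by rw [toC_one]; exact IsAction.one⟩

theorem inPSL2Z_inv (d : ℕ) {g : Equiv.Perm Mink} (hg : InPSL2Z d g) : InPSL2Z d g⁻¹ := by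
  obtain ⟨M, hM⟩ := hg
  exact ⟨M⁻¹, hM.inv (by rw [← toC_mul, inv_mul_cancel, toC_one])⟩

/-- The group `PSL₂(ℤ[√-d])`, acting on `ℝ^{3,1}` (and so on `ℍ³`) by `X ↦ M X Mᴴ` on Hermitian
matrices. -/
def PSL2Z (d : ℕ) : Subgroup (Equiv.Perm Mink) where
  carrier := {g | InPSL2Z d g}
  one_mem' := inPSL2Z_one d
  mul_mem' := inPSL2Z_mul d
  inv_mem' := inPSL2Z_inv d

/-- `G` is commensurable with `H` up to conjugation by an isometry of `ℝ^{3,1}`. -/
def WideCommensurable (G H : Subgroup (Equiv.Perm Mink)) : Prop :=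
  ∃ T : Equiv.Perm Mink, IsIsometry T ∧
    Subgroup.Commensurable (G.map (MulAut.conj T).toMonoidHom) H

/-! ### General arithmetic groups -/

/-- The field `k` has exactly one complex place, given by the embedding `σ`. -/
def UniqueComplexPlace {k : Type} [Field k] (σ : k →+* ℂ) : Prop :=
  (∃ x, conj (σ x) ≠ σ x) ∧
    ∀ τ : k →+* ℂ, (∃ x, conj (τ x) ≠ τ x) → τ = σ ∨ ∀ x, τ x = conj (σ x)

/-- The quaternion algebra `(a, b / k)` is ramified at all real places of `k`. -/
def RamifiedAtReal {k : Type} [Field k] (a b : k) : Prop := ∀ τ : k →+* ℝ, τ a < 0 ∧ τ b < 0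

/-- The quaternion algebra `(a, b / k)`: `i² = a`, `j² = b`, `ij = -ji`. -/
abbrev Quat {k : Type} [Field k] (a b : k) : Type := QuaternionAlgebra k a 0 b

/-- An order: a subring which is finitely generated as an abelian group and contains a nonzero
multiple of every element. -/
def IsOrder {A : Type} [Ring A] (O : Subring A) : Prop :=
  O.toAddSubgroup.FG ∧ ∀ x : A, ∃ n : ℕ, 0 < n ∧ n • x ∈ O

/-- For a ring homomorphism `ρ : A → M₂(ℂ)` and a subring `O` of `A`: `g` is the transformation
`X ↦ ρ(x) X ρ(x)ᴴ` for a unit `x` of `O` with `det ρ(x) = 1`. -/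
def InUnitGroup {A : Type} [Ring A] (ρ : A →+* Matrix (Fin 2) (Fin 2) ℂ) (O : Subring A)
    (g : Equiv.Perm Mink) : Prop :=
  ∃ x ∈ O, ∃ y ∈ O, x * y = 1 ∧ y * x = 1 ∧ (ρ x).det = 1 ∧ IsAction (ρ x) g

section

variable {A : Type} [Ring A] (ρ : A →+* Matrix (Fin 2) (Fin 2) ℂ) (O : Subring A)

theorem inUnitGroup_mul {g h : Equiv.Perm Mink} (hg : InUnitGroup ρ O g)
    (hh : InUnitGroup ρ O h) : InUnitGroup ρ O (g * h) := by
  obtain ⟨x, hx, y, hy, hxy, hyx, hd, ha⟩ := hg
  obtain ⟨x', hx', y', hy', hxy', hyx', hd', ha'⟩ := hh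
  refine ⟨x * x', O.mul_mem hx hx', y' * y, O.mul_mem hy' hy, ?_, ?_, ?_, ?_⟩
  · rw [mul_assoc, ← mul_assoc x', hxy', one_mul, hxy]
  · rw [mul_assoc, ← mul_assoc y, hyx, one_mul, hyx']
  · rw [map_mul, Matrix.det_mul, hd, hd', one_mul]
  · rw [map_mul]; exact ha.mul ha'

theorem inUnitGroup_one : InUnitGroup ρ O 1 :=
  ⟨1, O.one_mem, 1, O.one_mem, mul_one 1, mul_one 1, by rw [map_one, Matrix.det_one],
    by rw [map_one]; exact IsAction.one⟩

theorem inUnitGroup_inv {g : Equiv.Perm Mink} (hg : InUnitGroup ρ O g) :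
    InUnitGroup ρ O g⁻¹ := by
  obtain ⟨x, hx, y, hy, hxy, hyx, hd, ha⟩ := hg
  have e : ρ y * ρ x = 1 := by rw [← map_mul, hyx, map_one]
  refine ⟨y, hy, x, hx, hyx, hxy, ?_, ha.inv e⟩
  have := congrArg Matrix.det e
  rwa [Matrix.det_mul, hd, mul_one, Matrix.det_one] at this

/-- The group `Pρ(O¹)`. -/
def unitGroup : Subgroup (Equiv.Perm Mink) where
  carrier := {g | InUnitGroup ρ O g}
  one_mem' := inUnitGroup_one ρ O
  mul_mem' := inUnitGroup_mul ρ O
  inv_mem' := inUnitGroup_inv ρ O

end

/-- `ρ` extends the embedding `σ` of `k`. -/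
def Extends {k : Type} [Field k] {a b : k} (σ : k →+* ℂ)
    (ρ : Quat a b →+* Matrix (Fin 2) (Fin 2) ℂ) : Prop :=
  ∀ c : k, ρ (QuaternionAlgebra.coe c) = Matrix.diagonal (fun _ => σ c)

/-- The group `Γ` is commensurable, up to conjugation, with the group `Pρ(O¹)` of an order `O` of a
quaternion algebra over the number field `k`, with the conditions of the definition of an arithmetic
Kleinian group. -/
def ArithmeticOver (k : Type) [Field k] (Γ : Subgroup (Equiv.Perm Mink)) : Prop :=
  ∃ (σ : k →+* ℂ) (a b : k) (ρ : Quat a b →+* Matrix (Fin 2) (Fin 2) ℂ) (O : Subring (Quat a b)),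
    UniqueComplexPlace σ ∧ a ≠ 0 ∧ b ≠ 0 ∧ RamifiedAtReal a b ∧ Extends σ ρ ∧ IsOrder O ∧
      WideCommensurable Γ (unitGroup ρ O)

/-- A group `Γ` of isometries of hyperbolic 3-space (acting on `ℝ^{3,1}`) is arithmetic: there are a
number field `k` with exactly one complex place, a quaternion algebra over `k` ramified at all real
places of `k`, an embedding `ρ` of it in `M₂(ℂ)` over the complex place and an order `O` of it such
that `Γ` is commensurable with `Pρ(O¹)`, up to conjugation by an isometry. -/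
def IsArithmetic (Γ : Subgroup (Equiv.Perm Mink)) : Prop :=
  ∃ (k : Type) (_ : Field k) (_ : NumberField k), ArithmeticOver k Γ

end ArithPolyhedra
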