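import Pool.Agent.LibArithPoly.Lat3

/-!
# Hosts (task T11)
-/

open Matrix

namespace ArithPoly

variable {V F D : Type} [Fintype V] [Fintype F] [Fintype D]
variable {W : Type} [AddCommGroup W] [Module ℝ W] {B : LinearMap.BilinForm ℝ W}

namespace Lat3

variable {C : Config B V F D} (L : Lat3 C)

theorem merge_aux (v : V) (d1 d2 : D) (h1 : C.vert d1 = v) (h2 : C.vert d2 = v) (α β : ℝ)
    (hα : 0 ≤ α) (hβ : 0 ≤ β) (h0 : α * β * B (C.p d1) (C.p d2) = 0) :
    ∃ e, C.vert e = v ∧ ∃ t : ℝ, 0 ≤ t ∧ α • C.p d1 + β • C.p d2 = t • C.p e := by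
  by_cases h : d2 = d1
  · exact ⟨d1, h1, α + β, by linarith, by rw [h, add_smul]⟩
  · have h3 : d2 ≠ C.rev d1 := by
      intro h4
      apply C.vert_ne d1
      rw [← h4, h1, h2]
    have h5 := C.p_neg d1 d2 h h3
    rcases mul_eq_zero.1 h0 with h6 | h6
    · rcases mul_eq_zero.1 h6 with h7 | h7
      · exact ⟨d2, h2, β, hβ, by rw [h7, zero_smul, zero_add]⟩
      · exact ⟨d1, h1, α, hα, by rw [h7, zero_smul, add_zero]⟩
    · exact absurd h6 h5.ne

theorem cusp_of_null (v : V) (Z : W) (hZ : Z ∈ L.L) (h0 : B Z Z = 0) (hb : B Z (C.b v) = 0)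
    (hn : ∀ x, C.vert x = v → B (C.a (C.face x)) Z ≤ 0) (y : W) (hy : y ∈ L.L)
    (h1 : 2 * B Z y = -1) : ∃ e, C.vert e = v ∧ L.P e = Z := by
  obtain ⟨d1, d2, d3, v1, v2, v3, α, β, γ, hα, hβ, hγ, hz⟩ := cone_lemma C.dual v Z hb (by
    intro d hd
    have hd' : C.vert (C.rev d) = v := hd
    have h2 := hn (C.phi d) (by rw [C.vert_phi]; exact hd')
    rw [C.face_phi, C.symm] at h2
    exact h2)
  have v1' : C.vert (C.rev d1) = v := v1
  have v2' : C.vert (C.rev d2) = v := v2
  have v3' : C.vert (C.rev d3) = v := v3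
  have hz' : Z = α • C.p (C.rev d1) + β • C.p (C.rev d2) + γ • C.p (C.rev d3) := by
    rw [C.p_rev, C.p_rev, C.p_rev]; exact hz
  have p12 := C.p_p_nonpos (C.rev d1) (C.rev d2)
  have p13 := C.p_p_nonpos (C.rev d1) (C.rev d3)
  have p23 := C.p_p_nonpos (C.rev d2) (C.rev d3)
  have hsum : α * β * B (C.p (C.rev d1)) (C.p (C.rev d2)) +
      α * γ * B (C.p (C.rev d1)) (C.p (C.rev d3)) +
      β * γ * B (C.p (C.rev d2)) (C.p (C.rev d3)) = 0 := by
    have h2 := h0
    rw [hz'] at h2
    simp only [map_add, map_smul, LinearMap.add_apply, LinearMap.smul_apply, smul_eq_mul,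
      C.p_null] at h2
    rw [C.symm (C.p (C.rev d2)) (C.p (C.rev d1)), C.symm (C.p (C.rev d3)) (C.p (C.rev d1)),
      C.symm (C.p (C.rev d3)) (C.p (C.rev d2))] at h2
    linarith
  have q12 : α * β * B (C.p (C.rev d1)) (C.p (C.rev d2)) ≤ 0 :=
    mul_nonpos_of_nonneg_of_nonpos (mul_nonneg hα hβ) p12
  have q13 : α * γ * B (C.p (C.rev d1)) (C.p (C.rev d3)) ≤ 0 :=
    mul_nonpos_of_nonneg_of_nonpos (mul_nonneg hα hγ) p13
  have q23 : β * γ * B (C.p (C.rev d2)) (C.p (C.rev d3)) ≤ 0 :=
    mul_nonpos_of_nonneg_of_nonpos (mul_nonneg hβ hγ) p23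
  obtain ⟨e, he, t, ht, hte⟩ := merge_aux v (C.rev d1) (C.rev d2) v1' v2' α β hα hβ (by linarith)
  rw [hte] at hz'
  obtain ⟨e', he', t', ht', hte'⟩ := merge_aux v e (C.rev d3) he v3' t γ ht hγ (by
    have h2 := h0
    rw [hz'] at h2
    simp only [map_add, map_smul, LinearMap.add_apply, LinearMap.smul_apply, smul_eq_mul,
      C.p_null] at h2
    rw [C.symm (C.p (C.rev d3)) (C.p e)] at h2
    linarith)
  rw [hte'] at hz'
  obtain ⟨c, hc, hP⟩ := L.P_eq e'
  refine ⟨e', he', ?_⟩
  have ht0 : t' ≠ 0 := by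
    intro h2
    rw [h2, zero_smul] at hz'
    rw [hz'] at h1
    simp at h1
  have htpos : 0 < t' := lt_of_le_of_ne ht' ht0.symm
  obtain ⟨n, hn'⟩ := L.int _ (L.PL e') _ hy
  have hPZ : L.P e' = (c / t') • Z := by
    rw [hP, hz', smul_smul, div_mul_cancel₀ _ ht0]
  have hn2 : (n : ℝ) = - (c / t') := by
    rw [← hn', hPZ]
    simp only [map_smul, LinearMap.smul_apply, smul_eq_mul]
    linear_combination (c / t') * h1
  have hPZ2 : L.P e' = (-n) • Z := by
    rw [hPZ, show c / t' = ((-n : ℤ) : ℝ) by push_cast; linarith, Int.cast_smul_eq_zsmul]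
  rcases L.prim e' Z hZ (-n) hPZ2 with h2 | h2
  · rw [hPZ2, h2, one_smul]
  · exfalso
    have h3 : n = 1 := by omega
    rw [h3] at hn2
    have : 0 < c / t' := div_pos hc htpos
    push_cast at hn2
    linarith

/-- norm form at a corner, in terms of the primitive cusp vectors -/
theorem corner_P' (d : D) (z w : W) :
    B z w = B z (C.a (C.face d)) * B w (C.a (C.face d)) +
      B z (C.b (C.vert d)) * B w (C.b (C.vert d)) -
      2 * (B z (L.P (C.rot d)) * B w (L.P d) + B z (L.P d) * B w (L.P (C.rot d))) / L.δ d := by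
  have hadj := L.P_adj d
  have hδ : (0 : ℝ) < L.δ d := by
    rcases L.δ_eq d with h | h <;> rw [h] <;> norm_num
  have hB : B (L.P d) (L.P (C.rot d)) = -(L.δ d : ℝ) / 2 := by linarith
  have hne : B (L.P d) (L.P (C.rot d)) ≠ 0 := by rw [hB]; intro h; linarith
  have h := expand_norm B C.symm C.finrank _ _ _ _ (C.a_unit _) (C.b_unit _) (C.a_b d)
    (L.P_null d) (L.P_null (C.rot d)) (L.a_P0 d) (L.a_Prot d) (L.b_P0 d) (L.b_Prot d) hne z w
  rw [h, hB]
  field_simp
  ring

theorem exists_host (d : D) (h : L.δ d = 4) : ∃ e, L.Unit e d ∧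
    L.P e = (1 / 4 : ℝ) • (L.P d + L.P (C.rot d) - (2 : ℝ) • C.a (C.face d)) := by
  set Z := (1 / 4 : ℝ) • (L.P d + L.P (C.rot d) - (2 : ℝ) • C.a (C.face d)) with hZ
  have hadj := L.P_adj d
  rw [h] at hadj
  push_cast at hadj
  have hPP : B (L.P d) (L.P (C.rot d)) = -2 := by linarith
  have hPP' : B (L.P (C.rot d)) (L.P d) = -2 := by rw [C.symm]; exact hPP
  have ha := L.a_P0 d
  have ha' : B (L.P d) (C.a (C.face d)) = 0 := by rw [C.symm]; exact ha
  have har := L.a_Prot d
  have har' : B (L.P (C.rot d)) (C.a (C.face d)) = 0 := by rw [C.symm]; exact har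
  have hb' : B (L.P d) (C.b (C.vert d)) = 0 := by rw [C.symm]; exact L.b_P0 d
  have hbr' : B (L.P (C.rot d)) (C.b (C.vert d)) = 0 := by rw [C.symm]; exact L.b_Prot d
  have hZa : 2 * B (C.a (C.face d)) Z = -1 := by
    rw [hZ]
    simp only [map_add, map_sub, map_smul, smul_eq_mul, C.a_unit, ha, har]
    norm_num
  obtain ⟨e, he1, he2⟩ := L.cusp_of_null (C.vert d) Z (L.host d h)
    (by
      rw [hZ]
      simp only [map_add, map_sub, map_smul, LinearMap.add_apply, LinearMap.sub_apply,
        LinearMap.smul_apply, smul_eq_mul, C.a_unit, ha, har, ha', har', L.P_null, hPP, hPP']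
      norm_num)
    (by
      rw [hZ]
      simp only [map_add, map_sub, map_smul, LinearMap.add_apply, LinearMap.sub_apply,
        LinearMap.smul_apply, smul_eq_mul, hb', hbr', C.a_b]
      norm_num)
    (by
      intro x hx
      by_contra hc
      push Not at hc
      obtain ⟨m, hm⟩ := L.int _ (L.aL (C.face x)) _ (L.host d h)
      rw [← hZ] at hm
      have hm0 : 0 < m := by
        have : (0 : ℝ) < m := by rw [← hm]; linarith
        exact_mod_cast this
      have hm1 : (1 : ℝ) ≤ m := by exact_mod_cast hm0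
      have h2 := L.corner_P' d (C.a (C.face x)) (C.a (C.face x))
      have hb : B (C.a (C.face x)) (C.b (C.vert d)) = 0 := by rw [← hx]; exact C.a_b x
      rw [C.a_unit, hb, h] at h2
      have h3 := hm
      rw [hZ] at h3
      simp only [map_add, map_sub, map_smul, smul_eq_mul] at h3
      have hp := L.a_P (C.face x) d
      have hq := L.a_P (C.face x) (C.rot d)
      set A := B (C.a (C.face x)) (C.a (C.face d))
      set p := B (C.a (C.face x)) (L.P d)
      set q := B (C.a (C.face x)) (L.P (C.rot d))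
      push_cast at h2
      have h4 : A ^ 2 - p * q = 1 := by linarith
      have h5 : 2 * A = p + q - 2 * m := by linarith
      have h6 : 4 * (m : ℝ) ^ 2 + 4 * m * (-p - q) + (p - q) ^ 2 = 4 := by
        have h7 : (2 * A) ^ 2 = (p + q - 2 * m) ^ 2 := by rw [h5]
        linear_combination 4 * h4 - h7
      have h8 : 0 ≤ (m : ℝ) * (-p - q) := mul_nonneg (by linarith) (by linarith)
      have h9 : (m : ℝ) * (-p - q) = 0 := by nlinarith [sq_nonneg (p - q)]
      have h10 : -p - q = 0 := by
        rcases mul_eq_zero.1 h9 with h11 | h11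
        · linarith
        · exact h11
      have hp0 : p = 0 := by linarith
      have hq0 : q = 0 := by linarith
      have hg1 : C.face x ≠ C.face d := by
        intro h11
        rw [h11] at hc
        linarith
      have hg2 : C.face x = C.face (C.rot⁻¹ d) := by
        rw [C.face_rot_inv]
        exact (L.a_P_eq _ _ hp0).resolve_left hg1
      have hg3 : C.face x = C.face (C.rot d) := by
        rcases L.a_P_eq _ _ hq0 with h11 | h11
        · exact h11
        · rw [C.face_rev_rot] at h11; exact absurd h11 hg1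
      have h12 := C.dart_unique (hg2.symm.trans hg3)
        ((C.vert_rot_inv d).trans (C.vert_rot d).symm)
      have h13 : C.rot (C.rot d) = d := by
        rw [← h12]; simp
      have h14 := C.three_le_per_rot d
      have := pow_inj_of_lt C.rot d (i := 2) (j := 0) (by omega) (by omega) (by
        simpa [pow_succ] using h13)
      omega)
    (L.P d) (L.PL d)
    (by
      rw [hZ]
      simp only [map_add, map_sub, map_smul, LinearMap.add_apply, LinearMap.sub_apply,
        LinearMap.smul_apply, smul_eq_mul, ha, L.P_null, hPP']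
      norm_num)
  refine ⟨e, ⟨he1.symm, ?_⟩, he2⟩
  rw [he2]; exact hZa

end Lat3

end ArithPoly
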