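import Mathlib

namespace ArithPoly

/-- cost of one side of a cusp -/
def sideCost (A : ℤ) (S Y : Finset ℤ) : ℤ :=
  S.card + (if 2 ∈ S then 1 else 0) + (if A - 2 ∈ S then 1 else 0) +
    (S.filter (fun s => s + 4 ∈ S)).card + Y.card

/-- geometric constraints at a cusp -/
structure CuspData (A B : ℤ) (S T Y Z : Finset ℤ) : Prop where
  hA : 1 ≤ A
  hB : 1 ≤ B
  rS : ∀ s ∈ S, 2 ≤ s ∧ s ≤ A - 2
  rT : ∀ s ∈ T, 2 ≤ s ∧ s ≤ A - 2
  rY : ∀ s ∈ Y, 2 ≤ s ∧ s ≤ A - 2
  rZ : ∀ s ∈ Z, 2 ≤ s ∧ s ≤ A - 2
  sS : ∀ s ∈ S, ∀ t ∈ S, s ≠ t → 4 ≤ |s - t|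
  sT : ∀ s ∈ T, ∀ t ∈ T, s ≠ t → 4 ≤ |s - t|
  sY : ∀ s ∈ Y, ∀ t ∈ Y, s ≠ t → 2 ≤ |s - t|
  sZ : ∀ s ∈ Z, ∀ t ∈ Z, s ≠ t → 2 ≤ |s - t|
  sSY : ∀ s ∈ S, ∀ t ∈ Y, 4 ≤ |s - t|
  sTZ : ∀ s ∈ T, ∀ t ∈ Z, 4 ≤ |s - t|
  /-- parity: same parity on each side, and opposite sides differ by `B` -/
  p1 : ∀ s ∈ S ∪ Y, ∀ t ∈ S ∪ Y, Even (s - t)
  p2 : ∀ s ∈ T ∪ Z, ∀ t ∈ T ∪ Z, Even (s - t)
  p3 : ∀ s ∈ S ∪ Y, ∀ t ∈ T ∪ Z, Even (s - t + B)
  b1 : B = 1 → S = ∅ ∧ T = ∅
  b2 : B = 2 → ∀ s ∈ S, ∀ t ∈ T, 2 ≤ |s - t|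
  b2Z : B = 2 → ∀ s ∈ S, ∀ t ∈ Z, 3 ≤ |s - t|
  b2Y : B = 2 → ∀ s ∈ T, ∀ t ∈ Y, 3 ≤ |s - t|

namespace T12

/-- columns used on one side -/
def used (S Y : Finset ℤ) : Finset ℤ :=
  S ∪ Y ∪ (S.filter (fun s => s + 4 ∈ S)).image (fun s => s + 2)

lemma mem_used {S Y : Finset ℤ} {c : ℤ} :
    c ∈ used S Y ↔ c ∈ S ∨ c ∈ Y ∨ (c - 2 ∈ S ∧ c + 2 ∈ S) := by
  unfold used
  simp only [Finset.mem_union, Finset.mem_image, Finset.mem_filter]
  constructor
  · rintro ((h | h) | ⟨s, ⟨h1, h2⟩, rfl⟩)
    · exact Or.inl h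
    · exact Or.inr (Or.inl h)
    · right; right
      rw [show s + 2 - 2 = s by ring, show s + 2 + 2 = s + 4 by ring]
      exact ⟨h1, h2⟩
  · rintro (h | h | ⟨h1, h2⟩)
    · exact Or.inl (Or.inl h)
    · exact Or.inl (Or.inr h)
    · right
      refine ⟨c - 2, ⟨h1, ?_⟩, by ring⟩
      rw [show c - 2 + 4 = c + 2 by ring]; exact h2

lemma card_used {S Y : Finset ℤ} (sS : ∀ s ∈ S, ∀ t ∈ S, s ≠ t → 4 ≤ |s - t|)
    (sSY : ∀ s ∈ S, ∀ t ∈ Y, 4 ≤ |s - t|) :
    (used S Y).card = S.card + (S.filter (fun s => s + 4 ∈ S)).card + Y.card := by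
  unfold used
  have h1 : Disjoint S Y := by
    rw [Finset.disjoint_left]
    intro a ha hb
    have := sSY a ha a hb
    simp at this
  have h2 : Disjoint (S ∪ Y) ((S.filter (fun s => s + 4 ∈ S)).image (fun s => s + 2)) := by
    rw [Finset.disjoint_left]
    intro a ha hb
    simp only [Finset.mem_image, Finset.mem_filter] at hb
    obtain ⟨s, ⟨hs, _⟩, rfl⟩ := hb
    rcases Finset.mem_union.1 ha with h | h
    · have := sS s hs (s + 2) h (by omega)
      rw [show s - (s + 2) = -2 by ring] at this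
      norm_num at this
    · have := sSY s hs (s + 2) h
      rw [show s - (s + 2) = -2 by ring] at this
      norm_num at this
  rw [Finset.card_union_of_disjoint h2, Finset.card_union_of_disjoint h1,
    Finset.card_image_of_injective _ (fun a b h => by simpa using h)]
  omega

lemma sideCost_eq {A : ℤ} {S Y : Finset ℤ} (sS : ∀ s ∈ S, ∀ t ∈ S, s ≠ t → 4 ≤ |s - t|)
    (sSY : ∀ s ∈ S, ∀ t ∈ Y, 4 ≤ |s - t|) :
    sideCost A S Y = (used S Y).card + (if 2 ∈ S then 1 else 0) +
      (if A - 2 ∈ S then 1 else 0) := by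
  rw [card_used sS sSY]
  unfold sideCost
  push_cast
  ring

lemma half {A : ℤ} {V : Finset ℤ} (hr : ∀ s ∈ V, 2 ≤ s ∧ s ≤ A - 2)
    (hp : ∀ s ∈ V, ∀ t ∈ V, Even (s - t)) : 2 * V.card ≤ (A - 2).toNat := by
  have h1 : Disjoint V (V.image (fun s => s + 1)) := by
    rw [Finset.disjoint_left]
    intro a ha hb
    simp only [Finset.mem_image] at hb
    obtain ⟨s, hs, rfl⟩ := hb
    have := hp _ ha _ hs
    rw [show s + 1 - s = 1 by ring] at this
    exact absurd this (by decide)
  have h2 : V ∪ V.image (fun s => s + 1) ⊆ Finset.Icc 2 (A - 1) := by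
    intro a ha
    rcases Finset.mem_union.1 ha with h | h
    · have := hr a h
      exact Finset.mem_Icc.2 ⟨this.1, by omega⟩
    · simp only [Finset.mem_image] at h
      obtain ⟨s, hs, rfl⟩ := h
      have := hr s hs
      exact Finset.mem_Icc.2 ⟨by omega, by omega⟩
  have h3 := Finset.card_le_card h2
  rw [Finset.card_union_of_disjoint h1,
    Finset.card_image_of_injective _ (fun a b h => by simpa using h), Int.card_Icc] at h3
  rw [show A - 1 + 1 - 2 = A - 2 by ring] at h3
  omega

lemma used_range {A : ℤ} {S Y : Finset ℤ} (rS : ∀ s ∈ S, 2 ≤ s ∧ s ≤ A - 2)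
    (rY : ∀ s ∈ Y, 2 ≤ s ∧ s ≤ A - 2) : ∀ s ∈ used S Y, 2 ≤ s ∧ s ≤ A - 2 := by
  intro s hs
  rcases mem_used.1 hs with h | h | ⟨h1, h2⟩
  · exact rS s h
  · exact rY s h
  · have := rS _ h1
    have := rS _ h2
    omega

/-- every used column has the parity of an element of `S ∪ Y` -/
lemma used_par {S Y : Finset ℤ} {c : ℤ} (hc : c ∈ used S Y) :
    ∃ s ∈ S ∪ Y, Even (c - s) := by
  rcases mem_used.1 hc with h | h | ⟨h1, _⟩
  · exact ⟨c, Finset.mem_union_left _ h, by simp⟩
  · exact ⟨c, Finset.mem_union_right _ h, by simp⟩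
  · exact ⟨c - 2, Finset.mem_union_left _ h1, by
      rw [show c - (c - 2) = 2 by ring]; decide⟩

end T12

open T12 in
theorem cusp_cost (A B : ℤ) (S T Y Z : Finset ℤ) (h : CuspData A B S T Y Z) :
    (B = 1 → (Y.card + Z.card : ℤ) ≤ A - 3 ∨ (Y = ∅ ∧ Z = ∅)) ∧
    (2 ≤ B → sideCost A S Y + sideCost A T Z ≤ A + 2 * B - 6 ∨
      (A ≤ 1 ∧ B = 2 ∧ S = ∅ ∧ T = ∅ ∧ Y = ∅ ∧ Z = ∅) ∨
      (A = 4 ∧ B = 2 ∧ Y = ∅ ∧ Z = ∅ ∧ S.card + T.card = 1)) := by
  obtain ⟨hA, hB, rS, rT, rY, rZ, sS, sT, sY, sZ, sSY, sTZ, p1, p2, p3, b1, b2, b2Z, b2Y⟩ := h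
  constructor
  · intro hB1
    by_cases hY : Y = ∅ ∧ Z = ∅
    · exact Or.inr hY
    left
    have hdis : Disjoint Y Z := by
      rw [Finset.disjoint_left]
      intro a ha hb
      have := p3 a (Finset.mem_union_right _ ha) a (Finset.mem_union_right _ hb)
      rw [hB1, sub_self, zero_add] at this
      exact absurd this (by decide)
    have hsub : Y ∪ Z ⊆ Finset.Icc 2 (A - 2) := by
      intro a ha
      rcases Finset.mem_union.1 ha with h | h
      · exact Finset.mem_Icc.2 (rY a h)
      · exact Finset.mem_Icc.2 (rZ a h)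
    have h3 := Finset.card_le_card hsub
    rw [Finset.card_union_of_disjoint hdis, Int.card_Icc] at h3
    have hA4 : 4 ≤ A := by
      by_contra hlt
      apply hY
      constructor
      · rw [Finset.eq_empty_iff_forall_notMem]
        intro a ha
        have := rY a ha
        omega
      · rw [Finset.eq_empty_iff_forall_notMem]
        intro a ha
        have := rZ a ha
        omega
    omega
  · intro hB2
    have e1 := sideCost_eq (A := A) sS sSY
    have e2 := sideCost_eq (A := A) sT sTZ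
    have r1 := used_range rS rY
    have r2 := used_range rT rZ
    have q1 : ∀ s ∈ used S Y, ∀ t ∈ used S Y, Even (s - t) := by
      intro s hs t ht
      obtain ⟨s', hs', h1⟩ := used_par hs
      obtain ⟨t', ht', h2⟩ := used_par ht
      have h3 := p1 s' hs' t' ht'
      have := (h1.add h3).sub h2
      rwa [show s - s' + (s' - t') - (t - t') = s - t by ring] at this
    have q2 : ∀ s ∈ used T Z, ∀ t ∈ used T Z, Even (s - t) := by
      intro s hs t ht
      obtain ⟨s', hs', h1⟩ := used_par hs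
      obtain ⟨t', ht', h2⟩ := used_par ht
      have h3 := p2 s' hs' t' ht'
      have := (h1.add h3).sub h2
      rwa [show s - s' + (s' - t') - (t - t') = s - t by ring] at this
    have q3 : ∀ s ∈ used S Y, ∀ t ∈ used T Z, Even (s - t + B) := by
      intro s hs t ht
      obtain ⟨s', hs', h1⟩ := used_par hs
      obtain ⟨t', ht', h2⟩ := used_par ht
      have h3 := p3 s' hs' t' ht'
      have := (h1.add h3).sub h2
      rwa [show s - s' + (s' - t' + B) - (t - t') = s - t + B by ring] at this
    have c1 : (if (2 : ℤ) ∈ S then (1 : ℤ) else 0) ≤ 1 := by split_ifs <;> norm_num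
    have c2 : (if A - 2 ∈ S then (1 : ℤ) else 0) ≤ 1 := by split_ifs <;> norm_num
    have c3 : (if (2 : ℤ) ∈ T then (1 : ℤ) else 0) ≤ 1 := by split_ifs <;> norm_num
    have c4 : (if A - 2 ∈ T then (1 : ℤ) else 0) ≤ 1 := by split_ifs <;> norm_num
    have hempty : A < 4 → S = ∅ ∧ T = ∅ ∧ Y = ∅ ∧ Z = ∅ := by
      intro hlt
      refine ⟨?_, ?_, ?_, ?_⟩ <;>
      · rw [Finset.eq_empty_iff_forall_notMem]
        intro a ha
        first
          | (have := rS a ha; omega)
          | (have := rT a ha; omega)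
          | (have := rY a ha; omega)
          | (have := rZ a ha; omega)
    by_cases hA4 : A < 4
    · obtain ⟨h1, h2, h3, h4⟩ := hempty hA4
      subst h1 h2 h3 h4
      by_cases hx : A ≤ 1 ∧ B = 2
      · right; left
        exact ⟨hx.1, hx.2, rfl, rfl, rfl, rfl⟩
      · left
        have : sideCost A ∅ ∅ = 0 := by simp [sideCost]
        rw [this]
        omega
    by_cases hB4 : 4 ≤ B
    · left
      have h1 := half r1 q1
      have h2 := half r2 q2
      rw [e1, e2]
      omega
    by_cases hB3 : B = 3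
    · left
      have hdis : Disjoint (used S Y) (used T Z) := by
        rw [Finset.disjoint_left]
        intro a ha hb
        have := q3 a ha a hb
        rw [hB3, sub_self, zero_add] at this
        exact absurd this (by decide)
      have hsub : used S Y ∪ used T Z ⊆ Finset.Icc 2 (A - 2) := by
        intro a ha
        rcases Finset.mem_union.1 ha with h | h
        · exact Finset.mem_Icc.2 (r1 a h)
        · exact Finset.mem_Icc.2 (r2 a h)
      have h3 := Finset.card_le_card hsub
      rw [Finset.card_union_of_disjoint hdis, Int.card_Icc] at h3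
      have d1 : (if (2 : ℤ) ∈ S then (1 : ℤ) else 0) + (if (2 : ℤ) ∈ T then (1 : ℤ) else 0) ≤ 1 := by
        by_cases u : (2 : ℤ) ∈ S
        · by_cases v : (2 : ℤ) ∈ T
          · exact absurd (mem_used.2 (Or.inl v)) (Finset.disjoint_left.1 hdis (mem_used.2 (Or.inl u)))
          · simp [u, v]
        · simp only [u, if_false, zero_add]; exact c3
      have d2 : (if A - 2 ∈ S then (1 : ℤ) else 0) + (if A - 2 ∈ T then (1 : ℤ) else 0) ≤ 1 := by
        by_cases u : A - 2 ∈ S
        · by_cases v : A - 2 ∈ T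
          · exact absurd (mem_used.2 (Or.inl v)) (Finset.disjoint_left.1 hdis (mem_used.2 (Or.inl u)))
          · simp [u, v]
        · simp only [u, if_false, zero_add]; exact c4
      rw [e1, e2]
      omega
    have hB2' : B = 2 := by omega
    by_cases hA44 : A = 4
    · -- everything inside {2}
      have key : ∀ V : Finset ℤ, (∀ s ∈ V, 2 ≤ s ∧ s ≤ A - 2) → V = ∅ ∨ V = {2} := by
        intro V hV
        apply Finset.subset_singleton_iff.1
        intro a ha
        have := hV a ha
        rw [Finset.mem_singleton]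
        omega
      subst hA44
      subst hB2'
      rcases key S rS with h1 | h1 <;> rcases key T rT with h2 | h2 <;>
      rcases key Y rY with h3 | h3 <;> rcases key Z rZ with h4 | h4 <;>
      subst h1 h2 h3 h4 <;>
      simp [sideCost] at b2 b2Z b2Y sSY sTZ ⊢
    · left
      -- general case
      have ne2 : (2 : ℤ) ≠ A - 2 := by omega
      have n1 : ∀ c ∈ T, (c = 2 ∨ c = A - 2) → c ∉ used S Y := by
        intro c hc hc2 hu
        rcases mem_used.1 hu with h | h | ⟨h1, h2⟩
        · have := b2 hB2' c h c hc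
          simp at this
        · have := b2Y hB2' c hc c h
          simp at this
        · have := rS _ h1
          have := rS _ h2
          omega
      have n2 : ∀ c ∈ S, (c = 2 ∨ c = A - 2) → c ∉ used T Z := by
        intro c hc hc2 hu
        rcases mem_used.1 hu with h | h | ⟨h1, h2⟩
        · have := b2 hB2' c hc c h
          simp at this
        · have := b2Z hB2' c hc c h
          simp at this
        · have := rT _ h1
          have := rT _ h2
          omega
      -- enlarged sets
      have key : ∀ (S' T' Y' Z' : Finset ℤ), (∀ s ∈ used S' Y', 2 ≤ s ∧ s ≤ A - 2) →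
          (∀ s ∈ T', 2 ≤ s ∧ s ≤ A - 2) →
          (∀ s ∈ used S' Y', ∀ t ∈ used S' Y', Even (s - t)) →
          (∀ s ∈ used S' Y', ∀ t ∈ T', Even (s - t)) →
          (∀ s ∈ T', ∀ t ∈ T', Even (s - t)) →
          (∀ c ∈ T', (c = 2 ∨ c = A - 2) → c ∉ used S' Y') →
          2 * ((used S' Y').card + (if (2 : ℤ) ∈ T' then (1 : ℤ) else 0) +
            (if A - 2 ∈ T' then (1 : ℤ) else 0)) ≤ A - 2 := by
        intro S' T' Y' Z' k1 k2 k3 k4 k5 k6
        set V : Finset ℤ := used S' Y' ∪ (T'.filter (fun c => c = 2 ∨ c = A - 2)) with hV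
        have hr : ∀ s ∈ V, 2 ≤ s ∧ s ≤ A - 2 := by
          intro s hs
          rcases Finset.mem_union.1 hs with h | h
          · exact k1 s h
          · exact k2 s (Finset.mem_filter.1 h).1
        have hp : ∀ s ∈ V, ∀ t ∈ V, Even (s - t) := by
          intro s hs t ht
          rcases Finset.mem_union.1 hs with h | h <;> rcases Finset.mem_union.1 ht with h' | h'
          · exact k3 s h t h'
          · exact k4 s h t (Finset.mem_filter.1 h').1
          · have := k4 t h' s (Finset.mem_filter.1 h).1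
            rw [show s - t = -(t - s) by ring]
            exact this.neg
          · exact k5 s (Finset.mem_filter.1 h).1 t (Finset.mem_filter.1 h').1
        have hh := half hr hp
        have hd : Disjoint (used S' Y') (T'.filter (fun c => c = 2 ∨ c = A - 2)) := by
          rw [Finset.disjoint_right]
          intro a ha
          exact k6 a (Finset.mem_filter.1 ha).1 (Finset.mem_filter.1 ha).2
        have hcard : (T'.filter (fun c => c = 2 ∨ c = A - 2)).card =
            (if (2 : ℤ) ∈ T' then 1 else 0) + (if A - 2 ∈ T' then 1 else 0) := by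
          have e : T'.filter (fun c => c = 2 ∨ c = A - 2) =
              (if (2 : ℤ) ∈ T' then {2} else ∅) ∪ (if A - 2 ∈ T' then {A - 2} else ∅) := by
            ext c
            simp only [Finset.mem_filter, Finset.mem_union]
            constructor
            · rintro ⟨h1, h2 | h2⟩
              · left; subst h2; simp [h1]
              · right; subst h2; simp [h1]
            · rintro (h | h)
              · split_ifs at h with h5
                · rw [Finset.mem_singleton] at h; subst h; exact ⟨h5, Or.inl rfl⟩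
                · simp at h
              · split_ifs at h with h5
                · rw [Finset.mem_singleton] at h; subst h; exact ⟨h5, Or.inr rfl⟩
                · simp at h
          rw [e, Finset.card_union_of_disjoint]
          · congr 1 <;> split_ifs <;> simp
          · split_ifs <;> simp [ne2, ne2.symm]
        rw [hV, Finset.card_union_of_disjoint hd, hcard] at hh
        have h9 : ((A - 2).toNat : ℤ) = A - 2 := by omega
        have hh' : (2 * ((used S' Y').card + ((if (2 : ℤ) ∈ T' then 1 else 0) +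
          (if A - 2 ∈ T' then 1 else 0)) : ℕ) : ℤ) ≤ ((A - 2).toNat : ℤ) := by exact_mod_cast hh
        rw [h9] at hh'
        push_cast at hh'
        linarith
      have evB : ∀ x : ℤ, Even (x + B) → Even x := by
        intro x hx
        rw [hB2'] at hx
        have := hx.sub (show Even (2 : ℤ) by decide)
        rwa [add_sub_cancel_right] at this
      have g1 := key S T Y Z r1 rT q1
        (fun s hs t ht => evB _ (q3 s hs t (mem_used.2 (Or.inl ht))))
        (fun s hs t ht => p2 s (Finset.mem_union_left _ hs) t (Finset.mem_union_left _ ht)) n1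
      have g2 := key T S Z Y r2 rS q2
        (fun s hs t ht => by
          have := evB _ (q3 t (mem_used.2 (Or.inl ht)) s hs)
          rw [show s - t = -(t - s) by ring]
          exact this.neg)
        (fun s hs t ht => p1 s (Finset.mem_union_left _ hs) t (Finset.mem_union_left _ ht)) n2
      rw [e1, e2]
      omega

end ArithPoly
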