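import Pool.Agent.LibArithPoly.Lat3

/-!
# Parity and units (task T13a)
-/

open Matrix

namespace ArithPoly

variable {V F D : Type} [Fintype V] [Fintype F] [Fintype D]
variable {W : Type} [AddCommGroup W] [Module ℝ W] {B : LinearMap.BilinForm ℝ W}

namespace Lat3

variable {C : Config B V F D} (L : Lat3 C)

/-! ### general facts -/

theorem P_ne (e : D) : L.P e ≠ 0 := by
  intro h
  have h2 := L.P_neg e (C.rot e) (C.rot_ne e) (C.rot_ne_rev e)
  rw [h] at h2
  simp at h2

theorem smul_P_inj (e : D) {x y : ℝ} (h : x • L.P e = y • L.P e) : x = y := by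
  have h2 : (x - y) • L.P e = 0 := by rw [sub_smul, h, sub_self]
  rcases smul_eq_zero.1 h2 with h3 | h3
  · linarith
  · exact absurd h3 (L.P_ne e)

theorem Aw_rev (e : D) : L.Aw (C.rev e) = L.Aw e := by
  have h1 := L.a_sum e
  have h2 := L.a_sum (C.rev e)
  rw [C.rev_rev, L.P_rev, add_comm, h1] at h2
  have := L.smul_P_inj e h2
  exact_mod_cast this.symm

theorem Bw_rev (e : D) : L.Bw (C.rev e) = L.Bw e := by
  have h1 := L.b_sum e
  have h2 := L.b_sum (C.rev e)
  rw [C.rev_rev, L.P_rev, add_comm, h1] at h2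
  have h3 := L.smul_P_inj e h2
  have h4 : Real.sqrt 3 ≠ 0 := by positivity
  have h5 := mul_left_cancel₀ h4 h3
  exact_mod_cast h5.symm

theorem a_rev_eq (e : D) :
    C.a (C.face (C.rev e)) = (L.Aw e : ℝ) • L.P e - C.a (C.face e) := by
  rw [← L.a_sum e]; abel

theorem b_rev_eq (e : D) :
    C.b (C.vert (C.rev e)) = (Real.sqrt 3 * L.Bw e : ℝ) • L.P e - C.b (C.vert e) := by
  rw [← L.b_sum e]; abel

/-- position measured from the other side -/
theorem pos_rev (e : D) (x : W) (hx : 2 * B x (L.P e) = -1) :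
    L.pos (C.rev e) x = L.Aw e - L.pos e x := by
  unfold pos
  rw [L.a_rev_eq e]
  simp only [map_sub, map_smul, smul_eq_mul]
  linear_combination (-(L.Aw e : ℝ)) * hx

/-- pairing with the opposite vertex wall -/
theorem b_rev_pair (e : D) (x : W) (hx : 2 * B x (L.P e) = -1) :
    B x (C.b (C.vert (C.rev e))) = -(Real.sqrt 3 * L.Bw e) / 2 - B x (C.b (C.vert e)) := by
  rw [L.b_rev_eq e]
  simp only [map_sub, map_smul, smul_eq_mul]
  linear_combination (Real.sqrt 3 * L.Bw e / 2) * hx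

theorem b_pair (e : D) (x : W) (hx : 2 * B x (L.P e) = -1) :
    B x (C.b (C.vert e)) = -(Real.sqrt 3 * L.Bw e) / 2 - B x (C.b (C.vert (C.rev e))) := by
  rw [L.b_rev_pair e x hx]; ring

/-- the key identity at a cusp -/
theorem key (e : D) (t : W) (ht : B t (L.P e) = 0) :
    B t t = B t (C.a (C.face e)) ^ 2 + B t (C.b (C.vert e)) ^ 2 := by
  obtain ⟨c, hc, h⟩ := L.P_eq e
  have h2 : B t (C.p e) = 0 := by
    rw [h] at ht
    simp only [map_smul, smul_eq_mul] at ht
    rcases mul_eq_zero.1 ht with h3 | h3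
    · exact absurd h3 hc.ne'
    · exact h3
  have h3 := C.corner_norm e t t
  rw [h2] at h3
  rw [h3]; ring

theorem P_P_nonpos (d e : D) : B (L.P d) (L.P e) ≤ 0 := by
  obtain ⟨c, hc, h⟩ := L.P_eq d
  obtain ⟨c', hc', h'⟩ := L.P_eq e
  rw [h, h']
  simp only [map_smul, LinearMap.smul_apply, smul_eq_mul]
  have := C.p_p_nonpos d e
  have h3 : 0 < c * c' := by positivity
  nlinarith

/-! ### parity -/

/-- points seen from the cusp `P e`, on the same side -/
theorem parity_same (e : D) (x y : W) (hx : x ∈ L.L) (hy : y ∈ L.L) (_hx0 : B x x = 0)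
    (_hy0 : B y y = 0) (hxe : 2 * B x (L.P e) = -1) (hye : 2 * B y (L.P e) = -1)
    (hxb : B x (C.b (C.vert e)) = 0) (hyb : B y (C.b (C.vert e)) = 0) :
    ∃ n : ℤ, L.pos e x - L.pos e y = 2 * n := by
  have ht : x - y ∈ L.L := L.L.sub_mem hx hy
  obtain ⟨N, hN⟩ := L.even _ ht
  obtain ⟨k, hk⟩ := L.int _ ht _ (L.aL (C.face e))
  have hP : B (x - y) (L.P e) = 0 := by
    rw [map_sub, LinearMap.sub_apply]; linarith
  have hb : B (x - y) (C.b (C.vert e)) = 0 := by
    rw [map_sub, LinearMap.sub_apply, hxb, hyb, sub_zero]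
  have h1 := L.key e _ hP
  rw [hN, hb] at h1
  have h2 : (k : ℝ) * k = 4 * N := by rw [← hk]; rw [h1]; ring
  have h3 : k * k = 4 * N := by exact_mod_cast h2
  have h4 : Even k := by
    have : Even (k * k) := by rw [h3]; exact ⟨2 * N, by ring⟩
    simpa [Int.even_mul] using this
  obtain ⟨j, hj⟩ := h4
  refine ⟨-j, ?_⟩
  have h5 : L.pos e x - L.pos e y = - (2 * B (x - y) (C.a (C.face e))) := by
    unfold pos; rw [map_sub, LinearMap.sub_apply]; ring
  rw [h5, hk, hj]; push_cast; ring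

/-- points seen from the cusp `P e`, on opposite sides -/
theorem parity_opp (e : D) (x y : W) (hx : x ∈ L.L) (hy : y ∈ L.L) (_hx0 : B x x = 0)
    (_hy0 : B y y = 0) (hxe : 2 * B x (L.P e) = -1) (hye : 2 * B y (L.P e) = -1)
    (hxb : B x (C.b (C.vert e)) = 0) (hyb : B y (C.b (C.vert (C.rev e))) = 0) :
    ∃ n : ℤ, L.pos e x - L.pos e y + L.Bw e = 2 * n := by
  have ht : x - y ∈ L.L := L.L.sub_mem hx hy
  obtain ⟨N, hN⟩ := L.even _ ht
  obtain ⟨k, hk⟩ := L.int _ ht _ (L.aL (C.face e))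
  have hP : B (x - y) (L.P e) = 0 := by
    rw [map_sub, LinearMap.sub_apply]; linarith
  have hb : B (x - y) (C.b (C.vert e)) = Real.sqrt 3 * L.Bw e / 2 := by
    rw [map_sub, LinearMap.sub_apply, hxb, L.b_pair e y hye, hyb]; ring
  have h1 := L.key e _ hP
  rw [hN, hb] at h1
  have h33 : Real.sqrt 3 ^ 2 = 3 := Real.sq_sqrt (by norm_num)
  have h2 : (k : ℝ) * k + 3 * (L.Bw e * L.Bw e) = 4 * N := by
    rw [← hk, h1]
    have : (Real.sqrt 3 * L.Bw e / 2 : ℝ) ^ 2 = 3 * (L.Bw e * L.Bw e) / 4 := by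
      rw [div_pow, mul_pow, h33]; ring
    rw [this]; ring
  have h3 : k * k + 3 * (L.Bw e * L.Bw e) = 4 * N := by exact_mod_cast h2
  have h4 : Even (k + L.Bw e) := by
    have h5 : Even ((k + L.Bw e) * (k + L.Bw e)) := by
      refine ⟨2 * N - L.Bw e * L.Bw e + k * L.Bw e, ?_⟩
      linear_combination h3
    simpa [Int.even_mul] using h5
  obtain ⟨j, hj⟩ := h4
  refine ⟨L.Bw e - j, ?_⟩
  have h5 : L.pos e x - L.pos e y = - (2 * B (x - y) (C.a (C.face e))) := by
    unfold pos; rw [map_sub, LinearMap.sub_apply]; ring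
  have h6 : (k : ℝ) + L.Bw e = j + j := by exact_mod_cast hj
  rw [h5, hk]; push_cast; linarith

/-! ### units -/

theorem unit_face_ne (e d : D) (h : L.Unit e d) : C.face d ≠ C.face e := by
  intro h1
  have h2 := h.2
  rw [h1, L.a_P0] at h2
  norm_num at h2

theorem unit_face_ne' (e d : D) (h : L.Unit e d) : C.face d ≠ C.face (C.rev e) := by
  intro h1
  have h2 := h.2
  rw [h1, L.a_P0'] at h2
  norm_num at h2

theorem unit_b (e d : D) (h : L.Unit e d) : B (C.a (C.face d)) (C.b (C.vert e)) = 0 := by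
  rw [← h.1]; exact C.a_b d

theorem unit_ends (e d : D) (h : L.Unit e d) :
    2 * B (L.P d) (L.P e) = -1 ∧ 2 * B (L.P (C.rot d)) (L.P e) = -1 ∧ L.δ d = 4 := by
  obtain ⟨c, hc, h1⟩ := L.P_eq d
  obtain ⟨c', hc', h1'⟩ := L.P_eq (C.rot d)
  have h2 := C.corner_norm d (L.P e) (L.P e)
  have h3 : B (L.P e) (C.a (C.face d)) = -1 / 2 := by
    rw [C.symm]; have := h.2; linarith
  have h4 : B (L.P e) (C.b (C.vert d)) = 0 := by
    rw [C.symm, h.1]; exact L.b_P0 e
  rw [L.P_null, h3, h4] at h2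
  obtain ⟨m, hm⟩ := L.int _ (L.PL d) _ (L.PL e)
  obtain ⟨n, hn⟩ := L.int _ (L.PL (C.rot d)) _ (L.PL e)
  have hadj := L.P_adj d
  have hpp := C.pp_rot_neg d
  have e1 : B (L.P d) (L.P e) = c * B (L.P e) (C.p d) := by
    rw [C.symm, h1, map_smul, smul_eq_mul]
  have e2 : B (L.P (C.rot d)) (L.P e) = c' * B (L.P e) (C.p (C.rot d)) := by
    rw [C.symm, h1', map_smul, smul_eq_mul]
  have e3 : B (L.P d) (L.P (C.rot d)) = c * c' * B (C.p d) (C.p (C.rot d)) := by
    rw [h1, h1']
    simp only [map_smul, LinearMap.smul_apply, smul_eq_mul]; ring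
  have h5 : B (C.p d) (C.p (C.rot d)) + 8 * (B (L.P e) (C.p d) * B (L.P e) (C.p (C.rot d))) = 0 := by
    have h7 : (B (L.P e) (C.p (C.rot d)) * B (L.P e) (C.p d) +
        B (L.P e) (C.p d) * B (L.P e) (C.p (C.rot d))) / B (C.p d) (C.p (C.rot d)) = -1 / 4 := by
      linarith
    rw [div_eq_iff hpp.ne] at h7
    linarith
  -- multiply by c c'
  have h6 : B (L.P d) (L.P (C.rot d)) + 8 * (B (L.P d) (L.P e) * B (L.P (C.rot d)) (L.P e)) = 0 := by
    rw [e1, e2, e3]
    linear_combination (c * c') * h5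
  have h7 : 4 * (m * n : ℤ) = L.δ d := by
    have : (4 : ℝ) * (m * n) = L.δ d := by
      rw [← hm, ← hn]; linarith
    exact_mod_cast this
  have hm0 : m ≤ 0 := by
    have := L.P_P_nonpos d e
    have : (m : ℝ) ≤ 0 := by rw [← hm]; linarith
    exact_mod_cast this
  have hn0 : n ≤ 0 := by
    have := L.P_P_nonpos (C.rot d) e
    have : (n : ℝ) ≤ 0 := by rw [← hn]; linarith
    exact_mod_cast this
  rcases L.δ_eq d with hδ | hδ
  · rw [hδ] at h7; omega
  · rw [hδ] at h7
    have h8 : m * n = 1 := by linarith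
    rcases Int.eq_one_or_neg_one_of_mul_eq_one' h8 with ⟨ha, hb⟩ | ⟨ha, hb⟩
    · omega
    · rw [ha] at hm
      rw [hb] at hn
      refine ⟨?_, ?_, hδ⟩
      · rw [hm]; norm_num
      · rw [hn]; norm_num

theorem unit_Aw (e d : D) (h : L.Unit e d) :
    (L.Aw d : ℝ) = 1 - 2 * B (C.a (C.face (C.rev d))) (L.P e) ∧
    (L.Aw (C.rot d) : ℝ) = 1 - 2 * B (C.a (C.face (C.rot d))) (L.P e) := by
  obtain ⟨h1, h2, -⟩ := L.unit_ends e d h
  have h3 := h.2
  constructor
  · have h4 := congrArg (fun x => B x (L.P e)) (L.a_sum d)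
    simp only [map_add, LinearMap.add_apply, map_smul, LinearMap.smul_apply, smul_eq_mul] at h4
    linear_combination 2 * h4 - h3 + (L.Aw d : ℝ) * h1
  · have h4 := congrArg (fun x => B x (L.P e)) (L.a_sum (C.rot d))
    rw [C.face_rev_rot] at h4
    simp only [map_add, LinearMap.add_apply, map_smul, LinearMap.smul_apply, smul_eq_mul] at h4
    linear_combination 2 * h4 - h3 + (L.Aw (C.rot d) : ℝ) * h2

/-- the unit lattice point below a unit -/
theorem unit_point (e d : D) (h : L.Unit e d) :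
    C.a (C.face d) + L.P e ∈ L.L ∧ B (C.a (C.face d) + L.P e) (C.a (C.face d) + L.P e) = 0 ∧
    2 * B (C.a (C.face d) + L.P e) (L.P e) = -1 ∧
    B (C.a (C.face d) + L.P e) (C.b (C.vert e)) = 0 ∧
    L.pos e (C.a (C.face d) + L.P e) = L.pos e (C.a (C.face d)) := by
  have h2 := h.2
  have h3 := L.P_null e
  have h4 := C.a_unit (C.face d)
  have h5 := C.symm (L.P e) (C.a (C.face d))
  refine ⟨L.L.add_mem (L.aL _) (L.PL e), ?_, ?_, ?_, ?_⟩
  · simp only [map_add, LinearMap.add_apply]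
    linarith
  · simp only [map_add, LinearMap.add_apply]
    linarith
  · simp only [map_add, LinearMap.add_apply]
    rw [L.unit_b e d h, C.symm (L.P e), L.b_P0 e, add_zero]
  · unfold pos
    simp only [map_add, LinearMap.add_apply]
    rw [C.symm (L.P e), L.a_P0 e]; ring

theorem unit_range (e d : D) (h : L.Unit e d) :
    2 ≤ L.pos e (C.a (C.face d)) ∧ L.pos e (C.a (C.face d)) ≤ L.Aw e - 2 := by
  have h1 := ff_le C _ _ (L.unit_face_ne e d h)
  have h2 := ff_le C _ _ (L.unit_face_ne' e d h)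
  have h3 := L.pos_rev e _ h.2
  have h4 : 2 ≤ L.pos (C.rev e) (C.a (C.face d)) := by
    unfold pos; linarith
  refine ⟨?_, by linarith⟩
  unfold pos; linarith

/-- a unit of the other side is seen from the same cusp -/
theorem unit_rev_P (e d : D) (h : L.Unit (C.rev e) d) : 2 * B (C.a (C.face d)) (L.P e) = -1 := by
  have := h.2
  rwa [L.P_rev] at this

/-- units of the other side, measured from the face of `e` -/
theorem unit_range' (e d : D) (h : L.Unit (C.rev e) d) :
    2 ≤ L.pos e (C.a (C.face d)) ∧ L.pos e (C.a (C.face d)) ≤ L.Aw e - 2 := by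
  have h1 := L.unit_range _ _ h
  have h3 := L.pos_rev e _ (L.unit_rev_P e d h)
  rw [L.Aw_rev] at h1
  constructor <;> linarith [h1.1, h1.2]

theorem abs_ge_of_sq {x : ℝ} {c : ℝ} (hc : 0 ≤ c) (h : c ^ 2 ≤ x ^ 2) : c ≤ |x| := by
  have h1 := sq_le_sq.1 h
  rwa [abs_of_nonneg hc] at h1

theorem unit_diff (e d d' : D) (h : L.Unit e d) (h' : L.Unit e d') :
    (L.pos e (C.a (C.face d)) - L.pos e (C.a (C.face d'))) ^ 2 =
      8 - 8 * B (C.a (C.face d)) (C.a (C.face d')) := by
  have hP : B (C.a (C.face d) - C.a (C.face d')) (L.P e) = 0 := by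
    rw [map_sub, LinearMap.sub_apply]; linarith [h.2, h'.2]
  have h1 := L.key e _ hP
  have hb : B (C.a (C.face d) - C.a (C.face d')) (C.b (C.vert e)) = 0 := by
    rw [map_sub, LinearMap.sub_apply, L.unit_b e d h, L.unit_b e d' h', sub_zero]
  rw [hb] at h1
  have h2 : L.pos e (C.a (C.face d)) - L.pos e (C.a (C.face d')) =
      -2 * B (C.a (C.face d) - C.a (C.face d')) (C.a (C.face e)) := by
    unfold pos
    rw [map_sub, LinearMap.sub_apply]; ring
  rw [h2]
  have h3 : B (C.a (C.face d) - C.a (C.face d')) (C.a (C.face d) - C.a (C.face d')) =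
      2 - 2 * B (C.a (C.face d)) (C.a (C.face d')) := by
    simp only [map_sub, LinearMap.sub_apply, C.a_unit]
    rw [C.symm (C.a (C.face d')) (C.a (C.face d))]; ring
  rw [h3] at h1
  linear_combination (-4) * h1

theorem unit_sep (e d d' : D) (h : L.Unit e d) (h' : L.Unit e d') (hne : d ≠ d') :
    4 ≤ |L.pos e (C.a (C.face d)) - L.pos e (C.a (C.face d'))| := by
  have h1 := L.unit_diff e d d' h h'
  have hF : C.face d ≠ C.face d' := fun hF => hne (C.dart_unique hF (h.1.trans h'.1.symm))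
  have h2 := ff_le C _ _ hF
  exact abs_ge_of_sq (by norm_num) (by nlinarith)

theorem unit_sep' (e d d' : D) (h : L.Unit (C.rev e) d) (h' : L.Unit (C.rev e) d')
    (hne : d ≠ d') : 4 ≤ |L.pos e (C.a (C.face d)) - L.pos e (C.a (C.face d'))| := by
  have h1 := L.unit_sep _ _ _ h h' hne
  rw [L.pos_rev e _ (L.unit_rev_P e d h), L.pos_rev e _ (L.unit_rev_P e d' h')] at h1
  rw [abs_sub_comm]
  have e1 : (L.Aw e : ℝ) - L.pos e (C.a (C.face d)) - (L.Aw e - L.pos e (C.a (C.face d'))) =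
      L.pos e (C.a (C.face d')) - L.pos e (C.a (C.face d)) := by ring
  rwa [e1] at h1

theorem aa_rot (d : D) : B (C.a (C.face d)) (C.a (C.face (C.rot d))) = -1 := by
  have h := C.aa_adj (C.rot d)
  rw [C.face_rev_rot, C.symm] at h
  exact h

theorem unit_adj (e d : D) (h : L.Unit e d) (h' : L.Unit e (C.rot d)) :
    |L.pos e (C.a (C.face d)) - L.pos e (C.a (C.face (C.rot d)))| = 4 := by
  have h1 := L.unit_diff e d _ h h'
  rw [aa_rot] at h1
  have h2 : |L.pos e (C.a (C.face d)) - L.pos e (C.a (C.face (C.rot d)))| ^ 2 = 16 := by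
    rw [sq_abs, h1]; norm_num
  have h3 := abs_nonneg (L.pos e (C.a (C.face d)) - L.pos e (C.a (C.face (C.rot d))))
  nlinarith

theorem unit_opp (e d d' : D) (h : L.Unit e d) (h' : L.Unit (C.rev e) d') (hB : L.Bw e = 2) :
    2 ≤ |L.pos e (C.a (C.face d)) - L.pos e (C.a (C.face d'))| := by
  have hd' := L.unit_rev_P e d' h'
  have hP : B (C.a (C.face d) - C.a (C.face d')) (L.P e) = 0 := by
    rw [map_sub, LinearMap.sub_apply]; linarith [h.2]
  have h1 := L.key e _ hP
  have h33 : Real.sqrt 3 ^ 2 = 3 := Real.sq_sqrt (by norm_num)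
  have hb : B (C.a (C.face d) - C.a (C.face d')) (C.b (C.vert e)) = Real.sqrt 3 := by
    rw [map_sub, LinearMap.sub_apply, L.unit_b e d h, L.b_pair e _ hd', L.unit_b _ _ h', hB]
    push_cast; ring
  rw [hb, h33] at h1
  have h2 : L.pos e (C.a (C.face d)) - L.pos e (C.a (C.face d')) =
      -2 * B (C.a (C.face d) - C.a (C.face d')) (C.a (C.face e)) := by
    unfold pos
    rw [map_sub, LinearMap.sub_apply]; ring
  by_cases hF : C.face d = C.face d'
  · rw [hF, sub_self] at h1
    simp only [map_zero, LinearMap.zero_apply] at h1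
    nlinarith [sq_nonneg ((0 : ℝ)), h1]
  · have h4 := ff_le C _ _ hF
    have h3 : B (C.a (C.face d) - C.a (C.face d')) (C.a (C.face d) - C.a (C.face d')) =
        2 - 2 * B (C.a (C.face d)) (C.a (C.face d')) := by
      simp only [map_sub, LinearMap.sub_apply, C.a_unit]
      rw [C.symm (C.a (C.face d')) (C.a (C.face d))]; ring
    rw [h3] at h1
    rw [h2]
    exact abs_ge_of_sq (by norm_num) (by nlinarith)

theorem no_unit (e d : D) (h : L.Unit e d) : L.Bw e ≠ 1 := by
  intro hB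
  have h1 := L.b_rev_pair e _ h.2
  rw [L.unit_b e d h, hB] at h1
  push_cast at h1
  have h3 : Real.sqrt 3 < 2 := by
    rw [Real.sqrt_lt' (by norm_num)]; norm_num
  have h4 : 0 < Real.sqrt 3 := by positivity
  by_cases hi : ∃ x, C.face x = C.face d ∧ C.vert x = C.vert (C.rev e)
  · obtain ⟨x, hx1, hx2⟩ := hi
    have h5 := C.a_b x
    rw [hx1, hx2] at h5
    rw [h5] at h1
    linarith
  · have h5 := fv_le C (C.face d) (C.vert (C.rev e)) (fun x hx1 hx2 => hi ⟨x, hx1, hx2⟩)
    linarith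

/-! ### ends of runs of units -/

/-- left end at the corner of the rectangle -/
theorem unit_left (e d : D) (h : L.Unit e d) (hA : L.Aw d = 1) :
    d = C.rot e ∧ L.pos e (C.a (C.face d)) = 2 := by
  have h1 := (L.unit_Aw e d h).1
  rw [hA] at h1
  have h2 : B (C.a (C.face (C.rev d))) (L.P e) = 0 := by push_cast at h1; linarith
  have h3 : d = C.rot e := by
    rcases L.a_P_eq _ _ h2 with h4 | h4
    · rw [← C.face_rot_inv] at h4
      have h5 := C.dart_unique h4 ((C.vert_rot_inv d).trans h.1)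
      rw [← h5]; simp
    · rw [← C.face_rot_inv, ← C.face_rot_inv] at h4
      have h5 := C.dart_unique h4
        (((C.vert_rot_inv d).trans h.1).trans (C.vert_rot_inv e).symm)
      have h6 : d = e := C.rot⁻¹.injective h5
      exact absurd (by rw [h6]) (L.unit_face_ne e d h)
  refine ⟨h3, ?_⟩
  unfold pos
  rw [h3, C.symm, aa_rot]; norm_num

theorem unit_right (e d : D) (h : L.Unit e d) (hA : L.Aw (C.rot d) = 1) :
    C.rot d = C.rot⁻¹ e ∧ L.pos e (C.a (C.face d)) = L.Aw e - 2 := by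
  have h1 := (L.unit_Aw e d h).2
  rw [hA] at h1
  have h2 : B (C.a (C.face (C.rot d))) (L.P e) = 0 := by push_cast at h1; linarith
  have h3 : C.rot d = C.rot⁻¹ e := by
    rcases L.a_P_eq _ _ h2 with h4 | h4
    · have h5 := C.dart_unique h4 ((C.vert_rot d).trans h.1)
      exfalso
      apply L.unit_face_ne' e d h
      rw [← C.face_rot_inv, ← h5]; simp
    · rw [← C.face_rot_inv] at h4
      exact C.dart_unique h4 (((C.vert_rot d).trans h.1).trans (C.vert_rot_inv e).symm)
  refine ⟨h3, ?_⟩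
  have h4 := L.pos_rev e _ h.2
  have h5 : L.pos (C.rev e) (C.a (C.face d)) = 2 := by
    unfold pos
    rw [← C.face_rot_inv, ← h3, aa_rot]; norm_num
  linarith

theorem unit_left2 (e d : D) (h : L.Unit e d) (hA : L.Aw d = 2) : L.Unit e (C.rot⁻¹ d) := by
  have h1 := (L.unit_Aw e d h).1
  rw [hA] at h1
  refine ⟨(C.vert_rot_inv d).trans h.1, ?_⟩
  rw [C.face_rot_inv]
  push_cast at h1; linarith

theorem unit_right2 (e d : D) (h : L.Unit e d) (hA : L.Aw (C.rot d) = 2) :
    L.Unit e (C.rot d) := by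
  have h1 := (L.unit_Aw e d h).2
  rw [hA] at h1
  refine ⟨(C.vert_rot d).trans h.1, ?_⟩
  push_cast at h1; linarith

end Lat3

end ArithPoly
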