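import Pool.Agent.LibArithPoly.T13a
import Pool.Agent.LibArithPoly.T11

/-!
# Claims of special vertices (task T13b)
-/

open Matrix

namespace ArithPoly

variable {V F D : Type} [Fintype V] [Fintype F] [Fintype D]
variable {W : Type} [AddCommGroup W] [Module ℝ W] {B : LinearMap.BilinForm ℝ W}

namespace Lat3

variable {C : Config B V F D} (L : Lat3 C)

/-- norm form at a corner, in terms of the primitive cusp vectors -/
theorem corner_P (d : D) (z w : W) :
    B z w = B z (C.a (C.face d)) * B w (C.a (C.face d)) +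
      B z (C.b (C.vert d)) * B w (C.b (C.vert d)) -
      2 * (B z (L.P (C.rot d)) * B w (L.P d) + B z (L.P d) * B w (L.P (C.rot d))) / L.δ d := by
  have hadj := L.P_adj d
  have hδ : (0 : ℝ) < L.δ d := by
    rcases L.δ_eq d with h | h <;> rw [h] <;> norm_num
  have hB : B (L.P d) (L.P (C.rot d)) = -(L.δ d : ℝ) / 2 := by linarith
  have hne : B (L.P d) (L.P (C.rot d)) ≠ 0 := by rw [hB]; intro h; linarith
  have h := expand_norm B C.symm C.finrank _ _ _ _ (C.a_unit _) (C.b_unit _) (C.a_b d)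
    (L.P_null d) (L.P_null (C.rot d)) (L.a_P0 d) (L.a_Prot d) (L.b_P0 d) (L.b_Prot d) hne z w
  rw [h, hB]
  field_simp
  ring

/-! ### geometry of a special vertex -/

theorem special_δ {s : D} (h : L.Special s) : L.δ s = 1 ∧ L.δ (C.rot (C.rot s)) = 1 := by
  have h1 := L.parA (C.rot s)
  have h2 := L.parA (C.rot (C.rot s))
  rw [h.A1, h.δ1] at h1
  rw [h.A2] at h2
  have e1 : C.rot⁻¹ (C.rot s) = s := by simp
  have e2 : C.rot⁻¹ (C.rot (C.rot s)) = C.rot s := by simp
  rw [e1] at h1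
  rw [e2, h.δ1] at h2
  constructor
  · rcases L.δ_eq s with h3 | h3
    · exact h3
    · rw [h3] at h1; exact absurd h1 (by decide)
  · rcases L.δ_eq (C.rot (C.rot s)) with h3 | h3
    · exact h3
    · rw [h3] at h2; exact absurd h2 (by decide)

theorem special_δ' {s : D} (h : L.Special s) :
    L.δ (C.rot⁻¹ (C.rev s)) = 1 ∧ L.δ (C.rev s) = 1 := by
  have h1 := L.parB s
  have h2 := L.parB (C.rev s)
  obtain ⟨h3, h4⟩ := L.special_δ h
  rw [h.B0, h3, C.phi_apply] at h1
  have e1 : C.phi (C.rev s) = C.rot (C.rot s) := by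
    rw [C.phi_apply, C.rev_rev]
    apply C.rot.injective
    rw [h.tri]; simp
  rw [L.Bw_rev, h.B0, e1, h4] at h2
  constructor
  · rcases L.δ_eq (C.rot⁻¹ (C.rev s)) with h3 | h3
    · exact h3
    · rw [h3] at h1; exact absurd h1 (by decide)
  · rcases L.δ_eq (C.rev s) with h3 | h3
    · exact h3
    · rw [h3] at h2; exact absurd h2 (by decide)

/-- the cusp claimed by the special dart `s` -/
noncomputable def X (s : D) : W := L.P (C.rot⁻¹ (C.rev s)) - C.a (C.face s) + L.P s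

theorem sp_P1 {s : D} (h : L.Special s) : 2 * B (L.P s) (L.P (C.rot s)) = -1 := by
  have h1 := L.P_adj s
  rw [(L.special_δ h).1] at h1
  rw [h1]; norm_num

theorem sp_Pt {s : D} (h : L.Special s) : 2 * B (L.P s) (L.P (C.rot (C.rev s))) = -1 := by
  have h1 := L.P_adj (C.rev s)
  rw [(L.special_δ' h).2, L.P_rev] at h1
  rw [h1]; norm_num

theorem sp_Pt' {s : D} (h : L.Special s) : 2 * B (L.P (C.rot⁻¹ (C.rev s))) (L.P s) = -1 := by
  have h1 := L.P_adj (C.rot⁻¹ (C.rev s))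
  have e : C.rot (C.rot⁻¹ (C.rev s)) = C.rev s := by simp
  rw [(L.special_δ' h).1, e, L.P_rev] at h1
  rw [h1]; norm_num

theorem face_t' (s : D) : C.face (C.rot⁻¹ (C.rev s)) = C.face s := by
  rw [C.face_rot_inv, C.rev_rev]

theorem sp_a' {s : D} (h : L.Special s) :
    C.a (C.face (C.rev s)) = (4 : ℝ) • L.P s - C.a (C.face s) := by
  have := L.a_rev_eq s
  rw [h.A0] at this
  rw [this]; norm_num

theorem sp_Pt'_a (s : D) : B (L.P (C.rot⁻¹ (C.rev s))) (C.a (C.face s)) = 0 := by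
  have := L.a_P0 (C.rot⁻¹ (C.rev s))
  rw [face_t', C.symm] at this
  exact this

theorem sp_Pt'_b (s : D) : B (L.P (C.rot⁻¹ (C.rev s))) (C.b (C.vert (C.rev s))) = 0 := by
  have := L.b_P0 (C.rot⁻¹ (C.rev s))
  rw [C.vert_rot_inv, C.symm] at this
  exact this

theorem sp_Pt_b (s : D) : B (L.P (C.rot (C.rev s))) (C.b (C.vert (C.rev s))) = 0 := by
  have := L.b_Prot (C.rev s)
  rw [C.symm] at this
  exact this

theorem sp_Pt_a' (s : D) : B (L.P (C.rot (C.rev s))) (C.a (C.face (C.rev s))) = 0 := by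
  have := L.a_Prot (C.rev s)
  rw [C.symm] at this
  exact this

theorem sp_Pt_a {s : D} (h : L.Special s) :
    B (L.P (C.rot (C.rev s))) (C.a (C.face s)) = -2 := by
  have h1 := L.sp_Pt_a' s
  rw [L.sp_a' h] at h1
  have h2 := L.sp_Pt h
  rw [C.symm] at h2
  simp only [map_sub, map_smul, smul_eq_mul] at h1
  linarith

/-- norm form at the corner `rot⁻¹ (rev s)` -/
theorem sp_corner {s : D} (h : L.Special s) (z w : W) :
    B z w = B z (C.a (C.face s)) * B w (C.a (C.face s)) +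
      B z (C.b (C.vert (C.rev s))) * B w (C.b (C.vert (C.rev s))) -
      2 * (B z (L.P s) * B w (L.P (C.rot⁻¹ (C.rev s))) +
        B z (L.P (C.rot⁻¹ (C.rev s))) * B w (L.P s)) := by
  have h1 := L.corner_P (C.rot⁻¹ (C.rev s)) z w
  have e : C.rot (C.rot⁻¹ (C.rev s)) = C.rev s := by simp
  rw [face_t', C.vert_rot_inv, e, (L.special_δ' h).1, L.P_rev] at h1
  rw [h1]; norm_num

theorem sp_Pt_Pt' {s : D} (h : L.Special s) :
    2 * B (L.P (C.rot (C.rev s))) (L.P (C.rot⁻¹ (C.rev s))) = -4 := by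
  have h1 := L.sp_corner h (L.P (C.rot (C.rev s))) (L.P (C.rot (C.rev s)))
  rw [L.P_null, L.sp_Pt_a h, L.sp_Pt_b] at h1
  have h2 := L.sp_Pt h
  rw [C.symm] at h2
  have h3 : B (L.P (C.rot (C.rev s))) (L.P s) = -1 / 2 := by linarith
  rw [h3] at h1
  linarith

theorem sp_expand {s : D} (h : L.Special s) :
    L.P (C.rot (C.rev s)) =
      L.P (C.rot⁻¹ (C.rev s)) - (2 : ℝ) • C.a (C.face s) + (4 : ℝ) • L.P s := by
  have hadj := L.P_adj (C.rot⁻¹ (C.rev s))
  have e : C.rot (C.rot⁻¹ (C.rev s)) = C.rev s := by simp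
  have hB : B (L.P (C.rot⁻¹ (C.rev s))) (L.P s) = -1 / 2 := by linarith [L.sp_Pt' h]
  have hPt := L.sp_Pt h
  rw [C.symm] at hPt
  have hx := expand B C.symm C.finrank (C.a (C.face s)) (C.b (C.vert (C.rev s)))
    (L.P (C.rot⁻¹ (C.rev s))) (L.P s) (C.a_unit _) (C.b_unit _) (C.a_b' s)
    (L.P_null _) (L.P_null _) (by rw [C.symm]; exact L.sp_Pt'_a s) (L.a_P0 s)
    (by rw [C.symm]; exact L.sp_Pt'_b s) (L.b_P0' s) (by rw [hB]; norm_num)
    (L.P (C.rot (C.rev s)))
  rw [L.sp_Pt_a h, L.sp_Pt_b, hB] at hx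
  have h4 : B (L.P (C.rot (C.rev s))) (L.P s) = -1 / 2 := by linarith
  have h5 : B (L.P (C.rot (C.rev s))) (L.P (C.rot⁻¹ (C.rev s))) = -2 := by
    linarith [L.sp_Pt_Pt' h]
  rw [h4, h5] at hx
  rw [hx]
  norm_num
  abel

theorem claim_eq_X {s : D} (h : L.Special s) :
    (1 / 2 : ℝ) • (L.P (C.rot (C.rev s)) + L.P (C.rot⁻¹ (C.rev s))) - L.P s = L.X s := by
  rw [L.sp_expand h, X]
  module

theorem claim_X {s g : D} (h : L.Claim s g) : L.P g = L.X s := by
  rw [h.2.2, L.claim_eq_X h.1]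

theorem X_mem (s : D) : L.X s ∈ L.L :=
  L.L.add_mem (L.L.sub_mem (L.PL _) (L.aL _)) (L.PL _)

theorem X_P {s : D} (h : L.Special s) : 2 * B (L.X s) (L.P s) = -1 := by
  have h1 := L.sp_Pt' h
  have h2 := L.a_P0 s
  have h3 := L.P_null s
  simp only [X, map_add, map_sub, LinearMap.add_apply, LinearMap.sub_apply]
  linarith

theorem X_a (s : D) : B (L.X s) (C.a (C.face s)) = -1 := by
  have h1 := L.sp_Pt'_a s
  have h2 := L.a_P0 s
  rw [C.symm] at h2
  have h3 := C.a_unit (C.face s)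
  simp only [X, map_add, map_sub, LinearMap.add_apply, LinearMap.sub_apply]
  linarith

theorem X_a' {s : D} (h : L.Special s) : B (L.X s) (C.a (C.face (C.rev s))) = -1 := by
  rw [L.sp_a' h]
  have h1 := L.X_a s
  have h2 := L.X_P h
  simp only [map_sub, map_smul, smul_eq_mul]
  linarith

theorem X_b (s : D) : B (L.X s) (C.b (C.vert (C.rev s))) = 0 := by
  have h1 := L.sp_Pt'_b s
  have h2 := C.a_b' s
  have h3 := L.b_P0' s
  rw [C.symm] at h3
  simp only [X, map_add, map_sub, LinearMap.add_apply, LinearMap.sub_apply]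
  linarith

theorem X_null {s : D} (h : L.Special s) : B (L.X s) (L.X s) = 0 := by
  have h1 := L.X_P h
  have h2 := L.X_a s
  have h3 : B (L.X s) (L.P (C.rot⁻¹ (C.rev s))) = -1 / 2 := by
    have e1 := L.P_null (C.rot⁻¹ (C.rev s))
    have e2 := L.sp_Pt'_a s
    rw [C.symm] at e2
    have e3 := L.sp_Pt' h
    rw [C.symm] at e3
    simp only [X, map_add, map_sub, LinearMap.add_apply, LinearMap.sub_apply]
    linarith
  have h4 : B (L.X s) (L.X s) = B (L.X s) (L.P (C.rot⁻¹ (C.rev s)) - C.a (C.face s) + L.P s) := by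
    rw [← X]
  rw [h4]
  simp only [map_add, map_sub]
  linarith

/-- norm form in the frame `a_f - 2 P_s`, `b_w`, `X`, `P_s` -/
theorem sp_norm {s : D} (h : L.Special s) (z w : W) :
    B z w = B z (C.a (C.face s) - (2 : ℝ) • L.P s) * B w (C.a (C.face s) - (2 : ℝ) • L.P s) +
      B z (C.b (C.vert (C.rev s))) * B w (C.b (C.vert (C.rev s))) -
      2 * (B z (L.P s) * B w (L.X s) + B z (L.X s) * B w (L.P s)) := by
  have hB : B (L.X s) (L.P s) = -1 / 2 := by linarith [L.X_P h]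
  have ha := L.a_P0 s
  have ha' := ha
  rw [C.symm] at ha'
  have hPP := L.P_null s
  have hXa := L.X_a s
  have hb := L.b_P0' s
  have hb' := hb
  rw [C.symm] at hb'
  have hu := C.a_unit (C.face s)
  have hab := C.a_b' s
  have hx := expand_norm B C.symm C.finrank (C.a (C.face s) - (2 : ℝ) • L.P s)
    (C.b (C.vert (C.rev s))) (L.X s) (L.P s)
    (by
      simp only [map_sub, LinearMap.sub_apply, map_smul, LinearMap.smul_apply, smul_eq_mul]
      linarith) (C.b_unit _)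
    (by
      simp only [map_sub, LinearMap.sub_apply, map_smul, LinearMap.smul_apply, smul_eq_mul]
      linarith)
    (L.X_null h) (L.P_null _)
    (by
      rw [C.symm]
      simp only [map_sub, LinearMap.sub_apply, map_smul, LinearMap.smul_apply, smul_eq_mul]
      linarith)
    (by
      simp only [map_sub, LinearMap.sub_apply, map_smul, LinearMap.smul_apply, smul_eq_mul]
      linarith)
    (by rw [C.symm]; exact L.X_b s) hb (by rw [hB]; norm_num) z w
  rw [hx, hB]
  ring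

/-- the face `rot s` is a unit -/
theorem sp_unit {s : D} (h : L.Special s) : L.Unit s (C.rot s) := by
  refine ⟨C.vert_rot s, ?_⟩
  have h1 := congrArg (fun x => B x (L.P s)) (L.a_sum (C.rot s))
  rw [C.face_rev_rot, h.A1] at h1
  simp only [map_add, LinearMap.add_apply, map_smul, LinearMap.smul_apply, smul_eq_mul] at h1
  have h2 := L.a_P0 s
  have h3 := L.sp_P1 h
  rw [C.symm] at h3
  push_cast at h1
  linarith

theorem exists_claim (s : D) (h : L.Special s) : ∃ g, L.Claim s g := by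
  refine (L.cusp_of_null (C.vert (C.rev s)) (L.X s) (L.X_mem s) (L.X_null h)
    (L.X_b s) ?_ (L.P s) (L.PL s) (L.X_P h)).elim
    (fun g hg => ⟨g, h, hg.1, by rw [hg.2, L.claim_eq_X h]⟩)
  intro x hx
  by_contra hc
  push Not at hc
  obtain ⟨m, hm⟩ := L.int _ (L.aL (C.face x)) _ (L.X_mem s)
  obtain ⟨n, hn⟩ := L.int _ (L.aL (C.face x)) _ (L.PL s)
  have hm0 : 0 < m := by
    have : (0 : ℝ) < m := by rw [← hm]; linarith
    exact_mod_cast this
  have hn0 : n ≤ 0 := by
    have := L.a_P (C.face x) s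
    have : (n : ℝ) ≤ 0 := by rw [← hn]; linarith
    exact_mod_cast this
  have hn1 : n ≠ 0 := by
    intro h0
    rw [h0] at hn
    have h1 : B (C.a (C.face x)) (L.P s) = 0 := by push_cast at hn; linarith
    rcases L.a_P_eq _ _ h1 with h2 | h2
    · rw [h2, C.symm, L.X_a] at hc; linarith
    · rw [h2, C.symm, L.X_a' h] at hc; linarith
  have h3 := L.sp_norm h (C.a (C.face x)) (C.a (C.face x))
  have hb : B (C.a (C.face x)) (C.b (C.vert (C.rev s))) = 0 := by rw [← hx]; exact C.a_b x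
  rw [C.a_unit, hb] at h3
  set q := B (C.a (C.face x)) (C.a (C.face s) - (2 : ℝ) • L.P s) with hq
  have h4 : q ^ 2 - (m : ℝ) * n = 1 := by
    rw [← hm, ← hn]; linarith
  have hn2 : n ≤ -1 := by omega
  have h5 : 1 ≤ -(m * n) := by nlinarith [mul_nonneg (sub_nonneg.2 hm0) (sub_nonneg.2 hn2)]
  have h5' : (1 : ℝ) ≤ -(m * n) := by exact_mod_cast h5
  have h6 : q ^ 2 = 0 := by nlinarith [sq_nonneg q]
  have h7 : q = 0 := by simpa using h6
  have h8 : m * n = -1 := by
    have : (m : ℝ) * n = -1 := by rw [h6] at h4; linarith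
    exact_mod_cast this
  have h9 : n = -1 := by
    have : n ∣ 1 := ⟨-m, by linarith⟩
    have h10 := Int.isUnit_iff.1 (isUnit_of_dvd_one this)
    omega
  have hU : L.Unit (C.rev s) x := by
    refine ⟨hx, ?_⟩
    rw [L.P_rev, hn, h9]; norm_num
  have h11 := L.unit_opp s (C.rot s) x (L.sp_unit h) hU h.B0
  have e1 : L.pos s (C.a (C.face (C.rot s))) = 2 := by
    unfold pos
    rw [C.symm, aa_rot]; norm_num
  have e2 : L.pos s (C.a (C.face x)) = 2 := by
    unfold pos
    rw [h7] at hq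
    simp only [map_sub, map_smul, smul_eq_mul] at hq
    rw [h9] at hn
    push_cast at hn
    linarith
  rw [e1, e2] at h11
  norm_num at h11

theorem claim_point (s g : D) (h : L.Claim s g) :
    2 * B (L.P s) (L.P g) = -1 ∧ B (L.P s) (C.b (C.vert g)) = 0 := by
  constructor
  · rw [L.claim_X h, C.symm]; exact L.X_P h.1
  · rw [h.2.1, C.symm]; exact L.b_P0' s

/-- the walls through the claimed cusp -/
theorem range_aux {s : D} (h : L.Special s) (G : F) (hX : B (C.a G) (L.X s) = 0)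
    (hb : B (C.a G) (C.b (C.vert (C.rev s))) = 0) :
    ∃ ε : ℝ, (ε = 1 ∨ ε = -1) ∧ B (C.a G) (C.a (C.face s)) = ε + 2 * B (C.a G) (L.P s) ∧
      B (C.a G) (C.a (C.face (C.rev s))) = - ε + 2 * B (C.a G) (L.P s) ∧
      2 ≤ - 2 * B (C.a G) (L.P s) ∧
      ∀ z, B z (C.a G) = ε * B z (C.a (C.face s) - (2 : ℝ) • L.P s)
        - 2 * B (C.a G) (L.P s) * B z (L.X s) := by
  have h3 := L.sp_norm h (C.a G) (C.a G)
  rw [C.a_unit, hX, hb] at h3
  set q := B (C.a G) (C.a (C.face s) - (2 : ℝ) • L.P s) with hq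
  have h4 : (q - 1) * (q + 1) = 0 := by linarith
  have h5 : q = 1 ∨ q = -1 := by
    rcases mul_eq_zero.1 h4 with h5 | h5
    · left; linarith
    · right; linarith
  have hq' := hq
  simp only [map_sub, map_smul, smul_eq_mul] at hq'
  have h6 : B (C.a G) (C.a (C.face s)) = q + 2 * B (C.a G) (L.P s) := by linarith
  have h7 : B (C.a G) (C.a (C.face (C.rev s))) = - q + 2 * B (C.a G) (L.P s) := by
    rw [L.sp_a' h]
    simp only [map_sub, map_smul, smul_eq_mul]
    linarith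
  have hG1 : G ≠ C.face s := by
    intro h0
    rw [h0, C.symm, L.X_a] at hX
    norm_num at hX
  have hG2 : G ≠ C.face (C.rev s) := by
    intro h0
    rw [h0, C.symm, L.X_a' h] at hX
    norm_num at hX
  have h8 := ff_le C _ _ hG1
  have h9 := ff_le C _ _ hG2
  refine ⟨q, h5, h6, h7, ?_, ?_⟩
  · rcases h5 with h5 | h5
    · rw [h6, h5] at h8; linarith
    · rw [h7, h5] at h9; linarith
  · intro z
    have h10 := L.sp_norm h z (C.a G)
    rw [hX, hb, ← hq] at h10
    rw [h10]; ring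

theorem claim_aux {s g : D} (h : L.Claim s g) :
    B (C.a (C.face g)) (L.X s) = 0 ∧ B (C.a (C.face g)) (C.b (C.vert (C.rev s))) = 0 := by
  rw [← L.claim_X h, ← h.2.1]
  exact ⟨L.a_P0 g, C.a_b g⟩

theorem claim_aux' {s g : D} (h : L.Claim s g) :
    B (C.a (C.face (C.rev g))) (L.X s) = 0 ∧
      B (C.a (C.face (C.rev g))) (C.b (C.vert (C.rev s))) = 0 := by
  rw [← L.claim_X h, ← h.2.1]
  exact ⟨L.a_P0' g, C.a_b'' g⟩

theorem claim_range (s g : D) (h : L.Claim s g) :
    2 ≤ L.pos g (L.P s) ∧ L.pos g (L.P s) ≤ L.Aw g - 2 := by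
  obtain ⟨-, -, -, -, h1, -⟩ := L.range_aux h.1 _ (L.claim_aux h).1 (L.claim_aux h).2
  obtain ⟨-, -, -, -, h2, -⟩ := L.range_aux h.1 _ (L.claim_aux' h).1 (L.claim_aux' h).2
  have h3 := L.pos_rev g _ (L.claim_point s g h).1
  rw [C.symm] at h1 h2
  constructor
  · unfold pos; exact h1
  · have h4 : 2 ≤ L.pos (C.rev g) (L.P s) := by unfold pos; exact h2
    linarith

theorem claim_point_rev {s g : D} (h : L.Claim s (C.rev g)) : 2 * B (L.P s) (L.P g) = -1 := by
  have := (L.claim_point s _ h).1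
  rwa [L.P_rev] at this

theorem claim_range' (s g : D) (h : L.Claim s (C.rev g)) :
    2 ≤ L.pos g (L.P s) ∧ L.pos g (L.P s) ≤ L.Aw g - 2 := by
  obtain ⟨h1, h2⟩ := L.claim_range _ _ h
  rw [L.pos_rev g _ (L.claim_point_rev h)] at h1 h2
  rw [L.Aw_rev] at h2
  constructor <;> linarith

theorem claim_sep (s s' g : D) (h : L.Claim s g) (h' : L.Claim s' g) (hne : s ≠ s') :
    2 ≤ |L.pos g (L.P s) - L.pos g (L.P s')| := by
  obtain ⟨h1, h2⟩ := L.claim_point s g h
  obtain ⟨h1', h2'⟩ := L.claim_point s' g h'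
  obtain ⟨n, hn⟩ := L.parity_same g _ _ (L.PL s) (L.PL s') (L.P_null s) (L.P_null s') h1 h1' h2 h2'
  have hn0 : n ≠ 0 := by
    intro h0
    rw [h0] at hn
    have hP : B (L.P s - L.P s') (L.P g) = 0 := by
      rw [map_sub, LinearMap.sub_apply]; linarith
    have hb : B (L.P s - L.P s') (C.b (C.vert g)) = 0 := by
      rw [map_sub, LinearMap.sub_apply, h2, h2', sub_zero]
    have ha : B (L.P s - L.P s') (C.a (C.face g)) = 0 := by
      unfold pos at hn
      rw [map_sub, LinearMap.sub_apply]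
      push_cast at hn; linarith
    have h3 := L.key g _ hP
    rw [hb, ha] at h3
    simp only [map_sub, LinearMap.sub_apply, L.P_null] at h3
    rw [C.symm (L.P s') (L.P s)] at h3
    have h4 := L.P_neg s s' hne.symm (by
      intro h5
      have h6 : C.vert (C.rev s) = C.vert (C.rev s') := h.2.1.symm.trans h'.2.1
      rw [h5, C.rev_rev] at h6
      exact C.vert_ne s h6)
    linarith
  rw [hn, abs_mul]
  have h5 : (1 : ℝ) ≤ |(n : ℝ)| := by
    rw [← Int.cast_abs]
    exact_mod_cast Int.one_le_abs hn0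
  rw [abs_of_pos (by norm_num : (0 : ℝ) < 2)]
  linarith

theorem claim_sep' (s s' g : D) (h : L.Claim s (C.rev g)) (h' : L.Claim s' (C.rev g))
    (hne : s ≠ s') : 2 ≤ |L.pos g (L.P s) - L.pos g (L.P s')| := by
  have h1 := L.claim_sep _ _ _ h h' hne
  rw [L.pos_rev g _ (L.claim_point_rev h), L.pos_rev g _ (L.claim_point_rev h')] at h1
  rw [abs_sub_comm]
  have e1 : (L.Aw g : ℝ) - L.pos g (L.P s) - (L.Aw g - L.pos g (L.P s')) =
      L.pos g (L.P s') - L.pos g (L.P s) := by ring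
  rwa [e1] at h1

theorem claim_unit (s g d : D) (h : L.Claim s g) (h' : L.Unit g d) :
    4 ≤ |L.pos g (C.a (C.face d)) - L.pos g (L.P s)| := by
  obtain ⟨ε, hε, e1, e2, -, -⟩ := L.range_aux h.1 _ (L.claim_aux h).1 (L.claim_aux h).2
  have hXd : B (C.a (C.face d)) (L.X s) = -1 / 2 := by
    rw [← L.claim_X h]; linarith [h'.2]
  have hXf : B (C.a (C.face s)) (L.X s) = -1 := by rw [C.symm]; exact L.X_a s
  have hXf' : B (C.a (C.face (C.rev s))) (L.X s) = -1 := by rw [C.symm]; exact L.X_a' h.1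
  have hdb := L.unit_b g d h'
  have hF1 : C.face d ≠ C.face s := by
    intro h0; rw [h0, hXf] at hXd; norm_num at hXd
  have hF2 : C.face d ≠ C.face (C.rev s) := by
    intro h0; rw [h0, hXf'] at hXd; norm_num at hXd
  have f1 := ff_le C _ _ hF1
  have f2 := ff_le C _ _ hF2
  have k1 := L.key g ((2 : ℝ) • C.a (C.face d) - C.a (C.face s)) (by
    rw [L.claim_X h]
    simp only [map_sub, LinearMap.sub_apply, map_smul, LinearMap.smul_apply, smul_eq_mul]
    linarith)
  have k2 := L.key g ((2 : ℝ) • C.a (C.face d) - C.a (C.face (C.rev s))) (by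
    rw [L.claim_X h]
    simp only [map_sub, LinearMap.sub_apply, map_smul, LinearMap.smul_apply, smul_eq_mul]
    linarith)
  have b1 : B (C.a (C.face s)) (C.b (C.vert g)) = 0 := by rw [h.2.1]; exact C.a_b' s
  have b2 : B (C.a (C.face (C.rev s))) (C.b (C.vert g)) = 0 := by rw [h.2.1]; exact C.a_b _
  simp only [map_sub, LinearMap.sub_apply, map_smul, LinearMap.smul_apply, smul_eq_mul,
    C.a_unit, hdb, b1, b2] at k1 k2
  rw [C.symm (C.a (C.face s)) (C.a (C.face d)), C.symm (C.a (C.face s)) (C.a (C.face g)),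
    e1] at k1
  rw [C.symm (C.a (C.face (C.rev s))) (C.a (C.face d)),
    C.symm (C.a (C.face (C.rev s))) (C.a (C.face g)), e2] at k2
  unfold pos
  rw [C.symm (L.P s) (C.a (C.face g))]
  set x := B (C.a (C.face d)) (C.a (C.face g))
  set y := B (C.a (C.face g)) (L.P s)
  have m1 : 9 ≤ (2 * x - (ε + 2 * y)) ^ 2 := by linarith
  have m2 : 9 ≤ (2 * x - (-ε + 2 * y)) ^ 2 := by linarith
  have m3 : 9 ≤ (2 * x - 2 * y - 1) ^ 2 ∧ 9 ≤ (2 * x - 2 * y + 1) ^ 2 := by
    rcases hε with hε | hε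
    · rw [hε] at m1 m2
      exact ⟨by linarith, by linarith⟩
    · rw [hε] at m1 m2
      exact ⟨by linarith, by linarith⟩
  obtain ⟨m3, m4⟩ := m3
  rw [le_abs]
  by_contra hc
  push Not at hc
  obtain ⟨c1, c2⟩ := hc
  rcases le_or_gt 0 (2 * x - 2 * y) with h0 | h0
  · have h1 : 2 * x - 2 * y - 1 < 3 := by linarith
    have h2 : -3 < 2 * x - 2 * y - 1 := by linarith
    have h3 := sq_lt_sq' h2 h1
    linarith
  · have h1 : 2 * x - 2 * y + 1 < 3 := by linarith
    have h2 : -3 < 2 * x - 2 * y + 1 := by linarith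
    have h3 := sq_lt_sq' h2 h1
    linarith

theorem claim_unit' (s g d : D) (h : L.Claim s (C.rev g)) (h' : L.Unit (C.rev g) d) :
    4 ≤ |L.pos g (C.a (C.face d)) - L.pos g (L.P s)| := by
  have h1 := L.claim_unit _ _ _ h h'
  rw [L.pos_rev g _ (L.claim_point_rev h), L.pos_rev g _ (L.unit_rev_P g d h')] at h1
  rw [abs_sub_comm]
  have e1 : (L.Aw g : ℝ) - L.pos g (C.a (C.face d)) - (L.Aw g - L.pos g (L.P s)) =
      L.pos g (L.P s) - L.pos g (C.a (C.face d)) := by ring
  rwa [e1] at h1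

/-- data of the face `rot s` of a special vertex -/
theorem sp_G1 {s : D} (h : L.Special s) :
    B (C.a (C.face (C.rot s))) (L.X s) = -1 ∧
    B (C.a (C.face (C.rot s))) (C.b (C.vert (C.rev s))) = - Real.sqrt 3 ∧
    B (C.a (C.face (C.rot s))) (C.a (C.face s) - (2 : ℝ) • L.P s) = 0 := by
  have h1 := (L.sp_unit h).2
  have h2 : B (C.a (C.face (C.rot s))) (C.a (C.face s)) = -1 := by
    rw [C.symm]; exact aa_rot s
  have h3 := L.b_rev_pair s _ h1
  rw [L.unit_b s _ (L.sp_unit h), h.B0] at h3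
  have h4 : B (C.a (C.face (C.rot s))) (C.b (C.vert (C.rev s))) = - Real.sqrt 3 := by
    rw [h3]; push_cast; ring
  have h33 : Real.sqrt 3 ^ 2 = 3 := Real.sq_sqrt (by norm_num)
  have h5 := L.sp_corner h (C.a (C.face (C.rot s))) (C.a (C.face (C.rot s)))
  have h6 : B (C.a (C.face (C.rot s))) (L.P s) = -1 / 2 := by linarith
  rw [C.a_unit, h2, h4, h6] at h5
  have h7 : B (C.a (C.face (C.rot s))) (L.P (C.rot⁻¹ (C.rev s))) = -3 / 2 := by nlinarith
  refine ⟨?_, h4, ?_⟩
  · unfold X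
    simp only [map_add, map_sub]
    rw [h7, h2, h6]; norm_num
  · simp only [map_sub, map_smul, smul_eq_mul]
    rw [h2, h6]; norm_num

theorem claim_unit_opp_aux (s g d : D) (h : L.Claim s (C.rev g)) (h' : L.Unit g d)
    (hB : L.Bw g = 2) :
    3 ≤ |L.pos (C.rev g) (C.a (C.face d)) - L.pos (C.rev g) (L.P s)| := by
  obtain ⟨ε, hε, e1, e2, -, e4⟩ := L.range_aux h.1 _ (L.claim_aux h).1 (L.claim_aux h).2
  obtain ⟨g1, g2, g3⟩ := L.sp_G1 h.1
  have hgX : L.P g = L.X s := by rw [← L.P_rev]; exact L.claim_X h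
  have hXd : B (C.a (C.face d)) (L.X s) = -1 / 2 := by
    rw [← hgX]; linarith [h'.2]
  have hdb := L.unit_b g d h'
  have h33 : Real.sqrt 3 ^ 2 = 3 := Real.sq_sqrt (by norm_num)
  have h4 : B (C.a (C.face d)) (C.b (C.vert (C.rev g))) = - Real.sqrt 3 := by
    rw [L.b_rev_pair g _ h'.2, hdb, hB]; push_cast; ring
  have hF : C.face d ≠ C.face (C.rot s) := by
    intro h0; rw [h0, g1] at hXd; norm_num at hXd
  have f1 := ff_le C _ _ hF
  have k1 := L.key (C.rev g) ((2 : ℝ) • C.a (C.face d) - C.a (C.face (C.rot s))) (by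
    rw [L.P_rev, hgX]
    simp only [map_sub, LinearMap.sub_apply, map_smul, LinearMap.smul_apply, smul_eq_mul]
    linarith)
  have g4 : B (C.a (C.face (C.rot s))) (C.b (C.vert (C.rev g))) = - Real.sqrt 3 := by
    rw [h.2.1]; exact g2
  have g5 := e4 (C.a (C.face (C.rot s)))
  rw [g3, g1] at g5
  simp only [map_sub, LinearMap.sub_apply, map_smul, LinearMap.smul_apply, smul_eq_mul,
    C.a_unit, h4, g4, g5] at k1
  rw [C.symm (C.a (C.face (C.rot s))) (C.a (C.face d))] at k1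
  obtain ⟨m, hm⟩ := L.int _ (L.aL (C.face d)) _ (L.aL (C.face (C.rev g)))
  obtain ⟨n, hn⟩ := L.int _ (L.PL s) _ (L.aL (C.face (C.rev g)))
  unfold pos
  have hn' := hn
  rw [C.symm (L.P s)] at hn'
  have e5 : -2 * B (C.a (C.face d)) (C.a (C.face (C.rev g))) -
      -2 * B (L.P s) (C.a (C.face (C.rev g))) = ((n - m : ℤ) : ℝ) := by
    push_cast; linarith
  rw [e5]
  have m1 : (6 : ℝ) ≤ (n - m) ^ 2 := by
    rw [← hm, ← hn']
    nlinarith
  have m2 : (6 : ℤ) ≤ (n - m) ^ 2 := by exact_mod_cast m1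
  have m3 : 3 ≤ |n - m| := by
    by_contra hc
    push Not at hc
    have h5 : |n - m| ≤ 2 := by omega
    have h6 := abs_le.1 h5
    nlinarith
  rw [← Int.cast_abs]
  exact_mod_cast m3

theorem claim_unit_opp (s g d : D) (h : L.Claim s (C.rev g)) (h' : L.Unit g d)
    (hB : L.Bw g = 2) : 3 ≤ |L.pos g (C.a (C.face d)) - L.pos g (L.P s)| := by
  have h1 := L.claim_unit_opp_aux _ _ _ h h' hB
  rw [L.pos_rev g _ (L.claim_point_rev h), L.pos_rev g _ h'.2] at h1
  rw [abs_sub_comm]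
  have e1 : (L.Aw g : ℝ) - L.pos g (C.a (C.face d)) - (L.Aw g - L.pos g (L.P s)) =
      L.pos g (L.P s) - L.pos g (C.a (C.face d)) := by ring
  rwa [e1] at h1

theorem claim_unit_opp' (s g d : D) (h : L.Claim s g) (h' : L.Unit (C.rev g) d)
    (hB : L.Bw g = 2) : 3 ≤ |L.pos g (C.a (C.face d)) - L.pos g (L.P s)| := by
  have h0 : L.Claim s (C.rev (C.rev g)) := by rw [C.rev_rev]; exact h
  have h1 := L.claim_unit_opp_aux _ _ _ h0 h' (by rw [L.Bw_rev]; exact hB)
  rwa [C.rev_rev] at h1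

end Lat3

end ArithPoly
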