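import Pool.Agent.LibArithPoly.VPoly

/-!
# Task T7: the sum of the widths of an ideal polygon in the modular tessellation
-/

namespace ArithPoly

/-- local condition at a vertex of the polygon -/
def Good7 (x y w : ℝ) : Prop :=
  (x = 1 ∧ y = 1 ∧ ∃ z : ℤ, w = 2 * z) ∨ (x = 1 ∧ y = 2 ∧ ∃ z : ℤ, w = 2 * z + 1) ∨
  (x = 2 ∧ y = 1 ∧ ∃ z : ℤ, w = 2 * z + 1) ∨ (x = 2 ∧ y = 2 ∧ ∃ z : ℤ, w = 2 * z)

theorem sum7_ear (m : ℕ) (ih : ∀ v, Pgn (m + 2) v →
      (∀ i, Good7 (lam v i) (lam v (i + 1)) (wd v i)) →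
      ∑ i ∈ Finset.range (m + 2), wd v i = 6 * m) (v : ℕ → ℝ × ℝ) (h : Pgn (m + 3) v)
    (hg : ∀ i, Good7 (lam v i) (lam v (i + 1)) (wd v i))
    (hear : wd v 1 < 2 / lam v 1 + 2 / lam v 2) :
    ∑ i ∈ Finset.range (m + 3), wd v i = 6 * (m + 1) := by
  have hm : 2 ≤ m + 2 := by omega
  have hd := Pgn.del h hm
  have w1 := h.wd_pos (by omega) 1
  have z0 := Pgn.wd_del_zero h hm
  have z1 := Pgn.wd_del_one h hm
  have y1 := Pgn.lam_del_one h hm
  have y0 : lam (v ∘ phi (m + 2)) 0 = lam v 0 := Pgn.lam_del_zero hm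
  have y2 : lam (v ∘ phi (m + 2)) 2 = lam v 3 := Pgn.lam_del_mid hm 2 le_rfl (by omega)
  have g0 := hg 0
  have g1 := hg 1
  have g2 := hg 2
  simp only [zero_add, Nat.reduceAdd] at g0 g1 g2
  -- the three cases of the ear
  have cases : (lam v 1 = 1 ∧ lam v 2 = 1 ∧ wd v 1 = 2) ∨ (lam v 1 = 1 ∧ lam v 2 = 2 ∧ wd v 1 = 1)
      ∨ (lam v 1 = 2 ∧ lam v 2 = 1 ∧ wd v 1 = 1) := by
    rcases g1 with ⟨a, b, z, hz⟩ | ⟨a, b, z, hz⟩ | ⟨a, b, z, hz⟩ | ⟨a, b, z, hz⟩
    · rw [a, b, hz] at hear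
      rw [hz] at w1
      norm_num at hear
      have h1 : (0 : ℝ) < z := by linarith
      have h2 : (z : ℝ) < 2 := by linarith
      have h3 : z = 1 := by
        have : (0 : ℤ) < z := by exact_mod_cast h1
        have : z < 2 := by exact_mod_cast h2
        omega
      left; exact ⟨a, b, by rw [hz, h3]; norm_num⟩
    · rw [a, b, hz] at hear
      rw [hz] at w1
      norm_num at hear
      have h1 : (-1 : ℝ) < z := by linarith
      have h2 : (z : ℝ) < 1 := by linarith
      have h3 : z = 0 := by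
        have : (-1 : ℤ) < z := by exact_mod_cast h1
        have : z < 1 := by exact_mod_cast h2
        omega
      right; left; exact ⟨a, b, by rw [hz, h3]; norm_num⟩
    · rw [a, b, hz] at hear
      rw [hz] at w1
      norm_num at hear
      have h1 : (-1 : ℝ) < z := by linarith
      have h2 : (z : ℝ) < 1 := by linarith
      have h3 : z = 0 := by
        have : (-1 : ℤ) < z := by exact_mod_cast h1
        have : z < 1 := by exact_mod_cast h2
        omega
      right; right; exact ⟨a, b, by rw [hz, h3]; norm_num⟩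
    · exfalso
      rw [a, b, hz] at hear
      rw [hz] at w1
      norm_num at hear
      have h1 : (0 : ℝ) < z := by linarith
      have h2 : (z : ℝ) < 1 := by linarith
      have : (0 : ℤ) < z := by exact_mod_cast h1
      have : z < 1 := by exact_mod_cast h2
      omega
  have hsum : ∑ i ∈ Finset.range (m + 3), wd v i =
      wd v 0 + wd v 1 + wd v 2 + ∑ i ∈ Finset.range m, wd v (i + 3) := by
    rw [Finset.sum_range_succ', Finset.sum_range_succ', Finset.sum_range_succ']
    simp only [zero_add, Nat.reduceAdd, add_assoc]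
    ring
  have hsum' : ∑ i ∈ Finset.range (m + 2), wd (v ∘ phi (m + 2)) i =
      wd (v ∘ phi (m + 2)) 0 + wd (v ∘ phi (m + 2)) 1 + ∑ i ∈ Finset.range m, wd v (i + 3) := by
    rw [Finset.sum_range_succ', Finset.sum_range_succ']
    have : ∑ i ∈ Finset.range m, wd (v ∘ phi (m + 2)) (i + 1 + 1) =
        ∑ i ∈ Finset.range m, wd v (i + 3) := by
      refine Finset.sum_congr rfl (fun i hi => ?_)
      rw [Finset.mem_range] at hi
      rw [Pgn.wd_del_mid hm (i + 1 + 1) (by omega) (by omega)]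
    rw [this]
    simp only [zero_add]
    ring
  have hmid : ∀ i, 2 ≤ i → i < m + 2 → Good7 (lam (v ∘ phi (m + 2)) i)
      (lam (v ∘ phi (m + 2)) (i + 1)) (wd (v ∘ phi (m + 2)) i) := by
    intro i hi hi'
    rw [Pgn.wd_del_mid hm i hi hi', Pgn.lam_del_mid hm i hi (by omega),
      Pgn.lam_del_mid hm (i + 1) (by omega) (by omega)]
    exact hg (i + 1)
  have hper : ∀ i, Good7 (lam (v ∘ phi (m + 2)) i)
      (lam (v ∘ phi (m + 2)) (i + 1)) (wd (v ∘ phi (m + 2)) i) →
      Good7 (lam (v ∘ phi (m + 2)) (i + (m + 2)))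
      (lam (v ∘ phi (m + 2)) (i + (m + 2) + 1)) (wd (v ∘ phi (m + 2)) (i + (m + 2))) := by
    intro i hi
    rwa [show i + (m + 2) + 1 = i + 1 + (m + 2) by ring, hd.lam_per, hd.lam_per, hd.wd_per]
  have fin : (Good7 (lam (v ∘ phi (m + 2)) 0) (lam (v ∘ phi (m + 2)) 1) (wd (v ∘ phi (m + 2)) 0)) →
      (Good7 (lam (v ∘ phi (m + 2)) 1) (lam (v ∘ phi (m + 2)) 2) (wd (v ∘ phi (m + 2)) 1)) →
      ∑ i ∈ Finset.range (m + 2), wd (v ∘ phi (m + 2)) i = 6 * m := by
    intro k0 k1
    refine ih _ hd (forall_of_lt (m + 2) (by omega) (fun i hi => ?_) hper)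
    rcases Nat.lt_or_ge i 2 with h2 | h2
    · interval_cases i
      · exact k0
      · exact k1
    · exact hmid i h2 hi
  rw [y0, y1, z0, y2, z1] at fin
  rw [hsum', z0, z1] at fin
  rw [hsum]
  rcases cases with ⟨a, b, c⟩ | ⟨a, b, c⟩ | ⟨a, b, c⟩
  · rw [a, b, c] at fin
    rw [a] at g0
    rw [b] at g2
    norm_num at fin
    have k0 : Good7 (lam v 0) 1 (wd v 0 - 2) := by
      rcases g0 with ⟨a, b, z, hz⟩ | ⟨a, b, z, hz⟩ | ⟨a, b, z, hz⟩ | ⟨a, b, z, hz⟩
      · exact Or.inl ⟨a, rfl, z - 1, by rw [hz]; push_cast; ring⟩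
      · norm_num at b
      · exact Or.inr (Or.inr (Or.inl ⟨a, rfl, z - 1, by rw [hz]; push_cast; ring⟩))
      · norm_num at b
    have k1 : Good7 1 (lam v 3) (wd v 2 - 2) := by
      rcases g2 with ⟨a, b, z, hz⟩ | ⟨a, b, z, hz⟩ | ⟨a, b, z, hz⟩ | ⟨a, b, z, hz⟩
      · exact Or.inl ⟨rfl, b, z - 1, by rw [hz]; push_cast; ring⟩
      · exact Or.inr (Or.inl ⟨rfl, b, z - 1, by rw [hz]; push_cast; ring⟩)
      · norm_num at a
      · norm_num at a
    have := fin k0 k1
    linarith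
  · rw [a, b, c] at fin
    rw [a] at g0
    rw [b] at g2
    norm_num at fin
    have k0 : Good7 (lam v 0) 1 (wd v 0 - 4) := by
      rcases g0 with ⟨a, b, z, hz⟩ | ⟨a, b, z, hz⟩ | ⟨a, b, z, hz⟩ | ⟨a, b, z, hz⟩
      · exact Or.inl ⟨a, rfl, z - 2, by rw [hz]; push_cast; ring⟩
      · norm_num at b
      · exact Or.inr (Or.inr (Or.inl ⟨a, rfl, z - 2, by rw [hz]; push_cast; ring⟩))
      · norm_num at b
    have k1 : Good7 1 (lam v 3) (wd v 2 - 1) := by
      rcases g2 with ⟨a, b, z, hz⟩ | ⟨a, b, z, hz⟩ | ⟨a, b, z, hz⟩ | ⟨a, b, z, hz⟩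
      · norm_num at a
      · norm_num at a
      · exact Or.inl ⟨rfl, b, z, by rw [hz]; push_cast; ring⟩
      · exact Or.inr (Or.inl ⟨rfl, b, z - 1, by rw [hz]; push_cast; ring⟩)
    have := fin k0 k1
    linarith
  · rw [a, b, c] at fin
    rw [a] at g0
    rw [b] at g2
    norm_num at fin
    have k0 : Good7 (lam v 0) 1 (wd v 0 - 1) := by
      rcases g0 with ⟨a, b, z, hz⟩ | ⟨a, b, z, hz⟩ | ⟨a, b, z, hz⟩ | ⟨a, b, z, hz⟩
      · norm_num at b
      · exact Or.inl ⟨a, rfl, z, by rw [hz]; push_cast; ring⟩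
      · norm_num at b
      · exact Or.inr (Or.inr (Or.inl ⟨a, rfl, z - 1, by rw [hz]; push_cast; ring⟩))
    have k1 : Good7 1 (lam v 3) (wd v 2 - 4) := by
      rcases g2 with ⟨a, b, z, hz⟩ | ⟨a, b, z, hz⟩ | ⟨a, b, z, hz⟩ | ⟨a, b, z, hz⟩
      · exact Or.inl ⟨rfl, b, z - 2, by rw [hz]; push_cast; ring⟩
      · exact Or.inr (Or.inl ⟨rfl, b, z - 2, by rw [hz]; push_cast; ring⟩)
      · norm_num at a
      · norm_num at a
    have := fin k0 k1
    linarith

theorem sum7 (m : ℕ) : ∀ v, Pgn (m + 2) v →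
      (∀ i, Good7 (lam v i) (lam v (i + 1)) (wd v i)) →
      ∑ i ∈ Finset.range (m + 2), wd v i = 6 * m := by
  induction m with
  | zero =>
    intro v h _
    have : ∀ i, wd v i = 0 := by
      intro i
      rw [wd, h.anti i, dt_neg_right, dt_self]
      simp
    simp [this]
  | succ m ih =>
    intro v h hg
    obtain ⟨i, hi⟩ := h.exists_ear (by omega)
    have hs := h.shift (i + m + 2)
    have h1 : wd (fun j => v (j + (i + m + 2))) 1 = wd v i := by
      rw [wd_shift, show 1 + (i + m + 2) = i + (m + 1 + 2) by ring, h.wd_per]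
    have h2 : lam (fun j => v (j + (i + m + 2))) 1 = lam v i := by
      rw [lam_shift, show 1 + (i + m + 2) = i + (m + 1 + 2) by ring, h.lam_per]
    have h3 : lam (fun j => v (j + (i + m + 2))) 2 = lam v (i + 1) := by
      rw [lam_shift, show 2 + (i + m + 2) = i + 1 + (m + 1 + 2) by ring, h.lam_per]
    have key := sum7_ear m ih (fun j => v (j + (i + m + 2))) hs ?_ ?_
    · push_cast
      rw [← key]
      simp only [wd_shift]
      exact (sum_shift (wd v) (m + 1 + 2) h.wd_per _).symm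
    · intro j
      rw [lam_shift, lam_shift, wd_shift, show j + 1 + (i + m + 2) = j + (i + m + 2) + 1 by ring]
      exact hg _
    · rw [h1, h2, h3]; exact hi

theorem area3 {E : Type} [AddCommGroup E] [Module ℝ E] (B : LinearMap.BilinForm ℝ E)
    (hsymm : ∀ x y, B x y = B y x) (hE : Module.finrank ℝ E = 3)
    (n : ℕ) (hn : 3 ≤ n) (f : ℕ → E) (per : ∀ i, f (i + n) = f i)
    (G : ℕ → ℕ → ℤ) (hG : ∀ i j, 2 * B (f i) (f j) = G i j)
    (h0 : ∀ i, G i i = 2) (h1 : ∀ i, G i (i + 1) = -2)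
    (h2 : ∀ i j, i < n → j < n → i ≠ j → G i j ≤ -2)
    (A δ : ℕ → ℤ) (perA : ∀ i, A (i + n) = A i) (perδ : ∀ i, δ (i + n) = δ i)
    (hA : ∀ i, 0 < A i) (hδ : ∀ i, δ i = 1 ∨ δ i = 4)
    (hk : ∀ i, 2 - G i (i + 2) = A i * A (i + 1) * δ (i + 1))
    (hpar : ∀ i, Even (A i + δ i + δ (i + 1))) :
    ∑ i ∈ Finset.range n, A i = 6 * ((n : ℤ) - 2) := by
  have perm : ∀ i, f (i % n) = f i := by
    intro i
    exact forall_of_lt (Q := fun i => f (i % n) = f i) n (by omega)
      (fun i hi => by rw [Nat.mod_eq_of_lt hi])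
      (fun i hi => by rw [Nat.add_mod_right, hi, per]) i
  -- square roots of `δ`
  let L : ℕ → ℝ := fun i => if δ (i + 1) = 4 then 2 else 1
  have hL1 : ∀ i, L i = 1 ∨ L i = 2 := by
    intro i; simp only [L]; split_ifs <;> simp
  have hLd : ∀ i, L i ^ 2 = δ (i + 1) := by
    intro i; simp only [L]
    rcases hδ (i + 1) with h | h <;> rw [h] <;> norm_num
  have hf : FPoly B n f (fun i => (A i : ℝ)) L := by
    refine ⟨per, fun i => by simp only [perA], fun i => ?_, fun i => ?_, fun i => ?_,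
      fun i j hij hj => ?_, fun i => by exact_mod_cast hA i, fun i => ?_, fun i => ?_⟩
    · simp only [L]
      rw [show i + n + 1 = i + 1 + n by ring, perδ]
    · have := hG i i
      rw [h0] at this
      push_cast at this
      linarith
    · have := hG i (i + 1)
      rw [h1] at this
      push_cast at this
      linarith
    · have h3 : i % n ≠ j % n := by
        intro h
        have h4 : (j - i) % n = 0 := Nat.sub_mod_eq_zero_of_mod_eq h.symm
        rw [Nat.mod_eq_of_lt (by omega)] at h4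
        omega
      have h4 := h2 (i % n) (j % n) (Nat.mod_lt _ (by omega)) (Nat.mod_lt _ (by omega)) h3
      have h5 := hG (i % n) (j % n)
      rw [perm, perm] at h5
      have h6 : (G (i % n) (j % n) : ℝ) ≤ -2 := by exact_mod_cast h4
      linarith
    · rcases hL1 i with h | h <;> rw [h] <;> norm_num
    · rw [hLd]
      have h3 := hk i
      have h4 := hG i (i + 2)
      have h5 : (2 : ℝ) - G i (i + 2) = A i * A (i + 1) * δ (i + 1) := by exact_mod_cast h3
      linarith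
  have hp := hf.pgn hn hsymm hE
  have hlam : ∀ i, lam (vv (fun i => (A i : ℝ)) L) i = L i := fun i => dt_vv_one _ _ hf.lpos i
  have hwd : ∀ i, wd (vv (fun i => (A i : ℝ)) L) i = A (i + 1) := by
    intro i
    rw [wd, dt_vv_two _ _ hf.lpos, hlam, hlam]
    have := (hf.lpos i).ne'
    have := (hf.lpos (i + 1)).ne'
    field_simp
  have hgood : ∀ i, Good7 (lam (vv (fun i => (A i : ℝ)) L) i)
      (lam (vv (fun i => (A i : ℝ)) L) (i + 1)) (wd (vv (fun i => (A i : ℝ)) L) i) := by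
    intro i
    rw [hlam, hlam, hwd]
    have hp1 := hpar (i + 1)
    simp only [L]
    rcases hδ (i + 1) with h | h <;> rcases hδ (i + 1 + 1) with h' | h' <;>
      rw [h, h'] at hp1 <;> rw [h, h'] <;> norm_num
    · left
      obtain ⟨z, hz⟩ := hp1
      exact ⟨rfl, rfl, z - 1, by
        have : A (i + 1) = 2 * (z - 1) := by omega
        rw [this]; push_cast; ring⟩
    · right; left
      obtain ⟨z, hz⟩ := hp1
      exact ⟨rfl, rfl, z - 3, by
        have : A (i + 1) = 2 * (z - 3) + 1 := by omega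
        rw [this]; push_cast; ring⟩
    · right; right; left
      obtain ⟨z, hz⟩ := hp1
      exact ⟨rfl, rfl, z - 3, by
        have : A (i + 1) = 2 * (z - 3) + 1 := by omega
        rw [this]; push_cast; ring⟩
    · right; right; right
      obtain ⟨z, hz⟩ := hp1
      exact ⟨rfl, rfl, z - 4, by
        have : A (i + 1) = 2 * (z - 4) := by omega
        rw [this]; push_cast; ring⟩
  obtain ⟨m, rfl⟩ : ∃ m, n = m + 2 := ⟨n - 2, by omega⟩
  have key := sum7 m _ hp hgood
  simp only [hwd] at key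
  have e := sum_shift (fun i => (A i : ℝ)) (m + 2) (fun i => by simp only [perA]) 1
  rw [e] at key
  have : ((∑ i ∈ Finset.range (m + 2), A i : ℤ) : ℝ) = ((6 * ((m + 2 : ℕ) - 2) : ℤ) : ℝ) := by
    push_cast
    rw [key]
    ring
  exact_mod_cast this

end ArithPoly
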