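import Pool.Agent.LibArithPoly.T6Five
import Pool.Agent.LibArithPoly.T7Area
import Pool.Agent.LibArithPoly.Lat3

/-!
# Sums of widths
-/

open Matrix

set_option linter.unusedSectionVars false

namespace ArithPoly

variable {V F D : Type} [Fintype V] [Fintype F] [Fintype D]
variable {W : Type} [AddCommGroup W] [Module ℝ W] {B : LinearMap.BilinForm ℝ W}

theorem Config.aa_rot' (C : Config B V F D) (d : D) :
    B (C.a (C.face d)) (C.a (C.face (C.rot d))) = -1 := by
  have := C.aa_adj (C.rot d)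
  rw [C.face_rev_rot, C.symm] at this
  exact this

namespace Lat3

variable {C : Config B V F D} (L : Lat3 C)

theorem kV_L (x : D) : 2 - 2 * B (C.a (C.face (C.rev x))) (C.a (C.face (C.rot x))) =
    L.Aw x * L.Aw (C.rot x) * L.δ x := by
  have h1 := L.a_sum x
  have h2 := L.a_sum (C.rot x)
  rw [C.face_rev_rot] at h2
  have h3 : B (C.a (C.face x) + C.a (C.face (C.rev x)))
      (C.a (C.face (C.rot x)) + C.a (C.face x)) =
      B ((L.Aw x : ℝ) • L.P x) ((L.Aw (C.rot x) : ℝ) • L.P (C.rot x)) := by rw [h1, h2]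
  have h4 := C.aa_adj x
  have h5 := C.aa_rot' x
  have h6 := L.P_adj x
  simp only [map_add, map_smul, smul_eq_mul, LinearMap.add_apply, LinearMap.smul_apply, C.a_unit,
    h5, C.symm (C.a (C.face (C.rev x))) (C.a (C.face x)), h4] at h3
  have h7 : B (L.P x) (L.P (C.rot x)) = -(L.δ x : ℝ) / 2 := by linarith
  rw [h7] at h3
  linarith

theorem kF_L (x : D) : 2 - 2 * B (C.b (C.vert (C.rev (C.phi x)))) (C.b (C.vert x)) =
    3 * L.Bw x * L.Bw (C.phi x) * L.δ (C.phi x) := by
  have h1 := L.b_sum x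
  have h2 := L.b_sum (C.phi x)
  rw [C.vert_phi] at h2
  have h3 : B (C.b (C.vert x) + C.b (C.vert (C.rev x)))
      (C.b (C.vert (C.rev x)) + C.b (C.vert (C.rev (C.phi x)))) =
      B ((Real.sqrt 3 * L.Bw x : ℝ) • L.P x) ((Real.sqrt 3 * L.Bw (C.phi x) : ℝ) • L.P (C.phi x)) := by
    rw [h1, h2]
  have h4 := C.bb_adj x
  have h5 := C.bb_adj (C.phi x)
  rw [C.vert_phi] at h5
  have h6 := L.P_adj (C.phi x)
  rw [C.rot_phi, L.P_rev, C.symm] at h6
  simp only [map_add, map_smul, smul_eq_mul, LinearMap.add_apply, LinearMap.smul_apply, C.b_unit,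
    h5, h4] at h3
  have h7 : B (L.P x) (L.P (C.phi x)) = -(L.δ (C.phi x) : ℝ) / 2 := by linarith
  have h8 := C.symm (C.b (C.vert (C.rev (C.phi x)))) (C.b (C.vert x))
  have hs : Real.sqrt 3 * Real.sqrt 3 = 3 := Real.mul_self_sqrt (by norm_num)
  rw [h7] at h3
  rw [h8]
  linear_combination (-2 : ℝ) * h3 + (L.Bw x * L.Bw (C.phi x) * L.δ (C.phi x) : ℝ) * hs

theorem vert_sum (d0 : D) : ∑ i ∈ Finset.range (per C.rot d0), L.Aw ((C.rot ^ (i + 1)) d0) =
    6 * ((per C.rot d0 : ℤ) - 2) := by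
  set n := per C.rot d0 with hn
  have hint : ∀ i j : ℕ, ∃ m : ℤ, 2 * B (C.a (C.face ((C.rot ^ i) d0))) (C.a (C.face ((C.rot ^ j) d0))) = m :=
    fun i j => L.int _ (L.aL _) _ (L.aL _)
  choose G hG using hint
  have hrot : ∀ i, C.rot ((C.rot ^ i) d0) = (C.rot ^ (i + 1)) d0 := fun i => by
    rw [pow_succ', Equiv.Perm.mul_apply]
  have hrot' : ∀ i, C.rot⁻¹ ((C.rot ^ (i + 1)) d0) = (C.rot ^ i) d0 := fun i => by
    rw [← hrot]; simp
  refine area3 (B.restrict (C.perp (C.vert d0))) (fun x y => C.symm _ _)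
    (C.finrank_perp (C.vert d0)) n (C.three_le_per_rot d0) (C.aPoly d0)
    (fun i => Subtype.ext (by
      show C.a (C.face ((C.rot ^ (i + n)) d0)) = C.a (C.face ((C.rot ^ i) d0))
      rw [pow_add_per]))
    G hG
    (fun i => ?_) (fun i => ?_) (fun i j hi hj hij => ?_)
    (fun i => L.Aw ((C.rot ^ (i + 1)) d0)) (fun i => L.δ ((C.rot ^ i) d0))
    (fun i => ?_) (fun i => ?_) (fun i => L.Aw_pos _) (fun i => L.δ_eq _) (fun i => ?_)
    (fun i => ?_)
  · have h1 := hG i i
    rw [C.a_unit] at h1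
    have : (G i i : ℝ) = 2 := by linarith
    exact_mod_cast this
  · have h1 := hG i (i + 1)
    rw [← hrot, C.aa_rot'] at h1
    have : (G i (i + 1) : ℝ) = -2 := by linarith
    exact_mod_cast this
  · have h1 := hG i j
    have h2 := ff_le C _ _ (fun h => hij (C.rot_inj hi hj h))
    have : (G i j : ℝ) ≤ -2 := by linarith
    exact_mod_cast this
  · show L.Aw ((C.rot ^ (i + n + 1)) d0) = L.Aw ((C.rot ^ (i + 1)) d0)
    rw [show i + n + 1 = (i + 1) + n by ring, pow_add_per]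
  · show L.δ ((C.rot ^ (i + n)) d0) = L.δ ((C.rot ^ i) d0)
    rw [pow_add_per]
  · have h1 := hG i (i + 2)
    have h2 := L.kV_L ((C.rot ^ (i + 1)) d0)
    rw [← C.face_rot_inv, hrot', hrot] at h2
    have h3 : (2 - G i (i + 2) : ℝ) = L.Aw ((C.rot ^ (i + 1)) d0) * L.Aw ((C.rot ^ (i + 1 + 1)) d0) *
        L.δ ((C.rot ^ (i + 1)) d0) := by
      rw [← h1, ← h2]
    exact_mod_cast h3
  · have h1 := L.parA ((C.rot ^ (i + 1)) d0)
    rw [hrot'] at h1
    show Even (L.Aw ((C.rot ^ (i + 1)) d0) + L.δ ((C.rot ^ i) d0) + L.δ ((C.rot ^ (i + 1)) d0))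
    rw [add_right_comm]
    exact h1

theorem face_sum (d0 : D) (he : Even (per C.phi d0)) :
    ∑ i ∈ Finset.range (per C.phi d0), L.Bw ((C.phi ^ (i + 1)) d0) =
    3 * ((per C.phi d0 : ℤ) - 2) := by
  set n := per C.phi d0 with hn
  have hphi : ∀ i, C.phi ((C.phi ^ i) d0) = (C.phi ^ (i + 1)) d0 := fun i => by
    rw [pow_succ', Equiv.Perm.mul_apply]
  have hint : ∀ i j : ℕ, ∃ m : ℤ, 2 * B (C.b (C.vert (C.rev ((C.phi ^ i) d0))))
      (C.b (C.vert (C.rev ((C.phi ^ j) d0)))) = m := by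
    intro i j
    obtain ⟨m, hm⟩ := L.b3 (C.vert (C.rev ((C.phi ^ i) d0))) _
      (L.bL (C.vert (C.rev ((C.phi ^ j) d0))))
    refine ⟨m, ?_⟩
    rw [map_smul, smul_eq_mul] at hm
    have h3 : Real.sqrt 3 ≠ 0 := by positivity
    apply mul_left_cancel₀ h3
    linarith
  choose G hG using hint
  have main : ∀ c : ℕ → ℤ, (∀ i, 0 < c i) → (∀ i, c i * c (i + 1) = 3) → (∀ i, Odd (c i)) →
      (∀ i, c (i + n) = c i) →
      ∑ i ∈ Finset.range n, c i * L.Bw ((C.phi ^ (i + 1)) d0) = 6 * ((n : ℤ) - 2) := by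
    intro c c0 c1 c2 c3
    refine area3 (B.restrict (C.dual.perp (C.dual.vert d0))) (fun x y => C.symm _ _)
      (C.dual.finrank_perp (C.dual.vert d0)) n (C.dual.three_le_per_rot d0) (C.dual.aPoly d0)
      (fun i => Subtype.ext (by
        show C.b (C.vert (C.rev ((C.phi ^ (i + n)) d0))) = C.b (C.vert (C.rev ((C.phi ^ i) d0)))
        rw [pow_add_per]))
      G hG
      (fun i => ?_) (fun i => ?_) (fun i j hi hj hij => ?_)
      (fun i => c i * L.Bw ((C.phi ^ (i + 1)) d0)) (fun i => L.δ ((C.phi ^ (i + 1)) d0))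
      (fun i => ?_) (fun i => ?_) (fun i => mul_pos (c0 i) (L.Bw_pos _)) (fun i => L.δ_eq _)
      (fun i => ?_) (fun i => ?_)
    · have h1 := hG i i
      rw [C.b_unit] at h1
      have : (G i i : ℝ) = 2 := by linarith
      exact_mod_cast this
    · have h1 := hG i (i + 1)
      have h2 := C.bb_adj (C.phi ((C.phi ^ i) d0))
      rw [C.vert_phi] at h2
      rw [← hphi, h2] at h1
      have : (G i (i + 1) : ℝ) = -2 := by linarith
      exact_mod_cast this
    · have h1 := hG i j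
      have h2 := ff_le C.dual _ _ (fun h => hij (C.dual.rot_inj (d := d0) hi hj h))
      have h3 : B (C.b (C.vert (C.rev ((C.phi ^ i) d0)))) (C.b (C.vert (C.rev ((C.phi ^ j) d0)))) ≤ -1 := h2
      have : (G i j : ℝ) ≤ -2 := by linarith
      exact_mod_cast this
    · show c (i + n) * L.Bw ((C.phi ^ (i + n + 1)) d0) = c i * L.Bw ((C.phi ^ (i + 1)) d0)
      rw [show i + n + 1 = (i + 1) + n by ring, pow_add_per, c3]
    · show L.δ ((C.phi ^ (i + n + 1)) d0) = L.δ ((C.phi ^ (i + 1)) d0)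
      rw [show i + n + 1 = (i + 1) + n by ring, pow_add_per]
    · have h1 := hG i (i + 2)
      have h2 := L.kF_L ((C.phi ^ (i + 1)) d0)
      rw [hphi, C.symm] at h2
      have e : C.vert ((C.phi ^ (i + 1)) d0) = C.vert (C.rev ((C.phi ^ i) d0)) := by
        rw [← hphi, C.vert_phi]
      rw [e] at h2
      have h3 : (2 - G i (i + 2) : ℝ) = 3 * L.Bw ((C.phi ^ (i + 1)) d0) *
          L.Bw ((C.phi ^ (i + 1 + 1)) d0) * L.δ ((C.phi ^ (i + 1 + 1)) d0) := by
        rw [← h1, ← h2]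
      have h4 : 2 - G i (i + 2) = 3 * L.Bw ((C.phi ^ (i + 1)) d0) *
          L.Bw ((C.phi ^ (i + 1 + 1)) d0) * L.δ ((C.phi ^ (i + 1 + 1)) d0) := by exact_mod_cast h3
      show 2 - G i (i + 2) = c i * L.Bw ((C.phi ^ (i + 1)) d0) *
        (c (i + 1) * L.Bw ((C.phi ^ (i + 1 + 1)) d0)) * L.δ ((C.phi ^ (i + 1 + 1)) d0)
      rw [h4, ← c1 i]; ring
    · have h1 := L.parB ((C.phi ^ (i + 1)) d0)
      rw [hphi] at h1
      show Even (c i * L.Bw ((C.phi ^ (i + 1)) d0) + L.δ ((C.phi ^ (i + 1)) d0) +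
        L.δ ((C.phi ^ (i + 1 + 1)) d0))
      obtain ⟨m, hm⟩ := c2 i
      obtain ⟨l, hl⟩ := h1
      refine ⟨m * L.Bw ((C.phi ^ (i + 1)) d0) + l, ?_⟩
      rw [hm]; linarith
  have s1 := main (fun i => if Even i then 1 else 3) (fun i => by split_ifs <;> norm_num)
    (fun i => by
      by_cases h : Even i
      · have h' : ¬ Even (i + 1) := by rw [Nat.even_add_one]; exact not_not.2 h
        show (if Even i then (1 : ℤ) else 3) * (if Even (i + 1) then 1 else 3) = 3
        rw [if_pos h, if_neg h']; norm_num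
      · have h' : Even (i + 1) := by rw [Nat.even_add_one]; exact h
        show (if Even i then (1 : ℤ) else 3) * (if Even (i + 1) then 1 else 3) = 3
        rw [if_neg h, if_pos h']; norm_num)
    (fun i => by split_ifs <;> decide)
    (fun i => by
      show (if Even (i + n) then (1 : ℤ) else 3) = if Even i then 1 else 3
      have : Even (i + n) ↔ Even i := by rw [Nat.even_add]; simp [he]
      simp only [this])
  have s2 := main (fun i => if Even i then 3 else 1) (fun i => by split_ifs <;> norm_num)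
    (fun i => by
      by_cases h : Even i
      · have h' : ¬ Even (i + 1) := by rw [Nat.even_add_one]; exact not_not.2 h
        show (if Even i then (3 : ℤ) else 1) * (if Even (i + 1) then 3 else 1) = 3
        rw [if_pos h, if_neg h']; norm_num
      · have h' : Even (i + 1) := by rw [Nat.even_add_one]; exact h
        show (if Even i then (3 : ℤ) else 1) * (if Even (i + 1) then 3 else 1) = 3
        rw [if_neg h, if_pos h']; norm_num)
    (fun i => by split_ifs <;> decide)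
    (fun i => by
      show (if Even (i + n) then (3 : ℤ) else 1) = if Even i then 3 else 1
      have : Even (i + n) ↔ Even i := by rw [Nat.even_add]; simp [he]
      simp only [this])
  have s3 : ∑ i ∈ Finset.range n, (if Even i then (1 : ℤ) else 3) * L.Bw ((C.phi ^ (i + 1)) d0) +
      ∑ i ∈ Finset.range n, (if Even i then (3 : ℤ) else 1) * L.Bw ((C.phi ^ (i + 1)) d0) =
      4 * ∑ i ∈ Finset.range n, L.Bw ((C.phi ^ (i + 1)) d0) := by
    rw [← Finset.sum_add_distrib, Finset.mul_sum]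
    apply Finset.sum_congr rfl
    intro i _
    split_ifs <;> ring
  linarith

theorem sum_Aw (L : Lat3 C) : ∑ d, L.Aw d = 6 * ((Fintype.card D : ℤ) - 2 * Fintype.card V) := by
  classical
  have e0 : ∑ d, L.Aw d = ∑ d, L.Aw (C.rot d) := (Equiv.sum_comp C.rot L.Aw).symm
  have e1 : ∑ d, L.Aw (C.rot d) =
      ∑ v : V, ∑ d ∈ Finset.univ.filter (fun d => C.vert d = v), L.Aw (C.rot d) :=
    (Finset.sum_fiberwise _ _ _).symm
  have e2 : ∀ v : V, ∑ d ∈ Finset.univ.filter (fun d => C.vert d = v), L.Aw (C.rot d) =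
      6 * (((Finset.univ.filter (fun d => C.vert d = v)).card : ℤ) - 2) := by
    intro v
    obtain ⟨x, rfl⟩ := C.vert_surj v
    rw [sum_fiber C.rot C.vert C.vert_iff (fun d => L.Aw (C.rot d)) x,
      card_fiber C.rot C.vert C.vert_iff x, ← L.vert_sum x]
    apply Finset.sum_congr rfl
    intro i _
    rw [pow_succ', Equiv.Perm.mul_apply]
  rw [e0, e1, Finset.sum_congr rfl (fun v _ => e2 v), ← Finset.mul_sum, Finset.sum_sub_distrib,
    card_eq_sum C.vert]
  simp
  ring

theorem sum_Bw (L : Lat3 C) (he : ∀ d, Even (per C.phi d)) :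
    ∑ d, L.Bw d = 3 * ((Fintype.card D : ℤ) - 2 * Fintype.card F) := by
  classical
  have e0 : ∑ d, L.Bw d = ∑ d, L.Bw (C.phi d) := (Equiv.sum_comp C.phi L.Bw).symm
  have e1 : ∑ d, L.Bw (C.phi d) =
      ∑ v : F, ∑ d ∈ Finset.univ.filter (fun d => C.face d = v), L.Bw (C.phi d) :=
    (Finset.sum_fiberwise _ _ _).symm
  have e2 : ∀ v : F, ∑ d ∈ Finset.univ.filter (fun d => C.face d = v), L.Bw (C.phi d) =
      3 * (((Finset.univ.filter (fun d => C.face d = v)).card : ℤ) - 2) := by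
    intro v
    obtain ⟨x, rfl⟩ := C.face_surj v
    rw [sum_fiber C.phi C.face C.face_iff (fun d => L.Bw (C.phi d)) x,
      card_fiber C.phi C.face C.face_iff x, ← L.face_sum x (he x)]
    apply Finset.sum_congr rfl
    intro i _
    rw [pow_succ', Equiv.Perm.mul_apply]
  rw [e0, e1, Finset.sum_congr rfl (fun v _ => e2 v), ← Finset.mul_sum, Finset.sum_sub_distrib,
    card_eq_sum C.face]
  simp
  ring

end Lat3

end ArithPoly
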