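import Pool.Agent.LibArithPoly.T13b
import Pool.Agent.LibArithPoly.T14Sum
import Pool.Agent.LibArithPoly.T12Cost

/-!
# The case `d = 3`: the data at a cusp
-/

open Matrix

set_option linter.unusedSectionVars false

namespace ArithPoly

variable {V F D : Type} [Fintype V] [Fintype F] [Fintype D]
variable {W : Type} [AddCommGroup W] [Module ℝ W] {B : LinearMap.BilinForm ℝ W}

namespace Lat3

variable {C : Config B V F D} (L : Lat3 C)

theorem pos_int (e : D) (x : W) (hx : x ∈ L.L) : ∃ n : ℤ, L.pos e x = n := by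
  obtain ⟨n, hn⟩ := L.int x hx _ (L.aL (C.face e))
  exact ⟨-n, by unfold pos; push_cast; linarith⟩

/-- integral position -/
noncomputable def posz (e : D) (x : W) : ℤ := ⌊L.pos e x⌋

theorem posz_eq (e : D) (x : W) (hx : x ∈ L.L) : (L.posz e x : ℝ) = L.pos e x := by
  obtain ⟨n, hn⟩ := L.pos_int e x hx
  unfold posz
  rw [hn, Int.floor_intCast]

theorem posz_a (e : D) (f : F) : (L.posz e (C.a f) : ℝ) = L.pos e (C.a f) :=
  L.posz_eq e _ (L.aL f)

theorem posz_P (e s : D) : (L.posz e (L.P s) : ℝ) = L.pos e (L.P s) :=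
  L.posz_eq e _ (L.PL s)

open Classical in
/-- positions of the units of the side `e'` (equal to `e` or `rev e`) -/
noncomputable def US (e e' : D) : Finset ℤ :=
  (Finset.univ.filter (fun d => L.Unit e' d)).image (fun d => L.posz e (C.a (C.face d)))

open Classical in
/-- positions of the claims of the side `e'` -/
noncomputable def YS (e e' : D) : Finset ℤ :=
  (Finset.univ.filter (fun s => L.Claim s e')).image (fun s => L.posz e (L.P s))

theorem mem_US {e e' : D} {n : ℤ} :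
    n ∈ L.US e e' ↔ ∃ d, L.Unit e' d ∧ L.posz e (C.a (C.face d)) = n := by
  simp [US]

theorem mem_YS {e e' : D} {n : ℤ} : n ∈ L.YS e e' ↔ ∃ s, L.Claim s e' ∧ L.posz e (L.P s) = n := by
  simp [YS]

/-- a point of the side `e'` seen from the cusp `P e` -/
def IsPt (e e' : D) (n : ℤ) : Prop := ∃ x ∈ L.L, B x x = 0 ∧ 2 * B x (L.P e) = -1 ∧
  B x (C.b (C.vert e')) = 0 ∧ L.pos e x = n

theorem isPt_of_mem (e e' : D) (he : L.P e' = L.P e) (n : ℤ) (h : n ∈ L.US e e' ∪ L.YS e e') :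
    L.IsPt e e' n := by
  rw [Finset.mem_union, mem_US, mem_YS] at h
  rcases h with ⟨d, hd, hn⟩ | ⟨s, hs, hn⟩
  · obtain ⟨h1, h2, h3, h4, -⟩ := L.unit_point e' d hd
    rw [he] at h1 h2 h3 h4
    refine ⟨_, h1, h2, h3, h4, ?_⟩
    rw [← hn, L.posz_a]
    unfold pos
    rw [map_add, LinearMap.add_apply]
    have : B (L.P e) (C.a (C.face e)) = 0 := by rw [C.symm]; exact L.a_P0 e
    rw [this]; ring
  · obtain ⟨h1, h2⟩ := L.claim_point s e' hs
    rw [he] at h1
    exact ⟨L.P s, L.PL s, L.P_null s, h1, h2, by rw [← hn, L.posz_P]⟩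

theorem isPt_same {e : D} {m n : ℤ} (hm : L.IsPt e e m) (hn : L.IsPt e e n) : Even (m - n) := by
  obtain ⟨x, x1, x2, x3, x4, x5⟩ := hm
  obtain ⟨y, y1, y2, y3, y4, y5⟩ := hn
  obtain ⟨k, hk⟩ := L.parity_same e x y x1 y1 x2 y2 x3 y3 x4 y4
  rw [x5, y5] at hk
  have : m - n = 2 * k := by exact_mod_cast hk
  exact ⟨k, by rw [this]; ring⟩

theorem isPt_same' {e : D} {m n : ℤ} (hm : L.IsPt e (C.rev e) m) (hn : L.IsPt e (C.rev e) n) :
    Even (m - n) := by
  obtain ⟨x, x1, x2, x3, x4, x5⟩ := hm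
  obtain ⟨y, y1, y2, y3, y4, y5⟩ := hn
  obtain ⟨k, hk⟩ := L.parity_same (C.rev e) x y x1 y1 x2 y2 (by rw [L.P_rev]; exact x3)
    (by rw [L.P_rev]; exact y3) x4 y4
  rw [L.pos_rev e x x3, L.pos_rev e y y3, x5, y5] at hk
  have : m - n = 2 * (-k) := by
    have : ((m - n : ℤ) : ℝ) = ((2 * (-k) : ℤ) : ℝ) := by push_cast; linarith
    exact_mod_cast this
  exact ⟨-k, by rw [this]; ring⟩

theorem isPt_opp {e : D} {m n : ℤ} (hm : L.IsPt e e m) (hn : L.IsPt e (C.rev e) n) :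
    Even (m - n + L.Bw e) := by
  obtain ⟨x, x1, x2, x3, x4, x5⟩ := hm
  obtain ⟨y, y1, y2, y3, y4, y5⟩ := hn
  obtain ⟨k, hk⟩ := L.parity_opp e x y x1 y1 x2 y2 x3 y3 x4 y4
  rw [x5, y5] at hk
  have : m - n + L.Bw e = 2 * k := by exact_mod_cast hk
  exact ⟨k, by rw [this]; ring⟩

theorem cuspData (e : D) : CuspData (L.Aw e) (L.Bw e) (L.US e e) (L.US e (C.rev e)) (L.YS e e)
    (L.YS e (C.rev e)) where
  hA := L.Aw_pos e
  hB := L.Bw_pos e
  rS := by
    intro s hs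
    obtain ⟨d, hd, rfl⟩ := L.mem_US.1 hs
    have h := L.unit_range e d hd
    rw [← L.posz_a] at h
    exact ⟨by exact_mod_cast h.1, by exact_mod_cast h.2⟩
  rT := by
    intro s hs
    obtain ⟨d, hd, rfl⟩ := L.mem_US.1 hs
    have h := L.unit_range' e d hd
    rw [← L.posz_a] at h
    exact ⟨by exact_mod_cast h.1, by exact_mod_cast h.2⟩
  rY := by
    intro s hs
    obtain ⟨d, hd, rfl⟩ := L.mem_YS.1 hs
    have h := L.claim_range d e hd
    rw [← L.posz_P] at h
    exact ⟨by exact_mod_cast h.1, by exact_mod_cast h.2⟩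
  rZ := by
    intro s hs
    obtain ⟨d, hd, rfl⟩ := L.mem_YS.1 hs
    have h := L.claim_range' d e hd
    rw [← L.posz_P] at h
    exact ⟨by exact_mod_cast h.1, by exact_mod_cast h.2⟩
  sS := by
    intro s hs t ht hne
    obtain ⟨d, hd, rfl⟩ := L.mem_US.1 hs
    obtain ⟨d', hd', rfl⟩ := L.mem_US.1 ht
    have h := L.unit_sep e d d' hd hd' (fun h => hne (by rw [h]))
    rw [← L.posz_a, ← L.posz_a] at h
    exact_mod_cast h
  sT := by
    intro s hs t ht hne
    obtain ⟨d, hd, rfl⟩ := L.mem_US.1 hs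
    obtain ⟨d', hd', rfl⟩ := L.mem_US.1 ht
    have h := L.unit_sep' e d d' hd hd' (fun h => hne (by rw [h]))
    rw [← L.posz_a, ← L.posz_a] at h
    exact_mod_cast h
  sY := by
    intro s hs t ht hne
    obtain ⟨d, hd, rfl⟩ := L.mem_YS.1 hs
    obtain ⟨d', hd', rfl⟩ := L.mem_YS.1 ht
    have h := L.claim_sep d d' e hd hd' (fun h => hne (by rw [h]))
    rw [← L.posz_P, ← L.posz_P] at h
    exact_mod_cast h
  sZ := by
    intro s hs t ht hne
    obtain ⟨d, hd, rfl⟩ := L.mem_YS.1 hs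
    obtain ⟨d', hd', rfl⟩ := L.mem_YS.1 ht
    have h := L.claim_sep' d d' e hd hd' (fun h => hne (by rw [h]))
    rw [← L.posz_P, ← L.posz_P] at h
    exact_mod_cast h
  sSY := by
    intro s hs t ht
    obtain ⟨d, hd, rfl⟩ := L.mem_US.1 hs
    obtain ⟨d', hd', rfl⟩ := L.mem_YS.1 ht
    have h := L.claim_unit d' e d hd' hd
    rw [← L.posz_P, ← L.posz_a] at h
    exact_mod_cast h
  sTZ := by
    intro s hs t ht
    obtain ⟨d, hd, rfl⟩ := L.mem_US.1 hs
    obtain ⟨d', hd', rfl⟩ := L.mem_YS.1 ht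
    have h := L.claim_unit' d' e d hd' hd
    rw [← L.posz_P, ← L.posz_a] at h
    exact_mod_cast h
  p1 := by
    intro s hs t ht
    exact L.isPt_same (L.isPt_of_mem e e rfl s hs) (L.isPt_of_mem e e rfl t ht)
  p2 := by
    intro s hs t ht
    exact L.isPt_same' (L.isPt_of_mem e _ (L.P_rev e) s hs) (L.isPt_of_mem e _ (L.P_rev e) t ht)
  p3 := by
    intro s hs t ht
    exact L.isPt_opp (L.isPt_of_mem e e rfl s hs) (L.isPt_of_mem e _ (L.P_rev e) t ht)
  b1 := by
    intro h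
    constructor
    · rw [Finset.eq_empty_iff_forall_notMem]
      intro s hs
      obtain ⟨d, hd, -⟩ := L.mem_US.1 hs
      exact L.no_unit e d hd h
    · rw [Finset.eq_empty_iff_forall_notMem]
      intro s hs
      obtain ⟨d, hd, -⟩ := L.mem_US.1 hs
      exact L.no_unit _ d hd (by rw [L.Bw_rev, h])
  b2 := by
    intro hB s hs t ht
    obtain ⟨d, hd, rfl⟩ := L.mem_US.1 hs
    obtain ⟨d', hd', rfl⟩ := L.mem_US.1 ht
    have h := L.unit_opp e d d' hd hd' hB
    rw [← L.posz_a, ← L.posz_a] at h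
    exact_mod_cast h
  b2Z := by
    intro hB s hs t ht
    obtain ⟨d, hd, rfl⟩ := L.mem_US.1 hs
    obtain ⟨d', hd', rfl⟩ := L.mem_YS.1 ht
    have h := L.claim_unit_opp d' e d hd' hd hB
    rw [← L.posz_P, ← L.posz_a] at h
    exact_mod_cast h
  b2Y := by
    intro hB s hs t ht
    obtain ⟨d, hd, rfl⟩ := L.mem_US.1 hs
    obtain ⟨d', hd', rfl⟩ := L.mem_YS.1 ht
    have h := L.claim_unit_opp' d' e d hd' hd hB
    rw [← L.posz_P, ← L.posz_a] at h
    exact_mod_cast h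

end Lat3

end ArithPoly
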