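import Pool.Agent.LibArithPoly.Config

open scoped RealInnerProductSpace
open Matrix

namespace ArithPoly

variable {V F D : Type} [Fintype V] [Fintype F] [Fintype D]

namespace MidscribedPolyhedron

variable (P : MidscribedPolyhedron V F D)

theorem vert_ne (d : D) : P.vert (P.rev d) ≠ P.vert d := by
  intro h
  have := P.simple d (P.rev d) h.symm (by rw [P.rev_rev]; exact h)
  exact P.rev_ne d this.symm

theorem pos_inj : Function.Injective P.pos := P.convexIndependent.injective

/-- the tangency point of an edge -/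
noncomputable def tp (d : D) : E3 := (P.tangent d).choose

theorem tp_mem (d : D) : P.tp d ∈ openSegment ℝ (P.pos (P.vert d)) (P.pos (P.vert (P.rev d))) :=
  (P.tangent d).choose_spec.1

theorem tp_norm (d : D) : ‖P.tp d‖ = 1 := (P.tangent d).choose_spec.2.1

theorem tp_orth (d : D) : ⟪P.tp d, P.pos (P.vert (P.rev d)) - P.pos (P.vert d)⟫ = 0 :=
  (P.tangent d).choose_spec.2.2

theorem tp_inner_self (d : D) : ⟪P.tp d, P.tp d⟫ = 1 := by
  rw [real_inner_self_eq_norm_sq, P.tp_norm]; norm_num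

/-- parameters of the tangency point -/
theorem tp_param (d : D) : ∃ t : ℝ, 0 < t ∧ t < 1 ∧
    P.tp d = (1 - t) • P.pos (P.vert d) + t • P.pos (P.vert (P.rev d)) := by
  obtain ⟨a, b, ha, hb, hab, h⟩ := P.tp_mem d
  refine ⟨b, hb, by linarith, ?_⟩
  rw [← h]; congr 2; linarith

theorem tp_inner_vert (d : D) : ⟪P.tp d, P.pos (P.vert d)⟫ = 1 := by
  obtain ⟨t, ht0, ht1, h⟩ := P.tp_param d
  have h1 : P.pos (P.vert d) = P.tp d - t • (P.pos (P.vert (P.rev d)) - P.pos (P.vert d)) := by
    rw [h]; module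
  rw [h1, inner_sub_right, inner_smul_right, P.tp_orth, P.tp_inner_self]; ring

theorem tp_inner_vert' (d : D) : ⟪P.tp d, P.pos (P.vert (P.rev d))⟫ = 1 := by
  have h := P.tp_orth d
  rw [inner_sub_right, P.tp_inner_vert] at h
  linarith

theorem pos_ne (d : D) : P.pos (P.vert (P.rev d)) - P.pos (P.vert d) ≠ 0 := by
  intro h
  exact P.vert_ne d (P.pos_inj (sub_eq_zero.mp h))

theorem tp_rev (d : D) : P.tp (P.rev d) = P.tp d := by
  obtain ⟨t, ht0, ht1, h⟩ := P.tp_param d
  obtain ⟨s, hs0, hs1, h'⟩ := P.tp_param (P.rev d)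
  rw [P.rev_rev] at h'
  set v := P.pos (P.vert d)
  set w := P.pos (P.vert (P.rev d))
  have o1 : ⟪P.tp d, w - v⟫ = 0 := P.tp_orth d
  have o2 : ⟪P.tp (P.rev d), w - v⟫ = 0 := by
    have := P.tp_orth (P.rev d)
    rw [P.rev_rev] at this
    rw [← neg_sub, inner_neg_right]
    simpa using this
  have e : P.tp (P.rev d) - P.tp d = (1 - s - t) • (w - v) := by
    rw [h, h']; module
  have h3 : ⟪P.tp (P.rev d) - P.tp d, w - v⟫ = 0 := by
    rw [inner_sub_left, o1, o2]; ring
  rw [e, real_inner_smul_left] at h3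
  have hne : ⟪w - v, w - v⟫ ≠ 0 := by
    rw [real_inner_self_eq_norm_sq]
    have := P.pos_ne d
    positivity
  have h4 : 1 - s - t = 0 := by
    rcases mul_eq_zero.mp h3 with h | h
    · exact h
    · exact absurd h hne
  rw [h4, zero_smul] at e
  exact sub_eq_zero.mp e

theorem aux_inner (p u : E3) (s t : ℝ) (hp : ⟪p, p⟫ = 1) (ho : ⟪p, u⟫ = 0) :
    ⟪p + s • u, p + t • u⟫ = 1 + s * t * ⟪u, u⟫ := by
  have ho' : ⟪u, p⟫ = 0 := by rw [real_inner_comm]; exact ho
  simp only [inner_add_left, inner_add_right, real_inner_smul_left, real_inner_smul_right, hp, ho,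
    ho']
  ring

/-- norm computations at an edge -/
theorem edge_calc (d : D) : ∃ s t : ℝ, 0 < s ∧ 0 < t ∧
    ⟪P.pos (P.vert d), P.pos (P.vert d)⟫ - 1 = s ^ 2 ∧
    ⟪P.pos (P.vert (P.rev d)), P.pos (P.vert (P.rev d))⟫ - 1 = t ^ 2 ∧
    (s + t) • P.tp d = t • P.pos (P.vert d) + s • P.pos (P.vert (P.rev d)) := by
  obtain ⟨t, ht0, ht1, h⟩ := P.tp_param d
  have hn := P.pos_ne d
  have o1 := P.tp_orth d
  have o2 := P.tp_inner_self d
  obtain ⟨u, hu⟩ : ∃ u, u = P.pos (P.vert (P.rev d)) - P.pos (P.vert d) := ⟨_, rfl⟩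
  rw [← hu] at hn o1
  have hL0 : 0 < ‖u‖ := norm_pos_iff.mpr hn
  have hv : P.pos (P.vert d) = P.tp d + (-t) • u := by rw [hu, h]; module
  have hw : P.pos (P.vert (P.rev d)) = P.tp d + (1 - t) • u := by rw [hu, h]; module
  have hLL : ⟪u, u⟫ = ‖u‖ ^ 2 := real_inner_self_eq_norm_sq _
  refine ⟨t * ‖u‖, (1 - t) * ‖u‖, by positivity, mul_pos (by linarith) hL0, ?_, ?_, ?_⟩
  · rw [hv, aux_inner _ _ _ _ o2 o1, hLL]; ring
  · rw [hw, aux_inner _ _ _ _ o2 o1, hLL]; ring
  · rw [hw, hv]; module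

/-- the lift of a vertex to Minkowski space -/
noncomputable def xv (v : V) : Mink := (P.pos v, 1)
/-- the lift of a face -/
noncomputable def yf (f : F) : Mink := (P.normal f, P.offset f)
/-- the lift of a tangency point -/
noncomputable def np (d : D) : Mink := (P.tp d, 1)

theorem lor_yf_xv (f : F) (v : V) : lor (P.yf f) (P.xv v) = ⟪P.normal f, P.pos v⟫ - P.offset f := by
  simp [lor, yf, xv]

theorem lor_yf_xv_nonpos (f : F) (v : V) : lor (P.yf f) (P.xv v) ≤ 0 := by
  rw [lor_yf_xv]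
  by_cases h : P.Inc f v
  · rw [P.on_plane f v h]; linarith
  · have := P.below_plane f v h; linarith

theorem lor_yf_xv_eq (f : F) (v : V) : lor (P.yf f) (P.xv v) = 0 ↔ P.Inc f v := by
  rw [lor_yf_xv]
  constructor
  · intro h
    by_contra hc
    have := P.below_plane f v hc; linarith
  · intro h
    rw [P.on_plane f v h]; ring

theorem lor_np_self (d : D) : lor (P.np d) (P.np d) = 0 := by
  simp [lor, np, P.tp_norm]

theorem lor_xv_self (v : V) : lor (P.xv v) (P.xv v) = ⟪P.pos v, P.pos v⟫ - 1 := by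
  simp [lor, xv]

theorem lor_xv_pos (v : V) : 0 < lor (P.xv v) (P.xv v) := by
  obtain ⟨d, rfl⟩ := P.vert_surj v
  obtain ⟨s, t, hs, ht, h1, h2, h3⟩ := P.edge_calc d
  rw [lor_xv_self, h1]; positivity

theorem inc_face_vert (d : D) : P.Inc (P.face d) (P.vert d) := ⟨d, rfl, rfl⟩

theorem vert_phi (d : D) : P.vert ((P.rot⁻¹ * P.rev) d) = P.vert (P.rev d) := by
  rw [P.vert_iff]
  refine ⟨1, ?_⟩
  simp

theorem face_phi (d : D) : P.face ((P.rot⁻¹ * P.rev) d) = P.face d := by
  rw [P.face_iff]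
  refine ⟨-1, ?_⟩
  simp

theorem inc_face_vert' (d : D) : P.Inc (P.face d) (P.vert (P.rev d)) :=
  ⟨(P.rot⁻¹ * P.rev) d, P.face_phi d, P.vert_phi d⟩

theorem inc_face_rev (d : D) : P.Inc (P.face (P.rev d)) (P.vert d) := by
  have := P.inc_face_vert' (P.rev d)
  rwa [P.rev_rev] at this

theorem np_eq (d : D) : ∃ s t : ℝ, 0 < s ∧ 0 < t ∧
    lor (P.xv (P.vert d)) (P.xv (P.vert d)) = s ^ 2 ∧
    lor (P.xv (P.vert (P.rev d))) (P.xv (P.vert (P.rev d))) = t ^ 2 ∧
    (s + t) • P.np d = t • P.xv (P.vert d) + s • P.xv (P.vert (P.rev d)) := by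
  obtain ⟨s, t, hs, ht, h1, h2, h3⟩ := P.edge_calc d
  refine ⟨s, t, hs, ht, ?_, ?_, ?_⟩
  · rw [lor_xv_self, h1]
  · rw [lor_xv_self, h2]
  · simp only [np, xv, Prod.smul_mk, Prod.mk_add_mk, h3]
    congr 1; simp; ring

theorem lor_xv_np (d : D) : lor (P.xv (P.vert d)) (P.np d) = 0 := by
  have := P.tp_inner_vert d
  simp only [lor, xv, np, real_inner_comm, this]; ring

theorem lor_xv_np' (d : D) : lor (P.xv (P.vert (P.rev d))) (P.np d) = 0 := by
  have := P.tp_inner_vert' d
  simp only [lor, xv, np, real_inner_comm, this]; ring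

theorem exists_inc_not (f g : F) (h : f ≠ g) : ∃ v, P.Inc f v ∧ ¬ P.Inc g v := by
  by_contra hc
  push Not at hc
  exact h (P.face_ext f g hc)

/-- three distinct vertices are not collinear -/
theorem not_collinear (u v w : V) (huv : u ≠ v) (huw : u ≠ w) (hvw : v ≠ w) (α β : ℝ)
    (hab : α + β = 1) : P.pos u ≠ α • P.pos v + β • P.pos w := by
  have key : ∀ (a b c : V) (s t : ℝ), a ≠ b → a ≠ c → 0 ≤ s → 0 ≤ t → s + t = 1 →
      P.pos a ≠ s • P.pos b + t • P.pos c := by
    intro a b c s t hab hac hs ht hst h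
    have h1 : P.pos a ∈ convexHull ℝ (P.pos '' {b, c}) := by
      rw [Set.image_pair, convexHull_pair, h]
      exact ⟨s, t, hs, ht, hst, rfl⟩
    have := P.convexIndependent {b, c} a h1
    rcases this with h | h
    · exact hab h
    · exact hac h
  intro h
  by_cases ha : 0 ≤ α
  · by_cases hb : 0 ≤ β
    · exact key u v w α β huv huw ha hb hab h
    · push Not at hb
      have hα : 0 < α := by linarith
      refine key v u w (1 / α) (-β / α) huv.symm hvw (by positivity)
        (div_nonneg (by linarith) hα.le) (by field_simp; linarith) ?_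
      rw [h]
      rw [smul_add, smul_smul, smul_smul, add_assoc, ← add_smul]
      rw [show 1 / α * α = 1 by field_simp, show 1 / α * β + -β / α = 0 by ring]
      simp
  · push Not at ha
    have hβ : 0 < β := by linarith
    refine key w u v (1 / β) (-α / β) huw.symm hvw.symm (by positivity)
      (div_nonneg (by linarith) hβ.le) (by field_simp; linarith) ?_
    rw [h]
    rw [smul_add, smul_smul, smul_smul, add_comm ((1 / β * α) • P.pos v), add_assoc, ← add_smul]
    rw [show 1 / β * β = 1 by field_simp, show 1 / β * α + -α / β = 0 by ring]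
    simp

theorem finrank_mink : Module.finrank ℝ Mink = 4 := by
  simp [Mink, E3]

/-- the only common vertices of the two faces at an edge are the ends of the edge -/
theorem common (d : D) (u : V) (h1 : P.Inc (P.face d) u) (h2 : P.Inc (P.face (P.rev d)) u) :
    u = P.vert d ∨ u = P.vert (P.rev d) := by
  by_contra hc0
  push Not at hc0
  obtain ⟨u1, hu1, hu1'⟩ := P.exists_inc_not _ _ (P.face_ne d).symm
  obtain ⟨u2, hu2, hu2'⟩ := P.exists_inc_not _ _ (P.face_ne d)
  set v := P.vert d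
  set w := P.vert (P.rev d)
  set f := P.face d
  set g := P.face (P.rev d)
  have fv : lor (P.yf f) (P.xv v) = 0 := (P.lor_yf_xv_eq _ _).2 (P.inc_face_vert d)
  have fw : lor (P.yf f) (P.xv w) = 0 := (P.lor_yf_xv_eq _ _).2 (P.inc_face_vert' d)
  have gv : lor (P.yf g) (P.xv v) = 0 := (P.lor_yf_xv_eq _ _).2 (P.inc_face_rev d)
  have gw : lor (P.yf g) (P.xv w) = 0 := (P.lor_yf_xv_eq _ _).2 (P.inc_face_vert (P.rev d))
  have fu : lor (P.yf f) (P.xv u) = 0 := (P.lor_yf_xv_eq _ _).2 h1
  have gu : lor (P.yf g) (P.xv u) = 0 := (P.lor_yf_xv_eq _ _).2 h2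
  have f1 : lor (P.yf f) (P.xv u1) = 0 := (P.lor_yf_xv_eq _ _).2 hu1
  have g2 : lor (P.yf g) (P.xv u2) = 0 := (P.lor_yf_xv_eq _ _).2 hu2
  have g1 : lor (P.yf g) (P.xv u1) ≠ 0 := fun h => hu1' ((P.lor_yf_xv_eq _ _).1 h)
  have f2 : lor (P.yf f) (P.xv u2) ≠ 0 := fun h => hu2' ((P.lor_yf_xv_eq _ _).1 h)
  have hvw : P.pos w - P.pos v ≠ 0 := P.pos_ne d
  have hli : LinearIndependent ℝ ![P.xv v, P.xv w, P.xv u1, P.xv u2] := by
    rw [Fintype.linearIndependent_iff]
    intro c hc
    simp only [Fin.sum_univ_four, cons_val_zero, cons_val_one, cons_val] at hc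
    have e1 : lor (P.yf f) (c 0 • P.xv v + c 1 • P.xv w + c 2 • P.xv u1 + c 3 • P.xv u2) = 0 := by
      rw [hc]; simp [lor]
    have e2 : lor (P.yf g) (c 0 • P.xv v + c 1 • P.xv w + c 2 • P.xv u1 + c 3 • P.xv u2) = 0 := by
      rw [hc]; simp [lor]
    simp only [lor_add_right, lor_smul_right, fv, fw, f1, gv, gw, g2, mul_zero, zero_add,
      add_zero] at e1 e2
    have c3 : c 3 = 0 := by
      rcases mul_eq_zero.mp e1 with h | h
      · exact h
      · exact absurd h f2
    have c2 : c 2 = 0 := by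
      rcases mul_eq_zero.mp e2 with h | h
      · exact h
      · exact absurd h g1
    rw [c2, c3] at hc
    simp only [zero_smul, add_zero] at hc
    have hc1 := congrArg Prod.fst hc
    have hc2 := congrArg Prod.snd hc
    simp only [xv, Prod.smul_mk, Prod.mk_add_mk, Prod.fst_zero, Prod.snd_zero, smul_eq_mul,
      mul_one] at hc1 hc2
    have h0 : c 0 = - c 1 := by linarith
    rw [h0] at hc1
    have h5 : c 1 • (P.pos w - P.pos v) = 0 := by rw [← hc1]; module
    have c1 : c 1 = 0 := by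
      rcases smul_eq_zero.mp h5 with h | h
      · exact h
      · exact absurd h hvw
    have c0 : c 0 = 0 := by rw [h0, c1]; simp
    intro i
    fin_cases i
    · exact c0
    · exact c1
    · exact c2
    · exact c3
  have hspan : P.xv u ∈ Submodule.span ℝ (Set.range ![P.xv v, P.xv w, P.xv u1, P.xv u2]) := by
    rw [hli.span_eq_top_of_card_eq_finrank (by simp)]
    trivial
  rw [Submodule.mem_span_range_iff_exists_fun] at hspan
  obtain ⟨c, hc⟩ := hspan
  simp only [Fin.sum_univ_four, cons_val_zero, cons_val_one, cons_val] at hc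
  have e1 := congrArg (lor (P.yf f)) hc
  have e2 := congrArg (lor (P.yf g)) hc
  simp only [lor_add_right, lor_smul_right, fv, fw, f1, gv, gw, g2, mul_zero, zero_add,
      add_zero, fu, gu] at e1 e2
  have c3 : c 3 = 0 := by
    rcases mul_eq_zero.mp e1 with h | h
    · exact h
    · exact absurd h f2
  have c2 : c 2 = 0 := by
    rcases mul_eq_zero.mp e2 with h | h
    · exact h
    · exact absurd h g1
  rw [c2, c3] at hc
  simp only [zero_smul, add_zero] at hc
  have hc1 := congrArg Prod.fst hc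
  have hc2 := congrArg Prod.snd hc
  simp only [xv, Prod.smul_mk, Prod.mk_add_mk, smul_eq_mul, mul_one] at hc1 hc2
  exact P.not_collinear u v w hc0.1 hc0.2 (P.vert_ne d).symm (c 0) (c 1) hc2 hc1.symm

theorem lor_yf_np (d : D) : lor (P.yf (P.face d)) (P.np d) = 0 := by
  obtain ⟨s, t, hs, ht, -, -, h⟩ := P.np_eq d
  have h1 := congrArg (lor (P.yf (P.face d))) h
  rw [lor_smul_right, lor_add_right, lor_smul_right, lor_smul_right,
    (P.lor_yf_xv_eq _ _).2 (P.inc_face_vert d), (P.lor_yf_xv_eq _ _).2 (P.inc_face_vert' d)] at h1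
  have : s + t ≠ 0 := by positivity
  simpa [this] using h1

theorem np_rev (d : D) : P.np (P.rev d) = P.np d := by simp only [np, P.tp_rev]

theorem lor_yf_np' (d : D) : lor (P.yf (P.face (P.rev d))) (P.np d) = 0 := by
  rw [← P.np_rev]; exact P.lor_yf_np _

theorem lor_yf_np_nonpos (f : F) (d : D) : lor (P.yf f) (P.np d) ≤ 0 := by
  obtain ⟨s, t, hs, ht, -, -, h⟩ := P.np_eq d
  have h1 := congrArg (lor (P.yf f)) h
  rw [lor_smul_right, lor_add_right, lor_smul_right, lor_smul_right] at h1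
  have h2 := mul_nonpos_of_nonneg_of_nonpos ht.le (P.lor_yf_xv_nonpos f (P.vert d))
  have h3 := mul_nonpos_of_nonneg_of_nonpos hs.le (P.lor_yf_xv_nonpos f (P.vert (P.rev d)))
  by_contra hc
  push Not at hc
  have : 0 < (s + t) * lor (P.yf f) (P.np d) := by positivity
  linarith

theorem inc_of_lor_np (f : F) (d : D) (h0 : lor (P.yf f) (P.np d) = 0) :
    P.Inc f (P.vert d) ∧ P.Inc f (P.vert (P.rev d)) := by
  obtain ⟨s, t, hs, ht, -, -, h⟩ := P.np_eq d
  have h1 := congrArg (lor (P.yf f)) h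
  rw [lor_smul_right, lor_add_right, lor_smul_right, lor_smul_right, h0, mul_zero] at h1
  have h2 := P.lor_yf_xv_nonpos f (P.vert d)
  have h3 := P.lor_yf_xv_nonpos f (P.vert (P.rev d))
  constructor
  · rw [← P.lor_yf_xv_eq]; nlinarith
  · rw [← P.lor_yf_xv_eq]; nlinarith

theorem ends_eq (d e : D)
    (h1 : P.vert e = P.vert d ∨ P.vert e = P.vert (P.rev d))
    (h2 : P.vert (P.rev e) = P.vert d ∨ P.vert (P.rev e) = P.vert (P.rev d)) :
    e = d ∨ e = P.rev d := by
  have h3 := P.vert_ne e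
  rcases h1 with h1 | h1 <;> rcases h2 with h2 | h2
  · exact absurd (h2.trans h1.symm) h3
  · left; exact P.simple _ _ h1 h2
  · right; exact P.simple _ _ h1 (by rw [P.rev_rev]; exact h2)
  · exact absurd (h2.trans h1.symm) h3

theorem tp_eq_imp (d e : D) (h : P.tp d = P.tp e) : e = d ∨ e = P.rev d := by
  have hn : P.np d = P.np e := by simp only [np, h]
  have h1 := P.lor_yf_np d
  have h2 := P.lor_yf_np' d
  rw [hn] at h1 h2
  have i1 := P.inc_of_lor_np _ _ h1
  have i2 := P.inc_of_lor_np _ _ h2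
  exact P.ends_eq d e (P.common d _ i1.1 i2.1) (P.common d _ i1.2 i2.2)

theorem lor_np_np_neg (d e : D) (h1 : e ≠ d) (h2 : e ≠ P.rev d) :
    lor (P.np d) (P.np e) < 0 := by
  have hne : P.tp d ≠ P.tp e := by
    intro h
    rcases P.tp_eq_imp d e h with h | h
    · exact h1 h
    · exact h2 h
  have : ⟪P.tp d, P.tp e⟫ < 1 :=
    inner_lt_one_iff_real_of_norm_eq_one (P.tp_norm d) (P.tp_norm e) |>.2 hne
  simp only [lor, np]; linarith

/-- the next vertex along a face is strictly below the tangent plane at `tp d` -/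
theorem next_vert (d : D) : ∃ u, P.Inc (P.face d) u ∧ lor (P.np d) (P.xv u) < 0 := by
  set e := (P.rot⁻¹ * P.rev) d with he
  have hf : P.face e = P.face d := P.face_phi d
  have hv : P.vert e = P.vert (P.rev d) := P.vert_phi d
  have h1 : e ≠ d := by
    intro h; rw [h] at hv; exact P.vert_ne d hv.symm
  have h2 : e ≠ P.rev d := by
    intro h; rw [h] at hf; exact P.face_ne d hf
  have h3 := P.lor_np_np_neg d e h1 h2
  refine ⟨P.vert (P.rev e), ?_, ?_⟩
  · rw [← hf]; exact P.inc_face_vert' e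
  · obtain ⟨s, t, hs, ht, -, -, h⟩ := P.np_eq e
    have h4 := congrArg (lor (P.np d)) h
    rw [lor_smul_right, lor_add_right, lor_smul_right, lor_smul_right, hv, lor_comm (P.np d)
      (P.xv (P.vert (P.rev d))), P.lor_xv_np', mul_zero, zero_add] at h4
    have : (s + t) * lor (P.np d) (P.np e) < 0 := by nlinarith
    by_contra hc
    push Not at hc
    nlinarith

/-- the plane of a face cuts the sphere -/
theorem lor_yf_pos (f : F) : 0 < lor (P.yf f) (P.yf f) := by
  obtain ⟨d, rfl⟩ := P.face_surj f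
  have h0 := P.lor_yf_np d
  have hn : ⟪P.normal (P.face d), P.tp d⟫ = P.offset (P.face d) := by
    have := h0; simp only [lor, yf, np, mul_one] at this; linarith
  obtain ⟨m, hm⟩ : ∃ m, m = P.normal (P.face d) - P.offset (P.face d) • P.tp d := ⟨_, rfl⟩
  have h1 : lor (P.yf (P.face d)) (P.yf (P.face d)) = ⟪m, m⟫ := by
    simp only [lor, yf]
    rw [hm]
    simp only [inner_sub_left, inner_sub_right, real_inner_smul_left, real_inner_smul_right,
      P.tp_inner_self, hn, real_inner_comm (P.normal (P.face d)) (P.tp d)]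
    ring
  rw [h1]
  have hm0 : m ≠ 0 := by
    intro h
    rw [hm, sub_eq_zero] at h
    -- the plane is tangent
    obtain ⟨u, hu, hu'⟩ := P.next_vert d
    have h2 : lor (P.yf (P.face d)) (P.xv u) = 0 := (P.lor_yf_xv_eq _ _).2 hu
    have h3 : P.yf (P.face d) = P.offset (P.face d) • P.np d := by
      simp only [yf, np, Prod.smul_mk, smul_eq_mul, mul_one]
      rw [← h]
    rw [h3, lor_smul_left] at h2
    have h4 : P.offset (P.face d) = 0 := by
      rcases mul_eq_zero.mp h2 with h | h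
      · exact h
      · linarith
    -- then the functional is zero
    obtain ⟨u1, hu1, hu1'⟩ := P.exists_inc_not _ _ (P.face_ne d)
    apply hu1'
    rw [← P.lor_yf_xv_eq, h3, h4]
    simp [lor]
  rw [real_inner_self_eq_norm_sq]
  positivity

/-- the vectors orthogonal to two given orthogonal vectors form a line -/
theorem line_aux (p u m n : E3) (hp : p ≠ 0) (hu : u ≠ 0) (hpu : ⟪p, u⟫ = 0) (hm : m ≠ 0)
    (h1 : ⟪p, m⟫ = 0) (h2 : ⟪u, m⟫ = 0) (h3 : ⟪p, n⟫ = 0) (h4 : ⟪u, n⟫ = 0) :
    ∃ c : ℝ, n = c • m := by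
  set K : Submodule ℝ E3 := Submodule.span ℝ (Set.range ![p, u]) with hK
  have hli : LinearIndependent ℝ ![p, u] := by
    rw [LinearIndependent.pair_iff]
    intro s t hst
    have e1 := congrArg (fun x => ⟪p, x⟫) hst
    have e2 := congrArg (fun x => ⟪u, x⟫) hst
    simp only [inner_add_right, real_inner_smul_right, hpu, real_inner_comm p u,
      inner_zero_right, mul_zero, add_zero, zero_add] at e1 e2
    have p0 : ⟪p, p⟫ ≠ 0 := by rw [real_inner_self_eq_norm_sq]; positivity
    have u0 : ⟪u, u⟫ ≠ 0 := by rw [real_inner_self_eq_norm_sq]; positivity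
    constructor
    · rcases mul_eq_zero.mp e1 with h | h
      · exact h
      · exact absurd h p0
    · rcases mul_eq_zero.mp e2 with h | h
      · exact h
      · exact absurd h u0
  have hr : Module.finrank ℝ K = 2 := by
    rw [hK, finrank_span_eq_card hli]; simp
  have hr' : Module.finrank ℝ Kᗮ = 1 := by
    have := Submodule.finrank_add_finrank_orthogonal K
    rw [hr] at this
    simp at this
    omega
  have mem : ∀ x : E3, ⟪p, x⟫ = 0 → ⟪u, x⟫ = 0 → x ∈ Kᗮ := by
    intro x hx1 hx2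
    rw [Submodule.mem_orthogonal]
    intro y hy
    induction hy using Submodule.span_induction with
    | mem y hy =>
      obtain ⟨i, rfl⟩ := hy
      fin_cases i
      · exact hx1
      · exact hx2
    | zero => simp
    | add a b _ _ ha hb => rw [inner_add_left, ha, hb]; simp
    | smul c a _ ha => rw [real_inner_smul_left, ha]; simp
  obtain ⟨c, hc⟩ := exists_smul_eq_of_finrank_eq_one hr' (x := (⟨m, mem m h1 h2⟩ : Kᗮ))
    (by intro h; exact hm (congrArg Subtype.val h)) ⟨n, mem n h3 h4⟩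
  exact ⟨c, (congrArg Subtype.val hc).symm⟩

/-- a vector orthogonal to both ends of an edge is a combination of the face vector and the
tangency vector -/
theorem two_dim (d : D) (z : Mink) (h1 : lor z (P.xv (P.vert d)) = 0)
    (h2 : lor z (P.xv (P.vert (P.rev d))) = 0) :
    ∃ α β : ℝ, z = α • P.yf (P.face d) + β • P.np d := by
  obtain ⟨n, h⟩ := z
  simp only [lor, xv, mul_one] at h1 h2
  have hp := P.tp_inner_self d
  have hv := P.tp_inner_vert d
  have hw := P.tp_inner_vert' d
  have hpu := P.tp_orth d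
  have hu := P.pos_ne d
  -- n is orthogonal to the edge
  have n1 : ⟪n, P.pos (P.vert (P.rev d)) - P.pos (P.vert d)⟫ = 0 := by
    rw [inner_sub_right]; linarith
  have n2 : ⟪n, P.tp d⟫ = h := by
    obtain ⟨t, -, -, ht⟩ := P.tp_param d
    rw [ht, inner_add_right, real_inner_smul_right, real_inner_smul_right]
    linear_combination (1 - t) * h1 + t * h2
  have f0 := P.lor_yf_np d
  have f1 : ⟪P.normal (P.face d), P.tp d⟫ = P.offset (P.face d) := by
    have := f0; simp only [lor, yf, np, mul_one] at this; linarith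
  have f2 : ⟪P.normal (P.face d), P.pos (P.vert (P.rev d)) - P.pos (P.vert d)⟫ = 0 := by
    rw [inner_sub_right, P.on_plane _ _ (P.inc_face_vert d), P.on_plane _ _ (P.inc_face_vert' d)]
    ring
  obtain ⟨m, hm⟩ : ∃ m, m = P.normal (P.face d) - P.offset (P.face d) • P.tp d := ⟨_, rfl⟩
  have hm0 : m ≠ 0 := by
    intro hm0
    have h5 := P.lor_yf_pos (P.face d)
    have h6 : P.normal (P.face d) = P.offset (P.face d) • P.tp d := by
      rw [hm0] at hm; exact (sub_eq_zero.mp hm.symm)
    simp only [lor, yf, h6, real_inner_smul_left, real_inner_smul_right, hp] at h5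
    linarith
  obtain ⟨c, hc⟩ := line_aux (P.tp d) (P.pos (P.vert (P.rev d)) - P.pos (P.vert d)) m
    (n - h • P.tp d) (by intro h; rw [h] at hp; simp at hp) hu hpu hm0
    (by rw [hm, inner_sub_right, real_inner_smul_right, hp, real_inner_comm, f1]; ring)
    (by rw [hm, inner_sub_right, real_inner_smul_right, real_inner_comm, f2,
          real_inner_comm, hpu]; ring)
    (by rw [inner_sub_right, real_inner_smul_right, hp, real_inner_comm, n2]; ring)
    (by rw [inner_sub_right, real_inner_smul_right, real_inner_comm, n1,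
          real_inner_comm, hpu]; ring)
  refine ⟨c, h - c * P.offset (P.face d), ?_⟩
  have hn : n = c • m + h • P.tp d := by rw [← hc]; module
  simp only [yf, np, Prod.smul_mk, Prod.mk_add_mk, smul_eq_mul, mul_one]
  refine Prod.ext ?_ ?_
  · show n = _
    rw [hn, hm]; module
  · show h = _
    ring

/-- unit normal vector of a face -/
noncomputable def ua (f : F) : Mink := (Real.sqrt (lor (P.yf f) (P.yf f)))⁻¹ • P.yf f
/-- unit vector of a vertex -/
noncomputable def ub (v : V) : Mink := (Real.sqrt (lor (P.xv v) (P.xv v)))⁻¹ • P.xv v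

theorem sqa_pos (f : F) : 0 < Real.sqrt (lor (P.yf f) (P.yf f)) := Real.sqrt_pos.2 (P.lor_yf_pos f)
theorem sqb_pos (v : V) : 0 < Real.sqrt (lor (P.xv v) (P.xv v)) := Real.sqrt_pos.2 (P.lor_xv_pos v)

theorem ua_unit (f : F) : lor (P.ua f) (P.ua f) = 1 := by
  have h := P.lor_yf_pos f
  have h2 := Real.sq_sqrt h.le
  have h3 := P.sqa_pos f
  simp only [ua, lor_smul_left, lor_smul_right]
  field_simp
  linarith

theorem ub_unit (v : V) : lor (P.ub v) (P.ub v) = 1 := by
  have h := P.lor_xv_pos v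
  have h2 := Real.sq_sqrt h.le
  have h3 := P.sqb_pos v
  simp only [ub, lor_smul_left, lor_smul_right]
  field_simp
  linarith

theorem yf_eq (f : F) : P.yf f = Real.sqrt (lor (P.yf f) (P.yf f)) • P.ua f := by
  rw [ua, smul_smul, mul_inv_cancel₀ (P.sqa_pos f).ne', one_smul]

theorem xv_eq (v : V) : P.xv v = Real.sqrt (lor (P.xv v) (P.xv v)) • P.ub v := by
  rw [ub, smul_smul, mul_inv_cancel₀ (P.sqb_pos v).ne', one_smul]

theorem ua_xv_nonpos (f : F) (v : V) : lor (P.ua f) (P.xv v) ≤ 0 := by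
  rw [ua, lor_smul_left]
  exact mul_nonpos_of_nonneg_of_nonpos (inv_nonneg.2 (P.sqa_pos f).le) (P.lor_yf_xv_nonpos f v)

theorem ua_xv_eq (f : F) (v : V) : lor (P.ua f) (P.xv v) = 0 ↔ P.Inc f v := by
  rw [ua, lor_smul_left, mul_eq_zero, P.lor_yf_xv_eq]
  constructor
  · rintro (h | h)
    · exact absurd h (inv_ne_zero (P.sqa_pos f).ne')
    · exact h
  · intro h; exact Or.inr h

theorem ua_ub_nonpos (f : F) (v : V) : lor (P.ua f) (P.ub v) ≤ 0 := by
  rw [ub, lor_smul_right]
  exact mul_nonpos_of_nonneg_of_nonpos (inv_nonneg.2 (P.sqb_pos v).le) (P.ua_xv_nonpos f v)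

theorem ua_ub_eq (f : F) (v : V) : lor (P.ua f) (P.ub v) = 0 ↔ P.Inc f v := by
  rw [ub, lor_smul_right, mul_eq_zero, P.ua_xv_eq]
  constructor
  · rintro (h | h)
    · exact absurd h (inv_ne_zero (P.sqb_pos v).ne')
    · exact h
  · intro h; exact Or.inr h

theorem ua_np (d : D) : lor (P.ua (P.face d)) (P.np d) = 0 := by
  rw [ua, lor_smul_left, P.lor_yf_np, mul_zero]

theorem ua_np' (d : D) : lor (P.ua (P.face (P.rev d))) (P.np d) = 0 := by
  rw [ua, lor_smul_left, P.lor_yf_np', mul_zero]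

theorem ua_np_nonpos (f : F) (d : D) : lor (P.ua f) (P.np d) ≤ 0 := by
  rw [ua, lor_smul_left]
  exact mul_nonpos_of_nonneg_of_nonpos (inv_nonneg.2 (P.sqa_pos f).le) (P.lor_yf_np_nonpos f d)

/-- `b v + b w` is a positive multiple of the tangency vector -/
theorem sum_ub (d : D) : ∃ c : ℝ, 0 < c ∧ P.ub (P.vert d) + P.ub (P.vert (P.rev d)) = c • P.np d := by
  obtain ⟨s, t, hs, ht, h1, h2, h3⟩ := P.np_eq d
  have e1 : Real.sqrt (lor (P.xv (P.vert d)) (P.xv (P.vert d))) = s := by
    rw [h1, Real.sqrt_sq hs.le]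
  have e2 : Real.sqrt (lor (P.xv (P.vert (P.rev d))) (P.xv (P.vert (P.rev d)))) = t := by
    rw [h2, Real.sqrt_sq ht.le]
  refine ⟨(s + t) / (s * t), by positivity, ?_⟩
  rw [ub, ub, e1, e2]
  have h4 : P.np d = (s + t)⁻¹ • (t • P.xv (P.vert d) + s • P.xv (P.vert (P.rev d))) := by
    rw [← h3, smul_smul, inv_mul_cancel₀ (by positivity), one_smul]
  rw [h4, smul_smul, smul_add, smul_smul, smul_smul]
  have hst : s + t ≠ 0 := by positivity
  congr 2
  · field_simp
  · field_simp

/-- unit vectors orthogonal to both ends of an edge -/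
theorem two_dim_unit (d : D) (g : F) (h1 : P.Inc g (P.vert d)) (h2 : P.Inc g (P.vert (P.rev d))) :
    ∃ μ : ℝ, P.ua g = P.ua (P.face d) + μ • P.np d ∨ P.ua g = - P.ua (P.face d) + μ • P.np d := by
  obtain ⟨α, β, h⟩ := P.two_dim d (P.ua g) ((P.ua_xv_eq _ _).2 h1) ((P.ua_xv_eq _ _).2 h2)
  rw [P.yf_eq, smul_smul] at h
  set l := α * Real.sqrt (lor (P.yf (P.face d)) (P.yf (P.face d)))
  have hu := P.ua_unit g
  rw [h] at hu
  simp only [lor_add_left, lor_add_right, lor_smul_left, lor_smul_right, P.ua_unit, P.ua_np,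
    P.lor_np_self, lor_comm (P.np d) (P.ua (P.face d))] at hu
  have hl : (l - 1) * (l + 1) = 0 := by linarith
  refine ⟨β, ?_⟩
  rcases mul_eq_zero.mp hl with h5 | h5
  · left; rw [h, show l = 1 by linarith]; simp
  · right; rw [h, show l = -1 by linarith]; simp

theorem not_all_inc (f : F) : ∃ v, ¬ P.Inc f v := by
  obtain ⟨d, rfl⟩ := P.face_surj f
  obtain ⟨v, -, hv⟩ := P.exists_inc_not _ _ (P.face_ne d)
  exact ⟨v, hv⟩

/-- `a f + a f'` is a positive multiple of the tangency vector -/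
theorem sum_ua (d : D) : ∃ c : ℝ, 0 < c ∧
    P.ua (P.face d) + P.ua (P.face (P.rev d)) = c • P.np d := by
  obtain ⟨μ, h | h⟩ := P.two_dim_unit d (P.face (P.rev d)) (P.inc_face_rev d)
    (P.inc_face_vert (P.rev d))
  · exfalso
    obtain ⟨u, hu, hu'⟩ := P.next_vert d
    obtain ⟨w, hw, hw'⟩ := P.next_vert (P.rev d)
    rw [P.np_rev] at hw'
    have e1 := congrArg (fun z => lor z (P.xv u)) h
    have e2 := congrArg (fun z => lor z (P.xv w)) h
    simp only [lor_add_left, lor_smul_left, (P.ua_xv_eq _ _).2 hu, (P.ua_xv_eq _ _).2 hw] at e1 e2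
    have h3 := P.ua_xv_nonpos (P.face (P.rev d)) u
    have h4 := P.ua_xv_nonpos (P.face d) w
    have m1 : 0 ≤ μ := by nlinarith
    have m2 : μ ≤ 0 := by nlinarith
    have m0 : μ = 0 := le_antisymm m2 m1
    rw [m0, zero_smul, add_zero] at h
    obtain ⟨v, hv, hv'⟩ := P.exists_inc_not _ _ (P.face_ne d)
    apply hv'
    rw [← P.ua_xv_eq, ← h, P.ua_xv_eq]; exact hv
  · obtain ⟨u, hu, hu'⟩ := P.next_vert d
    have e1 := congrArg (fun z => lor z (P.xv u)) h
    have e3 : ∀ z, lor (-P.ua (P.face d)) z = - lor (P.ua (P.face d)) z := by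
      intro z; rw [← neg_one_smul ℝ, lor_smul_left]; ring
    simp only [lor_add_left, lor_smul_left, e3, (P.ua_xv_eq _ _).2 hu] at e1
    have h3 := P.ua_xv_nonpos (P.face (P.rev d)) u
    have m1 : 0 ≤ μ := by nlinarith
    refine ⟨μ, lt_of_le_of_ne m1 ?_, by rw [h]; abel⟩
    intro m0
    rw [← m0, zero_smul, add_zero] at h
    obtain ⟨v, hv⟩ := P.not_all_inc (P.face d)
    have h5 := P.ua_xv_nonpos (P.face (P.rev d)) v
    have h6 := P.ua_xv_nonpos (P.face d) v
    rw [h, e3] at h5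
    exact hv ((P.ua_xv_eq _ _).1 (by linarith))

theorem xv_np_nonpos (v : V) (d : D) : lor (P.xv v) (P.np d) ≤ 0 := by
  obtain ⟨c, hc, h⟩ := P.sum_ua d
  have e := congrArg (fun z => lor (P.xv v) z) h
  simp only [lor_add_right, lor_smul_right] at e
  rw [lor_comm (P.xv v), lor_comm (P.xv v)] at e
  have h1 := P.ua_xv_nonpos (P.face d) v
  have h2 := P.ua_xv_nonpos (P.face (P.rev d)) v
  by_contra hc'
  push Not at hc'
  have := mul_pos hc hc'
  linarith

theorem xv_np_eq (v : V) (d : D) (h0 : lor (P.xv v) (P.np d) = 0) :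
    v = P.vert d ∨ v = P.vert (P.rev d) := by
  obtain ⟨c, hc, h⟩ := P.sum_ua d
  have e := congrArg (fun z => lor (P.xv v) z) h
  simp only [lor_add_right, lor_smul_right, h0] at e
  rw [lor_comm (P.xv v), lor_comm (P.xv v)] at e
  have h1 := P.ua_xv_nonpos (P.face d) v
  have h2 := P.ua_xv_nonpos (P.face (P.rev d)) v
  exact P.common d v ((P.ua_xv_eq _ _).1 (by linarith)) ((P.ua_xv_eq _ _).1 (by linarith))

theorem face_np_aux (f : F) (d : D) (h1 : P.Inc f (P.vert d)) (h2 : P.Inc f (P.vert (P.rev d)))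
    (μ : ℝ) (h : P.ua f = P.ua (P.face d) + μ • P.np d) : f = P.face d := by
  obtain ⟨u, hu, hu'⟩ := P.next_vert d
  have e1 := congrArg (fun z => lor z (P.xv u)) h
  simp only [lor_add_left, lor_smul_left, (P.ua_xv_eq _ _).2 hu] at e1
  have h3 := P.ua_xv_nonpos f u
  have m1 : 0 ≤ μ := by nlinarith
  apply P.face_ext
  intro v hv
  have e2 := congrArg (fun z => lor z (P.xv v)) h
  simp only [lor_add_left, lor_smul_left, (P.ua_xv_eq _ _).2 hv] at e2
  have h4 := P.ua_xv_nonpos (P.face d) v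
  have h5 := P.xv_np_nonpos v d
  rw [lor_comm] at h5
  rw [← P.ua_xv_eq]
  nlinarith

theorem ua_np_eq (f : F) (d : D) (h0 : lor (P.ua f) (P.np d) = 0) :
    f = P.face d ∨ f = P.face (P.rev d) := by
  have h1 : lor (P.yf f) (P.np d) = 0 := by
    rw [P.yf_eq, lor_smul_left, h0, mul_zero]
  obtain ⟨i1, i2⟩ := P.inc_of_lor_np f d h1
  obtain ⟨μ, h | h⟩ := P.two_dim_unit d f i1 i2
  · left; exact P.face_np_aux f d i1 i2 μ h
  · right
    obtain ⟨c, hc, h'⟩ := P.sum_ua d
    refine P.face_np_aux f (P.rev d) i2 (by rw [P.rev_rev]; exact i1) (μ - c) ?_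
    rw [h, P.np_rev, sub_smul, ← h']; abel

theorem connD (d e : D) :
    ∃ g ∈ Subgroup.closure ({P.rot, P.rev} : Set (Equiv.Perm D)), g d = e := by
  have hrot : P.rot ∈ Subgroup.closure ({P.rot, P.rev} : Set (Equiv.Perm D)) :=
    Subgroup.subset_closure (by simp)
  have hrev : P.rev ∈ Subgroup.closure ({P.rot, P.rev} : Set (Equiv.Perm D)) :=
    Subgroup.subset_closure (by simp)
  have same : ∀ x y, P.vert x = P.vert y →
      ∃ g ∈ Subgroup.closure ({P.rot, P.rev} : Set (Equiv.Perm D)), g x = y := by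
    intro x y h
    rw [P.vert_iff] at h
    obtain ⟨n, hn⟩ := h
    exact ⟨P.rot ^ n, Subgroup.zpow_mem _ hrot n, hn⟩
  have key : ∀ v, Relation.ReflTransGen (fun x y => ∃ d, P.vert d = x ∧ P.vert (P.rev d) = y)
      (P.vert d) v → ∀ e, P.vert e = v →
      ∃ g ∈ Subgroup.closure ({P.rot, P.rev} : Set (Equiv.Perm D)), g d = e := by
    intro v hv
    induction hv with
    | refl => intro e he; exact same d e he.symm
    | tail _ hbc ih =>
      rename_i b c
      intro e he
      obtain ⟨x, hx1, hx2⟩ := hbc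
      obtain ⟨g, hg, hgx⟩ := ih x hx1
      obtain ⟨g', hg', hgx'⟩ := same (P.rev x) e (by rw [hx2, he])
      refine ⟨g' * (P.rev * g), Subgroup.mul_mem _ hg' (Subgroup.mul_mem _ hrev hg), ?_⟩
      simp only [Equiv.Perm.mul_apply, hgx, hgx']
  exact key (P.vert e) (P.connected _ _) e rfl

/-- the configuration of walls of a midscribed polyhedron -/
noncomputable def toConfig : Config lorB V F D where
  rot := P.rot
  rev := P.rev
  vert := P.vert
  face := P.face
  rev_rev := P.rev_rev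
  rev_ne := P.rev_ne
  vert_surj := P.vert_surj
  face_surj := P.face_surj
  vert_iff := P.vert_iff
  face_iff := P.face_iff
  conn := P.connD
  euler := P.euler
  simple := P.simple
  dsimple := by
    intro d e h1 h2
    have i1 := P.common d (P.vert e) (by rw [h1]; exact P.inc_face_vert e)
      (by rw [h2]; exact P.inc_face_rev e)
    have i2 := P.common d (P.vert (P.rev e)) (by rw [h1]; exact P.inc_face_vert' e)
      (by rw [h2]; exact P.inc_face_vert (P.rev e))
    rcases P.ends_eq d e i1 i2 with h | h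
    · exact h.symm
    · exfalso; rw [h] at h1; exact P.face_ne d h1.symm
  vert_ne := P.vert_ne
  face_ne := P.face_ne
  three_le_vert := P.three_le_vert
  three_le_face := P.three_le_face
  symm := lor_comm
  finrank := finrank_mink
  a := P.ua
  b := P.ub
  p := P.np
  ca d := (P.sum_ua d).choose
  cb d := (P.sum_ub d).choose
  ca_pos d := (P.sum_ua d).choose_spec.1
  cb_pos d := (P.sum_ub d).choose_spec.1
  a_unit := P.ua_unit
  b_unit := P.ub_unit
  a_b d := (P.ua_ub_eq _ _).2 (P.inc_face_vert d)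
  a_b_nonpos := P.ua_ub_nonpos
  a_b_eq f v h := (P.ua_ub_eq _ _).1 h
  p_rev := P.np_rev
  p_null := P.lor_np_self
  p_neg := P.lor_np_np_neg
  sum_a d := (P.sum_ua d).choose_spec.2
  sum_b d := (P.sum_ub d).choose_spec.2
  a_p := P.ua_np_nonpos
  b_p v d := by
    rw [lorB_apply, ub, lor_smul_left]
    exact mul_nonpos_of_nonneg_of_nonpos (inv_nonneg.2 (P.sqb_pos v).le) (P.xv_np_nonpos v d)
  a_p_eq := P.ua_np_eq
  b_p_eq v d h := by
    apply P.xv_np_eq v d
    rw [P.xv_eq, lor_smul_left]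
    rw [lorB_apply] at h
    rw [h, mul_zero]

end MidscribedPolyhedron

end ArithPoly
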