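import Pool.Agent.LibArithPoly.VPoly

/-!
# Task T5, combinatorial part: the product inequality for ideal polygons
-/

namespace ArithPoly

/-- weight of a side, real version -/
noncomputable def wtR (k : ℝ) : ℝ := if k = 6 then 4 / 3 else k / 4

theorem wtR_six : wtR 6 = 4 / 3 := by simp [wtR]

theorem wtR_ne {k : ℝ} (h : k ≠ 6) : wtR k = k / 4 := by simp [wtR, h]

theorem wtR_le {k : ℝ} : wtR k ≤ k / 4 := by
  unfold wtR; split_ifs with h
  · rw [h]; norm_num
  · exact le_rfl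

theorem le_wtR {k : ℝ} (hk : 0 < k) : 2 / 9 * k ≤ wtR k := by
  unfold wtR; split_ifs with h
  · rw [h]; norm_num
  · linarith

theorem wtR_pos {k : ℝ} (hk : 0 < k) : 0 < wtR k := lt_of_lt_of_le (by linarith) (le_wtR hk)

theorem four_ne_six (z : ℤ) : (4 : ℝ) * z ≠ 6 := by
  intro h
  have : (4 * z : ℤ) = 6 := by exact_mod_cast h
  omega

theorem ratioII (x y : ℤ) (hx : 1 ≤ x) (hy : 1 ≤ y) (p q : ℝ) (hp : 0 < p) (hq : 0 < q)
    (h : (2 ≤ x ∨ 2 ≤ y) ∨ (p * y ≠ 6 ∧ q * x ≠ 6)) :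
    wtR (4 * (x + 1)) * wtR (4 * (y + 1)) * wtR (p * (y + 1)) * wtR (q * (x + 1)) ≤
      16 * (wtR (4 * (x * y)) * wtR (p * y) * wtR (q * x)) := by
  have hx' : (1 : ℝ) ≤ x := by exact_mod_cast hx
  have hy' : (1 : ℝ) ≤ y := by exact_mod_cast hy
  have e1 : wtR (4 * (x + 1)) = x + 1 := by
    have := wtR_ne (four_ne_six (x + 1))
    push_cast at this
    rw [this]; ring
  have e2 : wtR (4 * (y + 1)) = y + 1 := by
    have := wtR_ne (four_ne_six (y + 1))
    push_cast at this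
    rw [this]; ring
  have e3 : wtR (4 * (x * y)) = x * y := by
    have := wtR_ne (four_ne_six (x * y))
    push_cast at this
    rw [this]; ring
  rw [e1, e2, e3]
  have i1 : wtR (p * (y + 1)) ≤ p * (y + 1) / 4 := wtR_le
  have i2 : wtR (q * (x + 1)) ≤ q * (x + 1) / 4 := wtR_le
  have j1 : 0 < wtR (p * (y + 1)) := wtR_pos (by positivity)
  have j2 : 0 < wtR (q * (x + 1)) := wtR_pos (by positivity)
  have hl : (x + 1 : ℝ) * (y + 1) * wtR (p * (y + 1)) * wtR (q * (x + 1)) ≤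
      (x + 1 : ℝ) * (y + 1) * (p * (y + 1) / 4) * (q * (x + 1) / 4) := by
    gcongr
  refine hl.trans ?_
  have main1 : (2 ≤ x ∨ 2 ≤ y) → (x + 1 : ℝ) * (y + 1) * (p * (y + 1) / 4) * (q * (x + 1) / 4) ≤
      16 * (x * y * wtR (p * y) * wtR (q * x)) := by
    intro h
    have k1 : 2 / 9 * (p * y) ≤ wtR (p * y) := le_wtR (by positivity)
    have k2 : 2 / 9 * (q * x) ≤ wtR (q * x) := le_wtR (by positivity)
    have k3 : 0 < wtR (p * y) := wtR_pos (by positivity)
    have hr : 16 * ((x : ℝ) * y * (2 / 9 * (p * y)) * (2 / 9 * (q * x))) ≤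
        16 * ((x : ℝ) * y * wtR (p * y) * wtR (q * x)) := by
      gcongr
    refine le_trans ?_ hr
    have h3 : (x + 1 : ℝ) * (y + 1) ≤ 3 * (x * y) := by
      rcases h with h | h
      · have : (2 : ℝ) ≤ x := by exact_mod_cast h
        nlinarith
      · have : (2 : ℝ) ≤ y := by exact_mod_cast h
        nlinarith
    have h4 : ((x + 1 : ℝ) * (y + 1)) ^ 2 ≤ (3 * (x * y)) ^ 2 := by
      gcongr
    have h5 : (x + 1 : ℝ) * (y + 1) * (p * (y + 1) / 4) * (q * (x + 1) / 4) =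
        ((x + 1 : ℝ) * (y + 1)) ^ 2 * (p * q / 16) := by ring
    have h6 : 16 * ((x : ℝ) * y * (2 / 9 * (p * y)) * (2 / 9 * (q * x))) =
        (3 * (x * y : ℝ)) ^ 2 * (p * q * (64 / 729)) := by ring
    rw [h5, h6]
    have hpq : 0 < p * q := mul_pos hp hq
    calc ((x + 1 : ℝ) * (y + 1)) ^ 2 * (p * q / 16) ≤ (3 * (x * y : ℝ)) ^ 2 * (p * q / 16) := by
          gcongr
      _ ≤ (3 * (x * y : ℝ)) ^ 2 * (p * q * (64 / 729)) := by
          gcongr
          linarith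
  by_cases h7 : 2 ≤ x ∨ 2 ≤ y
  · exact main1 h7
  · have h8 := h.resolve_left h7
    push Not at h7
    have hx1 : x = 1 := by omega
    have hy1 : y = 1 := by omega
    rw [wtR_ne h8.1, wtR_ne h8.2, hx1, hy1]
    push_cast
    nlinarith [mul_pos hp hq]

theorem ratioI (x y : ℤ) (hx : 1 ≤ x) (hy : 1 ≤ y) (p q : ℝ) (hp : 0 < p) (hq : 0 < q)
    (h1 : p * y ≠ 6) (h2 : q * x ≠ 6) (h3 : 3 ≤ x * y ∨ 2 ≤ y) :
    wtR (4 * (x + 1)) * wtR (2 * (y + 2)) * wtR (p * (y + 2)) * wtR (q * (x + 1)) ≤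
      16 * (wtR (2 * (x * y)) * wtR (p * y) * wtR (q * x)) := by
  have hx' : (1 : ℝ) ≤ x := by exact_mod_cast hx
  have hy' : (1 : ℝ) ≤ y := by exact_mod_cast hy
  have e1 : wtR (4 * (x + 1)) = x + 1 := by
    have := wtR_ne (four_ne_six (x + 1))
    push_cast at this
    rw [this]; ring
  rw [e1, wtR_ne h1, wtR_ne h2]
  have i1 : wtR (p * (y + 2)) ≤ p * (y + 2) / 4 := wtR_le
  have i2 : wtR (q * (x + 1)) ≤ q * (x + 1) / 4 := wtR_le
  have j1 : 0 < wtR (p * (y + 2)) := wtR_pos (by positivity)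
  have j2 : 0 < wtR (q * (x + 1)) := wtR_pos (by positivity)
  have j3 : 0 < wtR (2 * (y + 2)) := wtR_pos (by positivity)
  have hl : (x + 1 : ℝ) * wtR (2 * (y + 2)) * wtR (p * (y + 2)) * wtR (q * (x + 1)) ≤
      (x + 1 : ℝ) * wtR (2 * (y + 2)) * (p * (y + 2) / 4) * (q * (x + 1) / 4) := by
    gcongr
  refine hl.trans ?_
  have key : (x + 1 : ℝ) ^ 2 * (y + 2) * wtR (2 * (y + 2)) ≤ 16 * (x * y) * wtR (2 * (x * y)) := by
    rcases eq_or_lt_of_le hy with hy1 | hy1
    · rw [← hy1] at h3 ⊢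
      push_cast
      have hx3 : 3 ≤ x := by omega
      have h6 : (2 : ℝ) * (1 + 2) = 6 := by norm_num
      rw [h6, wtR_six]
      rcases eq_or_lt_of_le hx3 with hx4 | hx4
      · rw [← hx4]; push_cast
        have h7 : (2 : ℝ) * (3 * 1) = 6 := by norm_num
        rw [h7, wtR_six]; norm_num
      · have h8 : (4 : ℝ) ≤ x := by exact_mod_cast hx4
        rw [wtR_ne (by intro h; linarith)]
        nlinarith
    · have hy2 : (2 : ℝ) ≤ y := by exact_mod_cast hy1
      rw [wtR_ne (k := 2 * ((y : ℝ) + 2)) (by intro h; linarith)]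
      by_cases h9 : x * y = 3
      · have hxy : (x : ℝ) * y = 3 := by exact_mod_cast h9
        have hx1 : x = 1 := by nlinarith
        have hy3 : y = 3 := by rw [hx1] at h9; omega
        rw [hxy, hx1, hy3]
        push_cast
        have h7 : (2 : ℝ) * 3 = 6 := by norm_num
        rw [h7, wtR_six]; norm_num
      · rw [wtR_ne (k := 2 * ((x : ℝ) * y)) (by
          intro h
          apply h9
          have : (x : ℝ) * y = 3 := by linarith
          exact_mod_cast this)]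
        have h10 : (x + 1 : ℝ) * (y + 2) ≤ 4 * (x * y) := by nlinarith
        have h11 : ((x + 1 : ℝ) * (y + 2)) ^ 2 ≤ (4 * (x * y)) ^ 2 := by gcongr
        nlinarith
  have hpq : 0 < p * q := mul_pos hp hq
  calc (x + 1 : ℝ) * wtR (2 * (y + 2)) * (p * (y + 2) / 4) * (q * (x + 1) / 4)
      = ((x + 1 : ℝ) ^ 2 * (y + 2) * wtR (2 * (y + 2))) * (p * q / 16) := by ring
    _ ≤ (16 * (x * y) * wtR (2 * (x * y))) * (p * q / 16) := by gcongr
    _ = 16 * (wtR (2 * (x * y)) * (p * y / 4) * (q * x / 4)) := by ring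

/-- the product inequality in the exceptional configuration -/
theorem ratio_special : wtR 12 * wtR 6 * wtR 12 * wtR 6 ≤ 16 * (wtR 4 * wtR 4 * wtR 4) := by
  rw [wtR_six, wtR_ne (by norm_num : (12 : ℝ) ≠ 6), wtR_ne (by norm_num : (4 : ℝ) ≠ 6)]
  norm_num

/-- local condition at a vertex -/
def Good5 (x y w : ℝ) : Prop :=
  (x ^ 2 = 2 ∧ y ^ 2 = 2 ∧ ∃ z : ℤ, w = 2 * z) ∨ (x ^ 2 = 2 ∧ y ^ 2 = 4 ∧ ∃ z : ℤ, w = 2 * z + 1) ∨
  (x ^ 2 = 4 ∧ y ^ 2 = 2 ∧ ∃ z : ℤ, w = 2 * z + 1) ∨ (x ^ 2 = 4 ∧ y ^ 2 = 4 ∧ ∃ z : ℤ, w = 2 * z)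

theorem Good5.int {x y w : ℝ} (h : Good5 x y w) : ∃ z : ℤ, w = z := by
  rcases h with ⟨-, -, z, hz⟩ | ⟨-, -, z, hz⟩ | ⟨-, -, z, hz⟩ | ⟨-, -, z, hz⟩
  · exact ⟨2 * z, by rw [hz]; push_cast; ring⟩
  · exact ⟨2 * z + 1, by rw [hz]; push_cast; ring⟩
  · exact ⟨2 * z + 1, by rw [hz]; push_cast; ring⟩
  · exact ⟨2 * z, by rw [hz]; push_cast; ring⟩

theorem Good5.left {x y w : ℝ} (h : Good5 x y w) : x ^ 2 = 2 ∨ x ^ 2 = 4 := by
  rcases h with ⟨h, -⟩ | ⟨h, -⟩ | ⟨h, -⟩ | ⟨h, -⟩ <;> simp [h]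

/-- the invariant of a side -/
noncomputable def kk (v : ℕ → ℝ × ℝ) (i : ℕ) : ℝ := wd v i * wd v (i + 1) * lam v (i + 1) ^ 2

namespace Pgn

variable {n : ℕ} {v : ℕ → ℝ × ℝ}

theorem kk_eq (h : Pgn n v) (hn : 2 ≤ n) (i : ℕ) :
    kk v i = 4 + 4 * (lam v (i + 1) * dt (v i) (v (i + 3)) / (lam v i * lam v (i + 2))) := by
  have l0 := h.lam_pos hn i
  have l2 := h.lam_pos hn (i + 2)
  have t0 := h.two_dt hn i
  have t1 := h.two_dt hn (i + 1)
  rw [show i + 1 + 2 = i + 3 by ring, show i + 1 + 1 = i + 2 by ring] at t1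
  have e : dt (v i) (v (i + 2)) * dt (v (i + 1)) (v (i + 3)) =
      lam v i * lam v (i + 2) + lam v (i + 1) * dt (v i) (v (i + 3)) := by
    simp only [lam, dt]; ring
  have e2 : kk v i * (lam v i * lam v (i + 2)) =
      4 * (lam v i * lam v (i + 2) + lam v (i + 1) * dt (v i) (v (i + 3))) := by
    rw [← e, kk]
    linear_combination (-2 * dt (v (i + 1)) (v (i + 3))) * t0 -
      (wd v i * lam v i * lam v (i + 1)) * t1
  field_simp
  linear_combination e2

theorem kk_three (h : Pgn 3 v) (i : ℕ) : kk v i = 4 := by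
  rw [h.kk_eq (by omega), h.anti, dt_neg_right, dt_self]
  simp

theorem kk_gt (h : Pgn n v) (hn : 4 ≤ n) (i : ℕ) : 4 < kk v i := by
  rw [h.kk_eq (by omega)]
  have l0 := h.lam_pos (by omega) i
  have l1 := h.lam_pos (by omega) (i + 1)
  have l2 := h.lam_pos (by omega) (i + 2)
  have d3 := h.pos i (i + 3) (by omega) (by omega)
  have : 0 < lam v (i + 1) * dt (v i) (v (i + 3)) / (lam v i * lam v (i + 2)) := by positivity
  linarith

theorem kk_per (h : Pgn n v) (i : ℕ) : kk v (i + n) = kk v i := by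
  simp only [kk]
  rw [show i + n + 1 = i + 1 + n by ring, h.lam_per, h.wd_per, h.wd_per]

end Pgn

theorem kk_shift (v : ℕ → ℝ × ℝ) (r i : ℕ) : kk (fun i => v (i + r)) i = kk v (i + r) := by
  simp only [kk, lam_shift, wd_shift]
  rw [show i + 1 + r = i + r + 1 by ring]

/-- the three possible ears -/
theorem ear_cases {x y w : ℝ} (hx : 0 < x) (hy : 0 < y) (hw : 0 < w) (h : Good5 x y w)
    (hear : w < 2 / x + 2 / y) :
    (x ^ 2 = 2 ∧ y ^ 2 = 2 ∧ w = 2) ∨ (x ^ 2 = 4 ∧ y ^ 2 = 2 ∧ w = 1) ∨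
      (x ^ 2 = 2 ∧ y ^ 2 = 4 ∧ w = 1) := by
  have s2 : ∀ t : ℝ, 0 < t → t ^ 2 = 2 → 2 / t < 1.45 := by
    intro t ht h2
    rw [div_lt_iff₀ ht]
    nlinarith
  have s4 : ∀ t : ℝ, 0 < t → t ^ 2 = 4 → 2 / t = 1 := by
    intro t ht h2
    have : t = 2 := by nlinarith
    rw [this]; norm_num
  rcases h with ⟨a, b, z, hz⟩ | ⟨a, b, z, hz⟩ | ⟨a, b, z, hz⟩ | ⟨a, b, z, hz⟩
  · left
    have h1 := s2 x hx a
    have h2 := s2 y hy b
    rw [hz] at hw hear ⊢
    have h3 : (0 : ℝ) < z := by linarith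
    have h4 : (z : ℝ) < 2 := by norm_num at h1 h2; linarith
    have : (0 : ℤ) < z := by exact_mod_cast h3
    have : z < 2 := by exact_mod_cast h4
    have : z = 1 := by omega
    exact ⟨a, b, by rw [this]; norm_num⟩
  · right; right
    have h1 := s2 x hx a
    have h2 := s4 y hy b
    rw [hz] at hw hear ⊢
    have h3 : (-1 : ℝ) < z := by linarith
    have h4 : (z : ℝ) < 1 := by norm_num at h1; linarith
    have : (-1 : ℤ) < z := by exact_mod_cast h3
    have : z < 1 := by exact_mod_cast h4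
    have : z = 0 := by omega
    exact ⟨a, b, by rw [this]; norm_num⟩
  · right; left
    have h1 := s4 x hx a
    have h2 := s2 y hy b
    rw [hz] at hw hear ⊢
    have h3 : (-1 : ℝ) < z := by linarith
    have h4 : (z : ℝ) < 1 := by norm_num at h2; linarith
    have : (-1 : ℤ) < z := by exact_mod_cast h3
    have : z < 1 := by exact_mod_cast h4
    have : z = 0 := by omega
    exact ⟨a, b, by rw [this]; norm_num⟩
  · exfalso
    have h1 := s4 x hx a
    have h2 := s4 y hy b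
    rw [hz] at hw hear
    have h3 : (0 : ℝ) < z := by linarith
    have h4 : (z : ℝ) < 1 := by linarith
    have : (0 : ℤ) < z := by exact_mod_cast h3
    have : z < 1 := by exact_mod_cast h4
    omega

/-- the local inequality for an ear of type (4, 2) -/
theorem ratio_step (m : ℕ) (X Y c d L0 L3 : ℝ) (hX : 0 < X) (hY : 0 < Y) (hc : 0 < c) (hd : 0 < d)
    (hL0 : L0 = 2 ∨ L0 = 4) (hL3 : L3 = 2 ∨ L3 = 4) (iX : ∃ z : ℤ, X = z) (iY : ∃ z : ℤ, Y = z)
    (ic : ∃ z : ℤ, c = z) (id : ∃ z : ℤ, d = z)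
    (pX : L0 = 2 → ∃ z : ℤ, X = 2 * z) (pY : L3 = 2 → ∃ z : ℤ, Y = 2 * z)
    (h3 : m = 0 → 2 * (X * Y) = 4 ∧ c * L3 * Y = 4 ∧ d * L0 * X = 4)
    (h4 : m ≠ 0 → 4 < 2 * (X * Y)) :
    wtR (4 * (X + 1)) * wtR (2 * (Y + 2)) * wtR (c * L3 * (Y + 2)) * wtR (d * L0 * (X + 1)) ≤
      16 * (wtR (2 * (X * Y)) * wtR (c * L3 * Y) * wtR (d * L0 * X)) := by
  obtain ⟨x, rfl⟩ := iX
  obtain ⟨y, rfl⟩ := iY
  obtain ⟨c, rfl⟩ := ic
  obtain ⟨d, rfl⟩ := id
  have hx1 : 1 ≤ x := by exact_mod_cast hX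
  have hy1 : 1 ≤ y := by exact_mod_cast hY
  have hL0' : 0 < L0 := by rcases hL0 with h | h <;> rw [h] <;> norm_num
  have hL3' : 0 < L3 := by rcases hL3 with h | h <;> rw [h] <;> norm_num
  have n1 : (c : ℝ) * L3 * y ≠ 6 := by
    rcases hL3 with h | h
    · obtain ⟨z, hz⟩ := pY h
      rw [h, hz]
      intro h5
      have : c * 2 * (2 * z) = 6 := by exact_mod_cast h5
      have : 4 * (c * z) = 6 := by linarith
      omega
    · rw [h]
      intro h5
      have : c * 4 * y = 6 := by exact_mod_cast h5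
      have : 4 * (c * y) = 6 := by linarith
      omega
  have n2 : (d : ℝ) * L0 * x ≠ 6 := by
    rcases hL0 with h | h
    · obtain ⟨z, hz⟩ := pX h
      rw [h, hz]
      intro h5
      have : d * 2 * (2 * z) = 6 := by exact_mod_cast h5
      have : 4 * (d * z) = 6 := by linarith
      omega
    · rw [h]
      intro h5
      have : d * 4 * x = 6 := by exact_mod_cast h5
      have : 4 * (d * x) = 6 := by linarith
      omega
  by_cases hs : 3 ≤ x * y ∨ 2 ≤ y
  · exact ratioI x y hx1 hy1 (c * L3) (d * L0) (by positivity) (by positivity) n1 n2 hs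
  · push Not at hs
    have hy2 : y = 1 := by omega
    have hm : m = 0 := by
      by_contra hm
      have h5 := h4 hm
      have h6 : (4 : ℤ) < 2 * (x * y) := by exact_mod_cast h5
      omega
    obtain ⟨h5, h6, h7⟩ := h3 hm
    have h8 : (2 : ℤ) * (x * y) = 4 := by exact_mod_cast h5
    rw [hy2] at h8
    have hx2 : x = 2 := by omega
    subst hx2 hy2
    push_cast at h5 h6 h7 ⊢
    have e1 : (4 : ℝ) * (2 + 1) = 12 := by norm_num
    have e2 : (2 : ℝ) * (1 + 2) = 6 := by norm_num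
    have e3 : (c : ℝ) * L3 * (1 + 2) = 12 := by linarith
    have e4 : (d : ℝ) * L0 * (2 + 1) = 6 := by linarith
    rw [e1, e2, e3, e4, h5, h6, h7]
    exact ratio_special

theorem prod5_ear (m : ℕ) (ih : ∀ v, Pgn (m + 3) v →
      (∀ i, Good5 (lam v i) (lam v (i + 1)) (wd v i)) →
      ∏ i ∈ Finset.range (m + 3), wtR (kk v i) ≤ 16 ^ m) (v : ℕ → ℝ × ℝ) (h : Pgn (m + 4) v)
    (hg : ∀ i, Good5 (lam v i) (lam v (i + 1)) (wd v i))
    (hear : wd v 1 < 2 / lam v 1 + 2 / lam v 2) :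
    ∏ i ∈ Finset.range (m + 4), wtR (kk v i) ≤ 16 ^ (m + 1) := by
  have hm : 2 ≤ m + 3 := by omega
  have hd := Pgn.del h hm
  have w1 := h.wd_pos (by omega) 1
  have z0 := Pgn.wd_del_zero h hm
  have z1 := Pgn.wd_del_one h hm
  have y1 := Pgn.lam_del_one h hm
  have y0 : lam (v ∘ phi (m + 3)) 0 = lam v 0 := Pgn.lam_del_zero hm
  have y2 : lam (v ∘ phi (m + 3)) 2 = lam v 3 := Pgn.lam_del_mid hm 2 le_rfl (by omega)
  have z2 : wd (v ∘ phi (m + 3)) 2 = wd v 3 := Pgn.wd_del_mid hm 2 le_rfl (by omega)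
  have g0 := hg 0
  have g1 := hg 1
  have g2 := hg 2
  simp only [zero_add, Nat.reduceAdd] at g0 g1 g2
  have l0 := h.lam_pos (by omega) 0
  have l1 := h.lam_pos (by omega) 1
  have l2 := h.lam_pos (by omega) 2
  have l3 := h.lam_pos (by omega) 3
  have hprod : ∏ i ∈ Finset.range (m + 4), wtR (kk v i) =
      (wtR (kk v 0) * wtR (kk v 1) * wtR (kk v 2) * wtR (kk v (m + 3))) *
        ∏ i ∈ Finset.range m, wtR (kk v (i + 3)) := by
    rw [Finset.prod_range_succ, Finset.prod_range_succ', Finset.prod_range_succ',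
      Finset.prod_range_succ']
    simp only [zero_add, Nat.reduceAdd, add_assoc]
    ring
  have hprod' : ∏ i ∈ Finset.range (m + 3), wtR (kk (v ∘ phi (m + 3)) i) =
      (wtR (kk (v ∘ phi (m + 3)) 0) * wtR (kk (v ∘ phi (m + 3)) 1) *
        wtR (kk (v ∘ phi (m + 3)) (m + 2))) * ∏ i ∈ Finset.range m, wtR (kk v (i + 3)) := by
    rw [Finset.prod_range_succ, Finset.prod_range_succ', Finset.prod_range_succ']
    have : ∏ i ∈ Finset.range m, wtR (kk (v ∘ phi (m + 3)) (i + 1 + 1)) =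
        ∏ i ∈ Finset.range m, wtR (kk v (i + 3)) := by
      refine Finset.prod_congr rfl (fun i hi => ?_)
      rw [Finset.mem_range] at hi
      simp only [kk]
      rw [Pgn.wd_del_mid hm (i + 1 + 1) (by omega) (by omega),
        Pgn.wd_del_mid hm (i + 1 + 1 + 1) (by omega) (by omega),
        Pgn.lam_del_mid hm (i + 1 + 1 + 1) (by omega) (by omega)]
    rw [this]
    simp only [zero_add]
    ring
  have hmid : ∀ i, 2 ≤ i → i < m + 3 → Good5 (lam (v ∘ phi (m + 3)) i)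
      (lam (v ∘ phi (m + 3)) (i + 1)) (wd (v ∘ phi (m + 3)) i) := by
    intro i hi hi'
    rw [Pgn.wd_del_mid hm i hi hi', Pgn.lam_del_mid hm i hi (by omega),
      Pgn.lam_del_mid hm (i + 1) (by omega) (by omega)]
    exact hg (i + 1)
  have hper : ∀ i, Good5 (lam (v ∘ phi (m + 3)) i)
      (lam (v ∘ phi (m + 3)) (i + 1)) (wd (v ∘ phi (m + 3)) i) →
      Good5 (lam (v ∘ phi (m + 3)) (i + (m + 3)))
      (lam (v ∘ phi (m + 3)) (i + (m + 3) + 1)) (wd (v ∘ phi (m + 3)) (i + (m + 3))) := by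
    intro i hi
    rwa [show i + (m + 3) + 1 = i + 1 + (m + 3) by ring, hd.lam_per, hd.lam_per, hd.wd_per]
  have fin : (Good5 (lam (v ∘ phi (m + 3)) 0) (lam (v ∘ phi (m + 3)) 1) (wd (v ∘ phi (m + 3)) 0)) →
      (Good5 (lam (v ∘ phi (m + 3)) 1) (lam (v ∘ phi (m + 3)) 2) (wd (v ∘ phi (m + 3)) 1)) →
      ∏ i ∈ Finset.range (m + 3), wtR (kk (v ∘ phi (m + 3)) i) ≤ 16 ^ m := by
    intro k0 k1
    refine ih _ hd (forall_of_lt (m + 3) (by omega) (fun i hi => ?_) hper)
    rcases Nat.lt_or_ge i 2 with h2 | h2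
    · interval_cases i
      · exact k0
      · exact k1
    · exact hmid i h2 hi
  rw [hprod'] at fin
  -- values of the side invariants
  have a4 : wd v (m + 4) = wd v 0 := by
    have := h.wd_per 0
    rwa [zero_add] at this
  have L4 : lam v (m + 4) = lam v 0 := by
    have := h.lam_per 0
    rwa [zero_add] at this
  have a4' : wd (v ∘ phi (m + 3)) (m + 3) = wd (v ∘ phi (m + 3)) 0 := by
    have := hd.wd_per 0
    rwa [zero_add] at this
  have L4' : lam (v ∘ phi (m + 3)) (m + 3) = lam v 0 := by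
    have := hd.lam_per 0
    rwa [zero_add, y0] at this
  have d4' : wd (v ∘ phi (m + 3)) (m + 2) = wd v (m + 3) :=
    Pgn.wd_del_mid hm (m + 2) (by omega) (by omega)
  have K0 : kk v 0 = wd v 0 * wd v 1 * lam v 1 ^ 2 := rfl
  have K1 : kk v 1 = wd v 1 * wd v 2 * lam v 2 ^ 2 := rfl
  have K2 : kk v 2 = wd v 2 * wd v 3 * lam v 3 ^ 2 := rfl
  have K3 : kk v (m + 3) = wd v (m + 3) * wd v 0 * lam v 0 ^ 2 := by
    simp only [kk]
    rw [show m + 3 + 1 = m + 4 by ring, a4, L4]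
  have K0' : kk (v ∘ phi (m + 3)) 0 = wd (v ∘ phi (m + 3)) 0 * wd (v ∘ phi (m + 3)) 1 *
      lam (v ∘ phi (m + 3)) 1 ^ 2 := rfl
  have K1' : kk (v ∘ phi (m + 3)) 1 = wd (v ∘ phi (m + 3)) 1 * wd v 3 * lam v 3 ^ 2 := by
    simp only [kk]
    rw [show 1 + 1 = 2 by rfl, z2, y2]
  have K2' : kk (v ∘ phi (m + 3)) (m + 2) =
      wd v (m + 3) * wd (v ∘ phi (m + 3)) 0 * lam v 0 ^ 2 := by
    simp only [kk]
    rw [show m + 2 + 1 = m + 3 by ring, d4', a4', L4']
  have q0 := hd.wd_pos (by omega) 0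
  have q1 := hd.wd_pos (by omega) 1
  have c3 := h.wd_pos (by omega) 3
  have d3 := h.wd_pos (by omega) (m + 3)
  have htri : m = 0 → ∀ i, kk (v ∘ phi (m + 3)) i = 4 := by
    intro hm0 i
    subst hm0
    exact hd.kk_three i
  have hgt : m ≠ 0 → 4 < kk (v ∘ phi (m + 3)) 0 := fun hm0 => hd.kk_gt (by omega) 0
  have L0c := (hg 0).left
  have L3c := (hg 3).left
  have ic := (hg 3).int
  have idd := (hg (m + 3)).int
  have hmidpos : 0 < ∏ i ∈ Finset.range m, wtR (kk v (i + 3)) :=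
    Finset.prod_pos (fun i _ => wtR_pos (by linarith [h.kk_gt (by omega) (i + 3)]))
  -- it remains to prove the local inequality
  suffices hfin : Good5 (lam (v ∘ phi (m + 3)) 0) (lam (v ∘ phi (m + 3)) 1)
      (wd (v ∘ phi (m + 3)) 0) ∧
      Good5 (lam (v ∘ phi (m + 3)) 1) (lam (v ∘ phi (m + 3)) 2) (wd (v ∘ phi (m + 3)) 1) ∧
      wtR (kk v 0) * wtR (kk v 1) * wtR (kk v 2) * wtR (kk v (m + 3)) ≤
        16 * (wtR (kk (v ∘ phi (m + 3)) 0) * wtR (kk (v ∘ phi (m + 3)) 1) *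
        wtR (kk (v ∘ phi (m + 3)) (m + 2))) by
    obtain ⟨f0, f1, f2⟩ := hfin
    have f3 := fin f0 f1
    rw [hprod]
    calc _ ≤ 16 * (wtR (kk (v ∘ phi (m + 3)) 0) * wtR (kk (v ∘ phi (m + 3)) 1) *
        wtR (kk (v ∘ phi (m + 3)) (m + 2))) * ∏ i ∈ Finset.range m, wtR (kk v (i + 3)) := by
          gcongr
      _ = 16 * (wtR (kk (v ∘ phi (m + 3)) 0) * wtR (kk (v ∘ phi (m + 3)) 1) *
        wtR (kk (v ∘ phi (m + 3)) (m + 2)) * ∏ i ∈ Finset.range m, wtR (kk v (i + 3))) := by ring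
      _ ≤ 16 * 16 ^ m := by gcongr
      _ = 16 ^ (m + 1) := by ring
  have tri0 := fun hm0 => htri hm0 0
  have tri1 := fun hm0 => htri hm0 1
  have tri2 := fun hm0 => htri hm0 (m + 2)
  rw [K0'] at tri0 hgt
  rw [K1'] at tri1
  rw [K2'] at tri2
  rw [K0, K1, K2, K3, K0', K1', K2']
  have y1s : lam (v ∘ phi (m + 3)) 1 ^ 2 = wd v 1 ^ 2 * lam v 1 ^ 2 * lam v 2 ^ 2 / 4 := by
    rw [y1]; ring
  rw [y0, y2]
  rcases ear_cases l1 l2 w1 g1 hear with ⟨a, b, c⟩ | ⟨a, b, c⟩ | ⟨a, b, c⟩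
  · -- type II
    have s1 : lam (v ∘ phi (m + 3)) 1 ^ 2 = 4 := by rw [y1s, a, b, c]; norm_num
    have x0 : wd v 0 = wd (v ∘ phi (m + 3)) 0 + 1 := by rw [z0, a, c]; ring
    have x1 : wd v 2 = wd (v ∘ phi (m + 3)) 1 + 1 := by rw [z1, b, c]; ring
    rw [s1] at tri0 hgt ⊢
    rw [x0] at g0 ⊢
    rw [x1] at g2 ⊢
    rw [a, b, c]
    generalize wd (v ∘ phi (m + 3)) 0 = X at *
    generalize wd (v ∘ phi (m + 3)) 1 = Y at *
    have k0 : Good5 (lam v 0) (lam (v ∘ phi (m + 3)) 1) X := by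
      rcases g0 with ⟨a', b', z, hz⟩ | ⟨a', b', z, hz⟩ | ⟨a', b', z, hz⟩ | ⟨a', b', z, hz⟩
      · exact Or.inr (Or.inl ⟨a', s1, z - 1, by push_cast; linarith⟩)
      · rw [a] at b'; norm_num at b'
      · exact Or.inr (Or.inr (Or.inr ⟨a', s1, z, by linarith⟩))
      · rw [a] at b'; norm_num at b'
    have k1 : Good5 (lam (v ∘ phi (m + 3)) 1) (lam v 3) Y := by
      rcases g2 with ⟨a', b', z, hz⟩ | ⟨a', b', z, hz⟩ | ⟨a', b', z, hz⟩ | ⟨a', b', z, hz⟩
      · exact Or.inr (Or.inr (Or.inl ⟨s1, b', z - 1, by push_cast; linarith⟩))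
      · exact Or.inr (Or.inr (Or.inr ⟨s1, b', z, by linarith⟩))
      · rw [b] at a'; norm_num at a'
      · rw [b] at a'; norm_num at a'
    refine ⟨k0, k1, ?_⟩
    obtain ⟨x, hx⟩ := k0.int
    obtain ⟨y, hy⟩ := k1.int
    rw [hx] at q0
    rw [hy] at q1
    have hx1 : 1 ≤ x := by exact_mod_cast q0
    have hy1 : 1 ≤ y := by exact_mod_cast q1
    have key := ratioII x y hx1 hy1 (wd v 3 * lam v 3 ^ 2) (wd v (m + 3) * lam v 0 ^ 2)
      (by positivity) (by positivity) ?_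
    · rw [hx, hy]
      convert key using 1
      · congr 1
        · congr 1
          · congr 1
            · congr 1; ring
            · congr 1; ring
          · congr 1; ring
        · congr 1; ring
      · congr 1
        congr 1
        · congr 1
          · congr 1; ring
          · congr 1; ring
        · congr 1; ring
    · by_cases hm0 : m = 0
      · right
        have t1 := tri1 hm0
        have t2 := tri2 hm0
        rw [hy] at t1
        rw [hx] at t2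
        constructor
        · intro h6; linarith
        · intro h6; linarith
      · left
        have h5 := hgt hm0
        rw [hx, hy] at h5
        by_contra hcon
        push Not at hcon
        have ex : x = 1 := by omega
        have ey : y = 1 := by omega
        rw [ex, ey] at h5
        norm_num at h5
  · -- type (4, 2)
    have s1 : lam (v ∘ phi (m + 3)) 1 ^ 2 = 2 := by rw [y1s, a, b, c]; norm_num
    have x0 : wd v 0 = wd (v ∘ phi (m + 3)) 0 + 1 := by rw [z0, a, c]; ring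
    have x1 : wd v 2 = wd (v ∘ phi (m + 3)) 1 + 2 := by rw [z1, b, c]; ring
    rw [s1] at tri0 hgt ⊢
    rw [x0] at g0 ⊢
    rw [x1] at g2 ⊢
    rw [a, b, c]
    generalize wd (v ∘ phi (m + 3)) 0 = X at *
    generalize wd (v ∘ phi (m + 3)) 1 = Y at *
    have k0 : Good5 (lam v 0) (lam (v ∘ phi (m + 3)) 1) X := by
      rcases g0 with ⟨a', b', z, hz⟩ | ⟨a', b', z, hz⟩ | ⟨a', b', z, hz⟩ | ⟨a', b', z, hz⟩
      · rw [a] at b'; norm_num at b'
      · exact Or.inl ⟨a', s1, z, by linarith⟩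
      · rw [a] at b'; norm_num at b'
      · exact Or.inr (Or.inr (Or.inl ⟨a', s1, z - 1, by push_cast; linarith⟩))
    have k1 : Good5 (lam (v ∘ phi (m + 3)) 1) (lam v 3) Y := by
      rcases g2 with ⟨a', b', z, hz⟩ | ⟨a', b', z, hz⟩ | ⟨a', b', z, hz⟩ | ⟨a', b', z, hz⟩
      · exact Or.inl ⟨s1, b', z - 1, by push_cast; linarith⟩
      · exact Or.inr (Or.inl ⟨s1, b', z - 1, by push_cast; linarith⟩)
      · rw [b] at a'; norm_num at a'
      · rw [b] at a'; norm_num at a'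
    refine ⟨k0, k1, ?_⟩
    have key := ratio_step m X Y (wd v 3) (wd v (m + 3)) (lam v 0 ^ 2) (lam v 3 ^ 2) q0 q1 c3 d3
      L0c L3c k0.int k1.int ic idd ?_ ?_ ?_ ?_
    · convert key using 1
      · congr 1
        · congr 1
          · congr 1
            · congr 1; ring
            · congr 1; ring
          · congr 1; ring
        · congr 1; ring
      · congr 1
        congr 1
        · congr 1
          · congr 1; ring
          · congr 1; ring
        · congr 1; ring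
    · intro h2
      rcases k0 with ⟨a', b', hz⟩ | ⟨a', b', hz⟩ | ⟨a', b', hz⟩ | ⟨a', b', hz⟩
      · exact hz
      · rw [s1] at b'; norm_num at b'
      · rw [h2] at a'; norm_num at a'
      · rw [h2] at a'; norm_num at a'
    · intro h2
      rcases k1 with ⟨a', b', hz⟩ | ⟨a', b', hz⟩ | ⟨a', b', hz⟩ | ⟨a', b', hz⟩
      · exact hz
      · rw [h2] at b'; norm_num at b'
      · rw [s1] at a'; norm_num at a'
      · rw [s1] at a'; norm_num at a'
    · intro hm0
      have t0 := tri0 hm0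
      have t1 := tri1 hm0
      have t2 := tri2 hm0
      refine ⟨by linarith, by linarith, by linarith⟩
    · intro hm0
      have := hgt hm0
      linarith
  · -- type (2, 4)
    have s1 : lam (v ∘ phi (m + 3)) 1 ^ 2 = 2 := by rw [y1s, a, b, c]; norm_num
    have x0 : wd v 0 = wd (v ∘ phi (m + 3)) 0 + 2 := by rw [z0, a, c]; ring
    have x1 : wd v 2 = wd (v ∘ phi (m + 3)) 1 + 1 := by rw [z1, b, c]; ring
    rw [s1] at tri0 hgt ⊢
    rw [x0] at g0 ⊢
    rw [x1] at g2 ⊢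
    rw [a, b, c]
    generalize wd (v ∘ phi (m + 3)) 0 = X at *
    generalize wd (v ∘ phi (m + 3)) 1 = Y at *
    have k0 : Good5 (lam v 0) (lam (v ∘ phi (m + 3)) 1) X := by
      rcases g0 with ⟨a', b', z, hz⟩ | ⟨a', b', z, hz⟩ | ⟨a', b', z, hz⟩ | ⟨a', b', z, hz⟩
      · exact Or.inl ⟨a', s1, z - 1, by push_cast; linarith⟩
      · rw [a] at b'; norm_num at b'
      · exact Or.inr (Or.inr (Or.inl ⟨a', s1, z - 1, by push_cast; linarith⟩))
      · rw [a] at b'; norm_num at b'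
    have k1 : Good5 (lam (v ∘ phi (m + 3)) 1) (lam v 3) Y := by
      rcases g2 with ⟨a', b', z, hz⟩ | ⟨a', b', z, hz⟩ | ⟨a', b', z, hz⟩ | ⟨a', b', z, hz⟩
      · rw [b] at a'; norm_num at a'
      · rw [b] at a'; norm_num at a'
      · exact Or.inl ⟨s1, b', z, by linarith⟩
      · exact Or.inr (Or.inl ⟨s1, b', z - 1, by push_cast; linarith⟩)
    refine ⟨k0, k1, ?_⟩
    have key := ratio_step m Y X (wd v (m + 3)) (wd v 3) (lam v 3 ^ 2) (lam v 0 ^ 2) q1 q0 d3 c3
      L3c L0c k1.int k0.int idd ic ?_ ?_ ?_ ?_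
    · calc wtR ((X + 2) * 1 * 2) * wtR (1 * (Y + 1) * 4) * wtR ((Y + 1) * wd v 3 * lam v 3 ^ 2) *
          wtR (wd v (m + 3) * (X + 2) * lam v 0 ^ 2)
          = wtR (4 * (Y + 1)) * wtR (2 * (X + 2)) * wtR (wd v (m + 3) * lam v 0 ^ 2 * (X + 2)) *
            wtR (wd v 3 * lam v 3 ^ 2 * (Y + 1)) := by
            rw [show (X + 2) * 1 * 2 = 2 * (X + 2) by ring,
              show 1 * (Y + 1) * 4 = 4 * (Y + 1) by ring,
              show (Y + 1) * wd v 3 * lam v 3 ^ 2 = wd v 3 * lam v 3 ^ 2 * (Y + 1) by ring,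
              show wd v (m + 3) * (X + 2) * lam v 0 ^ 2 =
                wd v (m + 3) * lam v 0 ^ 2 * (X + 2) by ring]
            ring
        _ ≤ _ := key
        _ = 16 * (wtR (X * Y * 2) * wtR (Y * wd v 3 * lam v 3 ^ 2) *
              wtR (wd v (m + 3) * X * lam v 0 ^ 2)) := by
            rw [show X * Y * 2 = 2 * (Y * X) by ring,
              show Y * wd v 3 * lam v 3 ^ 2 = wd v 3 * lam v 3 ^ 2 * Y by ring,
              show wd v (m + 3) * X * lam v 0 ^ 2 = wd v (m + 3) * lam v 0 ^ 2 * X by ring]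
            ring
    · intro h2
      rcases k1 with ⟨a', b', hz⟩ | ⟨a', b', hz⟩ | ⟨a', b', hz⟩ | ⟨a', b', hz⟩
      · exact hz
      · rw [h2] at b'; norm_num at b'
      · rw [s1] at a'; norm_num at a'
      · rw [s1] at a'; norm_num at a'
    · intro h2
      rcases k0 with ⟨a', b', hz⟩ | ⟨a', b', hz⟩ | ⟨a', b', hz⟩ | ⟨a', b', hz⟩
      · exact hz
      · rw [s1] at b'; norm_num at b'
      · rw [h2] at a'; norm_num at a'
      · rw [h2] at a'; norm_num at a'
    · intro hm0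
      have t0 := tri0 hm0
      have t1 := tri1 hm0
      have t2 := tri2 hm0
      refine ⟨by linarith, by linarith, by linarith⟩
    · intro hm0
      have := hgt hm0
      linarith

theorem prod5 (m : ℕ) : ∀ v, Pgn (m + 3) v →
      (∀ i, Good5 (lam v i) (lam v (i + 1)) (wd v i)) →
      ∏ i ∈ Finset.range (m + 3), wtR (kk v i) ≤ 16 ^ m := by
  induction m with
  | zero =>
    intro v h _
    have : ∀ i, wtR (kk v i) = 1 := by
      intro i
      rw [h.kk_three, wtR_ne (by norm_num)]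
      norm_num
    simp [this]
  | succ m ih =>
    intro v h hg
    obtain ⟨i, hi⟩ := h.exists_ear (by omega)
    have hs := h.shift (i + m + 3)
    have h1 : wd (fun j => v (j + (i + m + 3))) 1 = wd v i := by
      rw [wd_shift, show 1 + (i + m + 3) = i + (m + 1 + 3) by ring, h.wd_per]
    have h2 : lam (fun j => v (j + (i + m + 3))) 1 = lam v i := by
      rw [lam_shift, show 1 + (i + m + 3) = i + (m + 1 + 3) by ring, h.lam_per]
    have h3 : lam (fun j => v (j + (i + m + 3))) 2 = lam v (i + 1) := by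
      rw [lam_shift, show 2 + (i + m + 3) = i + 1 + (m + 1 + 3) by ring, h.lam_per]
    have key := prod5_ear m ih (fun j => v (j + (i + m + 3))) hs ?_ ?_
    · simp only [kk_shift] at key
      have e := prod_shift (fun j => wtR (kk v j)) (m + 1 + 3) (fun i => by rw [h.kk_per])
        (fun i => (wtR_pos (by linarith [h.kk_gt (by omega) i])).ne') (i + m + 3)
      rw [← e]
      exact key
    · intro j
      rw [lam_shift, lam_shift, wd_shift, show j + 1 + (i + m + 3) = j + (i + m + 3) + 1 by ring]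
      exact hg _
    · rw [h1, h2, h3]; exact hi

end ArithPoly
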