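import Pool.Agent.LibArithPoly.T8Corner

/-!
# Choice of the lattice
-/

namespace ArithPoly

variable {W : Type} [AddCommGroup W] [Module ℝ W] {B : LinearMap.BilinForm ℝ W}

/-- `a1, a2, a3` are three walls at an ideal triangle, orthogonal to `c` of norm `3`. -/
structure IsTriple (B : LinearMap.BilinForm ℝ W) (a1 a2 a3 c : W) : Prop where
  s11 : B a1 a1 = 1
  s22 : B a2 a2 = 1
  s33 : B a3 a3 = 1
  s12 : B a1 a2 = -1
  s23 : B a2 a3 = -1
  s31 : B a3 a1 = -1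
  s1c : B a1 c = 0
  s2c : B a2 c = 0
  s3c : B a3 c = 0
  scc : B c c = 3

theorem IsTriple.rotate {a1 a2 a3 c : W} (T : IsTriple B a1 a2 a3 c) : IsTriple B a2 a3 a1 c :=
  ⟨T.s22, T.s33, T.s11, T.s23, T.s31, T.s12, T.s2c, T.s3c, T.s1c, T.scc⟩

section

variable {a1 a2 a3 c : W} (T : IsTriple B a1 a2 a3 c) (hs : ∀ x y, B x y = B y x)

include T hs

theorem IsTriple.frame0 :
    IsFrame B ((1 / 2 : ℝ) • (a1 + a2)) ((1 / 2 : ℝ) • (a1 + a3)) a1 c := by
  have s21 : B a2 a1 = -1 := by rw [hs, T.s12]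
  have s32 : B a3 a2 = -1 := by rw [hs, T.s23]
  have s13 : B a1 a3 = -1 := by rw [hs, T.s31]
  refine ⟨?_, ?_, ?_, ?_, ?_, ?_, ?_, T.s11, T.scc, T.s1c⟩ <;>
  simp only [map_add, map_smul, LinearMap.add_apply, LinearMap.smul_apply, smul_eq_mul,
    T.s11, T.s22, T.s33, T.s12, T.s23, T.s31, s21, s13, T.s1c, T.s2c, T.s3c] <;> norm_num

theorem IsTriple.frame1 :
    IsFrame B ((1 / 4 : ℝ) • (a2 + a3)) (a1 + a2) a2 c := by
  have s21 : B a2 a1 = -1 := by rw [hs, T.s12]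
  have s32 : B a3 a2 = -1 := by rw [hs, T.s23]
  have s13 : B a1 a3 = -1 := by rw [hs, T.s31]
  refine ⟨?_, ?_, ?_, ?_, ?_, ?_, ?_, T.s22, T.scc, T.s2c⟩ <;>
  simp only [map_add, map_smul, LinearMap.add_apply, LinearMap.smul_apply, smul_eq_mul,
    T.s11, T.s22, T.s33, T.s12, T.s23, T.s31, s21, s32, T.s1c, T.s2c, T.s3c] <;> norm_num

theorem IsTriple.prod (hW : Module.finrank ℝ W = 4) (s s' : W) (x1 x2 x3 m y1 y2 y3 m' : ℤ)
    (hx1 : 2 * B s a1 = x1) (hx2 : 2 * B s a2 = x2) (hx3 : 2 * B s a3 = x3)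
    (hm : 2 * B s c = 3 * m) (hy1 : 2 * B s' a1 = y1) (hy2 : 2 * B s' a2 = y2)
    (hy3 : 2 * B s' a3 = y3) (hm' : 2 * B s' c = 3 * m') :
    4 * (2 * B s s') =
      -((x1 * y2 + x1 * y3 + x2 * y1 + x2 * y3 + x3 * y1 + x3 * y2 : ℤ) : ℝ) + 6 * m * m' := by
  have e := (T.frame0 hs).prod hs hW s s'
  simp only [map_add, map_smul, smul_eq_mul] at e
  have f1 : B s a1 = x1 / 2 := by linarith
  have f2 : B s a2 = x2 / 2 := by linarith
  have f3 : B s a3 = x3 / 2 := by linarith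
  have f4 : B s c = 3 * m / 2 := by linarith
  have g1 : B s' a1 = y1 / 2 := by linarith
  have g2 : B s' a2 = y2 / 2 := by linarith
  have g3 : B s' a3 = y3 / 2 := by linarith
  have g4 : B s' c = 3 * m' / 2 := by linarith
  rw [f1, f2, f3, f4, g1, g2, g3, g4] at e
  rw [e]
  push_cast
  ring

end

/-- parity pattern: `x1` differs from `x2 ≡ x3`; then `4 ∣ y2 + y3`. -/
theorem pattern_forces (x1 x2 x3 m y1 y2 y3 m' N1 N2 N3 : ℤ)
    (h1 : 4 * N1 = -(x1 * x2 + x2 * x3 + x3 * x1) + 3 * m ^ 2)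
    (h2 : 4 * N2 = -(y1 * y2 + y2 * y3 + y3 * y1) + 3 * m' ^ 2)
    (h3 : 4 * N3 = -(x1 * y2 + x1 * y3 + x2 * y1 + x2 * y3 + x3 * y1 + x3 * y2) + 6 * m * m')
    (hx23 : Even (x2 + x3)) (hx12 : ¬ Even (x1 + x2)) : (4 : ℤ) ∣ y2 + y3 := by
  rcases Int.even_or_odd' x1 with ⟨u, hu | hu⟩
  · -- `x1` even, `x2, x3` odd
    have ho2 : Odd x2 := by
      rw [Int.even_add, hu] at hx12
      rw [← Int.not_even_iff_odd]
      have : Even (2 * u) := even_two_mul u
      tauto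
    have ho3 : Odd x3 := by
      rw [Int.even_add] at hx23
      rw [← Int.not_even_iff_odd] at ho2 ⊢
      tauto
    obtain ⟨v, hv⟩ := ho2
    obtain ⟨w, hw⟩ := ho3
    have hmo : Odd m := by
      rw [← Int.not_even_iff_odd]
      rintro ⟨m1, hm1⟩
      rw [hu, hv, hw, hm1] at h1
      ring_nf at h1
      omega
    obtain ⟨m1, hm1⟩ := hmo
    obtain ⟨z, hz⟩ : ∃ z, v + w = 2 * z + 1 := by
      rw [hu, hv, hw, hm1] at h1
      ring_nf at h1
      exact ⟨(v + w) / 2, by omega⟩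
    have hw' : w = 2 * z + 1 - v := by linarith
    have hYe : Even (y2 + y3) := by
      rw [hu, hv, hw, hm1, hw'] at h3
      have : y2 + y3 = 2 * (2 * N3 * (-1) - (u * (y2 + y3) + v * (y1 + y3) +
        (2 * z + 1 - v) * (y1 + y2) + y1) + 3 * (2 * m1 + 1) * m') := by
        linear_combination h3
      rw [this]
      exact even_two_mul _
    obtain ⟨Y, hY⟩ := hYe
    have hy3 : y3 = 2 * Y - y2 := by linarith
    have k1 : Even (y2 + m') := by
      rw [hy3] at h2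
      have e : Even (y2 ^ 2 + 3 * m' ^ 2) := by
        refine ⟨2 * N2 + y1 * Y + y2 * Y, ?_⟩
        linear_combination -h2
      rw [Int.even_add, Int.even_mul, Int.even_pow, Int.even_pow] at e
      rw [Int.even_add]
      have h30 : ¬ Even (3 : ℤ) := by decide
      tauto
    obtain ⟨k, hk⟩ := k1
    have hm'' : m' = 2 * k - y2 := by linarith
    have k2 : Even Y := by
      rw [hu, hv, hw, hm1, hw', hy3, hm''] at h3
      obtain ⟨E, hE⟩ : ∃ E, 2 * Y = 2 * (E + E) :=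
        ⟨-N3 - u * Y - y1 * (z + 1) - Y * v - y2 * (z - v) + 3 * (2 * m1 + 1) * k
          - 3 * m1 * y2 - 2 * y2, by linear_combination h3⟩
      exact ⟨E, by omega⟩
    obtain ⟨Y', hY'⟩ := k2
    exact ⟨Y', by linarith⟩
  · -- `x1` odd, `x2, x3` even
    have he2 : Even x2 := by
      rw [Int.even_add, hu] at hx12
      have : ¬ Even (2 * u + 1) := by
        rw [Int.not_even_iff_odd]; exact ⟨u, rfl⟩
      tauto
    have he3 : Even x3 := by
      rw [Int.even_add] at hx23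
      tauto
    obtain ⟨v, hv⟩ := he2
    obtain ⟨w, hw⟩ := he3
    have hme : Even m := by
      rw [← Int.not_odd_iff_even]
      rintro ⟨m1, hm1⟩
      rw [hu, hv, hw, hm1] at h1
      ring_nf at h1
      omega
    obtain ⟨m1, hm1⟩ := hme
    obtain ⟨z, hz⟩ : ∃ z, v + w = 2 * z := by
      rw [hu, hv, hw, hm1] at h1
      ring_nf at h1
      exact ⟨(v + w) / 2, by omega⟩
    have hw' : w = 2 * z - v := by linarith
    rw [hu, hv, hw, hm1, hw'] at h3
    obtain ⟨E, hE⟩ : ∃ E, (2 * (u + v) + 1) * (y2 + y3) = 4 * E :=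
      ⟨-N3 - z * y1 - z * y2 + v * y2 + 3 * m1 * m', by linear_combination h3⟩
    have hodd : ¬ Even (2 * (u + v) + 1) := by
      rw [Int.not_even_iff_odd]; exact ⟨u + v, rfl⟩
    have hYe : Even (y2 + y3) := by
      have : Even ((2 * (u + v) + 1) * (y2 + y3)) := by
        rw [hE]; exact ⟨2 * E, by ring⟩
      rcases Int.even_mul.mp this with h | h
      · exact absurd h hodd
      · exact h
    obtain ⟨Y, hY⟩ := hYe
    rw [hY] at hE
    have hE' : (2 * (u + v) + 1) * Y = E + E := by linarith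
    have hYe' : Even Y := by
      have : Even ((2 * (u + v) + 1) * Y) := by
        rw [hE']; exact ⟨E, rfl⟩
      rcases Int.even_mul.mp this with h | h
      · exact absurd h hodd
      · exact h
    obtain ⟨Y', hY'⟩ := hYe'
    exact ⟨Y', by linarith⟩

/-- Choice of a frame whose lattice contains all walls. -/
theorem frame_choice {ι : Type} {a1 a2 a3 c : W} (T : IsTriple B a1 a2 a3 c)
    (hs : ∀ x y, B x y = B y x) (hW : Module.finrank ℝ W = 4) (s : ι → W)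
    (x1 x2 x3 m : ι → ℤ)
    (hx1 : ∀ i, 2 * B (s i) a1 = x1 i) (hx2 : ∀ i, 2 * B (s i) a2 = x2 i)
    (hx3 : ∀ i, 2 * B (s i) a3 = x3 i) (hm : ∀ i, 2 * B (s i) c = 3 * m i)
    (self : ∀ i, ∃ N : ℤ, B (s i) (s i) = N) (pair : ∀ i j, ∃ N : ℤ, 2 * B (s i) (s j) = N) :
    ∃ P O α, IsFrame B P O α c ∧ ∀ i, s i ∈ frameLat B P O α c ∧
      (3 ∣ x1 i → 3 ∣ x2 i → 3 ∣ x3 i → ∃ u v M : ℤ, 2 * B (s i) P = 3 * u ∧
        2 * B (s i) O = 3 * v ∧ 2 * B (s i) α = 3 * M ∧ Even (M + m i)) := by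
  -- the integral relations
  have hself : ∀ i, ∃ N : ℤ, 4 * N = -(x1 i * x2 i + x2 i * x3 i + x3 i * x1 i) + 3 * m i ^ 2 := by
    intro i
    obtain ⟨N, hN⟩ := self i
    refine ⟨N, ?_⟩
    have e := T.prod hs hW (s i) (s i) _ _ _ _ _ _ _ _ (hx1 i) (hx2 i) (hx3 i) (hm i) (hx1 i)
      (hx2 i) (hx3 i) (hm i)
    rw [hN] at e
    have e' : ((4 * N : ℤ) : ℝ) =
        ((-(x1 i * x2 i + x2 i * x3 i + x3 i * x1 i) + 3 * m i ^ 2 : ℤ) : ℝ) := by
      push_cast at e ⊢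
      linear_combination e / 2
    exact_mod_cast e'
  have hpair : ∀ i j, ∃ N : ℤ, 4 * N = -(x1 i * x2 j + x1 i * x3 j + x2 i * x1 j + x2 i * x3 j
      + x3 i * x1 j + x3 i * x2 j) + 6 * m i * m j := by
    intro i j
    obtain ⟨N, hN⟩ := pair i j
    refine ⟨N, ?_⟩
    have e := T.prod hs hW (s i) (s j) _ _ _ _ _ _ _ _ (hx1 i) (hx2 i) (hx3 i) (hm i) (hx1 j)
      (hx2 j) (hx3 j) (hm j)
    rw [hN] at e
    exact_mod_cast e
  -- auxiliary: the lattice of type one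
  have key : ∀ (b1 b2 b3 : W) (y1 y2 y3 : ι → ℤ), IsTriple B b1 b2 b3 c →
      (∀ i, 2 * B (s i) b1 = y1 i) → (∀ i, 2 * B (s i) b2 = y2 i) →
      (∀ i, 2 * B (s i) b3 = y3 i) →
      (∀ i, ∃ N : ℤ, 4 * N = -(y1 i * y2 i + y2 i * y3 i + y3 i * y1 i) + 3 * m i ^ 2) →
      (∀ i, (4 : ℤ) ∣ y2 i + y3 i) →
      ∃ P O α, IsFrame B P O α c ∧ ∀ i, s i ∈ frameLat B P O α c ∧
      (3 ∣ y1 i → 3 ∣ y2 i → 3 ∣ y3 i → ∃ u v M : ℤ, 2 * B (s i) P = 3 * u ∧
        2 * B (s i) O = 3 * v ∧ 2 * B (s i) α = 3 * M ∧ Even (M + m i)) := by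
    intro b1 b2 b3 y1 y2 y3 T' h1 h2 h3 hq h4
    refine ⟨_, _, _, T'.frame1 hs, fun i => ?_⟩
    obtain ⟨n, hn⟩ := h4 i
    obtain ⟨N, hN⟩ := hq i
    have hn' : (y2 i : ℝ) + y3 i = 4 * n := by exact_mod_cast hn
    have hpar : Even (y2 i + m i) := by
      have e : Even (y2 i ^ 2 + 3 * m i ^ 2) := by
        refine ⟨2 * N + 2 * y1 i * n + 2 * y2 i * n, ?_⟩
        have : y3 i = 4 * n - y2 i := by linarith
        rw [this] at hN
        linear_combination -hN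
      rw [Int.even_add, Int.even_mul, Int.even_pow, Int.even_pow] at e
      rw [Int.even_add]
      have h30 : ¬ Even (3 : ℤ) := by decide
      tauto
    refine ⟨⟨⟨n, ?_⟩, ⟨y1 i + y2 i, ?_⟩, y2 i, m i, h2 i, hm i, hpar⟩, ?_⟩
    · simp only [map_add, map_smul, smul_eq_mul]
      linear_combination hn' / 4 + h2 i / 4 + h3 i / 4
    · simp only [map_add]
      push_cast
      linear_combination h1 i + h2 i
    · rintro ⟨z1, hz1⟩ ⟨z2, hz2⟩ ⟨z3, hz3⟩
      obtain ⟨u, hu⟩ : ∃ u, n = 3 * u := ⟨z2 + z3 - n, by omega⟩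
      refine ⟨u, z1 + z2, z2, ?_, ?_, ?_, ?_⟩
      · simp only [map_add, map_smul, smul_eq_mul]
        have : (n : ℝ) = 3 * u := by exact_mod_cast hu
        linear_combination hn' / 4 + h2 i / 4 + h3 i / 4 + this
      · simp only [map_add]
        have e1 : (y1 i : ℝ) = 3 * z1 := by exact_mod_cast hz1
        have e2 : (y2 i : ℝ) = 3 * z2 := by exact_mod_cast hz2
        push_cast
        linear_combination h1 i + h2 i + e1 + e2
      · rw [h2 i, hz2]; push_cast; ring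
      · rw [hz2] at hpar
        rw [Int.even_add, Int.even_mul] at hpar
        rw [Int.even_add]
        have h30 : ¬ Even (3 : ℤ) := by decide
        tauto
  by_cases hall : ∀ i, Even (x1 i + x2 i) ∧ Even (x1 i + x3 i)
  · -- type 0
    refine ⟨_, _, _, T.frame0 hs, fun i => ?_⟩
    obtain ⟨⟨n, hn⟩, ⟨n', hn'⟩⟩ := hall i
    obtain ⟨N, hN⟩ := hself i
    have hnR : (x1 i : ℝ) + x2 i = n + n := by exact_mod_cast hn
    have hnR' : (x1 i : ℝ) + x3 i = n' + n' := by exact_mod_cast hn'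
    have hpar : Even (x1 i + m i) := by
      have e : Even (x1 i ^ 2 + 3 * m i ^ 2) := by
        have h2 : x2 i = 2 * n - x1 i := by linarith
        have h3 : x3 i = 2 * n' - x1 i := by linarith
        rw [h2, h3] at hN
        refine ⟨-(2 * N) + 3 * m i ^ 2 - 2 * n * n' + x1 i ^ 2, ?_⟩
        linear_combination hN
      rw [Int.even_add, Int.even_mul, Int.even_pow, Int.even_pow] at e
      rw [Int.even_add]
      have h30 : ¬ Even (3 : ℤ) := by decide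
      tauto
    refine ⟨⟨⟨n, ?_⟩, ⟨n', ?_⟩, x1 i, m i, hx1 i, hm i, hpar⟩, ?_⟩
    · simp only [map_add, map_smul, smul_eq_mul]
      linear_combination hx1 i / 2 + hx2 i / 2 + hnR / 2
    · simp only [map_add, map_smul, smul_eq_mul]
      linear_combination hx1 i / 2 + hx3 i / 2 + hnR' / 2
    · rintro ⟨z1, hz1⟩ ⟨z2, hz2⟩ ⟨z3, hz3⟩
      obtain ⟨u, hu⟩ : ∃ u, n = 3 * u := ⟨n - z1 - z2, by omega⟩
      obtain ⟨v, hv⟩ : ∃ v, n' = 3 * v := ⟨n' - z1 - z3, by omega⟩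
      refine ⟨u, v, z1, ?_, ?_, ?_, ?_⟩
      · simp only [map_add, map_smul, smul_eq_mul]
        have : (n : ℝ) = 3 * u := by exact_mod_cast hu
        linear_combination hx1 i / 2 + hx2 i / 2 + hnR / 2 + this
      · simp only [map_add, map_smul, smul_eq_mul]
        have : (n' : ℝ) = 3 * v := by exact_mod_cast hv
        linear_combination hx1 i / 2 + hx3 i / 2 + hnR' / 2 + this
      · rw [hx1 i, hz1]; push_cast; ring
      · rw [hz1] at hpar
        rw [Int.even_add, Int.even_mul] at hpar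
        rw [Int.even_add]
        have h30 : ¬ Even (3 : ℤ) := by decide
        tauto
  · push Not at hall
    obtain ⟨i0, hi0⟩ := hall
    have hcase : (Even (x2 i0 + x3 i0) ∧ ¬ Even (x1 i0 + x2 i0)) ∨
        (Even (x3 i0 + x1 i0) ∧ ¬ Even (x2 i0 + x3 i0)) ∨
        (Even (x1 i0 + x2 i0) ∧ ¬ Even (x3 i0 + x1 i0)) := by
      simp only [Int.even_add] at hi0 ⊢
      tauto
    obtain ⟨N1, hN1⟩ := hself i0
    rcases hcase with ⟨h1, h2⟩ | ⟨h1, h2⟩ | ⟨h1, h2⟩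
    · refine key a1 a2 a3 x1 x2 x3 T hx1 hx2 hx3 hself ?_
      intro j
      obtain ⟨N2, hN2⟩ := hself j
      obtain ⟨N3, hN3⟩ := hpair i0 j
      exact pattern_forces _ _ _ _ _ _ _ _ N1 N2 N3 hN1 hN2 hN3 h1 h2
    · have hself' : ∀ i, ∃ N : ℤ, 4 * N =
          -(x2 i * x3 i + x3 i * x1 i + x1 i * x2 i) + 3 * m i ^ 2 := by
        intro i
        obtain ⟨N, hN⟩ := hself i
        exact ⟨N, by linear_combination hN⟩
      obtain ⟨P, O, α, hF, hh⟩ := key a2 a3 a1 x2 x3 x1 T.rotate hx2 hx3 hx1 hself' (by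
        intro j
        obtain ⟨N1, hN1⟩ := hself' i0
        obtain ⟨N2, hN2⟩ := hself' j
        obtain ⟨N3, hN3⟩ := hpair i0 j
        exact pattern_forces _ _ _ _ _ _ _ _ N1 N2 N3 hN1 hN2
          (by linear_combination hN3) h1 h2)
      exact ⟨P, O, α, hF, fun i => ⟨(hh i).1, fun h1 h2 h3 => (hh i).2 h2 h3 h1⟩⟩
    · have hself' : ∀ i, ∃ N : ℤ, 4 * N =
          -(x3 i * x1 i + x1 i * x2 i + x2 i * x3 i) + 3 * m i ^ 2 := by
        intro i
        obtain ⟨N, hN⟩ := hself i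
        exact ⟨N, by linear_combination hN⟩
      obtain ⟨P, O, α, hF, hh⟩ := key a3 a1 a2 x3 x1 x2 T.rotate.rotate hx3 hx1 hx2 hself' (by
        intro j
        obtain ⟨N1, hN1⟩ := hself' i0
        obtain ⟨N2, hN2⟩ := hself' j
        obtain ⟨N3, hN3⟩ := hpair i0 j
        exact pattern_forces _ _ _ _ _ _ _ _ N1 N2 N3 hN1 hN2
          (by linear_combination hN3) h1 h2)
      exact ⟨P, O, α, hF, fun i => ⟨(hh i).1, fun h1 h2 h3 => (hh i).2 h3 h1 h2⟩⟩

end ArithPoly
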