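import Pool.Agent.LibArithPoly.T8Frame

/-!
# Null partners and the corner lemma
-/

namespace ArithPoly

variable {W : Type} [AddCommGroup W] [Module ℝ W] {B : LinearMap.BilinForm ℝ W}

theorem real_smul_mem (L : AddSubgroup W) (n : ℤ) {x : W} (hx : x ∈ L) : (n : ℝ) • x ∈ L := by
  rw [Int.cast_smul_eq_zsmul]
  exact AddSubgroup.zsmul_mem _ hx _

section lattice

variable {P O a c : W} (h : IsFrame B P O a c) (hs : ∀ x y, B x y = B y x)
  (hW : Module.finrank ℝ W = 4)

include h hs hW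

/-- no prime divides all the coordinates of a primitive null vector -/
theorem frameLat_noprime (q : W) (hnull : B q q = 0)
    (hprim : ∀ x ∈ frameLat B P O a c, ∀ m : ℤ, q = m • x → m = 1 ∨ m = -1)
    (m n k l : ℤ) (hm : 2 * B q P = m) (hn : 2 * B q O = n) (hj : 2 * B q a = ((k + 2 * l : ℤ) : ℝ))
    (hk : 2 * B q c = 3 * k) (p : ℕ) (hp : p.Prime) (h1 : (p : ℤ) ∣ m) (h2 : (p : ℤ) ∣ n)
    (h3 : (p : ℤ) ∣ k + 2 * l) (h4 : (p : ℤ) ∣ 2 * k + l) : False := by
  have hpZ : Prime (p : ℤ) := Nat.prime_iff_prime_int.mp hp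
  have hmn : m * n = k ^ 2 + k * l + l ^ 2 := by
    have e := h.prod hs hW q q
    rw [hnull] at e
    have e1 : B q P = m / 2 := by linarith
    have e2 : B q O = n / 2 := by linarith
    have e3 : B q a = (k + 2 * l) / 2 := by push_cast at hj; linarith
    have e4 : B q c = 3 * k / 2 := by linarith
    rw [e1, e2, e3, e4] at e
    have : (m : ℝ) * n = k ^ 2 + k * l + l ^ 2 := by linear_combination e
    exact_mod_cast this
  have hkl : (p : ℤ) ∣ k ∧ (p : ℤ) ∣ l := by
    have h3k : (p : ℤ) ∣ 3 * k := by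
      have : 3 * k = 2 * (2 * k + l) - (k + 2 * l) := by ring
      rw [this]
      exact dvd_sub (Dvd.dvd.mul_left h4 _) h3
    have h3l : (p : ℤ) ∣ 3 * l := by
      have : 3 * l = 2 * (k + 2 * l) - (2 * k + l) := by ring
      rw [this]
      exact dvd_sub (Dvd.dvd.mul_left h3 _) h4
    rcases hpZ.dvd_or_dvd h3k with h5 | h5
    · have hp3 : p = 3 := by
        have : p ∣ 3 := by exact_mod_cast h5
        exact (Nat.prime_dvd_prime_iff_eq hp Nat.prime_three).mp this
      subst hp3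
      obtain ⟨s, hs'⟩ : (3 : ℤ) ∣ k - l := by
        have : k - l = (k + 2 * l) - 3 * l := by ring
        rw [this]
        exact dvd_sub (by exact_mod_cast h3) (Dvd.intro _ rfl)
      have hk' : k = l + 3 * s := by linarith
      have h9 : (9 : ℤ) ∣ m * n := by
        have := mul_dvd_mul h1 h2
        norm_num at this
        exact this
      rw [hmn, hk'] at h9
      have h9' : (9 : ℤ) ∣ 3 * l ^ 2 := by
        have : 3 * l ^ 2 = ((l + 3 * s) ^ 2 + (l + 3 * s) * l + l ^ 2) - 9 * (s * l + s ^ 2) := by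
          ring
        rw [this]
        exact dvd_sub h9 (Dvd.intro _ rfl)
      have h3' : (3 : ℤ) ∣ l ^ 2 := by omega
      have h3'' : (3 : ℤ) ∣ l := Int.prime_three.dvd_of_dvd_pow h3'
      refine ⟨?_, ?_⟩
      · rw [hk']
        exact_mod_cast dvd_add h3'' (Dvd.intro _ rfl)
      · exact_mod_cast h3''
    · rcases hpZ.dvd_or_dvd h3l with h6 | h6
      · have hp3 : p = 3 := by
          have : p ∣ 3 := by exact_mod_cast h6
          exact (Nat.prime_dvd_prime_iff_eq hp Nat.prime_three).mp this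
        refine ⟨h5, ?_⟩
        subst hp3
        obtain ⟨s, hs'⟩ := h5
        obtain ⟨t, ht'⟩ := h4
        refine ⟨t - 2 * s, ?_⟩
        push_cast at *
        linarith
      · exact ⟨h5, h6⟩
  obtain ⟨m', rfl⟩ := h1
  obtain ⟨n', rfl⟩ := h2
  obtain ⟨⟨k', rfl⟩, ⟨l', rfl⟩⟩ := hkl
  have hp0 : (p : ℝ) ≠ 0 := by exact_mod_cast hp.ne_zero
  push_cast at hm hn hj hk
  have hx : (1 / (p : ℝ)) • q ∈ frameLat B P O a c := by
    refine ⟨⟨m', ?_⟩, ⟨n', ?_⟩, k' + 2 * l', k', ?_, ?_, ?_⟩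
    · simp only [map_smul, LinearMap.smul_apply, smul_eq_mul]
      field_simp
      linarith
    · simp only [map_smul, LinearMap.smul_apply, smul_eq_mul]
      field_simp
      linarith
    · simp only [map_smul, LinearMap.smul_apply, smul_eq_mul]
      push_cast
      field_simp
      linarith
    · simp only [map_smul, LinearMap.smul_apply, smul_eq_mul]
      field_simp
      linarith
    · exact ⟨k' + l', by ring⟩
  have := hprim _ hx p (by
    rw [← Int.cast_smul_eq_zsmul ℝ, smul_smul]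
    push_cast
    rw [mul_one_div_cancel hp0, one_smul])
  have hp2 := hp.two_le
  omega

/-- For a primitive null vector `q` there is a null vector `o` with `2 B q o = -1`. -/
theorem frameLat_partner (q : W) (hq : q ∈ frameLat B P O a c) (hnull : B q q = 0)
    (hprim : ∀ x ∈ frameLat B P O a c, ∀ m : ℤ, q = m • x → m = 1 ∨ m = -1) :
    ∃ o ∈ frameLat B P O a c, B o o = 0 ∧ B q o = -1 / 2 := by
  obtain ⟨⟨m, hm⟩, ⟨n, hn⟩, j, k, hj, hk, s, hjk⟩ := id hq
  obtain ⟨l, rfl⟩ : ∃ l, j = k + 2 * l := ⟨s - k, by linarith⟩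
  have hg : Int.gcd (Int.gcd m n) (Int.gcd (k + 2 * l) (2 * k + l)) = 1 := by
    by_contra hne
    obtain ⟨p, hp, hpd⟩ := Nat.exists_prime_and_dvd hne
    have hpd' : (p : ℤ) ∣ (Int.gcd (Int.gcd m n) (Int.gcd (k + 2 * l) (2 * k + l)) : ℤ) := by
      exact_mod_cast hpd
    have g1 := hpd'.trans (Int.gcd_dvd_left _ _)
    have g2 := hpd'.trans (Int.gcd_dvd_right _ _)
    exact frameLat_noprime h hs hW q hnull hprim m n k l hm hn hj hk p hp
      (g1.trans (Int.gcd_dvd_left _ _)) (g1.trans (Int.gcd_dvd_right _ _))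
      (g2.trans (Int.gcd_dvd_left _ _)) (g2.trans (Int.gcd_dvd_right _ _))
  have hbez : ∃ u v w z : ℤ, m * u + n * v + (k + 2 * l) * w + (2 * k + l) * z = 1 := by
    have e0 := Int.gcd_eq_gcd_ab (Int.gcd m n) (Int.gcd (k + 2 * l) (2 * k + l))
    have e1 := Int.gcd_eq_gcd_ab m n
    have e2 := Int.gcd_eq_gcd_ab (k + 2 * l) (2 * k + l)
    rw [hg] at e0
    push_cast at e0
    refine ⟨Int.gcdA m n * Int.gcdA (Int.gcd m n) (Int.gcd (k + 2 * l) (2 * k + l)),
      Int.gcdB m n * Int.gcdA (Int.gcd m n) (Int.gcd (k + 2 * l) (2 * k + l)),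
      Int.gcdA (k + 2 * l) (2 * k + l) *
        Int.gcdB (Int.gcd m n) (Int.gcd (k + 2 * l) (2 * k + l)),
      Int.gcdB (k + 2 * l) (2 * k + l) *
        Int.gcdB (Int.gcd m n) (Int.gcd (k + 2 * l) (2 * k + l)), ?_⟩
    linear_combination (-1) * e0
      - Int.gcdA (Int.gcd m n) (Int.gcd (k + 2 * l) (2 * k + l)) * e1
      - Int.gcdB (Int.gcd m n) (Int.gcd (k + 2 * l) (2 * k + l)) * e2
  obtain ⟨u, v, w, z, huv⟩ := hbez
  set o' : W := -((u : ℝ) • P + (v : ℝ) • O + (w : ℝ) • a + (z : ℝ) • ((1 / 2 : ℝ) • (a + c)))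
    with ho'
  have ho'L : o' ∈ frameLat B P O a c := by
    refine neg_mem (add_mem (add_mem (add_mem ?_ ?_) ?_) ?_)
    · exact real_smul_mem _ _ (frameLat_P h)
    · exact real_smul_mem _ _ (frameLat_O h hs)
    · exact real_smul_mem _ _ (frameLat_a h hs)
    · exact real_smul_mem _ _ (frameLat_e h hs)
  have hqo : B q o' = -1 / 2 := by
    rw [ho']
    simp only [map_neg, map_add, map_smul, smul_eq_mul]
    have e1 : B q P = m / 2 := by linarith
    have e2 : B q O = n / 2 := by linarith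
    have e3 : B q a = (k + 2 * l) / 2 := by push_cast at hj; linarith
    have e4 : B q c = 3 * k / 2 := by linarith
    rw [e1, e2, e3, e4]
    have : (m : ℝ) * u + n * v + (k + 2 * l) * w + (2 * k + l) * z = 1 := by exact_mod_cast huv
    linear_combination (-1 / 2) * this
  obtain ⟨n0, hn0⟩ := frameLat_even h hs hW o' ho'L
  refine ⟨o' + (n0 : ℝ) • q, add_mem ho'L (real_smul_mem _ _ hq), ?_, ?_⟩
  · simp only [map_add, map_smul, LinearMap.add_apply, LinearMap.smul_apply, smul_eq_mul]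
    rw [hs o' q, hqo, hnull, hn0]
    ring
  · simp only [map_add, map_smul, smul_eq_mul]
    rw [hqo, hnull]
    ring

/-- the corner lemma -/
theorem frameLat_corner (p o α β q : W) (hp : p ∈ frameLat B P O a c)
    (hα : α ∈ frameLat B P O a c)
    (hβ : β ∈ frameLat B P O a c) (ho : o ∈ frameLat B P O a c) (hq : q ∈ frameLat B P O a c)
    (h3 : ∀ x ∈ frameLat B P O a c, ∃ n : ℤ, 2 * B β x = 3 * n)
    (pp : B p p = 0) (oo : B o o = 0) (po : B p o = -1 / 2) (pα : B p α = 0) (pβ : B p β = 0)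
    (qα : B q α = 0) (qβ : B q β = 0) (qq : B q q = 0) (pq : B p q < 0) (αα : B α α = 1)
    (ββ : B β β = 3) (αβ : B α β = 0)
    (hprim : ∀ x ∈ frameLat B P O a c, ∀ m : ℤ, q = m • x → m = 1 ∨ m = -1)
    (r t : ℤ) (hr : 2 * B α o = r) (ht : 2 * B β o = 3 * t) :
    (Even (r + t) ∧ 2 * B p q = -1) ∨
    (¬ Even (r + t) ∧ 2 * B p q = -4 ∧
      (1 / 4 : ℝ) • (p + q - (2 : ℝ) • α) ∈ frameLat B P O a c) := by
  have op : B o p = -1 / 2 := by rw [hs, po]
  have αp : B α p = 0 := by rw [hs, pα]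
  have βp : B β p = 0 := by rw [hs, pβ]
  have qp : B q p = B p q := hs _ _
  have αo : B α o = r / 2 := by linarith
  have βo : B β o = 3 * t / 2 := by linarith
  have oα : B o α = r / 2 := by rw [hs, αo]
  have oβ : B o β = 3 * t / 2 := by rw [hs, βo]
  set α' : W := α + (r : ℝ) • p with hα'
  set β' : W := β + ((3 * t : ℤ) : ℝ) • p with hβ'
  have hα'L : α' ∈ frameLat B P O a c := add_mem hα (real_smul_mem _ _ hp)
  have hβ'L : β' ∈ frameLat B P O a c := add_mem hβ (real_smul_mem _ _ hp)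
  have fr : IsFrame B p o α' β' := by
    refine ⟨pp, oo, po, ?_, ?_, ?_, ?_, ?_, ?_, ?_⟩ <;>
    simp only [hα', hβ', map_add, map_smul, LinearMap.add_apply, LinearMap.smul_apply,
      smul_eq_mul, pp, pα, pβ, op, αp, βp, αα, ββ, αβ, oα, oβ] <;>
    push_cast <;> ring
  -- coordinates of a lattice vector in the new frame
  have coord : ∀ y ∈ frameLat B P O a c, ∃ j k : ℤ, 2 * B α' y = j ∧ 2 * B β' y = 3 * k ∧
      Even (j + k) := by
    intro y hy
    obtain ⟨j, hj⟩ := frameLat_int h hs hW α' hα'L y hy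
    obtain ⟨n, hn⟩ := h3 y hy
    obtain ⟨n', hn'⟩ := frameLat_int h hs hW p hp y hy
    obtain ⟨n1, hn1⟩ := frameLat_int h hs hW y hy o ho
    obtain ⟨N, hN⟩ := frameLat_even h hs hW y hy
    have hk : 2 * B β' y = 3 * ((n + t * n' : ℤ) : ℝ) := by
      rw [hβ']
      simp only [map_add, map_smul, LinearMap.add_apply, LinearMap.smul_apply, smul_eq_mul]
      push_cast
      linear_combination hn + 3 * t * hn'
    refine ⟨j, n + t * n', hj, hk, ?_⟩
    have e := fr.prod hs hW y y
    have f1 : B y p = n' / 2 := by rw [hs]; linarith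
    have f2 : B y o = n1 / 2 := by linarith
    have f3 : B y α' = j / 2 := by rw [hs]; linarith
    have f4 : B y β' = 3 * ((n + t * n' : ℤ) : ℝ) / 2 := by rw [hs]; linarith
    rw [f1, f2, f3, f4, hN] at e
    have e' : ((j ^ 2 + 3 * (n + t * n') ^ 2 : ℤ) : ℝ) = ((4 * (N + n' * n1) : ℤ) : ℝ) := by
      push_cast at e ⊢
      linear_combination -4 * e
    have e'' : j ^ 2 + 3 * (n + t * n') ^ 2 = 4 * (N + n' * n1) := by exact_mod_cast e'
    have hev : Even (j ^ 2 + 3 * (n + t * n') ^ 2) := by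
      rw [e'']
      exact ⟨2 * (N + n' * n1), by ring⟩
    rw [Int.even_add, Int.even_mul, Int.even_pow, Int.even_pow] at hev
    rw [Int.even_add]
    have h30 : ¬ Even (3 : ℤ) := by decide
    tauto
  -- the half vector
  have heL : (1 / 2 : ℝ) • (α' + β') ∈ frameLat B P O a c := by
    have h3e : (3 : ℝ) • ((1 / 2 : ℝ) • (α' + β')) ∈ frameLat B P O a c := by
      apply frameLat_dual h hs
      intro y hy
      obtain ⟨j, k, hj, hk, s, hjk⟩ := coord y hy
      refine ⟨s + k, ?_⟩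
      simp only [map_add, map_smul, LinearMap.add_apply, LinearMap.smul_apply, smul_eq_mul]
      have : (j : ℝ) + k = s + s := by exact_mod_cast hjk
      push_cast
      linear_combination hj / 2 + hk / 2 + this / 2
    have := sub_mem h3e (add_mem hα'L hβ'L)
    have e : (3 : ℝ) • ((1 / 2 : ℝ) • (α' + β')) - (α' + β') = (1 / 2 : ℝ) • (α' + β') := by
      module
    rwa [e] at this
  have hK : ∀ j k : ℤ, Even (j + k) →
      ((j : ℝ) / 2) • α' + ((k : ℝ) / 2) • β' ∈ frameLat B P O a c := by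
    rintro j k ⟨s, hjk⟩
    have e : ((j : ℝ) / 2) • α' + ((k : ℝ) / 2) • β'
        = (k : ℝ) • ((1 / 2 : ℝ) • (α' + β')) + ((s - k : ℤ) : ℝ) • α' := by
      have : (j : ℝ) = 2 * s - k := by
        have : (j : ℝ) + k = s + s := by exact_mod_cast hjk
        linarith
      rw [this]
      push_cast
      module
    rw [e]
    exact add_mem (real_smul_mem _ _ heL) (real_smul_mem _ _ hα'L)
  -- coordinates of `q`
  obtain ⟨y, hy⟩ := frameLat_int h hs hW (-p) (neg_mem hp) q hq
  obtain ⟨x, hx⟩ := frameLat_int h hs hW (-q) (neg_mem hq) o ho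
  obtain ⟨z, hz⟩ := frameLat_int h hs hW _ heL q hq
  simp only [map_neg, LinearMap.neg_apply] at hy hx
  have hpq : B p q = -(y : ℝ) / 2 := by linarith
  have hy0 : 0 < y := by
    have : (0 : ℝ) < y := by linarith
    exact_mod_cast this
  have hqo : B q o = -(x : ℝ) / 2 := by linarith
  have hqα' : B q α' = -(r * y : ℝ) / 2 := by
    rw [hα']
    simp only [map_add, map_smul, smul_eq_mul]
    rw [qα, qp, hpq]
    ring
  have hqβ' : B q β' = -(3 * t * y : ℝ) / 2 := by
    rw [hβ']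
    simp only [map_add, map_smul, smul_eq_mul]
    rw [qβ, qp, hpq]
    push_cast
    ring
  have hqe : q = (x : ℝ) • p + (y : ℝ) • o + (-(r * y : ℝ) / 2) • α'
      + (-(t * y : ℝ) / 2) • β' := by
    have e := fr.expand hs hW q
    rw [hqo, qp, hpq, hqα', hqβ'] at e
    rw [show -(2 * (-(x : ℝ) / 2)) = x by ring, show -(2 * (-(y : ℝ) / 2)) = y by ring,
      show -(3 * t * y : ℝ) / 2 / 3 = -(t * y : ℝ) / 2 by ring] at e
    exact e
  have hnull : 4 * x = y * (r ^ 2 + 3 * t ^ 2) := by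
    have e := fr.prod hs hW q q
    rw [qq, hqo, qp, hpq, hqα', hqβ'] at e
    have e1 : (y : ℝ) * (4 * x) = y * (y * (r ^ 2 + 3 * t ^ 2)) := by
      linear_combination 4 * e
    have e2 : y * (4 * x) = y * (y * (r ^ 2 + 3 * t ^ 2)) := by exact_mod_cast e1
    exact mul_left_cancel₀ hy0.ne' e2
  have hpar : Even (y * (r + t)) := by
    have e : 2 * ((1 / 2 : ℝ) * (B α' q + B β' q)) = z := by
      simpa only [map_add, map_smul, LinearMap.add_apply, LinearMap.smul_apply,
        smul_eq_mul] using hz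
    rw [hs α' q, hs β' q, hqα', hqβ'] at e
    have e1 : (y : ℝ) * (r + t) = -(z + t * y) + -(z + t * y) := by linear_combination -2 * e
    exact ⟨-(z + t * y), by exact_mod_cast e1⟩
  by_cases hrt : Even (r + t)
  · left
    refine ⟨hrt, ?_⟩
    obtain ⟨w, hw⟩ := four_dvd_sq hrt
    have hmem : (w : ℝ) • p + o + -(((r : ℝ) / 2) • α' + ((t : ℝ) / 2) • β')
        ∈ frameLat B P O a c :=
      add_mem (add_mem (real_smul_mem _ _ hp) ho) (neg_mem (hK r t hrt))
    have hxw : x = y * w := by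
      rw [hw] at hnull
      linarith
    have hqq : q = y • ((w : ℝ) • p + o + -(((r : ℝ) / 2) • α' + ((t : ℝ) / 2) • β')) := by
      rw [← Int.cast_smul_eq_zsmul ℝ, hqe, hxw]
      push_cast
      module
    rcases hprim _ hmem y hqq with h1 | h1
    · rw [hpq, h1]; norm_num
    · omega
  · right
    have hy2 : Even y := by
      rcases Int.even_mul.mp hpar with h1 | h1
      · exact h1
      · exact absurd h1 hrt
    obtain ⟨y1, hy1⟩ := hy2
    have hodd : Odd (r ^ 2 + 3 * t ^ 2) := by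
      rw [← Int.not_even_iff_odd]
      intro hev
      apply hrt
      rw [Int.even_add, Int.even_mul, Int.even_pow, Int.even_pow] at hev
      rw [Int.even_add]
      have h30 : ¬ Even (3 : ℤ) := by decide
      tauto
    have h2x : 2 * x = y1 * (r ^ 2 + 3 * t ^ 2) := by
      rw [hy1] at hnull
      linarith
    have hy1e : Even y1 := by
      have : Even (y1 * (r ^ 2 + 3 * t ^ 2)) := by
        rw [← h2x]; exact even_two_mul x
      rcases Int.even_mul.mp this with h1 | h1
      · exact h1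
      · exact absurd h1 (Int.not_even_iff_odd.mpr hodd)
    obtain ⟨y2, hy2⟩ := hy1e
    have hy4 : y = 4 * y2 := by linarith
    have hxx : x = y2 * (r ^ 2 + 3 * t ^ 2) := by
      rw [hy2] at h2x
      linarith
    have hmem : ((r ^ 2 + 3 * t ^ 2 : ℤ) : ℝ) • p + ((4 : ℤ) : ℝ) • o
        + ((-(2 * r) : ℤ) : ℝ) • α' + ((-(2 * t) : ℤ) : ℝ) • β' ∈ frameLat B P O a c :=
      add_mem (add_mem (add_mem (real_smul_mem _ _ hp) (real_smul_mem _ _ ho))
        (real_smul_mem _ _ hα'L)) (real_smul_mem _ _ hβ'L)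
    have hqq : q = y2 • (((r ^ 2 + 3 * t ^ 2 : ℤ) : ℝ) • p + ((4 : ℤ) : ℝ) • o
        + ((-(2 * r) : ℤ) : ℝ) • α' + ((-(2 * t) : ℤ) : ℝ) • β') := by
      rw [← Int.cast_smul_eq_zsmul ℝ, hqe, hxx, hy4]
      push_cast
      module
    have hy21 : y2 = 1 := by
      rcases hprim _ hmem y2 hqq with h1 | h1
      · exact h1
      · omega
    refine ⟨hrt, ?_, ?_⟩
    · rw [hpq, hy4, hy21]; norm_num
    · have hrt' : Even ((r + 1) + t) := by
        rw [Int.not_even_iff_odd] at hrt
        have := hrt.add_one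
        rwa [add_right_comm] at this
      obtain ⟨w, hw⟩ := four_dvd_sq hrt'
      have hmem' : (w : ℝ) • p + o + -((((r + 1 : ℤ) : ℝ) / 2) • α' + ((t : ℝ) / 2) • β')
          ∈ frameLat B P O a c :=
        add_mem (add_mem (real_smul_mem _ _ hp) ho) (neg_mem (hK (r + 1) t hrt'))
      have hwR : (w : ℝ) = ((r + 1) ^ 2 + 3 * t ^ 2) / 4 := by
        have : ((r : ℝ) + 1) ^ 2 + 3 * t ^ 2 = 4 * w := by exact_mod_cast hw
        linarith
      have e : (1 / 4 : ℝ) • (p + q - (2 : ℝ) • α) =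
          (w : ℝ) • p + o + -((((r + 1 : ℤ) : ℝ) / 2) • α' + ((t : ℝ) / 2) • β') := by
        have hαα : α = α' - (r : ℝ) • p := by rw [hα']; abel
        rw [hqq, hy21, one_smul, hαα, hwR]
        push_cast
        module
      rw [e]
      exact hmem'

end lattice

end ArithPoly
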