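import Pool.Agent.LibArithPoly.Config

/-!
# Frames and the lattice `U + A2`
-/

namespace ArithPoly

variable {W : Type} [AddCommGroup W] [Module ℝ W] {B : LinearMap.BilinForm ℝ W}

/-- `P, O` is a hyperbolic pair, `a` has norm `1`, `c` has norm `3`, all orthogonal. -/
structure IsFrame (B : LinearMap.BilinForm ℝ W) (P O a c : W) : Prop where
  PP : B P P = 0
  OO : B O O = 0
  PO : B P O = -1 / 2
  Pa : B P a = 0
  Pc : B P c = 0
  Oa : B O a = 0
  Oc : B O c = 0
  aa : B a a = 1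
  cc : B c c = 3
  ac : B a c = 0

theorem IsFrame.expand {P O a c : W} (h : IsFrame B P O a c) (hs : ∀ x y, B x y = B y x)
    (hW : Module.finrank ℝ W = 4) (x : W) :
    x = (-(2 * B x O)) • P + (-(2 * B x P)) • O + (B x a) • a + (B x c / 3) • c := by
  have hOP : B O P = -1 / 2 := by rw [hs, h.PO]
  have haP : B a P = 0 := by rw [hs, h.Pa]
  have hcP : B c P = 0 := by rw [hs, h.Pc]
  have haO : B a O = 0 := by rw [hs, h.Oa]
  have hcO : B c O = 0 := by rw [hs, h.Oc]
  have hca : B c a = 0 := by rw [hs, h.ac]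
  have li : LinearIndependent ℝ ![P, O, a, c] := by
    rw [Fintype.linearIndependent_iff]
    intro g hg
    rw [Fin.sum_univ_four] at hg
    simp only [Matrix.cons_val_zero, Matrix.cons_val_one, Matrix.cons_val] at hg
    have e1 := congrArg (fun z => B z O) hg
    have e2 := congrArg (fun z => B z P) hg
    have e3 := congrArg (fun z => B z a) hg
    have e4 := congrArg (fun z => B z c) hg
    simp only [map_add, map_smul, LinearMap.add_apply, LinearMap.smul_apply, smul_eq_mul,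
      h.PP, h.OO, h.PO, h.Pa, h.Pc, h.Oa, h.Oc, h.aa, h.cc, h.ac, hOP, haP, hcP, haO, hcO, hca,
      map_zero, LinearMap.zero_apply] at e1 e2 e3 e4
    intro i
    fin_cases i
    · show g 0 = 0
      linarith
    · show g 1 = 0
      linarith
    · show g 2 = 0
      linarith
    · show g 3 = 0
      linarith
  have hspan : ⊤ ≤ Submodule.span ℝ (Set.range ![P, O, a, c]) := by
    have : FiniteDimensional ℝ W := Module.finite_of_finrank_pos (by rw [hW]; norm_num)
    have := li.span_eq_top_of_card_eq_finrank' (by simp [hW])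
    rw [this]
  have hx : x ∈ Submodule.span ℝ (Set.range ![P, O, a, c]) := hspan trivial
  rw [Submodule.mem_span_range_iff_exists_fun] at hx
  obtain ⟨g, hg⟩ := hx
  rw [Fin.sum_univ_four] at hg
  simp only [Matrix.cons_val_zero, Matrix.cons_val_one, Matrix.cons_val] at hg
  have e1 := congrArg (fun z => B z O) hg
  have e2 := congrArg (fun z => B z P) hg
  have e3 := congrArg (fun z => B z a) hg
  have e4 := congrArg (fun z => B z c) hg
  simp only [map_add, map_smul, LinearMap.add_apply, LinearMap.smul_apply, smul_eq_mul,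
    h.PP, h.OO, h.PO, h.Pa, h.Pc, h.Oa, h.Oc, h.aa, h.cc, h.ac, hOP, haP, hcP, haO, hcO, hca]
    at e1 e2 e3 e4
  have f1 : -(2 * B x O) = g 0 := by rw [← e1]; ring
  have f2 : -(2 * B x P) = g 1 := by rw [← e2]; ring
  have f3 : B x a = g 2 := by rw [← e3]; ring
  have f4 : B x c / 3 = g 3 := by rw [← e4]; ring
  rw [f1, f2, f3, f4, hg]

theorem IsFrame.prod {P O a c : W} (h : IsFrame B P O a c) (hs : ∀ x y, B x y = B y x)
    (hW : Module.finrank ℝ W = 4) (x y : W) :
    B x y = -(2 * B x O) * B y P + -(2 * B x P) * B y O + B x a * B y a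
      + (B x c / 3) * B y c := by
  conv_lhs => rw [h.expand hs hW x]
  simp only [map_add, map_smul, LinearMap.add_apply, LinearMap.smul_apply, smul_eq_mul]
  rw [hs P y, hs O y, hs a y, hs c y]

/-- The lattice attached to a frame. -/
def frameLat (B : LinearMap.BilinForm ℝ W) (P O a c : W) : AddSubgroup W where
  carrier := {x | (∃ m : ℤ, 2 * B x P = m) ∧ (∃ n : ℤ, 2 * B x O = n) ∧
    ∃ j k : ℤ, 2 * B x a = j ∧ 2 * B x c = 3 * k ∧ Even (j + k)}
  zero_mem' := by
    refine ⟨⟨0, by simp⟩, ⟨0, by simp⟩, 0, 0, by simp, by simp, by simp⟩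
  add_mem' := by
    rintro x y ⟨⟨m, hm⟩, ⟨n, hn⟩, j, k, hj, hk, hjk⟩ ⟨⟨m', hm'⟩, ⟨n', hn'⟩, j', k', hj', hk', hjk'⟩
    refine ⟨⟨m + m', ?_⟩, ⟨n + n', ?_⟩, j + j', k + k', ?_, ?_, ?_⟩
    · simp only [map_add, LinearMap.add_apply]; push_cast; linarith
    · simp only [map_add, LinearMap.add_apply]; push_cast; linarith
    · simp only [map_add, LinearMap.add_apply]; push_cast; linarith
    · simp only [map_add, LinearMap.add_apply]; push_cast; linarith
    · have := hjk.add hjk'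
      rwa [add_add_add_comm] at this
  neg_mem' := by
    rintro x ⟨⟨m, hm⟩, ⟨n, hn⟩, j, k, hj, hk, hjk⟩
    refine ⟨⟨-m, ?_⟩, ⟨-n, ?_⟩, -j, -k, ?_, ?_, ?_⟩
    · simp only [map_neg, LinearMap.neg_apply]; push_cast; linarith
    · simp only [map_neg, LinearMap.neg_apply]; push_cast; linarith
    · simp only [map_neg, LinearMap.neg_apply]; push_cast; linarith
    · simp only [map_neg, LinearMap.neg_apply]; push_cast; linarith
    · rw [← neg_add]; exact hjk.neg

theorem mem_frameLat {P O a c x : W} : x ∈ frameLat B P O a c ↔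
    (∃ m : ℤ, 2 * B x P = m) ∧ (∃ n : ℤ, 2 * B x O = n) ∧
    ∃ j k : ℤ, 2 * B x a = j ∧ 2 * B x c = 3 * k ∧ Even (j + k) := Iff.rfl

theorem four_dvd_sq {j k : ℤ} (h : Even (j + k)) : ∃ l : ℤ, j ^ 2 + 3 * k ^ 2 = 4 * l := by
  obtain ⟨s, hs⟩ := h
  have : j = 2 * s - k := by linarith
  subst this
  exact ⟨s ^ 2 - s * k + k ^ 2, by ring⟩

section lattice

variable {P O a c : W} (h : IsFrame B P O a c) (hs : ∀ x y, B x y = B y x)
  (hW : Module.finrank ℝ W = 4)

include h hs hW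

theorem frameLat_even : ∀ x ∈ frameLat B P O a c, ∃ n : ℤ, B x x = n := by
  rintro x ⟨⟨m, hm⟩, ⟨n, hn⟩, j, k, hj, hk, hjk⟩
  obtain ⟨l, hl⟩ := four_dvd_sq hjk
  refine ⟨-(m * n) + l, ?_⟩
  rw [h.prod hs hW]
  have h1 : B x P = m / 2 := by linarith
  have h2 : B x O = n / 2 := by linarith
  have h3 : B x a = j / 2 := by linarith
  have h4 : B x c = 3 * k / 2 := by linarith
  rw [h1, h2, h3, h4]
  have h5 : (j : ℝ) ^ 2 + 3 * (k : ℝ) ^ 2 = 4 * l := by exact_mod_cast hl
  push_cast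
  linear_combination h5 / 4

theorem frameLat_int : ∀ x ∈ frameLat B P O a c, ∀ y ∈ frameLat B P O a c,
    ∃ n : ℤ, 2 * B x y = n := by
  intro x hx y hy
  obtain ⟨n1, h1⟩ := frameLat_even h hs hW x hx
  obtain ⟨n2, h2⟩ := frameLat_even h hs hW y hy
  obtain ⟨n3, h3⟩ := frameLat_even h hs hW _ (add_mem hx hy)
  refine ⟨n3 - n1 - n2, ?_⟩
  simp only [map_add, LinearMap.add_apply] at h3
  rw [hs y x] at h3
  push_cast
  linarith

omit hs hW in
theorem frameLat_P : P ∈ frameLat B P O a c := by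
  refine ⟨⟨0, by rw [h.PP]; simp⟩, ⟨-1, by rw [h.PO]; norm_num⟩, 0, 0, by rw [h.Pa]; simp,
    by rw [h.Pc]; simp, by simp⟩

omit hW in
theorem frameLat_O : O ∈ frameLat B P O a c := by
  refine ⟨⟨-1, by rw [hs, h.PO]; norm_num⟩, ⟨0, by rw [h.OO]; simp⟩, 0, 0, by rw [h.Oa]; simp,
    by rw [h.Oc]; simp, by simp⟩

omit hW in
theorem frameLat_a : a ∈ frameLat B P O a c := by
  refine ⟨⟨0, by rw [hs, h.Pa]; norm_num⟩, ⟨0, by rw [hs, h.Oa]; simp⟩, 2, 0,
    by rw [h.aa]; norm_num, by rw [h.ac]; simp, by decide⟩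

omit hW in
theorem frameLat_c : c ∈ frameLat B P O a c := by
  refine ⟨⟨0, by rw [hs, h.Pc]; norm_num⟩, ⟨0, by rw [hs, h.Oc]; simp⟩, 0, 2,
    by rw [hs, h.ac]; norm_num, by rw [h.cc]; norm_num, by decide⟩

omit hW in
theorem frameLat_e : (1 / 2 : ℝ) • (a + c) ∈ frameLat B P O a c := by
  have haP : B a P = 0 := by rw [hs, h.Pa]
  have hcP : B c P = 0 := by rw [hs, h.Pc]
  have haO : B a O = 0 := by rw [hs, h.Oa]
  have hcO : B c O = 0 := by rw [hs, h.Oc]
  have hca : B c a = 0 := by rw [hs, h.ac]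
  refine ⟨⟨0, ?_⟩, ⟨0, ?_⟩, 1, 1, ?_, ?_, by decide⟩ <;>
  simp only [map_add, map_smul, LinearMap.add_apply, LinearMap.smul_apply, smul_eq_mul,
      h.aa, h.cc, h.ac, haP, hcP, haO, hcO, hca] <;>
    norm_num

omit hW in
/-- the dual lattice is contained in `(1/3) L` -/
theorem frameLat_dual (x : W) (hx : ∀ y ∈ frameLat B P O a c, ∃ n : ℤ, 2 * B x y = n) :
    (3 : ℝ) • x ∈ frameLat B P O a c := by
  obtain ⟨m, hm⟩ := hx _ (frameLat_P h)
  obtain ⟨n, hn⟩ := hx _ (frameLat_O h hs)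
  obtain ⟨j, hj⟩ := hx _ (frameLat_a h hs)
  obtain ⟨k, hk⟩ := hx _ (frameLat_e h hs)
  simp only [map_add, map_smul, smul_eq_mul] at hk
  refine ⟨⟨3 * m, ?_⟩, ⟨3 * n, ?_⟩, 3 * j, 2 * k - j, ?_, ?_, ?_⟩
  · simp only [map_smul, LinearMap.smul_apply, smul_eq_mul]; push_cast; linarith
  · simp only [map_smul, LinearMap.smul_apply, smul_eq_mul]; push_cast; linarith
  · simp only [map_smul, LinearMap.smul_apply, smul_eq_mul]; push_cast; linarith
  · simp only [map_smul, LinearMap.smul_apply, smul_eq_mul]; push_cast; linarith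
  · exact ⟨j + k, by ring⟩

/-- divisibility of `B`-products by `3` -/
theorem frameLat_b3 (β : W) (u v M k : ℤ) (hu : 2 * B β P = 3 * u) (hv : 2 * B β O = 3 * v)
    (hM : 2 * B β a = 3 * M) (hk : 2 * B β c = 3 * k) (hMk : Even (M + k)) :
    ∀ x ∈ frameLat B P O a c, ∃ n : ℤ, 2 * B β x = 3 * n := by
  rintro x ⟨⟨m, hm⟩, ⟨n, hn⟩, j, l, hj, hl, hjl⟩
  have hev : Even (j * M + k * l) := by
    rw [Int.even_add] at hMk hjl ⊢
    rw [Int.even_mul, Int.even_mul]
    tauto
  obtain ⟨s, hs'⟩ := hev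
  refine ⟨-(n * u) - m * v + s, ?_⟩
  rw [hs, h.prod hs hW]
  have h1 : B x P = m / 2 := by linarith
  have h2 : B x O = n / 2 := by linarith
  have h3 : B x a = j / 2 := by linarith
  have h4 : B x c = 3 * l / 2 := by linarith
  have h1' : B β P = 3 * u / 2 := by linarith
  have h2' : B β O = 3 * v / 2 := by linarith
  have h3' : B β a = 3 * M / 2 := by linarith
  have h4' : B β c = 3 * k / 2 := by linarith
  rw [h1, h2, h3, h4, h1', h2', h3', h4']
  have h5 : (j : ℝ) * M + k * l = s + s := by exact_mod_cast hs'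
  push_cast
  linear_combination (3 / 2) * h5

/-- a nonzero vector has a nonzero product with some vector of the lattice -/
theorem frameLat_nondeg (x : W) (hx : x ≠ 0) : ∃ y ∈ frameLat B P O a c, B x y ≠ 0 := by
  by_contra hcon
  push Not at hcon
  apply hx
  have := h.expand hs hW x
  rw [hcon _ (frameLat_P h), hcon _ (frameLat_O h hs), hcon _ (frameLat_a h hs),
    hcon _ (frameLat_c h hs)] at this
  simpa using this

/-- existence of the primitive vector on a ray -/
theorem frameLat_prim (N : W) (hN : N ∈ frameLat B P O a c) (h0 : N ≠ 0) :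
    ∃ P' ∈ frameLat B P O a c, ∃ n : ℤ, 0 < n ∧ N = (n : ℝ) • P' ∧
      ∀ x ∈ frameLat B P O a c, ∀ m : ℤ, P' = m • x → m = 1 ∨ m = -1 := by
  obtain ⟨y, hy, hy0⟩ := frameLat_nondeg h hs hW N h0
  obtain ⟨z, hz⟩ := frameLat_int h hs hW N hN y hy
  have hz0 : z ≠ 0 := by
    rintro rfl
    apply hy0
    simp at hz
    exact hz
  set S : Set ℕ := {n | 0 < n ∧ ∃ P' ∈ frameLat B P O a c, N = (n : ℝ) • P'} with hS
  have hne : S.Nonempty := ⟨1, one_pos, N, hN, by simp⟩
  have hbd : BddAbove S := by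
    refine ⟨z.natAbs, ?_⟩
    rintro n ⟨hn, P', hP', hNP⟩
    obtain ⟨w, hw⟩ := frameLat_int h hs hW P' hP' y hy
    have : z = n * w := by
      have h1 : (z : ℝ) = n * w := by
        rw [← hz, ← hw, hNP]
        simp only [map_smul, LinearMap.smul_apply, smul_eq_mul]
        ring
      exact_mod_cast h1
    have hdvd : n ∣ z.natAbs := by
      rw [this, Int.natAbs_mul]
      simp
    exact Nat.le_of_dvd (Int.natAbs_pos.mpr hz0) hdvd
  have hmem := Nat.sSup_mem hne hbd
  obtain ⟨hn, P', hP', hNP⟩ := hmem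
  refine ⟨P', hP', (sSup S : ℕ), by exact_mod_cast hn, by exact_mod_cast hNP, ?_⟩
  intro x hx m hm
  by_contra hcon
  push Not at hcon
  have hm0 : m ≠ 0 := by
    rintro rfl
    apply h0
    rw [hNP, hm]
    simp
  have hm2 : 2 ≤ m.natAbs := by omega
  have hxs : (m.sign : ℤ) • x ∈ frameLat B P O a c := AddSubgroup.zsmul_mem _ hx _
  have hin : (sSup S) * m.natAbs ∈ S := by
    refine ⟨by positivity, _, hxs, ?_⟩
    rw [hNP, hm]
    have h1 : (m : ℤ) = m.natAbs * m.sign := by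
      rw [mul_comm]; exact (Int.sign_mul_natAbs m).symm
    conv_lhs => rw [h1]
    rw [mul_zsmul, ← Int.cast_smul_eq_zsmul ℝ ((m.natAbs : ℕ) : ℤ), smul_smul]
    push_cast
    rw [Nat.cast_natAbs, Int.cast_abs]
  have hle := le_csSup hbd hin
  have : (sSup S) * 2 ≤ (sSup S) * m.natAbs := Nat.mul_le_mul_left _ hm2
  omega

end lattice

end ArithPoly
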