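import Pool.Agent.LibArithPoly.Config

/-!
# The cone lemma and ultraparallelism of walls (tasks T9, T10)
-/

open Matrix

namespace ArithPoly

variable {V F D : Type} [Fintype V] [Fintype F] [Fintype D]

/-! ### combinatorics of darts around a face -/

theorem DMap.face_phi (m : DMap V F D) (d : D) : m.face (m.phi d) = m.face d := by
  rw [m.face_iff]
  exact (Equiv.Perm.sameCycle_apply_left (f := m.rot⁻¹ * m.rev)).2 (Equiv.Perm.SameCycle.refl _ _)

theorem DMap.vert_rot (m : DMap V F D) (d : D) : m.vert (m.rot d) = m.vert d := by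
  rw [m.vert_iff]
  exact (Equiv.Perm.sameCycle_apply_left (f := m.rot)).2 (Equiv.Perm.SameCycle.refl _ _)

theorem DMap.vert_phi (m : DMap V F D) (d : D) : m.vert (m.phi d) = m.vert (m.rev d) := by
  have h := m.vert_rot (m.phi d)
  have h2 : m.rot (m.phi d) = m.rev d := by
    simp [DMap.phi]
  rw [h2] at h
  exact h.symm

theorem DMap.face_phi_symm (m : DMap V F D) (d : D) : m.face (m.phi.symm d) = m.face d := by
  have := m.face_phi (m.phi.symm d)
  rw [Equiv.apply_symm_apply] at this
  exact this.symm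

/-- every dart of the face of `d` is an iterate of `phi` at `d` -/
theorem DMap.exists_iterate (m : DMap V F D) {d e : D} (h : m.face d = m.face e) :
    ∃ k : ℕ, (m.phi)^[k] d = e := by
  have h1 := (m.face_iff d e).1 h
  obtain ⟨k, hk⟩ := h1.exists_nat_pow_eq
  exact ⟨k, by rw [← hk, ← Equiv.Perm.iterate_eq_pow]; rfl⟩

theorem DMap.face_iterate (m : DMap V F D) (d : D) (k : ℕ) :
    m.face ((m.phi)^[k] d) = m.face d := by
  induction k with
  | zero => rfl
  | succ k ih => rw [Function.iterate_succ_apply', m.face_phi, ih]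

theorem DMap.three_le_period (m : DMap V F D) (d : D) :
    3 ≤ Function.minimalPeriod m.phi d := by
  classical
  have h3 := m.three_le_face (m.face d)
  refine h3.trans ?_
  have hpos : 0 < Function.minimalPeriod m.phi d :=
    Function.minimalPeriod_pos_of_mem_periodicPts
      ((Function.Injective.mem_periodicPts m.phi.injective) d)
  have hsurj : Function.Surjective
      (fun k : Fin (Function.minimalPeriod m.phi d) =>
        (⟨(m.phi)^[k] d, m.face_iterate d k⟩ : {e // m.face e = m.face d})) := by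
    rintro ⟨e, he⟩
    obtain ⟨k, hk⟩ := m.exists_iterate he.symm
    refine ⟨⟨k % Function.minimalPeriod m.phi d, Nat.mod_lt _ hpos⟩, ?_⟩
    apply Subtype.ext
    simp only [Function.iterate_mod_minimalPeriod_eq]
    exact hk
  have := Nat.card_le_card_of_surjective _ hsurj
  simpa using this


/-! ### three null vectors -/

section three

variable {W : Type} [AddCommGroup W] [Module ℝ W] {B : LinearMap.BilinForm ℝ W}

/-- three lightlike vectors with negative products are linearly independent -/
theorem three_indep (hs : ∀ x y, B x y = B y x) {P Q R : W} (hP : B P P = 0) (hQ : B Q Q = 0)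
    (hR : B R R = 0) (hPQ : B P Q < 0) (hPR : B P R < 0) (hQR : B Q R < 0) {α β γ : ℝ}
    (h : ∀ y, y = P ∨ y = Q ∨ y = R → B (α • P + β • Q + γ • R) y = 0) :
    α = 0 ∧ β = 0 ∧ γ = 0 := by
  have h1 := h P (Or.inl rfl)
  have h2 := h Q (Or.inr (Or.inl rfl))
  have h3 := h R (Or.inr (Or.inr rfl))
  simp only [map_add, map_smul, LinearMap.add_apply, LinearMap.smul_apply, smul_eq_mul] at h1 h2 h3
  rw [hP, hs Q P, hs R P] at h1
  rw [hQ, hs R Q] at h2
  rw [hR] at h3
  have e1 : β * B P Q + γ * B P R = 0 := by linarith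
  have e2 : α * B P Q + γ * B Q R = 0 := by linarith
  have e3 : α * B P R + β * B Q R = 0 := by linarith
  have hγ : γ * (2 * (B P R * B Q R)) = 0 := by
    have : B P Q * (α * B P R + β * B Q R) = 0 := by rw [e3, mul_zero]
    have t1 : B P Q * (α * B P R) = - (γ * B Q R) * B P R := by
      have : α * B P Q = - (γ * B Q R) := by linarith
      linear_combination B P R * this
    have t2 : B P Q * (β * B Q R) = - (γ * B P R) * B Q R := by
      have : β * B P Q = - (γ * B P R) := by linarith
      linear_combination B Q R * this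
    linear_combination t1 + t2 - this
  have hγ0 : γ = 0 := by
    rcases mul_eq_zero.1 hγ with h | h
    · exact h
    · exfalso
      have : 0 < B P R * B Q R := mul_pos_of_neg_of_neg hPR hQR
      linarith
  subst hγ0
  refine ⟨?_, ?_, rfl⟩
  · have : α * B P Q = 0 := by linarith
    rcases mul_eq_zero.1 this with h | h
    · exact h
    · exact absurd h hPQ.ne
  · have : β * B P Q = 0 := by linarith
    rcases mul_eq_zero.1 this with h | h
    · exact h
    · exact absurd h hPQ.ne

/-- expansion of a vector orthogonal to the unit vector `x` -/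
theorem three_expand (hs : ∀ x y, B x y = B y x) (hW : Module.finrank ℝ W = 4)
    {x P Q R : W} (hx : B x x = 1) (hP : B P P = 0) (hQ : B Q Q = 0)
    (hR : B R R = 0) (hPQ : B P Q < 0) (hPR : B P R < 0) (hQR : B Q R < 0)
    (hxP : B x P = 0) (hxQ : B x Q = 0) (hxR : B x R = 0) (z : W) (hz : B z x = 0) :
    ∃ α β γ : ℝ, z = α • P + β • Q + γ • R := by
  have hli : LinearIndependent ℝ ![x, P, Q, R] := by
    rw [Fintype.linearIndependent_iff]
    intro g hg
    simp only [Fin.sum_univ_four, Matrix.cons_val_zero, Matrix.cons_val_one, Matrix.cons_val] at hg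
    have hx0 : B (g 0 • x + g 1 • P + g 2 • Q + g 3 • R) x = 0 := by rw [hg]; simp
    simp only [map_add, map_smul, LinearMap.add_apply, LinearMap.smul_apply, smul_eq_mul] at hx0
    rw [hs P x, hs Q x, hs R x, hxP, hxQ, hxR, hx] at hx0
    have g0 : g 0 = 0 := by linarith
    rw [g0, zero_smul, zero_add] at hg
    obtain ⟨g1, g2, g3⟩ := three_indep hs hP hQ hR hPQ hPR hQR
      (α := g 1) (β := g 2) (γ := g 3) (fun y _ => by rw [hg]; simp)
    intro i
    fin_cases i
    · exact g0
    · exact g1
    · exact g2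
    · exact g3
  have hfd : FiniteDimensional ℝ W := Module.finite_of_finrank_eq_succ (n := 3) (by rw [hW])
  let bs := basisOfLinearIndependentOfCardEqFinrank hli (by rw [hW]; simp)
  have hbs : (bs : Fin 4 → W) = ![x, P, Q, R] :=
    coe_basisOfLinearIndependentOfCardEqFinrank hli _
  have hsum := bs.sum_repr z
  simp only [Fin.sum_univ_four, hbs, Matrix.cons_val_zero, Matrix.cons_val_one,
    Matrix.cons_val] at hsum
  have hz0 : B (bs.repr z 0 • x + bs.repr z 1 • P + bs.repr z 2 • Q + bs.repr z 3 • R) x = 0 := by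
    rw [hsum]; exact hz
  simp only [map_add, map_smul, LinearMap.add_apply, LinearMap.smul_apply, smul_eq_mul] at hz0
  rw [hs P x, hs Q x, hs R x, hxP, hxQ, hxR, hx] at hz0
  have g0 : bs.repr z 0 = 0 := by linarith
  rw [g0, zero_smul, zero_add] at hsum
  exact ⟨_, _, _, hsum.symm⟩

end three

/-! ### elementary consequences of the configuration axioms -/

section cfg

variable {W : Type} [AddCommGroup W] [Module ℝ W] {B : LinearMap.BilinForm ℝ W}

theorem Config.a_a_rev (C : Config B V F D) (d : D) :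
    B (C.a (C.face d)) (C.a (C.face (C.rev d))) = -1 := by
  have h : B (C.a (C.face d) + C.a (C.face (C.rev d)))
      (C.a (C.face d) + C.a (C.face (C.rev d))) = 0 := by
    rw [C.sum_a]
    simp [C.p_null]
  simp only [map_add, LinearMap.add_apply, C.a_unit] at h
  rw [C.symm (C.a (C.face (C.rev d)))] at h
  linarith

theorem Config.b_b_rev (C : Config B V F D) (d : D) :
    B (C.b (C.vert d)) (C.b (C.vert (C.rev d))) = -1 := by
  have h : B (C.b (C.vert d) + C.b (C.vert (C.rev d)))
      (C.b (C.vert d) + C.b (C.vert (C.rev d))) = 0 := by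
    rw [C.sum_b]
    simp [C.p_null]
  simp only [map_add, LinearMap.add_apply, C.b_unit] at h
  rw [C.symm (C.b (C.vert (C.rev d)))] at h
  linarith

theorem Config.a_p_face (C : Config B V F D) (d : D) : B (C.a (C.face d)) (C.p d) = 0 := by
  have h : B (C.a (C.face d)) (C.a (C.face d) + C.a (C.face (C.rev d))) =
      C.ca d * B (C.a (C.face d)) (C.p d) := by
    rw [C.sum_a, map_smul, smul_eq_mul]
  rw [map_add, C.a_unit, C.a_a_rev] at h
  have := C.ca_pos d
  have h2 : C.ca d * B (C.a (C.face d)) (C.p d) = 0 := by linarith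
  rcases mul_eq_zero.1 h2 with h3 | h3
  · exact absurd h3 this.ne'
  · exact h3

theorem Config.b_p_vert (C : Config B V F D) (d : D) : B (C.b (C.vert d)) (C.p d) = 0 := by
  have h : B (C.b (C.vert d)) (C.b (C.vert d) + C.b (C.vert (C.rev d))) =
      C.cb d * B (C.b (C.vert d)) (C.p d) := by
    rw [C.sum_b, map_smul, smul_eq_mul]
  rw [map_add, C.b_unit, C.b_b_rev] at h
  have := C.cb_pos d
  have h2 : C.cb d * B (C.b (C.vert d)) (C.p d) = 0 := by linarith
  rcases mul_eq_zero.1 h2 with h3 | h3
  · exact absurd h3 this.ne'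
  · exact h3

theorem Config.b_p_vert_rev (C : Config B V F D) (d : D) :
    B (C.b (C.vert (C.rev d))) (C.p d) = 0 := by
  have := C.b_p_vert (C.rev d)
  rwa [C.p_rev] at this

theorem Config.a_b_phi (C : Config B V F D) (d : D) :
    B (C.a (C.face d)) (C.b (C.vert (C.rev d))) = 0 := by
  have := C.a_b (C.phi d)
  rwa [C.face_phi, C.vert_phi] at this

theorem Config.p_p_nonpos (C : Config B V F D) (d e : D) : B (C.p d) (C.p e) ≤ 0 := by
  by_cases h1 : e = d
  · rw [h1, C.p_null]
  · by_cases h2 : e = C.rev d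
    · rw [h2, C.p_rev, C.p_null]
    · exact (C.p_neg d e h1 h2).le

/-- two different darts of the same face -/
theorem Config.p_neg_face (C : Config B V F D) {d e : D} (h : C.face d = C.face e) (hne : d ≠ e) :
    B (C.p d) (C.p e) < 0 := by
  refine C.p_neg d e hne.symm ?_
  rintro rfl
  exact C.face_ne d h.symm

/-- a unit vector orthogonal to `x` is not orthogonal to three cusps of a face -/
theorem Config.three_face (C : Config B V F D) {d e g : D} (h1 : C.face d = C.face e)
    (h2 : C.face d = C.face g) (hde : d ≠ e) (hdg : d ≠ g) (heg : e ≠ g) (v : V)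
    (hv : B (C.a (C.face d)) (C.b v) = 0)
    (hd : B (C.b v) (C.p d) = 0) (he : B (C.b v) (C.p e) = 0) (hg : B (C.b v) (C.p g) = 0) :
    False := by
  have hxe : B (C.a (C.face d)) (C.p e) = 0 := by rw [h1]; exact C.a_p_face e
  have hxg : B (C.a (C.face d)) (C.p g) = 0 := by rw [h2]; exact C.a_p_face g
  obtain ⟨α, β, γ, h⟩ := three_expand C.symm C.finrank (C.a_unit (C.face d)) (C.p_null d)
    (C.p_null e) (C.p_null g) (C.p_neg_face h1 hde) (C.p_neg_face h2 hdg)
    (C.p_neg_face (h1.symm.trans h2) heg) (C.a_p_face d) hxe hxg (C.b v)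
    (by rw [C.symm]; exact hv)
  have hb := C.b_unit v
  have hb2 : B (C.b v) (C.b v) = B (C.b v) (α • C.p d + β • C.p e + γ • C.p g) := by rw [← h]
  rw [map_add, map_add, map_smul, map_smul, map_smul, hd, he, hg] at hb2
  simp at hb2
  rw [hb2] at hb
  exact absurd hb (by norm_num)

theorem Config.phi_ne (C : Config B V F D) (d : D) : C.phi d ≠ d := by
  intro h
  have h3 := C.three_le_period d
  have : Function.IsPeriodicPt C.phi 1 d := h
  have h4 := this.minimalPeriod_le (by norm_num)
  omega

theorem Config.phi_phi_ne (C : Config B V F D) (d : D) : C.phi (C.phi d) ≠ d := by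
  intro h
  have h3 := C.three_le_period d
  have : Function.IsPeriodicPt C.phi 2 d := h
  have h4 := this.minimalPeriod_le (by norm_num)
  omega

/-- a face meets a vertex at one dart only -/
theorem Config.dart_unique (C : Config B V F D) {d e : D} (hf : C.face d = C.face e)
    (hv : C.vert d = C.vert e) : d = e := by
  by_contra hne
  have key : ∀ d e : D, C.face d = C.face e → C.vert d = C.vert e → d ≠ e →
      C.phi.symm d = e := by
    intro d e hf hv hne
    by_contra hne2
    refine C.three_face (d := d) (e := e) (g := C.phi.symm d) hf (C.face_phi_symm d).symm hne ?_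
      (fun h => hne2 h.symm) (C.vert d) (C.a_b d) (C.b_p_vert d) ?_ ?_
    · intro h
      apply C.phi_ne d
      rw [Equiv.eq_symm_apply] at h
      exact h
    · rw [hv]; exact C.b_p_vert e
    · have h1 := C.vert_phi (C.phi.symm d)
      rw [Equiv.apply_symm_apply] at h1
      rw [h1]
      exact C.b_p_vert_rev _
  have h1 := key d e hf hv hne
  have h2 := key e d hf.symm hv.symm (Ne.symm hne)
  apply C.phi_phi_ne d
  rw [Equiv.symm_apply_eq] at h1 h2
  rw [← h2, ← h1]

/-- the wall `b (vert d)` is nonpositive, and negative except at the two adjacent cusps -/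
theorem Config.b_p_face (C : Config B V F D) {d e : D} (hf : C.face d = C.face e)
    (h1 : d ≠ e) (h2 : d ≠ C.phi e) : B (C.b (C.vert d)) (C.p e) < 0 := by
  refine lt_of_le_of_ne (C.b_p _ _) ?_
  intro h
  rcases C.b_p_eq _ _ h with h3 | h3
  · exact h1 (C.dart_unique hf h3)
  · apply h2
    refine C.dart_unique (by rw [C.face_phi]; exact hf) ?_
    rw [C.vert_phi]; exact h3


/-- the cone over a face polygon is spanned by its ideal vertices -/
theorem cone_lemma (C : Config B V F D) (f : F) (z : W) (hz : B z (C.a f) = 0)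
    (hb : ∀ d, C.face d = f → B z (C.b (C.vert d)) ≤ 0) :
    ∃ d1 d2 d3 : D, C.face d1 = f ∧ C.face d2 = f ∧ C.face d3 = f ∧
      ∃ α β γ : ℝ, 0 ≤ α ∧ 0 ≤ β ∧ 0 ≤ γ ∧ z = α • C.p d1 + β • C.p d2 + γ • C.p d3 := by
  obtain ⟨d0, rfl⟩ := C.face_surj f
  set n := Function.minimalPeriod C.phi d0 with hn
  have hn3 : 3 ≤ n := C.three_le_period d0
  set e : ℕ → D := fun i => (C.phi)^[i] d0 with he
  have hface : ∀ i, C.face (e i) = C.face d0 := fun i => C.face_iterate d0 i
  have hsucc : ∀ i, e (i + 1) = C.phi (e i) := fun i => Function.iterate_succ_apply' _ _ _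
  have hen : e n = d0 := Function.iterate_minimalPeriod
  have hinj : ∀ i j, i < n → j < n → e i = e j → i = j := by
    intro i j hi hj h
    exact Function.iterate_injOn_Iio_minimalPeriod (Set.mem_Iio.2 hi) (Set.mem_Iio.2 hj) h
  have hff : ∀ i j, C.face (e i) = C.face (e j) := fun i j => (hface i).trans (hface j).symm
  -- negativity of the walls
  have hbneg : ∀ i j, i < n → j < n → i ≠ j → i ≠ j + 1 → (i ≠ 0 ∨ j + 1 ≠ n) →
      B (C.b (C.vert (e i))) (C.p (e j)) < 0 := by
    intro i j hi hj h1 h2 h3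
    refine C.b_p_face (hff i j) (fun h => h1 (hinj i j hi hj h)) ?_
    rw [← hsucc]
    intro h
    rcases Nat.lt_or_ge (j + 1) n with h4 | h4
    · exact h2 (hinj i (j + 1) hi h4 h)
    · have h5 : j + 1 = n := by omega
      rw [h5, hen] at h
      have h6 : e 0 = d0 := rfl
      rw [← h6] at h
      have := hinj i 0 hi (by omega) h
      rcases h3 with h3 | h3
      · exact h3 this
      · exact h3 h5
  have hb0 : ∀ i, B (C.b (C.vert (e i))) (C.p (e i)) = 0 := fun i => C.b_p_vert _
  have hb1 : ∀ i, B (C.b (C.vert (e (i + 1)))) (C.p (e i)) = 0 := by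
    intro i
    rw [hsucc, C.vert_phi]; exact C.b_p_vert_rev _
  have hpneg : ∀ i j, i < n → j < n → i ≠ j → B (C.p (e i)) (C.p (e j)) < 0 :=
    fun i j hi hj h => C.p_neg_face (hff i j) (fun h' => h (hinj i j hi hj h'))
  have hxp : ∀ i, B (C.a (C.face d0)) (C.p (e i)) = 0 := by
    intro i; rw [← hface i]; exact C.a_p_face _
  have hexp : ∀ i, 1 ≤ i → i + 1 < n → ∀ w : W, B w (C.a (C.face d0)) = 0 →
      ∃ α β γ : ℝ, w = α • C.p (e 0) + β • C.p (e i) + γ • C.p (e (i + 1)) := by
    intro i hi1 hi2 w hw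
    exact three_expand C.symm C.finrank (C.a_unit _) (C.p_null _) (C.p_null _) (C.p_null _)
      (hpneg 0 i (by omega) (by omega) (by omega))
      (hpneg 0 (i + 1) (by omega) (by omega) (by omega))
      (hpneg i (i + 1) (by omega) (by omega) (by omega)) (hxp 0) (hxp i) (hxp (i + 1)) w hw
  have hbz : ∀ i, B (C.b (C.vert (e i))) z ≤ 0 := fun i => by
    rw [C.symm]; exact hb _ (hface i)
  -- the first coefficient is always nonnegative
  have hα : ∀ i, 1 ≤ i → i + 1 < n → ∀ α β γ : ℝ,
      z = α • C.p (e 0) + β • C.p (e i) + γ • C.p (e (i + 1)) → 0 ≤ α := by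
    intro i hi1 hi2 α β γ h
    have h1 := hbz (i + 1)
    rw [h] at h1
    simp only [map_add, map_smul, smul_eq_mul] at h1
    rw [hb1 i, hb0 (i + 1), mul_zero, mul_zero, add_zero, add_zero] at h1
    have h2 := hbneg (i + 1) 0 hi2 (by omega) (by omega) (by omega) (Or.inl (by omega))
    by_contra hc
    push Not at hc
    have := mul_pos_of_neg_of_neg hc h2
    linarith
  by_contra hcon
  -- induction along the fan
  have hind : ∀ i, 1 ≤ i → i + 1 < n → ∃ α β γ : ℝ,
      z = α • C.p (e 0) + β • C.p (e i) + γ • C.p (e (i + 1)) ∧ 0 ≤ γ := by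
    intro i hi1
    induction i, hi1 using Nat.le_induction with
    | base =>
      intro hi2
      obtain ⟨α, β, γ, h⟩ := hexp 1 le_rfl hi2 z hz
      refine ⟨α, β, γ, h, ?_⟩
      have h1 := hbz 1
      rw [h] at h1
      simp only [map_add, map_smul, smul_eq_mul] at h1
      rw [hb1 0, hb0 1, mul_zero, mul_zero, zero_add, zero_add] at h1
      have h2 := hbneg 1 (1 + 1) (by omega) hi2 (by omega) (by omega) (Or.inl (by omega))
      by_contra hc
      push Not at hc
      have := mul_pos_of_neg_of_neg hc h2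
      linarith
    | succ i hi1 ih =>
      intro hi2
      obtain ⟨α, β, γ, h, hγ⟩ := ih (by omega)
      have hα' := hα i hi1 (by omega) α β γ h
      have hβ : β < 0 := by
        by_contra hc
        push Not at hc
        exact hcon ⟨e 0, e i, e (i + 1), hface 0, hface i, hface (i + 1), α, β, γ, hα', hc, hγ, h⟩
      obtain ⟨α', β', γ', h'⟩ := hexp (i + 1) (by omega) hi2 z hz
      refine ⟨α', β', γ', h', ?_⟩
      obtain ⟨a', b', c', hP⟩ := hexp i hi1 (by omega) (C.p (e (i + 1 + 1)))
        (by rw [C.symm]; exact hxp _)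
      -- signs
      have ha' : 0 < a' := by
        have h1 := hbneg (i + 1) (i + 1 + 1) (by omega) hi2 (by omega) (by omega)
          (Or.inl (by omega))
        rw [hP] at h1
        simp only [map_add, map_smul, smul_eq_mul] at h1
        rw [hb1 i, hb0 (i + 1), mul_zero, mul_zero, add_zero, add_zero] at h1
        have h2 := hbneg (i + 1) 0 (by omega) (by omega) (by omega) (by omega) (Or.inl (by omega))
        by_contra hc
        push Not at hc
        have := mul_nonneg_of_nonpos_of_nonpos hc h2.le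
        linarith
      have hb' : b' < 0 := by
        have h1 := hb0 (i + 1 + 1)
        rw [hP] at h1
        simp only [map_add, map_smul, smul_eq_mul] at h1
        rw [hb1 (i + 1), mul_zero, add_zero] at h1
        have h2 := hbneg (i + 1 + 1) 0 hi2 (by omega) (by omega) (by omega) (Or.inl (by omega))
        have h3 := hbneg (i + 1 + 1) i hi2 (by omega) (by omega) (by omega) (Or.inl (by omega))
        have h4 := mul_neg_of_pos_of_neg ha' h2
        by_contra hc
        push Not at hc
        have := mul_nonpos_of_nonneg_of_nonpos hc h3.le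
        linarith
      have hdiff : (α' + γ' * a' - α) • C.p (e 0) + (γ' * b' - β) • C.p (e i) +
          (β' + γ' * c' - γ) • C.p (e (i + 1)) = 0 := by
        have : α' • C.p (e 0) + β' • C.p (e (i + 1)) +
            γ' • (a' • C.p (e 0) + b' • C.p (e i) + c' • C.p (e (i + 1))) =
            α • C.p (e 0) + β • C.p (e i) + γ • C.p (e (i + 1)) := by
          rw [← hP, ← h', ← h]
        rw [← sub_eq_zero] at this
        rw [← this]
        module
      have h0 := three_indep C.symm (C.p_null _) (C.p_null _) (C.p_null _)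
        (hpneg 0 i (by omega) (by omega) (by omega))
        (hpneg 0 (i + 1) (by omega) (by omega) (by omega))
        (hpneg i (i + 1) (by omega) (by omega) (by omega))
        (fun y _ => by rw [hdiff]; simp)
      have h1 : γ' * b' = β := by linarith [h0.2.1]
      by_contra hc
      push Not at hc
      have := mul_pos_of_neg_of_neg hc hb'
      linarith
  obtain ⟨i, hi⟩ : ∃ i, i + 2 = n := ⟨n - 2, by omega⟩
  obtain ⟨α, β, γ, h, hγ⟩ := hind i (by omega) (by omega)
  have hα' := hα i (by omega) (by omega) α β γ h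
  apply hcon
  refine ⟨e 0, e i, e (i + 1), hface 0, hface i, hface (i + 1), α, β, γ, hα', ?_, hγ, h⟩
  have h1 := hbz 0
  rw [h] at h1
  simp only [map_add, map_smul, smul_eq_mul] at h1
  have h3 : B (C.b (C.vert (e 0))) (C.p (e (i + 1))) = 0 := by
    have := hb1 (i + 1)
    rw [show i + 1 + 1 = n by omega, hen] at this
    exact this
  rw [hb0 0, h3, mul_zero, mul_zero, zero_add, add_zero] at h1
  have h2 := hbneg 0 i (by omega) (by omega) (by omega) (by omega) (Or.inr (by omega))
  by_contra hc
  push Not at hc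
  have := mul_pos_of_neg_of_neg hc h2
  linarith

/-- nonnegative combinations of cusps have nonpositive products -/
theorem Config.cone_nonpos (C : Config B V F D) {x y : W} {d1 d2 d3 e1 e2 e3 : D}
    {α β γ α' β' γ' : ℝ} (hα : 0 ≤ α) (hβ : 0 ≤ β) (hγ : 0 ≤ γ) (hα' : 0 ≤ α') (hβ' : 0 ≤ β')
    (hγ' : 0 ≤ γ') (hx : x = α • C.p d1 + β • C.p d2 + γ • C.p d3)
    (hy : y = α' • C.p e1 + β' • C.p e2 + γ' • C.p e3) : B x y ≤ 0 := by
  rw [hx, hy]
  simp only [map_add, map_smul, LinearMap.add_apply, LinearMap.smul_apply, smul_eq_mul]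
  have key : ∀ (s t : ℝ) (d e : D), 0 ≤ s → 0 ≤ t → t * (s * B (C.p d) (C.p e)) ≤ 0 := by
    intro s t d e hs ht
    exact mul_nonpos_of_nonneg_of_nonpos ht
      (mul_nonpos_of_nonneg_of_nonpos hs (C.p_p_nonpos d e))
  have k1 := key α α' d1 e1 hα hα'
  have k2 := key β α' d2 e1 hβ hα'
  have k3 := key γ α' d3 e1 hγ hα'
  have k4 := key α β' d1 e2 hα hβ'
  have k5 := key β β' d2 e2 hβ hβ'
  have k6 := key γ β' d3 e2 hγ hβ'
  have k7 := key α γ' d1 e3 hα hγ'
  have k8 := key β γ' d2 e3 hβ hγ'
  have k9 := key γ γ' d3 e3 hγ hγ'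
  linarith

theorem Config.cone_p_nonpos (C : Config B V F D) {x : W} {d1 d2 d3 : D}
    {α β γ : ℝ} (hα : 0 ≤ α) (hβ : 0 ≤ β) (hγ : 0 ≤ γ)
    (hx : x = α • C.p d1 + β • C.p d2 + γ • C.p d3) (e : D) : B x (C.p e) ≤ 0 :=
  C.cone_nonpos hα hβ hγ zero_le_one le_rfl le_rfl hx
    (show C.p e = (1 : ℝ) • C.p e + (0 : ℝ) • C.p e + (0 : ℝ) • C.p e by simp)

/-- a face has two different darts -/
theorem DMap.exists_two (m : DMap V F D) (f : F) : ∃ d, m.face d = f ∧ m.phi d ≠ d := by
  obtain ⟨d, hd⟩ := m.face_surj f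
  refine ⟨d, hd, ?_⟩
  intro h
  have h3 := m.three_le_period d
  have : Function.IsPeriodicPt m.phi 1 d := h
  have h4 := this.minimalPeriod_le (by norm_num)
  omega

theorem ff_le (C : Config B V F D) (f g : F) (h : f ≠ g) : B (C.a f) (C.a g) ≤ -1 := by
  by_contra hc
  push Not at hc
  set x := C.a f with hx
  set y := C.a g with hy
  set γ := B x y with hγ
  have hxx : B x x = 1 := C.a_unit f
  have hyy : B y y = 1 := C.a_unit g
  have hyx : B y x = γ := C.symm y x
  obtain ⟨d1, d2, d3, -, -, -, α, β, δ, hα, hβ, hδ, hz⟩ := cone_lemma C f (y - γ • x)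
    (by rw [map_sub, map_smul, LinearMap.sub_apply, LinearMap.smul_apply, hxx, hyx]; simp)
    (by
      rintro d rfl
      rw [map_sub, map_smul, LinearMap.sub_apply, LinearMap.smul_apply, C.a_b]
      simp only [smul_zero, sub_zero]
      exact C.a_b_nonpos _ _)
  obtain ⟨e1, e2, e3, -, -, -, α', β', δ', hα', hβ', hδ', hz'⟩ := cone_lemma C g (x - γ • y)
    (by rw [map_sub, map_smul, LinearMap.sub_apply, LinearMap.smul_apply, hyy, ← hγ]; simp)
    (by
      rintro d rfl
      rw [map_sub, map_smul, LinearMap.sub_apply, LinearMap.smul_apply, C.a_b]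
      simp only [smul_zero, sub_zero]
      exact C.a_b_nonpos _ _)
  have h1 := C.cone_nonpos hα hβ hδ hα hβ hδ hz hz
  have h2 := C.cone_nonpos hα' hβ' hδ' hα hβ hδ hz' hz
  simp only [map_sub, map_smul, LinearMap.sub_apply, LinearMap.smul_apply, smul_eq_mul, hxx, hyy,
    hyx, ← hγ] at h1 h2
  have hγ2 : 1 ≤ γ ^ 2 := by nlinarith
  have hγ1 : 1 ≤ γ := by nlinarith
  have hγ3 : γ ≤ 1 := by nlinarith
  have hγ4 : γ = 1 := le_antisymm hγ3 hγ1
  rw [hγ4, one_smul] at hz hz'
  have hp : ∀ e : D, B y (C.p e) = B x (C.p e) := by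
    intro e
    have k1 := C.cone_p_nonpos hα hβ hδ hz e
    have k2 := C.cone_p_nonpos hα' hβ' hδ' hz' e
    simp only [map_sub, LinearMap.sub_apply] at k1 k2
    linarith
  obtain ⟨d, hd, hne⟩ := C.exists_two f
  have key : ∀ e, C.face e = f → g = C.face (C.rev e) := by
    rintro e he
    have h0 : B (C.a g) (C.p e) = 0 := by
      rw [← hy, hp e, hx, ← he]; exact C.a_p_face e
    rcases C.a_p_eq _ _ h0 with h5 | h5
    · exact absurd (he.symm.trans h5.symm) h
    · exact h5
  have k1 := key d hd
  have k2 := key (C.phi d) (by rw [C.face_phi]; exact hd)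
  exact hne (C.dsimple _ _ (C.face_phi d) (k2.symm.trans k1))

/-! ### duality -/

/-- the dual map -/
def DMap.dual (m : DMap V F D) : DMap F V D where
  rot := m.rot⁻¹ * m.rev
  rev := m.rev
  vert := m.face
  face := fun d => m.vert (m.rev d)
  rev_rev := m.rev_rev
  rev_ne := m.rev_ne
  vert_surj := m.face_surj
  face_surj := by
    intro v
    obtain ⟨d, hd⟩ := m.vert_surj v
    refine ⟨m.rev d, ?_⟩
    show m.vert (m.rev (m.rev d)) = v
    rw [m.rev_rev]; exact hd
  vert_iff := m.face_iff
  face_iff := by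
    intro d e
    have hrev : m.rev⁻¹ = m.rev := by
      ext x
      rw [Equiv.Perm.inv_eq_iff_eq]
      exact (m.rev_rev x).symm
    have h1 : (m.rot⁻¹ * m.rev)⁻¹ * m.rev = m.rev * m.rot * m.rev⁻¹ := by
      rw [_root_.mul_inv_rev, inv_inv, hrev]
    rw [h1, m.vert_iff, Equiv.Perm.sameCycle_conj]
    rw [hrev]
  conn := by
    intro d e
    obtain ⟨g, hg, hge⟩ := m.conn d e
    refine ⟨g, ?_, hge⟩
    have hle : Subgroup.closure ({m.rot, m.rev} : Set (Equiv.Perm D)) ≤
        Subgroup.closure ({m.rot⁻¹ * m.rev, m.rev} : Set (Equiv.Perm D)) := by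
      rw [Subgroup.closure_le]
      have hr : m.rev ∈ Subgroup.closure ({m.rot⁻¹ * m.rev, m.rev} : Set (Equiv.Perm D)) :=
        Subgroup.subset_closure (by simp)
      have hp : m.rot⁻¹ * m.rev ∈
          Subgroup.closure ({m.rot⁻¹ * m.rev, m.rev} : Set (Equiv.Perm D)) :=
        Subgroup.subset_closure (by simp)
      rintro x (rfl | rfl)
      · have := Subgroup.mul_mem _ hr (Subgroup.inv_mem _ hp)
        have h2 : m.rev * (m.rot⁻¹ * m.rev)⁻¹ = m.rot := by group
        rwa [h2] at this
      · exact hr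
    exact hle hg
  euler := by have := m.euler; omega
  simple := m.dsimple
  dsimple := by
    intro d e h1 h2
    simp only [m.rev_rev] at h2
    exact m.simple d e h2 h1
  vert_ne := m.face_ne
  face_ne := by
    intro d h
    rw [m.rev_rev] at h
    exact m.vert_ne d h.symm
  three_le_vert := m.three_le_face
  three_le_face := by
    intro v
    refine (m.three_le_vert v).trans (le_of_eq ?_)
    refine Nat.card_congr ⟨fun d => ⟨m.rev d.1, ?_⟩, fun d => ⟨m.rev d.1, d.2⟩, ?_, ?_⟩
    · rw [m.rev_rev]; exact d.2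
    · intro d; exact Subtype.ext (m.rev_rev _)
    · intro d; exact Subtype.ext (m.rev_rev _)

/-- the dual configuration -/
def Config.dual (C : Config B V F D) : Config B F V D where
  toDMap := C.toDMap.dual
  symm := C.symm
  finrank := C.finrank
  a := C.b
  b := C.a
  p := C.p
  ca := C.cb
  cb := C.ca
  ca_pos := C.cb_pos
  cb_pos := C.ca_pos
  a_unit := C.b_unit
  b_unit := C.a_unit
  a_b := by
    intro d
    rw [C.symm]
    exact C.a_b_phi d
  a_b_nonpos := fun f v => by rw [C.symm]; exact C.a_b_nonpos v f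
  a_b_eq := by
    intro v f h
    rw [C.symm] at h
    obtain ⟨d, h1, h2⟩ := C.a_b_eq f v h
    refine ⟨C.phi.symm d, ?_, ?_⟩
    · show C.vert (C.rev (C.phi.symm d)) = v
      rw [← C.vert_phi, Equiv.apply_symm_apply, h2]
    · show C.face (C.phi.symm d) = f
      rw [C.face_phi_symm, h1]
  p_rev := C.p_rev
  p_null := C.p_null
  p_neg := C.p_neg
  sum_a := by
    intro d
    show C.b (C.vert (C.rev d)) + C.b (C.vert (C.rev (C.rev d))) = C.cb d • C.p d
    rw [C.rev_rev, add_comm]
    exact C.sum_b d
  sum_b := C.sum_a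
  a_p := C.b_p
  b_p := C.a_p
  a_p_eq := by
    intro v d h
    show v = C.vert (C.rev d) ∨ v = C.vert (C.rev (C.rev d))
    rw [C.rev_rev]
    exact (C.b_p_eq v d h).symm
  b_p_eq := C.a_p_eq

theorem vv_le (C : Config B V F D) (v w : V) (h : v ≠ w) : B (C.b v) (C.b w) ≤ -1 :=
  ff_le C.dual v w h

theorem fv_le (C : Config B V F D) (f : F) (v : V) (h : ∀ d, C.face d = f → C.vert d ≠ v) :
    B (C.a f) (C.b v) ≤ -1 := by
  by_contra hc
  push Not at hc
  set x := C.a f with hx
  set y := C.b v with hy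
  set γ := B x y with hγ
  have hxx : B x x = 1 := C.a_unit f
  have hyy : B y y = 1 := C.b_unit v
  have hyx : B y x = γ := C.symm y x
  have hγ0 : γ < 0 := by
    refine lt_of_le_of_ne (C.a_b_nonpos f v) ?_
    intro h0
    obtain ⟨d, h1, h2⟩ := C.a_b_eq f v h0
    exact h d h1 h2
  obtain ⟨d1, d2, d3, -, -, -, α, β, δ, hα, hβ, hδ, hz⟩ := cone_lemma C f (y - γ • x)
    (by rw [map_sub, map_smul, LinearMap.sub_apply, LinearMap.smul_apply, hxx, hyx]; simp)
    (by
      intro d hd
      rw [map_sub, map_smul, LinearMap.sub_apply, LinearMap.smul_apply]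
      have h1 : B x (C.b (C.vert d)) = 0 := by rw [hx, ← hd]; exact C.a_b d
      rw [h1]
      simp only [smul_zero, sub_zero]
      have h2 := vv_le C v (C.vert d) (h d hd).symm
      linarith)
  have h1 := C.cone_nonpos hα hβ hδ hα hβ hδ hz hz
  simp only [map_sub, map_smul, LinearMap.sub_apply, LinearMap.smul_apply, smul_eq_mul, hxx, hyy,
    hyx, ← hγ] at h1
  nlinarith

end cfg

end ArithPoly
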