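import Mathlib

/-!
# Ideal polygons as sequences of plane vectors

An ideal polygon in the hyperbolic plane is encoded by a sequence `v : ℕ → ℝ × ℝ` with
`v (i + n) = - v i` and `0 < det (v i) (v j)` for `i < j < i + n`.
-/

namespace ArithPoly

/-- the determinant of two plane vectors -/
def dt (x y : ℝ × ℝ) : ℝ := x.1 * y.2 - x.2 * y.1

theorem dt_self (x : ℝ × ℝ) : dt x x = 0 := by simp only [dt]; ring

theorem dt_neg_right (x y : ℝ × ℝ) : dt x (-y) = - dt x y := by
  simp only [dt, Prod.fst_neg, Prod.snd_neg]; ring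

theorem dt_neg_left (x y : ℝ × ℝ) : dt (-x) y = - dt x y := by
  simp only [dt, Prod.fst_neg, Prod.snd_neg]; ring

theorem dt_comm (x y : ℝ × ℝ) : dt x y = - dt y x := by
  simp only [dt]; ring

theorem dt_lin (x y z : ℝ × ℝ) (a b c : ℝ) :
    dt x (c • (a • y - b • z)) = c * (a * dt x y - b * dt x z) := by
  simp only [dt, Prod.smul_fst, Prod.smul_snd, Prod.fst_sub, Prod.snd_sub, smul_eq_mul]; ring

/-- an ideal polygon with `n` vertices -/
structure Pgn (n : ℕ) (v : ℕ → ℝ × ℝ) : Prop where
  anti : ∀ i, v (i + n) = - v i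
  pos : ∀ i j, i < j → j < i + n → 0 < dt (v i) (v j)

/-- the vectors attached to a cyclic sequence of normals -/
noncomputable def vaux (a l : ℕ → ℝ) : ℕ → (ℝ × ℝ) × (ℝ × ℝ)
  | 0 => ((1, 0), (0, l 0))
  | (j + 1) => ((vaux a l j).2,
      (l (j + 1)) • ((a (j + 1) / 2) • (vaux a l j).2 - (1 / l j) • (vaux a l j).1))

/-- the vectors attached to a cyclic sequence of normals -/
noncomputable def vv (a l : ℕ → ℝ) (j : ℕ) : ℝ × ℝ := (vaux a l j).1

theorem vv_succ (a l : ℕ → ℝ) (j : ℕ) : vv a l (j + 1) = (vaux a l j).2 := rfl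

theorem vv_rec (a l : ℕ → ℝ) (j : ℕ) :
    vv a l (j + 2) = (l (j + 1)) • ((a (j + 1) / 2) • vv a l (j + 1) - (1 / l j) • vv a l j) := rfl

theorem dt_vv_one (a l : ℕ → ℝ) (hl : ∀ i, 0 < l i) (j : ℕ) :
    dt (vv a l j) (vv a l (j + 1)) = l j := by
  induction j with
  | zero => simp [vv, vaux, dt]
  | succ j ih =>
    rw [vv_rec, dt_lin, dt_self, dt_comm, ih]
    have := (hl j).ne'
    field_simp
    ring

theorem dt_vv_two (a l : ℕ → ℝ) (hl : ∀ i, 0 < l i) (j : ℕ) :
    2 * dt (vv a l j) (vv a l (j + 2)) = a (j + 1) * l j * l (j + 1) := by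
  rw [vv_rec, dt_lin, dt_self, dt_vv_one a l hl]
  ring

section

variable {E : Type} [AddCommGroup E] [Module ℝ E] (B : LinearMap.BilinForm ℝ E)

/-- In a three dimensional space: the relation between four consecutive normals. -/
theorem rel4 (hsymm : ∀ x y, B x y = B y x) (hE : Module.finrank ℝ E = 3)
    (p q r s : E) (hp : B p p = 1) (hq : B q q = 1) (hr : B r r = 1) (hs : B s s = 1)
    (hpq : B p q = -1) (hqr : B q r = -1) (hrs : B r s = -1) (K L : ℝ) (hK : 0 < K)
    (hL : 0 < L) (hpr : B p r = 1 - K) (hqs : B q s = 1 - L) :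
    r + s = (L / K) • (p + q) + (L / 2) • (q + r) - L • q := by
  have hN : B (p + q) (q + r) = -K := by
    simp only [map_add, LinearMap.add_apply, hpq, hpr, hq, hqr]; ring
  have hN1 : B (p + q) (p + q) = 0 := by
    simp only [map_add, LinearMap.add_apply, hpq, hp, hq, hsymm q p]; ring
  have hN2 : B (q + r) (q + r) = 0 := by
    simp only [map_add, LinearMap.add_apply, hqr, hr, hq, hsymm r q]; ring
  have hf1 : B (p + q) q = 0 := by
    simp only [map_add, LinearMap.add_apply, hpq, hq]; ring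
  have hf2 : B (q + r) q = 0 := by
    simp only [map_add, LinearMap.add_apply, hsymm r q, hqr, hq]; ring
  have hN' : B (q + r) (p + q) = -K := by rw [hsymm]; exact hN
  have hf1' : B q (p + q) = 0 := by rw [hsymm]; exact hf1
  have hf2' : B q (q + r) = 0 := by rw [hsymm]; exact hf2
  -- linear independence
  have hli : LinearIndependent ℝ ![p + q, q + r, q] := by
    rw [Fintype.linearIndependent_iff]
    intro g hg
    rw [Fin.sum_univ_three] at hg
    simp only [Matrix.cons_val_zero, Matrix.cons_val_one,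
      Matrix.cons_val] at hg
    have e1 := congrArg (fun z => B z (q + r)) hg
    have e2 := congrArg (fun z => B z (p + q)) hg
    have e3 := congrArg (fun z => B z q) hg
    simp only [LinearMap.map_add₂, LinearMap.map_smul₂, hN, hN', hN1, hN2, hf1, hf2, hf1', hf2', hq,
      smul_eq_mul, LinearMap.map_zero₂] at e1 e2 e3
    have g0 : g 0 = 0 := by
      have : g 0 * K = 0 := by linarith
      rcases mul_eq_zero.mp this with h | h
      · exact h
      · exact absurd h hK.ne'
    have g1 : g 1 = 0 := by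
      have : g 1 * K = 0 := by linarith
      rcases mul_eq_zero.mp this with h | h
      · exact h
      · exact absurd h hK.ne'
    have g2 : g 2 = 0 := by linarith
    intro i
    fin_cases i
    · exact g0
    · exact g1
    · exact g2
  let b := basisOfLinearIndependentOfCardEqFinrank hli (by simp [hE])
  have hb : ⇑b = ![p + q, q + r, q] := coe_basisOfLinearIndependentOfCardEqFinrank hli _
  have hrep := b.sum_repr (r + s)
  rw [Fin.sum_univ_three, hb] at hrep
  simp only [Matrix.cons_val_zero, Matrix.cons_val_one,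
      Matrix.cons_val] at hrep
  obtain ⟨x, hx⟩ : ∃ x, x = b.repr (r + s) 0 := ⟨_, rfl⟩
  obtain ⟨y, hy⟩ : ∃ y, y = b.repr (r + s) 1 := ⟨_, rfl⟩
  obtain ⟨z, hz⟩ : ∃ z, z = b.repr (r + s) 2 := ⟨_, rfl⟩
  rw [← hx, ← hy, ← hz] at hrep
  have z1 : B (r + s) (q + r) = -L := by
    simp only [map_add, LinearMap.add_apply, hsymm r q, hqr, hr, hsymm s q, hqs, hsymm s r, hrs]
    ring
  have z2 : B (r + s) q = -L := by
    simp only [LinearMap.add_apply, map_add, hsymm r q, hqr, hsymm s q, hqs]
    ring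
  have z3 : B (r + s) (r + s) = 0 := by
    simp only [map_add, LinearMap.add_apply, hr, hs, hrs, hsymm s r]; ring
  rw [← hrep] at z1 z2 z3
  simp only [LinearMap.map_add₂, LinearMap.map_smul₂, map_add, map_smul, LinearMap.add_apply,
    LinearMap.smul_apply, hpq, hpr, hq, hqr, hp, hr, hsymm q p, hsymm r q, hsymm r p,
      smul_eq_mul] at z1 z2 z3
  have ex : x = L / K := by
    rw [eq_div_iff hK.ne']; linarith
  have ez : z = -L := by linarith
  have ey : y = L / 2 := by
    have h1 : x * K = L := by rw [ex]; field_simp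
    have h2 : L * (2 * y - L) = 0 := by
      rw [ez] at z3
      linear_combination (-1 : ℝ) * z3 - 2 * y * h1
    rcases mul_eq_zero.mp h2 with h | h
    · exact absurd h hL.ne'
    · linarith
  rw [← hrep, ex, ey, ez]
  module

/-- a cyclic sequence of normals of an ideal polygon -/
structure FPoly (n : ℕ) (f : ℕ → E) (a l : ℕ → ℝ) : Prop where
  per : ∀ i, f (i + n) = f i
  pera : ∀ i, a (i + n) = a i
  perl : ∀ i, l (i + n) = l i
  unit : ∀ i, B (f i) (f i) = 1
  adj : ∀ i, B (f i) (f (i + 1)) = -1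
  neg : ∀ i j, i < j → j < i + n → B (f i) (f j) ≤ -1
  apos : ∀ i, 0 < a i
  lpos : ∀ i, 0 < l i
  hk : ∀ i, 2 * (1 - B (f i) (f (i + 2))) = a i * a (i + 1) * l i ^ 2

variable {B} {n : ℕ} {f : ℕ → E} {a l : ℕ → ℝ}

theorem FPoly.step (h : FPoly B n f a l) (hsymm : ∀ x y, B x y = B y x)
    (hE : Module.finrank ℝ E = 3) (j : ℕ) :
    f (j + 2) + f (j + 3) = (a (j + 2) * l (j + 1) ^ 2 / (a j * l j ^ 2)) • (f j + f (j + 1))
      + (a (j + 1) * a (j + 2) * l (j + 1) ^ 2 / 4) • (f (j + 1) + f (j + 2))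
      - (a (j + 1) * a (j + 2) * l (j + 1) ^ 2 / 2) • f (j + 1) := by
  have ha0 := h.apos j
  have ha1 := h.apos (j + 1)
  have ha2 := h.apos (j + 2)
  have hl0 := h.lpos j
  have hl1 := h.lpos (j + 1)
  have h1 := h.hk j
  have h2 := h.hk (j + 1)
  have := rel4 B hsymm hE (f j) (f (j + 1)) (f (j + 2)) (f (j + 3)) (h.unit _) (h.unit _)
    (h.unit _) (h.unit _) (h.adj _) (h.adj _) (h.adj _) (a j * a (j + 1) * l j ^ 2 / 2)
    (a (j + 1) * a (j + 2) * l (j + 1) ^ 2 / 2) (by positivity) (by positivity)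
    (by linarith) (by linarith)
  rw [this]
  congr 1
  congr 1
  · congr 1
    field_simp
  · congr 1
    ring

theorem FPoly.quad (h : FPoly B n f a l) (hsymm : ∀ x y, B x y = B y x)
    (hE : Module.finrank ℝ E = 3) (X : E) (D : ℕ → ℝ)
    (hD : ∀ j, D (j + 2) = l (j + 1) * (a (j + 1) / 2 * D (j + 1) - 1 / l j * D j)) (b : ℕ)
    (h0 : -2 * B X (f b + f (b + 1)) = a b * D b ^ 2)
    (h1 : -2 * B X (f (b + 1) + f (b + 2)) = a (b + 1) * D (b + 1) ^ 2)
    (h2 : - B X (f (b + 1)) * l b = D b * D (b + 1)) (m : ℕ) :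
    -2 * B X (f (b + m) + f (b + m + 1)) = a (b + m) * D (b + m) ^ 2 ∧
    -2 * B X (f (b + m + 1) + f (b + m + 2)) = a (b + m + 1) * D (b + m + 1) ^ 2 ∧
    - B X (f (b + m + 1)) * l (b + m) = D (b + m) * D (b + m + 1) := by
  induction m with
  | zero => exact ⟨h0, h1, h2⟩
  | succ m ih =>
    obtain ⟨i0, i1, i2⟩ := ih
    rw [show b + (m + 1) = b + m + 1 by ring]
    generalize b + m = j at *
    have ha0 := h.apos j
    have ha1 := h.apos (j + 1)
    have ha2 := h.apos (j + 2)
    have hl0 := h.lpos j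
    have hl1 := h.lpos (j + 1)
    have hDj := hD j
    have e3 := h.step hsymm hE j
    have hf : B X (f (j + 1)) = - (D j * D (j + 1) / l j) := by
      rw [← i2]; field_simp
    have hf2 : B X (f (j + 2)) = - (a (j + 1) * D (j + 1) ^ 2 / 2) + D j * D (j + 1) / l j := by
      rw [map_add, hf] at i1
      linarith
    have e4 := congrArg (fun z => B X z) e3
    simp only [map_add, map_sub, map_smul, smul_eq_mul] at e4
    refine ⟨i1, ?_, ?_⟩
    · rw [show j + 1 + 1 = j + 2 by ring, show j + 1 + 2 = j + 3 by ring, map_add, e4, hDj, hf, hf2]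
      have h3 : B X (f j) = - (a j * D j ^ 2 / 2) + D j * D (j + 1) / l j := by
        rw [map_add, hf] at i0
        linarith
      rw [h3]
      field_simp
      ring
    · rw [show j + 1 + 1 = j + 2 by ring, hf2, hDj]
      field_simp
      ring

theorem FPoly.quad' (h : FPoly B n f a l) (hsymm : ∀ x y, B x y = B y x)
    (hE : Module.finrank ℝ E = 3) (b m : ℕ) :
    -2 * B (f b + f (b + 1)) (f (b + m) + f (b + m + 1)) =
      a b * a (b + m) * dt (vv a l b) (vv a l (b + m)) ^ 2 ∧
    - B (f b + f (b + 1)) (f (b + m + 1)) * l (b + m) =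
      a b * (dt (vv a l b) (vv a l (b + m)) * dt (vv a l b) (vv a l (b + m + 1))) := by
  have ha0 := h.apos b
  have ha1 := h.apos (b + 1)
  have hl0 := h.lpos b
  have key := h.quad hsymm hE ((1 / a b) • (f b + f (b + 1))) (fun j => dt (vv a l b) (vv a l j))
    (fun j => by rw [vv_rec, dt_lin]) b ?_ ?_ ?_ m
  · obtain ⟨k1, -, k3⟩ := key
    simp only [LinearMap.map_smul₂, smul_eq_mul] at k1 k3
    constructor
    · rw [mul_assoc, ← k1]; field_simp
    · rw [← k3]; field_simp
  · simp only [LinearMap.map_smul₂, smul_eq_mul, dt_self, map_add, LinearMap.add_apply, h.unit,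
      h.adj, hsymm (f (b + 1)) (f b)]
    ring
  · simp only [LinearMap.map_smul₂, smul_eq_mul, map_add, LinearMap.add_apply, h.unit,
      h.adj, hsymm (f (b + 1)) (f b), dt_vv_one a l h.lpos]
    have h2 := h.hk b
    field_simp
    linarith
  · simp only [LinearMap.map_smul₂, smul_eq_mul, dt_self, map_add, LinearMap.add_apply, h.unit,
      h.adj, hsymm (f (b + 1)) (f b)]
    ring

theorem FPoly.pgn (h : FPoly B n f a l) (hn : 3 ≤ n) (hsymm : ∀ x y, B x y = B y x)
    (hE : Module.finrank ℝ E = 3) : Pgn n (vv a l) := by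
  have hpos : ∀ b m, m + 1 < n → 0 < dt (vv a l b) (vv a l (b + m + 1)) := by
    intro b m
    induction m with
    | zero => intro _; rw [add_zero, dt_vv_one a l h.lpos]; exact h.lpos b
    | succ m ih =>
      intro hm
      have h1 := ih (by omega)
      have h2 := (h.quad' hsymm hE b (m + 1)).2
      have h3 := h.neg b (b + (m + 1) + 1) (by omega) (by omega)
      have h4 := h.neg (b + 1) (b + (m + 1) + 1) (by omega) (by omega)
      have h5 : 0 < - B (f b + f (b + 1)) (f (b + (m + 1) + 1)) * l (b + (m + 1)) := by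
        rw [LinearMap.map_add₂]
        exact mul_pos (by linarith) (h.lpos _)
      rw [h2, show b + (m + 1) = b + m + 1 by ring] at h5
      have h6 := (mul_pos_iff_of_pos_left (h.apos b)).1 h5
      have h7 := (mul_pos_iff_of_pos_left h1).1 h6
      rw [show b + (m + 1) = b + m + 1 by ring]
      exact h7
  have hzero : ∀ b, dt (vv a l b) (vv a l (b + n)) = 0 := by
    intro b
    have h1 := (h.quad' hsymm hE b n).1
    have h2 : B (f b + f (b + 1)) (f (b + n) + f (b + n + 1)) = 0 := by
      rw [h.per, show b + n + 1 = (b + 1) + n by ring, h.per]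
      simp only [map_add, LinearMap.add_apply, h.unit, h.adj, hsymm (f (b + 1)) (f b)]
      ring
    rw [h2, mul_zero, h.pera] at h1
    have h3 : 0 < a b * a b := mul_pos (h.apos b) (h.apos b)
    have h4 : dt (vv a l b) (vv a l (b + n)) ^ 2 = 0 := by
      rcases mul_eq_zero.1 h1.symm with h5 | h5
      · exact absurd h5 h3.ne'
      · exact h5
    exact pow_eq_zero_iff (two_ne_zero) |>.1 h4
  obtain ⟨m, rfl⟩ : ∃ m, n = m + 1 := ⟨n - 1, by omega⟩
  have hlast : ∀ b, dt (vv a l b) (vv a l (b + m)) = l (b + m) := by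
    intro b
    have h1 := (h.quad' hsymm hE b m).1
    have h2 := (h.quad' hsymm hE (b + m) 1).1
    have h3 : f (b + m + 1) = f b := by rw [add_assoc, h.per]
    have h4 : f (b + m + 1 + 1) = f (b + 1) := by
      rw [show b + m + 1 + 1 = (b + 1) + (m + 1) by ring, h.per]
    have h5 : a (b + m + 1) = a b := by rw [add_assoc, h.pera]
    rw [h3] at h1
    rw [h4, h3, h5, dt_vv_one a l h.lpos, hsymm] at h2
    rw [h1] at h2
    have h6 : 0 < a b * a (b + m) := mul_pos (h.apos _) (h.apos _)
    have h7 : dt (vv a l b) (vv a l (b + m)) ^ 2 = l (b + m) ^ 2 := by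
      have : (a b * a (b + m)) * (dt (vv a l b) (vv a l (b + m)) ^ 2 - l (b + m) ^ 2) = 0 := by
        linear_combination h2
      rcases mul_eq_zero.1 this with h8 | h8
      · exact absurd h8 h6.ne'
      · linarith
    have h8 := hpos b (m - 1) (by omega)
    rw [show b + (m - 1) + 1 = b + m by omega] at h8
    exact (pow_left_inj₀ h8.le (h.lpos _).le two_ne_zero).1 h7
  refine ⟨fun b => ?_, fun i j hij hj => ?_⟩
  · have h1 := hzero b
    have h2 := hlast b
    have h3 := dt_vv_one a l h.lpos (b + m)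
    rw [show b + (m + 1) = b + m + 1 by ring] at h1 ⊢
    have hl := h.lpos (b + m)
    generalize vv a l b = x at *
    generalize vv a l (b + m) = y at *
    generalize vv a l (b + m + 1) = z at *
    generalize l (b + m) = c at *
    simp only [dt] at h1 h2 h3
    ext
    · simp only [Prod.fst_neg]
      have : c * (z.1 + x.1) = 0 := by
        linear_combination y.1 * h1 - z.1 * h2 - x.1 * h3
      rcases mul_eq_zero.1 this with h4 | h4
      · exact absurd h4 hl.ne'
      · linarith
    · simp only [Prod.snd_neg]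
      have : c * (z.2 + x.2) = 0 := by
        linear_combination y.2 * h1 - z.2 * h2 - x.2 * h3
      rcases mul_eq_zero.1 this with h4 | h4
      · exact absurd h4 hl.ne'
      · linarith
  · have := hpos i (j - i - 1) (by omega)
    rwa [show i + (j - i - 1) + 1 = j by omega] at this

end

/-- square root of the product of the two ends of a side -/
def lam (v : ℕ → ℝ × ℝ) (i : ℕ) : ℝ := dt (v i) (v (i + 1))

/-- width at the vertex `v (i + 1)` -/
noncomputable def wd (v : ℕ → ℝ × ℝ) (i : ℕ) : ℝ :=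
  2 * dt (v i) (v (i + 2)) / (lam v i * lam v (i + 1))

theorem sum_shift {M : Type} [AddCommGroup M] (g : ℕ → M) (n : ℕ) (hg : ∀ i, g (i + n) = g i)
    (r : ℕ) : ∑ i ∈ Finset.range n, g (i + r) = ∑ i ∈ Finset.range n, g i := by
  induction r with
  | zero => simp
  | succ r ih =>
    rw [← ih]
    have h1 := Finset.sum_range_succ (fun i => g (i + r)) n
    have h2 := Finset.sum_range_succ' (fun i => g (i + r)) n
    simp only [zero_add] at h2
    rw [h1, add_comm n r, hg] at h2
    have h3 := add_right_cancel h2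
    rw [h3]
    exact Finset.sum_congr rfl (fun i _ => by rw [show i + (r + 1) = i + 1 + r by ring])

theorem prod_shift (g : ℕ → ℝ) (n : ℕ) (hg : ∀ i, g (i + n) = g i) (hpos : ∀ i, g i ≠ 0)
    (r : ℕ) : ∏ i ∈ Finset.range n, g (i + r) = ∏ i ∈ Finset.range n, g i := by
  induction r with
  | zero => simp
  | succ r ih =>
    rw [← ih]
    have h1 := Finset.prod_range_succ (fun i => g (i + r)) n
    have h2 := Finset.prod_range_succ' (fun i => g (i + r)) n
    simp only [zero_add] at h2
    rw [h1, add_comm n r, hg] at h2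
    have h3 := mul_right_cancel₀ (hpos r) h2
    rw [h3]
    exact Finset.prod_congr rfl (fun i _ => by rw [show i + (r + 1) = i + 1 + r by ring])

namespace Pgn

variable {n : ℕ} {v : ℕ → ℝ × ℝ}

theorem shift (h : Pgn n v) (r : ℕ) : Pgn n (fun i => v (i + r)) where
  anti i := by rw [show i + n + r = i + r + n by ring, h.anti]
  pos i j hij hj := h.pos _ _ (by omega) (by omega)

theorem lam_pos (h : Pgn n v) (hn : 2 ≤ n) (i : ℕ) : 0 < lam v i := h.pos _ _ (by omega) (by omega)

theorem lam_per (h : Pgn n v) (i : ℕ) : lam v (i + n) = lam v i := by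
  simp only [lam]
  rw [h.anti, show i + n + 1 = i + 1 + n by ring, h.anti, dt_neg_left, dt_neg_right, neg_neg]

theorem wd_per (h : Pgn n v) (i : ℕ) : wd v (i + n) = wd v i := by
  simp only [wd]
  rw [h.lam_per, show i + n + 1 = i + 1 + n by ring, h.lam_per, h.anti,
    show i + n + 2 = i + 2 + n by ring, h.anti, dt_neg_left, dt_neg_right, neg_neg]

theorem wd_pos (h : Pgn n v) (hn : 3 ≤ n) (i : ℕ) : 0 < wd v i :=
  div_pos (mul_pos two_pos (h.pos _ _ (by omega) (by omega)))
    (mul_pos (h.lam_pos (by omega) _) (h.lam_pos (by omega) _))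

theorem two_dt (h : Pgn n v) (hn : 2 ≤ n) (i : ℕ) :
    2 * dt (v i) (v (i + 2)) = wd v i * lam v i * lam v (i + 1) := by
  have h1 := h.lam_pos hn i
  have h2 := h.lam_pos hn (i + 1)
  rw [wd]
  field_simp

/-- existence of an ear -/
theorem exists_ear (h : Pgn n v) (hn : 2 ≤ n) :
    ∃ i, wd v i < 2 / lam v i + 2 / lam v (i + 1) := by
  by_contra hcon
  push Not at hcon
  have key : ∀ j, 0 ≤ dt (v 0) (v j) ∧ dt (v 0) (v j) < dt (v 0) (v (j + 1)) := by
    intro j
    induction j with
    | zero =>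
      rw [dt_self]
      exact ⟨le_rfl, h.pos 0 1 (by omega) (by omega)⟩
    | succ j ih =>
      obtain ⟨h1, h2⟩ := ih
      refine ⟨by linarith, ?_⟩
      have h3 := h.lam_pos hn j
      have h4 := h.lam_pos hn (j + 1)
      have h5 := h.two_dt hn j
      have h6 : 2 * (lam v j + lam v (j + 1)) ≤ 2 * dt (v j) (v (j + 2)) := by
        rw [h5]
        have := mul_le_mul_of_nonneg_right (hcon j) (mul_pos h3 h4).le
        calc 2 * (lam v j + lam v (j + 1))
            = (2 / lam v j + 2 / lam v (j + 1)) * (lam v j * lam v (j + 1)) := by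
              field_simp; ring
          _ ≤ wd v j * (lam v j * lam v (j + 1)) := this
          _ = _ := by ring
      have h7 : dt (v j) (v (j + 2)) * dt (v 0) (v (j + 1)) =
          lam v (j + 1) * dt (v 0) (v j) + lam v j * dt (v 0) (v (j + 2)) := by
        simp only [lam, dt]; ring
      rw [show j + 1 + 1 = j + 2 by ring]
      by_contra h8
      push Not at h8
      have h9 : lam v j * dt (v 0) (v (j + 2)) ≤ lam v j * dt (v 0) (v (j + 1)) :=
        mul_le_mul_of_nonneg_left h8 h3.le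
      have h10 : lam v (j + 1) * dt (v 0) (v j) < lam v (j + 1) * dt (v 0) (v (j + 1)) :=
        mul_lt_mul_of_pos_left h2 h4
      have h11 : (lam v j + lam v (j + 1)) * dt (v 0) (v (j + 1)) ≤
          dt (v j) (v (j + 2)) * dt (v 0) (v (j + 1)) :=
        mul_le_mul_of_nonneg_right (by linarith) (by linarith)
      nlinarith
  have h1 := key (n - 1)
  rw [show n - 1 + 1 = 0 + n by omega, h.anti, dt_neg_right, dt_self] at h1
  linarith [h1.1, h1.2]

end Pgn

/-- the subsequence omitting the indices `2 + q (m + 1)` -/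
def phi (m i : ℕ) : ℕ := i + (i + m - 2) / m

theorem phi_add {m : ℕ} (hm : 2 ≤ m) (i : ℕ) : phi m (i + m) = phi m i + (m + 1) := by
  simp only [phi]
  rw [show i + m + m - 2 = (i + m - 2) + m by omega, Nat.add_div_right _ (by omega)]
  omega

theorem phi_zero {m : ℕ} (hm : 2 ≤ m) : phi m 0 = 0 := by
  simp only [phi]
  rw [Nat.div_eq_of_lt (by omega)]

theorem phi_one {m : ℕ} (hm : 2 ≤ m) : phi m 1 = 1 := by
  simp only [phi]
  rw [Nat.div_eq_of_lt (by omega)]

theorem phi_mid {m : ℕ} (hm : 2 ≤ m) (i : ℕ) (h2 : 2 ≤ i) (hi : i ≤ m + 1) : phi m i = i + 1 := by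
  simp only [phi]
  rw [show i + m - 2 = (i - 2) + m by omega, Nat.add_div_right _ (by omega),
    Nat.div_eq_of_lt (by omega)]

theorem phi_lt {m : ℕ} (i : ℕ) : phi m i < phi m (i + 1) := by
  simp only [phi]
  have : (i + m - 2) / m ≤ (i + 1 + m - 2) / m := Nat.div_le_div_right (by omega)
  omega

theorem phi_strictMono (m : ℕ) : StrictMono (phi m) := strictMono_nat_of_lt_succ phi_lt

namespace Pgn

variable {m : ℕ} {v : ℕ → ℝ × ℝ}

theorem del (h : Pgn (m + 1) v) (hm : 2 ≤ m) : Pgn m (v ∘ phi m) where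
  anti i := by
    simp only [Function.comp]
    rw [phi_add hm, h.anti]
  pos i j hij hj := by
    simp only [Function.comp]
    refine h.pos _ _ (phi_strictMono m hij) ?_
    rw [← phi_add hm]
    exact phi_strictMono m hj

theorem lam_del_zero (hm : 2 ≤ m) : lam (v ∘ phi m) 0 = lam v 0 := by
  simp only [lam, Function.comp, zero_add, phi_zero hm, phi_one hm]

theorem lam_del_one (h : Pgn (m + 1) v) (hm : 2 ≤ m) :
    lam (v ∘ phi m) 1 = wd v 1 * lam v 1 * lam v 2 / 2 := by
  have := h.two_dt (by omega) 1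
  simp only [lam, Function.comp] at *
  rw [phi_one hm, phi_mid hm (1 + 1) (by omega) (by omega)]
  norm_num at *
  linarith

theorem lam_del_mid (hm : 2 ≤ m) (i : ℕ) (h2 : 2 ≤ i) (hi : i ≤ m) :
    lam (v ∘ phi m) i = lam v (i + 1) := by
  simp only [lam, Function.comp]
  rw [phi_mid hm i h2 (by omega), phi_mid hm (i + 1) (by omega) (by omega)]

theorem wd_del_mid (hm : 2 ≤ m) (i : ℕ) (h2 : 2 ≤ i) (hi : i < m) :
    wd (v ∘ phi m) i = wd v (i + 1) := by
  simp only [wd]
  rw [lam_del_mid hm i h2 (by omega), lam_del_mid hm (i + 1) (by omega) (by omega)]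
  simp only [Function.comp]
  rw [phi_mid hm i h2 (by omega), phi_mid hm (i + 2) (by omega) (by omega)]

theorem wd_del_zero (h : Pgn (m + 1) v) (hm : 2 ≤ m) :
    wd (v ∘ phi m) 0 = wd v 0 - 4 / (wd v 1 * lam v 1 ^ 2) := by
  have l0 := h.lam_pos (by omega) 0
  have l1 := h.lam_pos (by omega) 1
  have l2 := h.lam_pos (by omega) 2
  have w1 := h.wd_pos (by omega) 1
  have t0 := h.two_dt (by omega) 0
  have t1 := h.two_dt (by omega) 1
  have e : dt (v 1) (v 3) * dt (v 0) (v 2) =
      lam v 2 * lam v 0 + lam v 1 * dt (v 0) (v 3) := by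
    simp only [lam, dt]; ring
  have e2 : wd (v ∘ phi m) 0 =
      2 * dt (v 0) (v 3) / (lam v 0 * (wd v 1 * lam v 1 * lam v 2 / 2)) := by
    rw [wd, lam_del_zero hm, zero_add, lam_del_one h hm]
    simp only [Function.comp, zero_add]
    rw [phi_zero hm, phi_mid hm 2 le_rfl (by omega)]
  simp only [zero_add] at t0
  norm_num at t1
  have d13 : dt (v 1) (v 3) = wd v 1 * lam v 1 * lam v 2 / 2 := by linarith
  have d02 : dt (v 0) (v 2) = wd v 0 * lam v 0 * lam v 1 / 2 := by linarith
  rw [d13, d02] at e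
  have d03 : dt (v 0) (v 3) =
      (wd v 1 * lam v 1 * lam v 2 / 2 * (wd v 0 * lam v 0 * lam v 1 / 2) - lam v 2 * lam v 0)
        / lam v 1 := by
    rw [eq_div_iff l1.ne']; linarith
  rw [e2, d03]
  field_simp
  ring

theorem wd_del_one (h : Pgn (m + 1) v) (hm : 2 ≤ m) :
    wd (v ∘ phi m) 1 = wd v 2 - 4 / (wd v 1 * lam v 2 ^ 2) := by
  have l1 := h.lam_pos (by omega) 1
  have l2 := h.lam_pos (by omega) 2
  have l3 := h.lam_pos (by omega) 3
  have w1 := h.wd_pos (by omega) 1
  have t1 := h.two_dt (by omega) 1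
  have t2 := h.two_dt (by omega) 2
  have e : dt (v 1) (v 3) * dt (v 2) (v 4) =
      lam v 2 * dt (v 1) (v 4) + lam v 1 * lam v 3 := by
    simp only [lam, dt]; ring
  have e2 : wd (v ∘ phi m) 1 =
      2 * dt (v 1) (v 4) / ((wd v 1 * lam v 1 * lam v 2 / 2) * lam v 3) := by
    rw [wd, lam_del_one h hm, lam_del_mid hm (1 + 1) (by omega) (by omega)]
    simp only [Function.comp]
    rw [phi_one hm, phi_mid hm (1 + 2) (by omega) (by omega)]
  norm_num at t1 t2
  have d13 : dt (v 1) (v 3) = wd v 1 * lam v 1 * lam v 2 / 2 := by linarith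
  have d24 : dt (v 2) (v 4) = wd v 2 * lam v 2 * lam v 3 / 2 := by linarith
  rw [d13, d24] at e
  have d14 : dt (v 1) (v 4) =
      (wd v 1 * lam v 1 * lam v 2 / 2 * (wd v 2 * lam v 2 * lam v 3 / 2) - lam v 1 * lam v 3)
        / lam v 2 := by
    rw [eq_div_iff l2.ne']; linarith
  rw [e2, d14]
  field_simp
  ring

end Pgn

theorem forall_of_lt {Q : ℕ → Prop} (m : ℕ) (hm : 0 < m) (h : ∀ i < m, Q i)
    (hs : ∀ i, Q i → Q (i + m)) (i : ℕ) : Q i := by
  induction i using Nat.strong_induction_on with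
  | _ i ih =>
    by_cases hi : i < m
    · exact h i hi
    · have := hs _ (ih (i - m) (by omega))
      rwa [show i - m + m = i by omega] at this

theorem lam_shift (v : ℕ → ℝ × ℝ) (r i : ℕ) : lam (fun i => v (i + r)) i = lam v (i + r) := by
  simp only [lam]
  rw [show i + 1 + r = i + r + 1 by ring]

theorem wd_shift (v : ℕ → ℝ × ℝ) (r i : ℕ) : wd (fun i => v (i + r)) i = wd v (i + r) := by
  simp only [wd, lam_shift]
  rw [show i + 1 + r = i + r + 1 by ring, show i + 2 + r = i + r + 2 by ring]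

end ArithPoly
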